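import Pool.Agent.Lib.MP_653fdd_gt.Plane

set_option autoImplicit false

/-! Lengths of arcs of a convex curve cut out by sectors. -/

open MeasureTheory Set Metric
open scoped ENNReal NNReal Topology Pointwise

namespace Pool.MP_653fdd_gt.Lib

/-- the closed sector spanned by `U`, `W` (for `0 < cr U W`) -/
def sec (U W : P) : Set P := {y | 0 ≤ cr y W ∧ 0 ≤ cr U y}

/-- a convex body with the origin in its interior -/
structure Body (K : Set P) : Prop where
  conv : Convex ℝ K
  comp : IsCompact K
  zero : (0 : P) ∈ interior K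

namespace Body

variable {K : Set P} (hB : Body K)
include hB

lemma nhds : K ∈ 𝓝 (0 : P) := mem_interior_iff_mem_nhds.1 hB.zero

lemma abs : Absorbent ℝ K := absorbent_nhds_zero hB.nhds

lemma bdd : Bornology.IsVonNBounded ℝ K := NormedSpace.isVonNBounded_iff (𝕜 := ℝ) |>.2 hB.comp.isBounded

lemma int : (interior K).Nonempty := ⟨0, hB.zero⟩

lemma N_pos {x : P} (hx : x ≠ 0) : 0 < gauge K x := (gauge_pos hB.abs hB.bdd).2 hx

lemma N_le_one {x : P} : gauge K x ≤ 1 ↔ x ∈ K := by
  rw [gauge_le_one_iff_mem_closure hB.conv hB.nhds, hB.comp.isClosed.closure_eq]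

lemma N_eq_one {x : P} : gauge K x = 1 ↔ x ∈ frontier K :=
  gauge_eq_one_iff_mem_frontier hB.conv hB.nhds

omit hB in
lemma N_smul {a : ℝ} (ha : 0 ≤ a) (x : P) : gauge K (a • x) = a * gauge K x := by
  rw [gauge_smul_of_nonneg ha, smul_eq_mul]

lemma N_add (x y : P) : gauge K (x + y) ≤ gauge K x + gauge K y :=
  gauge_add_le hB.conv hB.abs x y

lemma N_cont : Continuous (gauge K) := continuous_gauge hB.conv hB.nhds

/-- chord below arc -/
theorem arc_lower {U W : P} (hD : 0 < cr U W) :
    edist ((gauge K U)⁻¹ • U) ((gauge K W)⁻¹ • W) ≤ μH[1] (frontier K ∩ sec U W) := by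
  have hU : U ≠ 0 := by rintro rfl; simp [cr] at hD
  have hW : W ≠ 0 := by rintro rfl; simp [cr] at hD
  have pU := hB.N_pos hU
  have pW := hB.N_pos hW
  set w : ℝ → P := fun t => ((1 - t) * (gauge K U)⁻¹) • U + (t * (gauge K W)⁻¹) • W with hw
  have hwc : Continuous w := by rw [hw]; fun_prop
  have hw0 : ∀ t ∈ Icc (0 : ℝ) 1, w t ≠ 0 := by
    intro t ht h
    obtain ⟨h1, h2⟩ := li_of_cr hD.ne' _ _ h
    have h3 : 1 - t = 0 := (mul_eq_zero.1 h1).resolve_right (inv_ne_zero pU.ne')
    have h4 : t = 0 := (mul_eq_zero.1 h2).resolve_right (inv_ne_zero pW.ne')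
    linarith
  set γ : ℝ → P := fun t => (gauge K (w t))⁻¹ • w t with hγ
  have hγc : ContinuousOn γ (Icc 0 1) := by
    have h1 : ContinuousOn (fun t : ℝ => (gauge K (w t))⁻¹) (Icc 0 1) := by
      apply ContinuousOn.inv₀ (hB.N_cont.comp hwc).continuousOn
      intro t ht
      exact (hB.N_pos (hw0 t ht)).ne'
    exact h1.smul hwc.continuousOn
  have hγ0 : γ 0 = (gauge K U)⁻¹ • U := by
    have : w 0 = (gauge K U)⁻¹ • U := by rw [hw]; simp
    rw [hγ]
    simp only
    rw [this, N_smul (inv_nonneg.2 pU.le), inv_mul_cancel₀ pU.ne', inv_one, one_smul]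
  have hγ1 : γ 1 = (gauge K W)⁻¹ • W := by
    have : w 1 = (gauge K W)⁻¹ • W := by rw [hw]; simp
    rw [hγ]
    simp only
    rw [this, N_smul (inv_nonneg.2 pW.le), inv_mul_cancel₀ pW.ne', inv_one, one_smul]
  rw [← hγ0, ← hγ1]
  apply haus_ge_of_path γ hγc
  intro t ht
  have hp := hB.N_pos (hw0 t ht)
  refine ⟨?_, ?_, ?_⟩
  · rw [← hB.N_eq_one, hγ]
    simp only
    rw [N_smul (inv_nonneg.2 hp.le), inv_mul_cancel₀ hp.ne']
  · rw [hγ]
    simp only [hw]
    rw [cr_smul_left, cr_add_left, cr_smul_left, cr_smul_left, cr_self, mul_zero, add_zero]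
    have : 0 ≤ 1 - t := by linarith [ht.2]
    positivity
  · rw [hγ]
    simp only [hw]
    rw [cr_smul_right, cr_add_right, cr_smul_right, cr_smul_right, cr_self, mul_zero, zero_add]
    have : 0 ≤ t := ht.1
    positivity

end Body

lemma on_seg {U W : P} {a a' p q s t : ℝ} (ha : 0 < a) (hV : a * p + a' * q = 1)
    (hz : a * s + a' * t = 1) (ht : 0 ≤ t) (htq : t ≤ q) :
    s • U + t • W ∈ segment ℝ (a⁻¹ • U) (p • U + q • W) := by
  rcases eq_or_lt_of_le (ht.trans htq) with h | h
  · have ht0 : t = 0 := le_antisymm (by rw [h]; exact htq) ht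
    have hs : s = a⁻¹ := by
      rw [ht0, mul_zero, add_zero] at hz
      field_simp; linarith
    rw [ht0, hs, zero_smul, add_zero]
    exact left_mem_segment _ _ _
  · refine ⟨1 - t / q, t / q, ?_, by positivity, by ring, ?_⟩
    · rw [sub_nonneg, div_le_one h]; exact htq
    · have e1 : s = (1 - t / q) * a⁻¹ + t / q * p := by
        field_simp
        nlinarith
      have e2 : t = t / q * q := by field_simp
      nth_rewrite 3 [e2]
      rw [e1]
      module

namespace Body

variable {K : Set P} (hB : Body K)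
include hB

/-- arc below outer path -/
theorem arc_upper {U W : P} {a b a' b' : ℝ} (hD : 0 < cr U W) (ha : a = gauge K U)
    (hb : b = gauge K W) (hab : a' ≤ b) (hba : b' ≤ a) (hdet : 0 < a * b - a' * b')
    (hf : ∀ s t : ℝ, 0 ≤ s → 0 ≤ t → a * s + a' * t ≤ gauge K (s • U + t • W))
    (hh : ∀ s t : ℝ, 0 ≤ s → 0 ≤ t → b' * s + b * t ≤ gauge K (s • U + t • W)) :
    μH[1] (frontier K ∩ sec U W) ≤
      edist (a⁻¹ • U) (((b - a') / (a * b - a' * b')) • U + ((a - b') / (a * b - a' * b')) • W)
      + edist (((b - a') / (a * b - a' * b')) • U + ((a - b') / (a * b - a' * b')) • W)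
        (b⁻¹ • W) := by
  have hU : U ≠ 0 := by rintro rfl; simp [cr] at hD
  have hW : W ≠ 0 := by rintro rfl; simp [cr] at hD
  have pa : 0 < a := ha ▸ hB.N_pos hU
  have pb : 0 < b := hb ▸ hB.N_pos hW
  set D := cr U W with hDdef
  set p := (b - a') / (a * b - a' * b') with hp
  set q := (a - b') / (a * b - a' * b') with hq
  have hp0 : 0 ≤ p := div_nonneg (by linarith) hdet.le
  have hq0 : 0 ≤ q := div_nonneg (by linarith) hdet.le
  have hV1 : a * p + a' * q = 1 := by
    rw [hp, hq]; field_simp; ring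
  have hV2 : b' * p + b * q = 1 := by
    rw [hp, hq, mul_div_assoc', mul_div_assoc', ← add_div, div_eq_one_iff_eq hdet.ne']; ring
  set Γ : Set P := segment ℝ (a⁻¹ • U) (p • U + q • W) ∪ segment ℝ (p • U + q • W) (b⁻¹ • W)
    with hΓ
  have hΓm : μH[1] Γ ≤ edist (a⁻¹ • U) (p • U + q • W) + edist (p • U + q • W) (b⁻¹ • W) := by
    rw [← hausdorffMeasure_segment, ← hausdorffMeasure_segment]
    exact measure_union_le _ _
  refine le_trans ?_ hΓm
  set Q : Set P := {y | (0 ≤ cr y W / D ∧ 0 ≤ cr U y / D) ∧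
    (a * (cr y W / D) + a' * (cr U y / D) ≤ 1 ∧ b' * (cr y W / D) + b * (cr U y / D) ≤ 1)} with hQ
  have c1 : Continuous (fun y : P => cr y W / D) := (continuous_cr_right W).div_const D
  have c2 : Continuous (fun y : P => cr U y / D) := (continuous_cr_left U).div_const D
  have hQc : IsClosed Q := by
    apply IsClosed.inter
    · exact (isClosed_le continuous_const c1).inter (isClosed_le continuous_const c2)
    · exact (isClosed_le ((continuous_const.mul c1).add (continuous_const.mul c2))
        continuous_const).inter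
        (isClosed_le ((continuous_const.mul c1).add (continuous_const.mul c2)) continuous_const)
  have hdec : ∀ y : P, y = (cr y W / D) • U + (cr U y / D) • W := fun y => cr_decomp hD.ne' y
  have hQb : Bornology.IsBounded Q := by
    rw [isBounded_iff_subset_closedBall 0]
    refine ⟨(p + 1 / a) * ‖U‖ + (q + 1 / b) * ‖W‖, fun y hy => ?_⟩
    rw [mem_closedBall, dist_zero_right]
    obtain ⟨⟨hs, ht⟩, h1, h2⟩ := hy
    rw [hdec y]
    generalize cr y W / D = s at *
    generalize cr U y / D = t at *
    have bs : s ≤ p + 1 / a := by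
      rcases le_total a' 0 with h | h
      · have h3 : s * (a * b - a' * b') ≤ b - a' := by nlinarith
        have h4 : s ≤ p := by rw [hp, le_div_iff₀ hdet]; exact h3
        have : 0 < 1 / a := by positivity
        linarith
      · have h3 : a * s ≤ 1 := by nlinarith [mul_nonneg h ht]
        have h4 : s ≤ 1 / a := by rw [le_div_iff₀ pa]; linarith
        linarith
    have bt : t ≤ q + 1 / b := by
      rcases le_total b' 0 with h | h
      · have h3 : t * (a * b - a' * b') ≤ a - b' := by nlinarith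
        have h4 : t ≤ q := by rw [hq, le_div_iff₀ hdet]; exact h3
        have : 0 < 1 / b := by positivity
        linarith
      · have h3 : b * t ≤ 1 := by nlinarith [mul_nonneg h hs]
        have h4 : t ≤ 1 / b := by rw [le_div_iff₀ pb]; linarith
        linarith
    refine (norm_add_le _ _).trans ?_
    rw [norm_smul, norm_smul, Real.norm_of_nonneg hs, Real.norm_of_nonneg ht]
    exact add_le_add (mul_le_mul_of_nonneg_right bs (norm_nonneg _))
      (mul_le_mul_of_nonneg_right bt (norm_nonneg _))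
  have hKQ : ∀ y ∈ K, y ∈ sec U W → y ∈ Q := by
    intro y hy hy2
    have hs : 0 ≤ cr y W / D := div_nonneg hy2.1 hD.le
    have ht : 0 ≤ cr U y / D := div_nonneg hy2.2 hD.le
    have hN : gauge K ((cr y W / D) • U + (cr U y / D) • W) ≤ 1 := by
      rw [← hdec y]; exact hB.N_le_one.2 hy
    exact ⟨⟨hs, ht⟩, (hf _ _ hs ht).trans hN, (hh _ _ hs ht).trans hN⟩
  have hfK : frontier K ⊆ K := hB.comp.isClosed.frontier_subset
  apply haus_le_of_normals (K := K) (fun y hy => hfK hy.1)
  rintro y ⟨hy, hysec⟩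
  obtain ⟨n, hn, hn2⟩ := exists_normal hB.conv hB.int (fun h => hy.2 h)
  obtain ⟨τ, hτ, hz⟩ := ray_hits hQb (hKQ y (hfK hy) hysec) hn
  have hinK : y + τ • n ∈ K → y + τ • n = y := by
    intro hmem
    have h1 := hn2 _ hmem
    rw [add_sub_cancel_left, real_inner_smul_right, real_inner_self_eq_norm_sq] at h1
    have h2 : 0 < ‖n‖ ^ 2 := by have := norm_pos_iff.2 hn; positivity
    have h3 : τ = 0 := by
      rcases eq_or_lt_of_le hτ with h | h
      · exact h.symm
      · have := mul_pos h h2
        linarith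
    rw [h3, zero_smul, add_zero]
  refine ⟨y + τ • n, ?_, ?_⟩
  · have hzQ : y + τ • n ∈ Q := hQc.frontier_subset hz
    generalize y + τ • n = z at hz hzQ hinK
    have hdz := hdec z
    have hnot : ¬ ((0 < cr z W / D ∧ 0 < cr U z / D) ∧
      (a * (cr z W / D) + a' * (cr U z / D) < 1 ∧ b' * (cr z W / D) + b * (cr U z / D) < 1)) := by
      intro h
      apply hz.2
      rw [mem_interior]
      refine ⟨{y | (0 < cr y W / D ∧ 0 < cr U y / D) ∧
        (a * (cr y W / D) + a' * (cr U y / D) < 1 ∧ b' * (cr y W / D) + b * (cr U y / D) < 1)},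
        fun y hy => ⟨⟨hy.1.1.le, hy.1.2.le⟩, hy.2.1.le, hy.2.2.le⟩, ?_, h⟩
      apply IsOpen.inter
      · exact (isOpen_lt continuous_const c1).inter (isOpen_lt continuous_const c2)
      · exact (isOpen_lt ((continuous_const.mul c1).add (continuous_const.mul c2))
          continuous_const).inter
          (isOpen_lt ((continuous_const.mul c1).add (continuous_const.mul c2)) continuous_const)
    obtain ⟨⟨hs, ht⟩, h1, h2⟩ := hzQ
    generalize cr z W / D = s at *
    generalize cr U z / D = t at *
    have tq : a * s + a' * t = 1 → t ≤ q := by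
      intro h
      rw [hq, le_div_iff₀ hdet]
      nlinarith
    have sp : b' * s + b * t = 1 → s ≤ p := by
      intro h
      rw [hp, le_div_iff₀ hdet]
      nlinarith
    by_cases g3 : a * s + a' * t = 1
    · left
      rw [hdz]
      exact on_seg pa hV1 g3 ht (tq g3)
    by_cases g4 : b' * s + b * t = 1
    · right
      rw [hdz, segment_symm, add_comm (s • U), add_comm (p • U)]
      exact on_seg (a' := b') pb (by linarith) (by linarith) hs (sp g4)
    by_cases g1 : s = 0
    · rw [g1, zero_smul, zero_add] at hdz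
      have hN : gauge K z = t * b := by rw [hdz, N_smul ht, hb]
      have h3 : gauge K z ≤ 1 := by
        rw [hN]; rw [g1] at h2; linarith
      have h4 := hinK (hB.N_le_one.1 h3)
      rw [h4, hB.N_eq_one.2 hy] at hN
      exfalso
      apply g4
      rw [g1]; linarith
    by_cases g2 : t = 0
    · rw [g2, zero_smul, add_zero] at hdz
      have hN : gauge K z = s * a := by rw [hdz, N_smul hs, ha]
      have h3 : gauge K z ≤ 1 := by
        rw [hN]; rw [g2] at h1; linarith
      have h4 := hinK (hB.N_le_one.1 h3)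
      rw [h4, hB.N_eq_one.2 hy] at hN
      exfalso
      apply g3
      rw [g2]; linarith
    exfalso
    exact hnot ⟨⟨lt_of_le_of_ne hs (Ne.symm g1), lt_of_le_of_ne ht (Ne.symm g2)⟩,
      lt_of_le_of_ne h1 g3, lt_of_le_of_ne h2 g4⟩
  · intro w hw
    rw [add_sub_cancel_left, real_inner_smul_left]
    exact mul_nonpos_of_nonneg_of_nonpos hτ (hn2 w hw)

end Body

end Pool.MP_653fdd_gt.Lib
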