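import Pool.Agent.Lib.MP_653fdd_gt.Minim

set_option autoImplicit false

/-! Assembly of the proof. -/

open MeasureTheory Set Metric
open scoped ENNReal NNReal Topology Pointwise

namespace Pool.MP_653fdd_gt.Lib

/-- `v` is the direction of a short cap through `o` -/
def Good (K : Set P) (o v : P) : Prop :=
  ‖v‖ = 1 ∧ bd K {y | 0 < inner ℝ (y - o) v} ≤ ENNReal.ofReal (gd ^ 2) * bd K univ

section

variable {K : Set P} (hK : Convex ℝ K) (hKc : IsCompact K) (hint : (interior K).Nonempty)
include hK hKc hint

lemma small (h : bd K univ ≤ ENNReal.ofReal (gd ^ 2) * bd K univ +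
    ENNReal.ofReal (gd ^ 2) * bd K univ) : False := by
  have h1 := univ_pos hK hKc hint
  have h2 := univ_fin hK hKc hint
  generalize bd K univ = L at *
  have h3 : 0 < L.toReal := ENNReal.toReal_pos h1.ne' h2.ne
  have h4 := ENNReal.toReal_mono (ENNReal.add_ne_top.2
    ⟨ENNReal.mul_ne_top ENNReal.ofReal_ne_top h2.ne, ENNReal.mul_ne_top ENNReal.ofReal_ne_top h2.ne⟩) h
  rw [ENNReal.toReal_add (ENNReal.mul_ne_top ENNReal.ofReal_ne_top h2.ne)
    (ENNReal.mul_ne_top ENNReal.ofReal_ne_top h2.ne), ENNReal.toReal_mul,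
    ENNReal.toReal_ofReal (sq_nonneg _), gd_sq] at h4
  have := gd_gt
  nlinarith

lemma one_cap {o v : P} (hv : Good K o v) (h : ∀ y ∈ K, 0 ≤ inner ℝ (y - o) v) : False := by
  have hv0 : -v ≠ 0 := by
    intro h0
    have := hv.1
    rw [neg_eq_zero.1 h0, norm_zero] at this
    exact zero_ne_one this
  have h1 := edge hK hKc hint (o := o) hv0 (by
    intro y hy
    have := h y hy
    rw [inner_neg_right]; linarith)
  have e : {y : P | inner ℝ (y - o) (-v) < 0} = {y : P | 0 < inner ℝ (y - o) v} := by
    ext y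
    simp only [mem_ofPred_eq, inner_neg_right]
    constructor <;> intro h <;> linarith
  rw [e, two_mul] at h1
  exact small hK hKc hint (h1.trans (add_le_add hv.2 hv.2))

lemma anti {o v : P} (hv : Good K o v) (hv' : Good K o (-v)) : False := by
  by_cases h1 : ∀ y ∈ K, 0 ≤ inner ℝ (y - o) v
  · exact one_cap hK hKc hint hv h1
  by_cases h2 : ∀ y ∈ K, 0 ≤ inner ℝ (y - o) (-v)
  · exact one_cap hK hKc hint hv' h2
  push Not at h1 h2
  obtain ⟨p, hp, hp2⟩ := h1
  obtain ⟨q, hq, hq2⟩ := h2
  rw [inner_neg_right] at hq2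
  have hcl : ∀ y ∈ K, y ∈ closure (interior K) := by
    intro y hy
    rw [hK.closure_interior_eq_closure_of_nonempty_interior hint]
    exact subset_closure hy
  have cin : Continuous (fun y : P => inner ℝ (y - o) v) := by fun_prop
  obtain ⟨p', hp'1, hp'⟩ := mem_closure_iff.1 (hcl p hp) _ (isOpen_lt cin continuous_const) hp2
  obtain ⟨q', hq'1, hq'⟩ := mem_closure_iff.1 (hcl q hq) {y : P | 0 < inner ℝ (y - o) v}
    (isOpen_lt continuous_const cin) (by rw [mem_ofPred_eq]; linarith)
  rw [mem_ofPred_eq] at hp'1 hq'1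
  set α := inner ℝ (p' - o) v with hα
  set β := inner ℝ (q' - o) v with hβ
  have hpos : 0 < β - α := by linarith
  have hx : (β / (β - α)) • p' + (-α / (β - α)) • q' ∈ interior K := by
    apply hK.interior hp' hq'
    · exact div_nonneg hq'1.le hpos.le
    · exact div_nonneg (by linarith) hpos.le
    · field_simp; ring
  have hv0 : v ≠ 0 := by
    intro h0
    have := hv.1
    rw [h0, norm_zero] at this
    exact zero_ne_one this
  have hnull := line_null' hK hKc hx hv0
  have hx0 : inner ℝ ((β / (β - α)) • p' + (-α / (β - α)) • q' - o) v = 0 := by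
    have e : (β / (β - α)) • p' + (-α / (β - α)) • q' - o =
        (β / (β - α)) • (p' - o) + (-α / (β - α)) • (q' - o) := by
      have e1 : o = (β / (β - α)) • o + (-α / (β - α)) • o := by
        rw [← add_smul]
        have : β / (β - α) + -α / (β - α) = 1 := by field_simp; ring
        rw [this, one_smul]
      nth_rewrite 1 [e1]
      module
    rw [e, inner_add_left, real_inner_smul_left, real_inner_smul_left, ← hα, ← hβ]
    field_simp; ring
  have e2 : {y : P | inner ℝ (y - ((β / (β - α)) • p' + (-α / (β - α)) • q')) v = 0} =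
      {y : P | inner ℝ (y - o) v = 0} := by
    ext y
    simp only [mem_ofPred_eq]
    rw [inner_sub_left] at hx0
    rw [inner_sub_left, inner_sub_left]
    constructor <;> intro h <;> linarith
  rw [e2] at hnull
  have hcov : (univ : Set P) ⊆ ({y : P | 0 < inner ℝ (y - o) v} ∪ {y : P | 0 < inner ℝ (y - o) (-v)}) ∪
      {y : P | inner ℝ (y - o) v = 0} := by
    intro y _
    rcases lt_trichotomy (inner ℝ (y - o) v) 0 with h | h | h
    · left; right
      rw [mem_ofPred_eq, inner_neg_right]; linarith
    · right; exact h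
    · left; left; exact h
  have h3 : bd K univ ≤ ENNReal.ofReal (gd ^ 2) * bd K univ +
    ENNReal.ofReal (gd ^ 2) * bd K univ := by
    refine (measure_mono hcov).trans ((measure_union_le _ _).trans ?_)
    rw [hnull, add_zero]
    exact (measure_union_le _ _).trans (add_le_add hv.2 hv'.2)
  exact small hK hKc hint h3

lemma pair {o u v : P} {a b : ℝ} (ha : 0 < a) (hb : 0 < b) (h : a • u + b • v = 0)
    (hu : Good K o u) (hv : Good K o v) : False := by
  have h1 : b • v = -(a • u) := eq_neg_of_add_eq_zero_right h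
  have h2 : b = a := by
    have := congrArg norm h1
    rw [norm_neg, norm_smul, norm_smul, hu.1, hv.1, Real.norm_of_nonneg hb.le,
      Real.norm_of_nonneg ha.le, mul_one, mul_one] at this
    exact this
  have h3 : v = -u := by
    rw [h2, ← smul_neg] at h1
    exact smul_right_injective P ha.ne' h1
  rw [h3] at hv
  exact anti hK hKc hint hu hv

lemma two_caps {o n u v : P} {a b : ℝ} (ha : 0 ≤ a) (hb : 0 ≤ b) (hn : n ≠ 0)
    (hnK : ∀ w ∈ K, inner ℝ n (w - o) ≤ 0) (h : -n = a • u + b • v) (hcr : cr u v ≠ 0)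
    (hu : Good K o u) (hv : Good K o v) : False := by
  have hkey : ∀ w ∈ K, 0 ≤ a * inner ℝ (w - o) u + b * inner ℝ (w - o) v := by
    intro w hw
    have h1 := hnK w hw
    have h2 : inner ℝ (w - o) (-n) = a * inner ℝ (w - o) u + b * inner ℝ (w - o) v := by
      rw [h, inner_add_right, real_inner_smul_right, real_inner_smul_right]
    rw [← h2, inner_neg_right, real_inner_comm]
    linarith
  rcases ha.eq_or_lt with ha0 | ha0
  · rcases hb.eq_or_lt with hb0 | hb0
    · apply hn
      rw [← ha0, ← hb0, zero_smul, zero_smul, add_zero] at h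
      exact neg_eq_zero.1 h
    · apply one_cap hK hKc hint hv
      intro y hy
      have := hkey y hy
      rw [← ha0, zero_mul, zero_add] at this
      exact nonneg_of_mul_nonneg_right this hb0
  · rcases hb.eq_or_lt with hb0 | hb0
    · apply one_cap hK hKc hint hu
      intro y hy
      have := hkey y hy
      rw [← hb0, zero_mul, add_zero] at this
      exact nonneg_of_mul_nonneg_right this ha0
    · have : NullSingletonClass (μH[1] : Measure P) :=
        Measure.nullSingletonClass_hausdorff P one_pos
      have cin : ∀ v : P, Continuous (fun y : P => inner ℝ (y - o) v) := fun v => by fun_prop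
      have hm : ∀ v : P, MeasurableSet {y : P | 0 < inner ℝ (y - o) v} := fun v =>
        (isOpen_lt continuous_const (cin v)).measurableSet
      have h1 : bd K univ ≤ bd K (({y : P | 0 < inner ℝ (y - o) u} ∪
          {y : P | 0 < inner ℝ (y - o) v}) ∪ {o}) := by
        apply bd_mono MeasurableSet.univ (((hm u).union (hm v)).union (measurableSet_singleton o))
        intro y hy _
        have hyK := hKc.isClosed.frontier_subset hy
        by_cases h1 : 0 < inner ℝ (y - o) u
        · left; left; exact h1
        by_cases h2 : 0 < inner ℝ (y - o) v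
        · left; right; exact h2
        right
        have h3 := hkey y hyK
        push Not at h1 h2
        have h4 : inner ℝ (y - o) u = 0 := by nlinarith
        have h5 : inner ℝ (y - o) v = 0 := by nlinarith
        have h6 : (y - o) 0 * cr u v = 0 := by
          rw [inner_eq] at h4 h5
          simp only [cr]
          linear_combination v 1 * h4 - u 1 * h5
        have h7 : (y - o) 1 * cr u v = 0 := by
          rw [inner_eq] at h4 h5
          simp only [cr]
          linear_combination u 0 * h5 - v 0 * h4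
        have h8 := (mul_eq_zero.1 h6).resolve_right hcr
        have h9 := (mul_eq_zero.1 h7).resolve_right hcr
        rw [mem_singleton_iff, ← sub_eq_zero]
        ext i
        fin_cases i
        · simpa using h8
        · simpa using h9
      have h0 : bd K {o} = 0 := by
        rw [bd_apply (measurableSet_singleton o)]
        exact measure_mono_null inter_subset_right ((Set.toFinite _).measure_zero _)
      have h2 : bd K univ ≤ ENNReal.ofReal (gd ^ 2) * bd K univ +
          ENNReal.ofReal (gd ^ 2) * bd K univ := by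
        refine h1.trans ((measure_union_le _ _).trans ?_)
        rw [h0, add_zero]
        exact (measure_union_le _ _).trans (add_le_add hu.2 hv.2)
      exact small hK hKc hint h2

omit hint in
lemma inner_case {o v0 v1 v2 : P} {w0 w1 w2 : ℝ} (hw0 : 0 < w0) (hw1 : 0 < w1) (hw2 : 0 < w2)
    (h : w0 • v0 + w1 • v1 + w2 • v2 = 0) (hcr : 0 < cr v0 v1) (ho : o ∈ interior K)
    (h0 : Good K o v0) (h1 : Good K o v1) (h2 : Good K o v2) : False := by
  have hB := shift_body hK hKc ho
  have key : ∀ (v : P) (w : ℝ), 0 < w → Good K o v →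
      bd ((fun y : P => y + o) ⁻¹' K) {y | 0 < cr y (w • J v)} ≤
        ENNReal.ofReal (gd ^ 2) * bd ((fun y : P => y + o) ⁻¹' K) univ := by
    intro v w hw hv
    have hm : MeasurableSet {y : P | 0 < cr y (w • J v)} :=
      (isOpen_lt continuous_const (continuous_cr_right _)).measurableSet
    rw [shift_bd K o hm, shift_bd K o MeasurableSet.univ]
    have e : {y : P | y - o ∈ {y : P | 0 < cr y (w • J v)}} = {y : P | 0 < inner ℝ (y - o) v} := by
      ext y
      simp only [mem_ofPred_eq, cr_smul_right, cr_J]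
      exact mul_pos_iff_of_pos_left hw
    rw [e]
    simpa using hv.2
  refine hB.main0 (E0 := w0 • J v0) (E1 := w1 • J v1) (E2 := w2 • J v2) ?_ ?_
    (key v0 w0 hw0 h0) (key v1 w1 hw1 h1) (key v2 w2 hw2 h2)
  · rw [← J_smul, ← J_smul, ← J_smul, ← J_add, ← J_add, h]
    ext i; fin_cases i <;> simp [J]
  · rw [cr_smul_left, cr_smul_right, cr_J_J]
    positivity

lemma three {o v0 v1 v2 : P} {w0 w1 w2 : ℝ} (hw0 : 0 < w0) (hw1 : 0 < w1) (hw2 : 0 < w2)
    (h : w0 • v0 + w1 • v1 + w2 • v2 = 0) (hcr : 0 < cr v0 v1)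
    (h0 : Good K o v0) (h1 : Good K o v1) (h2 : Good K o v2) : False := by
  by_cases ho : o ∈ interior K
  · exact inner_case hK hKc hw0 hw1 hw2 h hcr ho h0 h1 h2
  obtain ⟨n, hn, hnK⟩ := exists_normal hK hint ho
  have e2 : v2 = -(w0 / w2) • v0 + -(w1 / w2) • v1 := by
    have h3 : w2 • v2 = w2 • (-(w0 / w2) • v0 + -(w1 / w2) • v1) := by
      have h4 : w2 • v2 = -(w0 • v0 + w1 • v1) := eq_neg_of_add_eq_zero_right h
      rw [h4, smul_add, smul_smul, smul_smul]
      have e5 : w2 * -(w0 / w2) = -w0 := by field_simp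
      have e6 : w2 * -(w1 / w2) = -w1 := by field_simp
      rw [e5, e6]
      module
    exact smul_right_injective P hw2.ne' h3
  have c12 : cr v1 v2 ≠ 0 := by
    rw [e2, cr_add_right, cr_smul_right, cr_smul_right, cr_self, mul_zero, add_zero, cr_comm]
    have : 0 < w0 / w2 * cr v0 v1 := by positivity
    intro hz
    linarith
  have c02 : cr v0 v2 ≠ 0 := by
    rw [e2, cr_add_right, cr_smul_right, cr_smul_right, cr_self, mul_zero, zero_add]
    have : 0 < w1 / w2 * cr v0 v1 := by positivity
    intro hz
    linarith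
  obtain ⟨α, hα⟩ : ∃ α, α = cr (-n) v1 / cr v0 v1 := ⟨_, rfl⟩
  obtain ⟨β, hβ⟩ : ∃ β, β = cr v0 (-n) / cr v0 v1 := ⟨_, rfl⟩
  have hdec : -n = α • v0 + β • v1 := by
    rw [hα, hβ]; exact cr_decomp hcr.ne' (-n)
  -- the nonnegative representation
  have hrep : ∀ s : ℝ, -n = (α + s * w0) • v0 + (β + s * w1) • v1 + (s * w2) • v2 := by
    intro s
    have h5 : (α + s * w0) • v0 + (β + s * w1) • v1 + (s * w2) • v2 =
        (α • v0 + β • v1) + s • (w0 • v0 + w1 • v1 + w2 • v2) := by module
    rw [h5, h, smul_zero, add_zero]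
    exact hdec
  by_cases hα0 : 0 ≤ α
  · by_cases hβ0 : 0 ≤ β
    · exact two_caps hK hKc hint hα0 hβ0 hn hnK hdec hcr.ne' h0 h1
    · push Not at hβ0
      have h5 := hrep (-β / w1)
      have e1 : β + -β / w1 * w1 = 0 := by field_simp; ring
      rw [e1, zero_smul, add_zero] at h5
      have p1 : 0 < -β / w1 := div_pos (by linarith) hw1
      exact two_caps hK hKc hint (by positivity) (by positivity) hn hnK h5 c02 h0 h2
  · push Not at hα0
    by_cases hcmp : -α / w0 ≤ -β / w1
    · -- s = -β / w1
      have h5 := hrep (-β / w1)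
      have e1 : β + -β / w1 * w1 = 0 := by field_simp; ring
      rw [e1, zero_smul, add_zero] at h5
      have p0 : 0 < -α / w0 := div_pos (by linarith) hw0
      have p1 : 0 < -β / w1 := lt_of_lt_of_le p0 hcmp
      have p2 : 0 ≤ α + -β / w1 * w0 := by
        have := mul_le_mul_of_nonneg_right hcmp hw0.le
        have e3 : -α / w0 * w0 = -α := by field_simp
        rw [e3] at this
        linarith
      exact two_caps hK hKc hint p2 (by positivity) hn hnK h5 c02 h0 h2
    · push Not at hcmp
      have h5 := hrep (-α / w0)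
      have e1 : α + -α / w0 * w0 = 0 := by field_simp; ring
      rw [e1, zero_smul, zero_add] at h5
      have p0 : 0 < -α / w0 := div_pos (by linarith) hw0
      have p2 : 0 ≤ β + -α / w0 * w1 := by
        have := mul_le_mul_of_nonneg_right hcmp.le hw1.le
        have e3 : -β / w1 * w1 = -β := by field_simp
        rw [e3] at this
        linarith
      exact two_caps hK hKc hint p2 (by positivity) hn hnK h5 c12 h1 h2

lemma exclude_pos {o v0 v1 v2 : P} {w0 w1 w2 : ℝ} (hw0 : 0 < w0) (hw1 : 0 < w1) (hw2 : 0 < w2)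
    (h : w0 • v0 + w1 • v1 + w2 • v2 = 0)
    (h0 : Good K o v0) (h1 : Good K o v1) (h2 : Good K o v2) : False := by
  rcases lt_trichotomy (cr v0 v1) 0 with hc | hc | hc
  · rw [cr_comm] at hc
    exact three hK hKc hint hw1 hw0 hw2 (by rw [← h]; abel) (by linarith) h1 h0 h2
  · have hv0 : v0 ≠ 0 := by
      intro hz
      have := h0.1
      rw [hz, norm_zero] at this
      exact zero_ne_one this
    have hc' : cr v1 v0 = 0 := by rw [cr_comm, hc, neg_zero]
    obtain ⟨c, hcv⟩ := mem_line hv0 hc'
    rcases lt_trichotomy c 0 with hc0 | hc0 | hc0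
    · refine pair hK hKc hint (a := -c) (b := 1) (by linarith) one_pos ?_ h0 h1
      rw [hcv]; module
    · have := h1.1
      rw [hcv, hc0, zero_smul, norm_zero] at this
      exact zero_ne_one this
    · refine pair hK hKc hint (a := w0 + w1 * c) (b := w2) (by positivity) hw2 ?_ h0 h2
      rw [← h, hcv]; module
  · exact three hK hKc hint hw0 hw1 hw2 h hc h0 h1 h2

lemma exclude {o : P} {w : Fin 3 → ℝ} {z : Fin 3 → P} (hw : w ∈ stdSimplex ℝ (Fin 3))
    (hs : ∑ i, w i • z i = 0) (hz : ∀ i, Good K o (z i)) : False := by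
  have h0 := hw.1 0
  have h1 := hw.1 1
  have h2 := hw.1 2
  have hsum := hw.2
  rw [Fin.sum_univ_three] at hsum hs
  have hne : ∀ i, z i ≠ 0 := by
    intro i hi
    have := (hz i).1
    rw [hi, norm_zero] at this
    exact zero_ne_one this
  rcases h0.eq_or_lt with h0 | h0 <;> rcases h1.eq_or_lt with h1 | h1 <;>
    rcases h2.eq_or_lt with h2 | h2
  · rw [← h0, ← h1, ← h2] at hsum; norm_num at hsum
  · rw [← h0, ← h1, zero_smul, zero_smul, zero_add, zero_add] at hs
    rcases smul_eq_zero.1 hs with h | h
    · exact h2.ne' h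
    · exact hne _ h
  · rw [← h0, ← h2, zero_smul, zero_smul, zero_add, add_zero] at hs
    rcases smul_eq_zero.1 hs with h | h
    · exact h1.ne' h
    · exact hne _ h
  · rw [← h0, zero_smul, zero_add] at hs
    exact pair hK hKc hint h1 h2 hs (hz 1) (hz 2)
  · rw [← h1, ← h2, zero_smul, zero_smul, add_zero, add_zero] at hs
    rcases smul_eq_zero.1 hs with h | h
    · exact h0.ne' h
    · exact hne _ h
  · rw [← h1, zero_smul, add_zero] at hs
    exact pair hK hKc hint h0 h2 hs (hz 0) (hz 2)
  · rw [← h2, zero_smul, add_zero] at hs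
    exact pair hK hKc hint h0 h1 hs (hz 0) (hz 1)
  · exact exclude_pos hK hKc hint h0 h1 h2 hs (hz 0) (hz 1) (hz 2)

end

end Pool.MP_653fdd_gt.Lib
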