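import Pool.Agent.Lib.MP_653fdd_gt.Cfg

set_option autoImplicit false

/-! Numerical cells, part 1. -/

namespace Pool.MP_653fdd_gt.Lib

theorem leaf0 (C : Cfg) (h1 : 0.616 ≤ C.a) (h2 : C.a ≤ 0.619) (h3 : 0.264 ≤ C.b) (h4 : C.b ≤ 0.267) (h5 : 0.114 ≤ C.c)
    (h6 : C.c ≤ 0.117) : False := by
  have H0 : (2.0001 : ℝ) ≤ G 0.69158 0.809 1.11742 C.b C.c := (G_rect (m := 2.0001) (x0 := 0.264) (x1 := 0.267) (y0 := 0.114) (y1 := 0.117)
      (by norm_num) (by norm_num) (by norm_num) (by norm_num) (by norm_num) (by norm_num) (by norm_num)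
      h3 h4 h5 h6
      (G_num (r := 0.1734) (by norm_num) (by norm_num) (by norm_num))
      (G_num (r := 0.1757) (by norm_num) (by norm_num) (by norm_num))
      (G_num (r := 0.1744) (by norm_num) (by norm_num) (by norm_num))
      (G_num (r := 0.1767) (by norm_num) (by norm_num) (by norm_num)))
  have H1 : (2.0001 : ℝ) ≤ G 0.809 0.69158 1.11742 C.a C.c := (G_rect (m := 2.0001) (x0 := 0.616) (x1 := 0.619) (y0 := 0.114) (y1 := 0.117)
      (by norm_num) (by norm_num) (by norm_num) (by norm_num) (by norm_num) (by norm_num) (by norm_num)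
      h1 h2 h5 h6
      (G_num (r := 0.2649) (by norm_num) (by norm_num) (by norm_num))
      (G_num (r := 0.2684) (by norm_num) (by norm_num) (by norm_num))
      (G_num (r := 0.2656) (by norm_num) (by norm_num) (by norm_num))
      (G_num (r := 0.2691) (by norm_num) (by norm_num) (by norm_num)))
  have H2 : (2.23494 : ℝ) ≤ G 1.11742 0.69158 0.809 C.a C.b := (G_rect (m := 2.23494) (x0 := 0.616) (x1 := 0.619) (y0 := 0.264) (y1 := 0.267)
      (by norm_num) (by norm_num) (by norm_num) (by norm_num) (by norm_num) (by norm_num) (by norm_num)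
      h1 h2 h3 h4
      (G_num (r := 0.4032) (by norm_num) (by norm_num) (by norm_num))
      (G_num (r := 0.4055) (by norm_num) (by norm_num) (by norm_num))
      (G_num (r := 0.4042) (by norm_num) (by norm_num) (by norm_num))
      (G_num (r := 0.4065) (by norm_num) (by norm_num) (by norm_num)))
  exact C.finish (γ := 0.618) (z0 := 0.31) (z1 := 0.5) (z2 := 0) (c01 := 0) (c02 := 0.19) (c12 := 0)
    (A0 := 0.69158) (A1 := 0.809) (A2 := 1.11742) (B0 := 2) (B1 := 2) (B2 := 2.23484)
    (by norm_num) (by linarith [gd_gt]) (by norm_num) (by norm_num) (by norm_num) (by norm_num) (by norm_num) (by norm_num)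
    (by norm_num) (by norm_num) (by norm_num) (by norm_num) (by norm_num) (by norm_num)
    (le_trans (le_trans (by norm_num) H0) (C.cmp0 (by norm_num) (by norm_num) (by norm_num)))
    (lt_of_lt_of_le (lt_of_lt_of_le (by norm_num) H1) (C.cmp1 (by norm_num) (by norm_num) (by norm_num)))
    (lt_of_lt_of_le (lt_of_lt_of_le (by norm_num) H2) (C.cmp2 (by norm_num) (by norm_num) (by norm_num)))

theorem leaf1 (C : Cfg) (h1 : 0.618 ≤ C.a) (h2 : C.a ≤ 0.619) (h3 : 0.21 ≤ C.b) (h4 : C.b ≤ 0.211) (h5 : 0.17 ≤ C.c)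
    (h6 : C.c ≤ 0.171) : False := by
  have H0 : (2.0001 : ℝ) ≤ G 0.63586 0.84 1.14214 C.b C.c := (G_rect (m := 2.0001) (x0 := 0.21) (x1 := 0.211) (y0 := 0.17) (y1 := 0.171)
      (by norm_num) (by norm_num) (by norm_num) (by norm_num) (by norm_num) (by norm_num) (by norm_num)
      h3 h4 h5 h6
      (G_num (r := 0.1889) (by norm_num) (by norm_num) (by norm_num))
      (G_num (r := 0.1894) (by norm_num) (by norm_num) (by norm_num))
      (G_num (r := 0.1893) (by norm_num) (by norm_num) (by norm_num))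
      (G_num (r := 0.1899) (by norm_num) (by norm_num) (by norm_num)))
  have H1 : (2.0001 : ℝ) ≤ G 0.84 0.63586 1.14214 C.a C.c := (G_rect (m := 2.0001) (x0 := 0.618) (x1 := 0.619) (y0 := 0.17) (y1 := 0.171)
      (by norm_num) (by norm_num) (by norm_num) (by norm_num) (by norm_num) (by norm_num) (by norm_num)
      h1 h2 h5 h6
      (G_num (r := 0.3241) (by norm_num) (by norm_num) (by norm_num))
      (G_num (r := 0.325) (by norm_num) (by norm_num) (by norm_num))
      (G_num (r := 0.3243) (by norm_num) (by norm_num) (by norm_num))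
      (G_num (r := 0.3253) (by norm_num) (by norm_num) (by norm_num)))
  have H2 : (2.28438 : ℝ) ≤ G 1.14214 0.63586 0.84 C.a C.b := (G_rect (m := 2.28438) (x0 := 0.618) (x1 := 0.619) (y0 := 0.21) (y1 := 0.211)
      (by norm_num) (by norm_num) (by norm_num) (by norm_num) (by norm_num) (by norm_num) (by norm_num)
      h1 h2 h3 h4
      (G_num (r := 0.3602) (by norm_num) (by norm_num) (by norm_num))
      (G_num (r := 0.3611) (by norm_num) (by norm_num) (by norm_num))
      (G_num (r := 0.3605) (by norm_num) (by norm_num) (by norm_num))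
      (G_num (r := 0.3613) (by norm_num) (by norm_num) (by norm_num)))
  exact C.finish (γ := 0.618) (z0 := 0.77) (z1 := 0) (z2 := 0) (c01 := 0) (c02 := 0.07) (c12 := 0.16)
    (A0 := 0.63586) (A1 := 0.84) (A2 := 1.14214) (B0 := 2) (B1 := 2) (B2 := 2.28428)
    (by norm_num) (by linarith [gd_gt]) (by norm_num) (by norm_num) (by norm_num) (by norm_num) (by norm_num) (by norm_num)
    (by norm_num) (by norm_num) (by norm_num) (by norm_num) (by norm_num) (by norm_num)
    (le_trans (le_trans (by norm_num) H0) (C.cmp0 (by norm_num) (by norm_num) (by norm_num)))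
    (lt_of_lt_of_le (lt_of_lt_of_le (by norm_num) H1) (C.cmp1 (by norm_num) (by norm_num) (by norm_num)))
    (lt_of_lt_of_le (lt_of_lt_of_le (by norm_num) H2) (C.cmp2 (by norm_num) (by norm_num) (by norm_num)))

theorem leaf2 (C : Cfg) (h1 : 0.601 ≤ C.a) (h2 : C.a ≤ 0.619) (h3 : 0.211 ≤ C.b) (h4 : C.b ≤ 0.228) (h5 : 0.153 ≤ C.c)
    (h6 : C.c ≤ 0.171) : False := by
  have H0 : (2.0001 : ℝ) ≤ G 0.63248 0.84338 1.14214 C.b C.c := (G_rect (m := 2.0001) (x0 := 0.211) (x1 := 0.228) (y0 := 0.153) (y1 := 0.171)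
      (by norm_num) (by norm_num) (by norm_num) (by norm_num) (by norm_num) (by norm_num) (by norm_num)
      h3 h4 h5 h6
      (G_num (r := 0.1796) (by norm_num) (by norm_num) (by norm_num))
      (G_num (r := 0.1899) (by norm_num) (by norm_num) (by norm_num))
      (G_num (r := 0.1867) (by norm_num) (by norm_num) (by norm_num))
      (G_num (r := 0.1974) (by norm_num) (by norm_num) (by norm_num)))
  have H1 : (2.0001 : ℝ) ≤ G 0.84338 0.63248 1.14214 C.a C.c := (G_rect (m := 2.0001) (x0 := 0.601) (x1 := 0.619) (y0 := 0.153) (y1 := 0.171)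
      (by norm_num) (by norm_num) (by norm_num) (by norm_num) (by norm_num) (by norm_num) (by norm_num)
      h1 h2 h5 h6
      (G_num (r := 0.3032) (by norm_num) (by norm_num) (by norm_num))
      (G_num (r := 0.3205) (by norm_num) (by norm_num) (by norm_num))
      (G_num (r := 0.3077) (by norm_num) (by norm_num) (by norm_num))
      (G_num (r := 0.3253) (by norm_num) (by norm_num) (by norm_num)))
  have H2 : (2.28438 : ℝ) ≤ G 1.14214 0.63248 0.84338 C.a C.b := (G_rect (m := 2.28438) (x0 := 0.601) (x1 := 0.619) (y0 := 0.211) (y1 := 0.228)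
      (by norm_num) (by norm_num) (by norm_num) (by norm_num) (by norm_num) (by norm_num) (by norm_num)
      h1 h2 h3 h4
      (G_num (r := 0.3561) (by norm_num) (by norm_num) (by norm_num))
      (G_num (r := 0.3701) (by norm_num) (by norm_num) (by norm_num))
      (G_num (r := 0.3613) (by norm_num) (by norm_num) (by norm_num))
      (G_num (r := 0.3756) (by norm_num) (by norm_num) (by norm_num)))
  exact C.finish (γ := 0.618) (z0 := 0.36) (z1 := 0.41) (z2 := 0) (c01 := 0) (c02 := 0.23) (c12 := 0)
    (A0 := 0.63248) (A1 := 0.84338) (A2 := 1.14214) (B0 := 2) (B1 := 2) (B2 := 2.28428)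
    (by norm_num) (by linarith [gd_gt]) (by norm_num) (by norm_num) (by norm_num) (by norm_num) (by norm_num) (by norm_num)
    (by norm_num) (by norm_num) (by norm_num) (by norm_num) (by norm_num) (by norm_num)
    (le_trans (le_trans (by norm_num) H0) (C.cmp0 (by norm_num) (by norm_num) (by norm_num)))
    (lt_of_lt_of_le (lt_of_lt_of_le (by norm_num) H1) (C.cmp1 (by norm_num) (by norm_num) (by norm_num)))
    (lt_of_lt_of_le (lt_of_lt_of_le (by norm_num) H2) (C.cmp2 (by norm_num) (by norm_num) (by norm_num)))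

theorem leaf3 (C : Cfg) (h1 : 0.583 ≤ C.a) (h2 : C.a ≤ 0.618) (h3 : 0.211 ≤ C.b) (h4 : C.b ≤ 0.228) (h5 : 0.171 ≤ C.c)
    (h6 : C.c ≤ 0.189) : False := by
  have H0 : (2.0001 : ℝ) ≤ G 0.73642 0.88922 0.99236 C.b C.c := (G_rect (m := 2.0001) (x0 := 0.211) (x1 := 0.228) (y0 := 0.171) (y1 := 0.189)
      (by norm_num) (by norm_num) (by norm_num) (by norm_num) (by norm_num) (by norm_num) (by norm_num)
      h3 h4 h5 h6
      (G_num (r := 0.1899) (by norm_num) (by norm_num) (by norm_num))
      (G_num (r := 0.1996) (by norm_num) (by norm_num) (by norm_num))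
      (G_num (r := 0.1974) (by norm_num) (by norm_num) (by norm_num))
      (G_num (r := 0.2075) (by norm_num) (by norm_num) (by norm_num)))
  have H1 : (2.0001 : ℝ) ≤ G 0.88922 0.73642 0.99236 C.a C.c := (G_rect (m := 2.0001) (x0 := 0.583) (x1 := 0.618) (y0 := 0.171) (y1 := 0.189)
      (by norm_num) (by norm_num) (by norm_num) (by norm_num) (by norm_num) (by norm_num) (by norm_num)
      h1 h2 h5 h6
      (G_num (r := 0.3157) (by norm_num) (by norm_num) (by norm_num))
      (G_num (r := 0.3319) (by norm_num) (by norm_num) (by norm_num))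
      (G_num (r := 0.325) (by norm_num) (by norm_num) (by norm_num))
      (G_num (r := 0.3417) (by norm_num) (by norm_num) (by norm_num)))
  have H2 : (2.0001 : ℝ) ≤ G 0.99236 0.73642 0.88922 C.a C.b := (G_rect (m := 2.0001) (x0 := 0.583) (x1 := 0.618) (y0 := 0.211) (y1 := 0.228)
      (by norm_num) (by norm_num) (by norm_num) (by norm_num) (by norm_num) (by norm_num) (by norm_num)
      h1 h2 h3 h4
      (G_num (r := 0.3507) (by norm_num) (by norm_num) (by norm_num))
      (G_num (r := 0.3645) (by norm_num) (by norm_num) (by norm_num))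
      (G_num (r := 0.3611) (by norm_num) (by norm_num) (by norm_num))
      (G_num (r := 0.3753) (by norm_num) (by norm_num) (by norm_num)))
  exact C.finish (γ := 0.618) (z0 := 0.69) (z1 := 0.29) (z2 := 0.02) (c01 := 0) (c02 := 0) (c12 := 0)
    (A0 := 0.73642) (A1 := 0.88922) (A2 := 0.99236) (B0 := 2) (B1 := 2) (B2 := 2)
    (by norm_num) (by linarith [gd_gt]) (by norm_num) (by norm_num) (by norm_num) (by norm_num) (by norm_num) (by norm_num)
    (by norm_num) (by norm_num) (by norm_num) (by norm_num) (by norm_num) (by norm_num)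
    (le_trans (le_trans (by norm_num) H0) (C.cmp0 (by norm_num) (by norm_num) (by norm_num)))
    (lt_of_lt_of_le (lt_of_lt_of_le (by norm_num) H1) (C.cmp1 (by norm_num) (by norm_num) (by norm_num)))
    (lt_of_lt_of_le (lt_of_lt_of_le (by norm_num) H2) (C.cmp2 (by norm_num) (by norm_num) (by norm_num)))

theorem leaf4 (C : Cfg) (h1 : 0.58 ≤ C.a) (h2 : C.a ≤ 0.619) (h3 : 0.228 ≤ C.b) (h4 : C.b ≤ 0.267) (h5 : 0.117 ≤ C.c)
    (h6 : C.c ≤ 0.153) : False := by
  have H0 : (2.0001 : ℝ) ≤ G 0.65394 0.8281 1.13596 C.b C.c := (G_rect (m := 2.0001) (x0 := 0.228) (x1 := 0.267) (y0 := 0.117) (y1 := 0.153)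
      (by norm_num) (by norm_num) (by norm_num) (by norm_num) (by norm_num) (by norm_num) (by norm_num)
      h3 h4 h5 h6
      (G_num (r := 0.1633) (by norm_num) (by norm_num) (by norm_num))
      (G_num (r := 0.1867) (by norm_num) (by norm_num) (by norm_num))
      (G_num (r := 0.1767) (by norm_num) (by norm_num) (by norm_num))
      (G_num (r := 0.2021) (by norm_num) (by norm_num) (by norm_num)))
  have H1 : (2.0001 : ℝ) ≤ G 0.8281 0.65394 1.13596 C.a C.c := (G_rect (m := 2.0001) (x0 := 0.58) (x1 := 0.619) (y0 := 0.117) (y1 := 0.153)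
      (by norm_num) (by norm_num) (by norm_num) (by norm_num) (by norm_num) (by norm_num) (by norm_num)
      h1 h2 h5 h6
      (G_num (r := 0.2604) (by norm_num) (by norm_num) (by norm_num))
      (G_num (r := 0.2978) (by norm_num) (by norm_num) (by norm_num))
      (G_num (r := 0.2691) (by norm_num) (by norm_num) (by norm_num))
      (G_num (r := 0.3077) (by norm_num) (by norm_num) (by norm_num)))
  have H2 : (2.27202 : ℝ) ≤ G 1.13596 0.65394 0.8281 C.a C.b := (G_rect (m := 2.27202) (x0 := 0.58) (x1 := 0.619) (y0 := 0.228) (y1 := 0.267)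
      (by norm_num) (by norm_num) (by norm_num) (by norm_num) (by norm_num) (by norm_num) (by norm_num)
      h1 h2 h3 h4
      (G_num (r := 0.3636) (by norm_num) (by norm_num) (by norm_num))
      (G_num (r := 0.3935) (by norm_num) (by norm_num) (by norm_num))
      (G_num (r := 0.3756) (by norm_num) (by norm_num) (by norm_num))
      (G_num (r := 0.4065) (by norm_num) (by norm_num) (by norm_num)))
  exact C.finish (γ := 0.618) (z0 := 0.33) (z1 := 0.45) (z2 := 0) (c01 := 0) (c02 := 0.22) (c12 := 0)
    (A0 := 0.65394) (A1 := 0.8281) (A2 := 1.13596) (B0 := 2) (B1 := 2) (B2 := 2.27192)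
    (by norm_num) (by linarith [gd_gt]) (by norm_num) (by norm_num) (by norm_num) (by norm_num) (by norm_num) (by norm_num)
    (by norm_num) (by norm_num) (by norm_num) (by norm_num) (by norm_num) (by norm_num)
    (le_trans (le_trans (by norm_num) H0) (C.cmp0 (by norm_num) (by norm_num) (by norm_num)))
    (lt_of_lt_of_le (lt_of_lt_of_le (by norm_num) H1) (C.cmp1 (by norm_num) (by norm_num) (by norm_num)))
    (lt_of_lt_of_le (lt_of_lt_of_le (by norm_num) H2) (C.cmp2 (by norm_num) (by norm_num) (by norm_num)))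

theorem leaf5 (C : Cfg) (h1 : 0.582 ≤ C.a) (h2 : C.a ≤ 0.619) (h3 : 0.228 ≤ C.b) (h4 : C.b ≤ 0.247) (h5 : 0.153 ≤ C.c)
    (h6 : C.c ≤ 0.171) : False := by
  have H0 : (2.0001 : ℝ) ≤ G 0.72878 0.87686 1.01236 C.b C.c := (G_rect (m := 2.0001) (x0 := 0.228) (x1 := 0.247) (y0 := 0.153) (y1 := 0.171)
      (by norm_num) (by norm_num) (by norm_num) (by norm_num) (by norm_num) (by norm_num) (by norm_num)
      h3 h4 h5 h6
      (G_num (r := 0.1867) (by norm_num) (by norm_num) (by norm_num))
      (G_num (r := 0.1974) (by norm_num) (by norm_num) (by norm_num))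
      (G_num (r := 0.1943) (by norm_num) (by norm_num) (by norm_num))
      (G_num (r := 0.2055) (by norm_num) (by norm_num) (by norm_num)))
  have H1 : (2.0001 : ℝ) ≤ G 0.87686 0.72878 1.01236 C.a C.c := (G_rect (m := 2.0001) (x0 := 0.582) (x1 := 0.619) (y0 := 0.153) (y1 := 0.171)
      (by norm_num) (by norm_num) (by norm_num) (by norm_num) (by norm_num) (by norm_num) (by norm_num)
      h1 h2 h5 h6
      (G_num (r := 0.2984) (by norm_num) (by norm_num) (by norm_num))
      (G_num (r := 0.3154) (by norm_num) (by norm_num) (by norm_num))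
      (G_num (r := 0.3077) (by norm_num) (by norm_num) (by norm_num))
      (G_num (r := 0.3253) (by norm_num) (by norm_num) (by norm_num)))
  have H2 : (2.02482 : ℝ) ≤ G 1.01236 0.72878 0.87686 C.a C.b := (G_rect (m := 2.02482) (x0 := 0.582) (x1 := 0.619) (y0 := 0.228) (y1 := 0.247)
      (by norm_num) (by norm_num) (by norm_num) (by norm_num) (by norm_num) (by norm_num) (by norm_num)
      h1 h2 h3 h4
      (G_num (r := 0.3642) (by norm_num) (by norm_num) (by norm_num))
      (G_num (r := 0.3791) (by norm_num) (by norm_num) (by norm_num))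
      (G_num (r := 0.3756) (by norm_num) (by norm_num) (by norm_num))
      (G_num (r := 0.391) (by norm_num) (by norm_num) (by norm_num)))
  exact C.finish (γ := 0.618) (z0 := 0.71) (z1 := 0.27) (z2 := 0) (c01 := 0) (c02 := 0) (c12 := 0.02)
    (A0 := 0.72878) (A1 := 0.87686) (A2 := 1.01236) (B0 := 2) (B1 := 2) (B2 := 2.02472)
    (by norm_num) (by linarith [gd_gt]) (by norm_num) (by norm_num) (by norm_num) (by norm_num) (by norm_num) (by norm_num)
    (by norm_num) (by norm_num) (by norm_num) (by norm_num) (by norm_num) (by norm_num)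
    (le_trans (le_trans (by norm_num) H0) (C.cmp0 (by norm_num) (by norm_num) (by norm_num)))
    (lt_of_lt_of_le (lt_of_lt_of_le (by norm_num) H1) (C.cmp1 (by norm_num) (by norm_num) (by norm_num)))
    (lt_of_lt_of_le (lt_of_lt_of_le (by norm_num) H2) (C.cmp2 (by norm_num) (by norm_num) (by norm_num)))

theorem leaf6 (C : Cfg) (h1 : 0.564 ≤ C.a) (h2 : C.a ≤ 0.601) (h3 : 0.228 ≤ C.b) (h4 : C.b ≤ 0.247) (h5 : 0.171 ≤ C.c)
    (h6 : C.c ≤ 0.189) : False := by
  have H0 : (2.0001 : ℝ) ≤ G 0.79754 0.89304 0.92742 C.b C.c := (G_rect (m := 2.0001) (x0 := 0.228) (x1 := 0.247) (y0 := 0.171) (y1 := 0.189)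
      (by norm_num) (by norm_num) (by norm_num) (by norm_num) (by norm_num) (by norm_num) (by norm_num)
      h3 h4 h5 h6
      (G_num (r := 0.1974) (by norm_num) (by norm_num) (by norm_num))
      (G_num (r := 0.2075) (by norm_num) (by norm_num) (by norm_num))
      (G_num (r := 0.2055) (by norm_num) (by norm_num) (by norm_num))
      (G_num (r := 0.216) (by norm_num) (by norm_num) (by norm_num)))
  have H1 : (2.0001 : ℝ) ≤ G 0.89304 0.79754 0.92742 C.a C.c := (G_rect (m := 2.0001) (x0 := 0.564) (x1 := 0.601) (y0 := 0.171) (y1 := 0.189)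
      (by norm_num) (by norm_num) (by norm_num) (by norm_num) (by norm_num) (by norm_num) (by norm_num)
      h1 h2 h5 h6
      (G_num (r := 0.3105) (by norm_num) (by norm_num) (by norm_num))
      (G_num (r := 0.3264) (by norm_num) (by norm_num) (by norm_num))
      (G_num (r := 0.3205) (by norm_num) (by norm_num) (by norm_num))
      (G_num (r := 0.337) (by norm_num) (by norm_num) (by norm_num)))
  have H2 : (2.0001 : ℝ) ≤ G 0.92742 0.79754 0.89304 C.a C.b := (G_rect (m := 2.0001) (x0 := 0.564) (x1 := 0.601) (y0 := 0.228) (y1 := 0.247)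
      (by norm_num) (by norm_num) (by norm_num) (by norm_num) (by norm_num) (by norm_num) (by norm_num)
      h1 h2 h3 h4
      (G_num (r := 0.3585) (by norm_num) (by norm_num) (by norm_num))
      (G_num (r := 0.3732) (by norm_num) (by norm_num) (by norm_num))
      (G_num (r := 0.3701) (by norm_num) (by norm_num) (by norm_num))
      (G_num (r := 0.3852) (by norm_num) (by norm_num) (by norm_num)))
  exact C.finish (γ := 0.618) (z0 := 0.53) (z1 := 0.28) (z2 := 0.19) (c01 := 0) (c02 := 0) (c12 := 0)
    (A0 := 0.79754) (A1 := 0.89304) (A2 := 0.92742) (B0 := 2) (B1 := 2) (B2 := 2)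
    (by norm_num) (by linarith [gd_gt]) (by norm_num) (by norm_num) (by norm_num) (by norm_num) (by norm_num) (by norm_num)
    (by norm_num) (by norm_num) (by norm_num) (by norm_num) (by norm_num) (by norm_num)
    (le_trans (le_trans (by norm_num) H0) (C.cmp0 (by norm_num) (by norm_num) (by norm_num)))
    (lt_of_lt_of_le (lt_of_lt_of_le (by norm_num) H1) (C.cmp1 (by norm_num) (by norm_num) (by norm_num)))
    (lt_of_lt_of_le (lt_of_lt_of_le (by norm_num) H2) (C.cmp2 (by norm_num) (by norm_num) (by norm_num)))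

theorem leaf7 (C : Cfg) (h1 : 0.544 ≤ C.a) (h2 : C.a ≤ 0.6) (h3 : 0.247 ≤ C.b) (h4 : C.b ≤ 0.267) (h5 : 0.153 ≤ C.c)
    (h6 : C.c ≤ 0.189) : False := by
  have H0 : (2.0001 : ℝ) ≤ G 0.74788 0.87776 0.99236 C.b C.c := (G_rect (m := 2.0001) (x0 := 0.247) (x1 := 0.267) (y0 := 0.153) (y1 := 0.189)
      (by norm_num) (by norm_num) (by norm_num) (by norm_num) (by norm_num) (by norm_num) (by norm_num)
      h3 h4 h5 h6
      (G_num (r := 0.1943) (by norm_num) (by norm_num) (by norm_num))
      (G_num (r := 0.216) (by norm_num) (by norm_num) (by norm_num))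
      (G_num (r := 0.2021) (by norm_num) (by norm_num) (by norm_num))
      (G_num (r := 0.2246) (by norm_num) (by norm_num) (by norm_num)))
  have H1 : (2.0001 : ℝ) ≤ G 0.87776 0.74788 0.99236 C.a C.c := (G_rect (m := 2.0001) (x0 := 0.544) (x1 := 0.6) (y0 := 0.153) (y1 := 0.189)
      (by norm_num) (by norm_num) (by norm_num) (by norm_num) (by norm_num) (by norm_num) (by norm_num)
      h1 h2 h5 h6
      (G_num (r := 0.2884) (by norm_num) (by norm_num) (by norm_num))
      (G_num (r := 0.3206) (by norm_num) (by norm_num) (by norm_num))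
      (G_num (r := 0.3029) (by norm_num) (by norm_num) (by norm_num))
      (G_num (r := 0.3367) (by norm_num) (by norm_num) (by norm_num)))
  have H2 : (2.0001 : ℝ) ≤ G 0.99236 0.74788 0.87776 C.a C.b := (G_rect (m := 2.0001) (x0 := 0.544) (x1 := 0.6) (y0 := 0.247) (y1 := 0.267)
      (by norm_num) (by norm_num) (by norm_num) (by norm_num) (by norm_num) (by norm_num) (by norm_num)
      h1 h2 h3 h4
      (G_num (r := 0.3665) (by norm_num) (by norm_num) (by norm_num))
      (G_num (r := 0.3811) (by norm_num) (by norm_num) (by norm_num))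
      (G_num (r := 0.3849) (by norm_num) (by norm_num) (by norm_num))
      (G_num (r := 0.4002) (by norm_num) (by norm_num) (by norm_num)))
  exact C.finish (γ := 0.618) (z0 := 0.66) (z1 := 0.32) (z2 := 0.02) (c01 := 0) (c02 := 0) (c12 := 0)
    (A0 := 0.74788) (A1 := 0.87776) (A2 := 0.99236) (B0 := 2) (B1 := 2) (B2 := 2)
    (by norm_num) (by linarith [gd_gt]) (by norm_num) (by norm_num) (by norm_num) (by norm_num) (by norm_num) (by norm_num)
    (by norm_num) (by norm_num) (by norm_num) (by norm_num) (by norm_num) (by norm_num)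
    (le_trans (le_trans (by norm_num) H0) (C.cmp0 (by norm_num) (by norm_num) (by norm_num)))
    (lt_of_lt_of_le (lt_of_lt_of_le (by norm_num) H1) (C.cmp1 (by norm_num) (by norm_num) (by norm_num)))
    (lt_of_lt_of_le (lt_of_lt_of_le (by norm_num) H2) (C.cmp2 (by norm_num) (by norm_num) (by norm_num)))

theorem leaf8 (C : Cfg) (h1 : 0.577 ≤ C.a) (h2 : C.a ≤ 0.619) (h3 : 0.267 ≤ C.b) (h4 : C.b ≤ 0.306) (h5 : 0.075 ≤ C.c)
    (h6 : C.c ≤ 0.117) : False := by
  have H0 : (2.0001 : ℝ) ≤ G 0.67866 0.8281 1.11124 C.b C.c := (G_rect (m := 2.0001) (x0 := 0.267) (x1 := 0.306) (y0 := 0.075) (y1 := 0.117)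
      (by norm_num) (by norm_num) (by norm_num) (by norm_num) (by norm_num) (by norm_num) (by norm_num)
      h3 h4 h5 h6
      (G_num (r := 0.1415) (by norm_num) (by norm_num) (by norm_num))
      (G_num (r := 0.1767) (by norm_num) (by norm_num) (by norm_num))
      (G_num (r := 0.1514) (by norm_num) (by norm_num) (by norm_num))
      (G_num (r := 0.1892) (by norm_num) (by norm_num) (by norm_num)))
  have H1 : (2.0001 : ℝ) ≤ G 0.8281 0.67866 1.11124 C.a C.c := (G_rect (m := 2.0001) (x0 := 0.577) (x1 := 0.619) (y0 := 0.075) (y1 := 0.117)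
      (by norm_num) (by norm_num) (by norm_num) (by norm_num) (by norm_num) (by norm_num) (by norm_num)
      h1 h2 h5 h6
      (G_num (r := 0.208) (by norm_num) (by norm_num) (by norm_num))
      (G_num (r := 0.2598) (by norm_num) (by norm_num) (by norm_num))
      (G_num (r := 0.2154) (by norm_num) (by norm_num) (by norm_num))
      (G_num (r := 0.2691) (by norm_num) (by norm_num) (by norm_num)))
  have H2 : (2.22258 : ℝ) ≤ G 1.11124 0.67866 0.8281 C.a C.b := (G_rect (m := 2.22258) (x0 := 0.577) (x1 := 0.619) (y0 := 0.267) (y1 := 0.306)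
      (by norm_num) (by norm_num) (by norm_num) (by norm_num) (by norm_num) (by norm_num) (by norm_num)
      h1 h2 h3 h4
      (G_num (r := 0.3925) (by norm_num) (by norm_num) (by norm_num))
      (G_num (r := 0.4201) (by norm_num) (by norm_num) (by norm_num))
      (G_num (r := 0.4065) (by norm_num) (by norm_num) (by norm_num))
      (G_num (r := 0.4352) (by norm_num) (by norm_num) (by norm_num)))
  exact C.finish (γ := 0.618) (z0 := 0.37) (z1 := 0.45) (z2 := 0) (c01 := 0) (c02 := 0.18) (c12 := 0)
    (A0 := 0.67866) (A1 := 0.8281) (A2 := 1.11124) (B0 := 2) (B1 := 2) (B2 := 2.22248)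
    (by norm_num) (by linarith [gd_gt]) (by norm_num) (by norm_num) (by norm_num) (by norm_num) (by norm_num) (by norm_num)
    (by norm_num) (by norm_num) (by norm_num) (by norm_num) (by norm_num) (by norm_num)
    (le_trans (le_trans (by norm_num) H0) (C.cmp0 (by norm_num) (by norm_num) (by norm_num)))
    (lt_of_lt_of_le (lt_of_lt_of_le (by norm_num) H1) (C.cmp1 (by norm_num) (by norm_num) (by norm_num)))
    (lt_of_lt_of_le (lt_of_lt_of_le (by norm_num) H2) (C.cmp2 (by norm_num) (by norm_num) (by norm_num)))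

theorem leaf9 (C : Cfg) (h1 : 0.594 ≤ C.a) (h2 : C.a ≤ 0.619) (h3 : 0.306 ≤ C.b) (h4 : C.b ≤ 0.325) (h5 : 0.056 ≤ C.c)
    (h6 : C.c ≤ 0.081) : False := by
  have H0 : (2.0001 : ℝ) ≤ G 0.62136 0.8854 1.11124 C.b C.c := (G_rect (m := 2.0001) (x0 := 0.306) (x1 := 0.325) (y0 := 0.056) (y1 := 0.081)
      (by norm_num) (by norm_num) (by norm_num) (by norm_num) (by norm_num) (by norm_num) (by norm_num)
      h3 h4 h5 h6
      (G_num (r := 0.1309) (by norm_num) (by norm_num) (by norm_num))
      (G_num (r := 0.1574) (by norm_num) (by norm_num) (by norm_num))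
      (G_num (r := 0.1349) (by norm_num) (by norm_num) (by norm_num))
      (G_num (r := 0.1622) (by norm_num) (by norm_num) (by norm_num)))
  have H1 : (2.0001 : ℝ) ≤ G 0.8854 0.62136 1.11124 C.a C.c := (G_rect (m := 2.0001) (x0 := 0.594) (x1 := 0.619) (y0 := 0.056) (y1 := 0.081)
      (by norm_num) (by norm_num) (by norm_num) (by norm_num) (by norm_num) (by norm_num) (by norm_num)
      h1 h2 h5 h6
      (G_num (r := 0.1823) (by norm_num) (by norm_num) (by norm_num))
      (G_num (r := 0.2193) (by norm_num) (by norm_num) (by norm_num))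
      (G_num (r := 0.1861) (by norm_num) (by norm_num) (by norm_num))
      (G_num (r := 0.2239) (by norm_num) (by norm_num) (by norm_num)))
  have H2 : (2.22258 : ℝ) ≤ G 1.11124 0.62136 0.8854 C.a C.b := (G_rect (m := 2.22258) (x0 := 0.594) (x1 := 0.619) (y0 := 0.306) (y1 := 0.325)
      (by norm_num) (by norm_num) (by norm_num) (by norm_num) (by norm_num) (by norm_num) (by norm_num)
      h1 h2 h3 h4
      (G_num (r := 0.4263) (by norm_num) (by norm_num) (by norm_num))
      (G_num (r := 0.4393) (by norm_num) (by norm_num) (by norm_num))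
      (G_num (r := 0.4352) (by norm_num) (by norm_num) (by norm_num))
      (G_num (r := 0.4485) (by norm_num) (by norm_num) (by norm_num)))
  exact C.finish (γ := 0.618) (z0 := 0.52) (z1 := 0.3) (z2 := 0) (c01 := 0) (c02 := 0.18) (c12 := 0)
    (A0 := 0.62136) (A1 := 0.8854) (A2 := 1.11124) (B0 := 2) (B1 := 2) (B2 := 2.22248)
    (by norm_num) (by linarith [gd_gt]) (by norm_num) (by norm_num) (by norm_num) (by norm_num) (by norm_num) (by norm_num)
    (by norm_num) (by norm_num) (by norm_num) (by norm_num) (by norm_num) (by norm_num)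
    (le_trans (le_trans (by norm_num) H0) (C.cmp0 (by norm_num) (by norm_num) (by norm_num)))
    (lt_of_lt_of_le (lt_of_lt_of_le (by norm_num) H1) (C.cmp1 (by norm_num) (by norm_num) (by norm_num)))
    (lt_of_lt_of_le (lt_of_lt_of_le (by norm_num) H2) (C.cmp2 (by norm_num) (by norm_num) (by norm_num)))

theorem leaf10 (C : Cfg) (h1 : 0.602 ≤ C.a) (h2 : C.a ≤ 0.619) (h3 : 0.325 ≤ C.b) (h4 : C.b ≤ 0.335) (h5 : 0.046 ≤ C.c)
    (h6 : C.c ≤ 0.063) : False := by
  have H0 : (2.0001 : ℝ) ≤ G 0.33372 1.1236 1.16068 C.b C.c := (G_rect (m := 2.0001) (x0 := 0.325) (x1 := 0.335) (y0 := 0.046) (y1 := 0.063)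
      (by norm_num) (by norm_num) (by norm_num) (by norm_num) (by norm_num) (by norm_num) (by norm_num)
      h3 h4 h5 h6
      (G_num (r := 0.1222) (by norm_num) (by norm_num) (by norm_num))
      (G_num (r := 0.143) (by norm_num) (by norm_num) (by norm_num))
      (G_num (r := 0.1241) (by norm_num) (by norm_num) (by norm_num))
      (G_num (r := 0.1452) (by norm_num) (by norm_num) (by norm_num)))
  have H1 : (2.2473 : ℝ) ≤ G 1.1236 0.33372 1.16068 C.a C.c := (G_rect (m := 2.2473) (x0 := 0.602) (x1 := 0.619) (y0 := 0.046) (y1 := 0.063)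
      (by norm_num) (by norm_num) (by norm_num) (by norm_num) (by norm_num) (by norm_num) (by norm_num)
      h1 h2 h5 h6
      (G_num (r := 0.1664) (by norm_num) (by norm_num) (by norm_num))
      (G_num (r := 0.1947) (by norm_num) (by norm_num) (by norm_num))
      (G_num (r := 0.1687) (by norm_num) (by norm_num) (by norm_num))
      (G_num (r := 0.1974) (by norm_num) (by norm_num) (by norm_num)))
  have H2 : (2.32146 : ℝ) ≤ G 1.16068 0.33372 1.1236 C.a C.b := (G_rect (m := 2.32146) (x0 := 0.602) (x1 := 0.619) (y0 := 0.325) (y1 := 0.335)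
      (by norm_num) (by norm_num) (by norm_num) (by norm_num) (by norm_num) (by norm_num) (by norm_num)
      h1 h2 h3 h4
      (G_num (r := 0.4423) (by norm_num) (by norm_num) (by norm_num))
      (G_num (r := 0.449) (by norm_num) (by norm_num) (by norm_num))
      (G_num (r := 0.4485) (by norm_num) (by norm_num) (by norm_num))
      (G_num (r := 0.4553) (by norm_num) (by norm_num) (by norm_num)))
  exact C.finish (γ := 0.618) (z0 := 0.54) (z1 := 0) (z2 := 0) (c01 := 0.2) (c02 := 0.26) (c12 := 0)
    (A0 := 0.33372) (A1 := 1.1236) (A2 := 1.16068) (B0 := 2) (B1 := 2.2472) (B2 := 2.32136)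
    (by norm_num) (by linarith [gd_gt]) (by norm_num) (by norm_num) (by norm_num) (by norm_num) (by norm_num) (by norm_num)
    (by norm_num) (by norm_num) (by norm_num) (by norm_num) (by norm_num) (by norm_num)
    (le_trans (le_trans (by norm_num) H0) (C.cmp0 (by norm_num) (by norm_num) (by norm_num)))
    (lt_of_lt_of_le (lt_of_lt_of_le (by norm_num) H1) (C.cmp1 (by norm_num) (by norm_num) (by norm_num)))
    (lt_of_lt_of_le (lt_of_lt_of_le (by norm_num) H2) (C.cmp2 (by norm_num) (by norm_num) (by norm_num)))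

theorem leaf11 (C : Cfg) (h1 : 0.606 ≤ C.a) (h2 : C.a ≤ 0.619) (h3 : 0.335 ≤ C.b) (h4 : C.b ≤ 0.34) (h5 : 0.045 ≤ C.c)
    (h6 : C.c ≤ 0.054) : False := by
  have H0 : (2.0001 : ℝ) ≤ G 0.35844 1.11742 1.14214 C.b C.c := (G_rect (m := 2.0001) (x0 := 0.335) (x1 := 0.34) (y0 := 0.045) (y1 := 0.054)
      (by norm_num) (by norm_num) (by norm_num) (by norm_num) (by norm_num) (by norm_num) (by norm_num)
      h3 h4 h5 h6
      (G_num (r := 0.1227) (by norm_num) (by norm_num) (by norm_num))
      (G_num (r := 0.1344) (by norm_num) (by norm_num) (by norm_num))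
      (G_num (r := 0.1236) (by norm_num) (by norm_num) (by norm_num))
      (G_num (r := 0.1354) (by norm_num) (by norm_num) (by norm_num)))
  have H1 : (2.23494 : ℝ) ≤ G 1.11742 0.35844 1.14214 C.a C.c := (G_rect (m := 2.23494) (x0 := 0.606) (x1 := 0.619) (y0 := 0.045) (y1 := 0.054)
      (by norm_num) (by norm_num) (by norm_num) (by norm_num) (by norm_num) (by norm_num) (by norm_num)
      h1 h2 h5 h6
      (G_num (r := 0.1651) (by norm_num) (by norm_num) (by norm_num))
      (G_num (r := 0.1808) (by norm_num) (by norm_num) (by norm_num))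
      (G_num (r := 0.1668) (by norm_num) (by norm_num) (by norm_num))
      (G_num (r := 0.1828) (by norm_num) (by norm_num) (by norm_num)))
  have H2 : (2.28438 : ℝ) ≤ G 1.14214 0.35844 1.11742 C.a C.b := (G_rect (m := 2.28438) (x0 := 0.606) (x1 := 0.619) (y0 := 0.335) (y1 := 0.34)
      (by norm_num) (by norm_num) (by norm_num) (by norm_num) (by norm_num) (by norm_num) (by norm_num)
      h1 h2 h3 h4
      (G_num (r := 0.4505) (by norm_num) (by norm_num) (by norm_num))
      (G_num (r := 0.4539) (by norm_num) (by norm_num) (by norm_num))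
      (G_num (r := 0.4553) (by norm_num) (by norm_num) (by norm_num))
      (G_num (r := 0.4587) (by norm_num) (by norm_num) (by norm_num)))
  exact C.finish (γ := 0.618) (z0 := 0.58) (z1 := 0) (z2 := 0) (c01 := 0.19) (c02 := 0.23) (c12 := 0)
    (A0 := 0.35844) (A1 := 1.11742) (A2 := 1.14214) (B0 := 2) (B1 := 2.23484) (B2 := 2.28428)
    (by norm_num) (by linarith [gd_gt]) (by norm_num) (by norm_num) (by norm_num) (by norm_num) (by norm_num) (by norm_num)
    (by norm_num) (by norm_num) (by norm_num) (by norm_num) (by norm_num) (by norm_num)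
    (le_trans (le_trans (by norm_num) H0) (C.cmp0 (by norm_num) (by norm_num) (by norm_num)))
    (lt_of_lt_of_le (lt_of_lt_of_le (by norm_num) H1) (C.cmp1 (by norm_num) (by norm_num) (by norm_num)))
    (lt_of_lt_of_le (lt_of_lt_of_le (by norm_num) H2) (C.cmp2 (by norm_num) (by norm_num) (by norm_num)))

theorem leaf12 (C : Cfg) (h1 : 0.606 ≤ C.a) (h2 : C.a ≤ 0.615) (h3 : 0.34 ≤ C.b) (h4 : C.b ≤ 0.345) (h5 : 0.045 ≤ C.c)
    (h6 : C.c ≤ 0.049) : False := by
  have H0 : (2.0001 : ℝ) ≤ G 0.35844 1.11742 1.14214 C.b C.c := (G_rect (m := 2.0001) (x0 := 0.34) (x1 := 0.345) (y0 := 0.045) (y1 := 0.049)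
      (by norm_num) (by norm_num) (by norm_num) (by norm_num) (by norm_num) (by norm_num) (by norm_num)
      h3 h4 h5 h6
      (G_num (r := 0.1236) (by norm_num) (by norm_num) (by norm_num))
      (G_num (r := 0.129) (by norm_num) (by norm_num) (by norm_num))
      (G_num (r := 0.1245) (by norm_num) (by norm_num) (by norm_num))
      (G_num (r := 0.13) (by norm_num) (by norm_num) (by norm_num)))
  have H1 : (2.23494 : ℝ) ≤ G 1.11742 0.35844 1.14214 C.a C.c := (G_rect (m := 2.23494) (x0 := 0.606) (x1 := 0.615) (y0 := 0.045) (y1 := 0.049)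
      (by norm_num) (by norm_num) (by norm_num) (by norm_num) (by norm_num) (by norm_num) (by norm_num)
      h1 h2 h5 h6
      (G_num (r := 0.1651) (by norm_num) (by norm_num) (by norm_num))
      (G_num (r := 0.1723) (by norm_num) (by norm_num) (by norm_num))
      (G_num (r := 0.1663) (by norm_num) (by norm_num) (by norm_num))
      (G_num (r := 0.1735) (by norm_num) (by norm_num) (by norm_num)))
  have H2 : (2.28438 : ℝ) ≤ G 1.14214 0.35844 1.11742 C.a C.b := (G_rect (m := 2.28438) (x0 := 0.606) (x1 := 0.615) (y0 := 0.34) (y1 := 0.345)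
      (by norm_num) (by norm_num) (by norm_num) (by norm_num) (by norm_num) (by norm_num) (by norm_num)
      h1 h2 h3 h4
      (G_num (r := 0.4539) (by norm_num) (by norm_num) (by norm_num))
      (G_num (r := 0.4572) (by norm_num) (by norm_num) (by norm_num))
      (G_num (r := 0.4572) (by norm_num) (by norm_num) (by norm_num))
      (G_num (r := 0.4606) (by norm_num) (by norm_num) (by norm_num)))
  exact C.finish (γ := 0.618) (z0 := 0.58) (z1 := 0) (z2 := 0) (c01 := 0.19) (c02 := 0.23) (c12 := 0)
    (A0 := 0.35844) (A1 := 1.11742) (A2 := 1.14214) (B0 := 2) (B1 := 2.23484) (B2 := 2.28428)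
    (by norm_num) (by linarith [gd_gt]) (by norm_num) (by norm_num) (by norm_num) (by norm_num) (by norm_num) (by norm_num)
    (by norm_num) (by norm_num) (by norm_num) (by norm_num) (by norm_num) (by norm_num)
    (le_trans (le_trans (by norm_num) H0) (C.cmp0 (by norm_num) (by norm_num) (by norm_num)))
    (lt_of_lt_of_le (lt_of_lt_of_le (by norm_num) H1) (C.cmp1 (by norm_num) (by norm_num) (by norm_num)))
    (lt_of_lt_of_le (lt_of_lt_of_le (by norm_num) H2) (C.cmp2 (by norm_num) (by norm_num) (by norm_num)))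

theorem leaf13 (C : Cfg) (h1 : 0.601 ≤ C.a) (h2 : C.a ≤ 0.611) (h3 : 0.34 ≤ C.b) (h4 : C.b ≤ 0.345) (h5 : 0.049 ≤ C.c)
    (h6 : C.c ≤ 0.054) : False := by
  have H0 : (2.0001 : ℝ) ≤ G 0.32754 1.12978 1.16068 C.b C.c := (G_rect (m := 2.0001) (x0 := 0.34) (x1 := 0.345) (y0 := 0.049) (y1 := 0.054)
      (by norm_num) (by norm_num) (by norm_num) (by norm_num) (by norm_num) (by norm_num) (by norm_num)
      h3 h4 h5 h6
      (G_num (r := 0.129) (by norm_num) (by norm_num) (by norm_num))
      (G_num (r := 0.1354) (by norm_num) (by norm_num) (by norm_num))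
      (G_num (r := 0.13) (by norm_num) (by norm_num) (by norm_num))
      (G_num (r := 0.1364) (by norm_num) (by norm_num) (by norm_num)))
  have H1 : (2.25966 : ℝ) ≤ G 1.12978 0.32754 1.16068 C.a C.c := (G_rect (m := 2.25966) (x0 := 0.601) (x1 := 0.611) (y0 := 0.049) (y1 := 0.054)
      (by norm_num) (by norm_num) (by norm_num) (by norm_num) (by norm_num) (by norm_num) (by norm_num)
      h1 h2 h5 h6
      (G_num (r := 0.1716) (by norm_num) (by norm_num) (by norm_num))
      (G_num (r := 0.1801) (by norm_num) (by norm_num) (by norm_num))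
      (G_num (r := 0.173) (by norm_num) (by norm_num) (by norm_num))
      (G_num (r := 0.1816) (by norm_num) (by norm_num) (by norm_num)))
  have H2 : (2.32146 : ℝ) ≤ G 1.16068 0.32754 1.12978 C.a C.b := (G_rect (m := 2.32146) (x0 := 0.601) (x1 := 0.611) (y0 := 0.34) (y1 := 0.345)
      (by norm_num) (by norm_num) (by norm_num) (by norm_num) (by norm_num) (by norm_num) (by norm_num)
      h1 h2 h3 h4
      (G_num (r := 0.452) (by norm_num) (by norm_num) (by norm_num))
      (G_num (r := 0.4553) (by norm_num) (by norm_num) (by norm_num))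
      (G_num (r := 0.4557) (by norm_num) (by norm_num) (by norm_num))
      (G_num (r := 0.4591) (by norm_num) (by norm_num) (by norm_num)))
  exact C.finish (γ := 0.618) (z0 := 0.53) (z1 := 0) (z2 := 0) (c01 := 0.21) (c02 := 0.26) (c12 := 0)
    (A0 := 0.32754) (A1 := 1.12978) (A2 := 1.16068) (B0 := 2) (B1 := 2.25956) (B2 := 2.32136)
    (by norm_num) (by linarith [gd_gt]) (by norm_num) (by norm_num) (by norm_num) (by norm_num) (by norm_num) (by norm_num)
    (by norm_num) (by norm_num) (by norm_num) (by norm_num) (by norm_num) (by norm_num)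
    (le_trans (le_trans (by norm_num) H0) (C.cmp0 (by norm_num) (by norm_num) (by norm_num)))
    (lt_of_lt_of_le (lt_of_lt_of_le (by norm_num) H1) (C.cmp1 (by norm_num) (by norm_num) (by norm_num)))
    (lt_of_lt_of_le (lt_of_lt_of_le (by norm_num) H2) (C.cmp2 (by norm_num) (by norm_num) (by norm_num)))

theorem leaf14 (C : Cfg) (h1 : 0.597 ≤ C.a) (h2 : C.a ≤ 0.611) (h3 : 0.335 ≤ C.b) (h4 : C.b ≤ 0.34) (h5 : 0.054 ≤ C.c)
    (h6 : C.c ≤ 0.063) : False := by
  have H0 : (2.0001 : ℝ) ≤ G 0.59754 0.89686 1.1236 C.b C.c := (G_rect (m := 2.0001) (x0 := 0.335) (x1 := 0.34) (y0 := 0.054) (y1 := 0.063)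
      (by norm_num) (by norm_num) (by norm_num) (by norm_num) (by norm_num) (by norm_num) (by norm_num)
      h3 h4 h5 h6
      (G_num (r := 0.1344) (by norm_num) (by norm_num) (by norm_num))
      (G_num (r := 0.1452) (by norm_num) (by norm_num) (by norm_num))
      (G_num (r := 0.1354) (by norm_num) (by norm_num) (by norm_num))
      (G_num (r := 0.1463) (by norm_num) (by norm_num) (by norm_num)))
  have H1 : (2.0001 : ℝ) ≤ G 0.89686 0.59754 1.1236 C.a C.c := (G_rect (m := 2.0001) (x0 := 0.597) (x1 := 0.611) (y0 := 0.054) (y1 := 0.063)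
      (by norm_num) (by norm_num) (by norm_num) (by norm_num) (by norm_num) (by norm_num) (by norm_num)
      h1 h2 h5 h6
      (G_num (r := 0.1795) (by norm_num) (by norm_num) (by norm_num))
      (G_num (r := 0.1939) (by norm_num) (by norm_num) (by norm_num))
      (G_num (r := 0.1816) (by norm_num) (by norm_num) (by norm_num))
      (G_num (r := 0.1961) (by norm_num) (by norm_num) (by norm_num)))
  have H2 : (2.2473 : ℝ) ≤ G 1.1236 0.59754 0.89686 C.a C.b := (G_rect (m := 2.2473) (x0 := 0.597) (x1 := 0.611) (y0 := 0.335) (y1 := 0.34)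
      (by norm_num) (by norm_num) (by norm_num) (by norm_num) (by norm_num) (by norm_num) (by norm_num)
      h1 h2 h3 h4
      (G_num (r := 0.4472) (by norm_num) (by norm_num) (by norm_num))
      (G_num (r := 0.4505) (by norm_num) (by norm_num) (by norm_num))
      (G_num (r := 0.4524) (by norm_num) (by norm_num) (by norm_num))
      (G_num (r := 0.4557) (by norm_num) (by norm_num) (by norm_num)))
  exact C.finish (γ := 0.618) (z0 := 0.53) (z1 := 0.27) (z2 := 0) (c01 := 0) (c02 := 0.2) (c12 := 0)
    (A0 := 0.59754) (A1 := 0.89686) (A2 := 1.1236) (B0 := 2) (B1 := 2) (B2 := 2.2472)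
    (by norm_num) (by linarith [gd_gt]) (by norm_num) (by norm_num) (by norm_num) (by norm_num) (by norm_num) (by norm_num)
    (by norm_num) (by norm_num) (by norm_num) (by norm_num) (by norm_num) (by norm_num)
    (le_trans (le_trans (by norm_num) H0) (C.cmp0 (by norm_num) (by norm_num) (by norm_num)))
    (lt_of_lt_of_le (lt_of_lt_of_le (by norm_num) H1) (C.cmp1 (by norm_num) (by norm_num) (by norm_num)))
    (lt_of_lt_of_le (lt_of_lt_of_le (by norm_num) H2) (C.cmp2 (by norm_num) (by norm_num) (by norm_num)))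

theorem leaf15 (C : Cfg) (h1 : 0.592 ≤ C.a) (h2 : C.a ≤ 0.606) (h3 : 0.34 ≤ C.b) (h4 : C.b ≤ 0.345) (h5 : 0.054 ≤ C.c)
    (h6 : C.c ≤ 0.063) : False := by
  have H0 : (2.0001 : ℝ) ≤ G 0.599 0.88922 1.12978 C.b C.c := (G_rect (m := 2.0001) (x0 := 0.34) (x1 := 0.345) (y0 := 0.054) (y1 := 0.063)
      (by norm_num) (by norm_num) (by norm_num) (by norm_num) (by norm_num) (by norm_num) (by norm_num)
      h3 h4 h5 h6
      (G_num (r := 0.1354) (by norm_num) (by norm_num) (by norm_num))
      (G_num (r := 0.1463) (by norm_num) (by norm_num) (by norm_num))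
      (G_num (r := 0.1364) (by norm_num) (by norm_num) (by norm_num))
      (G_num (r := 0.1474) (by norm_num) (by norm_num) (by norm_num)))
  have H1 : (2.0001 : ℝ) ≤ G 0.88922 0.599 1.12978 C.a C.c := (G_rect (m := 2.0001) (x0 := 0.592) (x1 := 0.606) (y0 := 0.054) (y1 := 0.063)
      (by norm_num) (by norm_num) (by norm_num) (by norm_num) (by norm_num) (by norm_num) (by norm_num)
      h1 h2 h5 h6
      (G_num (r := 0.1787) (by norm_num) (by norm_num) (by norm_num))
      (G_num (r := 0.1931) (by norm_num) (by norm_num) (by norm_num))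
      (G_num (r := 0.1808) (by norm_num) (by norm_num) (by norm_num))
      (G_num (r := 0.1953) (by norm_num) (by norm_num) (by norm_num)))
  have H2 : (2.25966 : ℝ) ≤ G 1.12978 0.599 0.88922 C.a C.b := (G_rect (m := 2.25966) (x0 := 0.592) (x1 := 0.606) (y0 := 0.34) (y1 := 0.345)
      (by norm_num) (by norm_num) (by norm_num) (by norm_num) (by norm_num) (by norm_num) (by norm_num)
      h1 h2 h3 h4
      (G_num (r := 0.4486) (by norm_num) (by norm_num) (by norm_num))
      (G_num (r := 0.4519) (by norm_num) (by norm_num) (by norm_num))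
      (G_num (r := 0.4539) (by norm_num) (by norm_num) (by norm_num))
      (G_num (r := 0.4572) (by norm_num) (by norm_num) (by norm_num)))
  exact C.finish (γ := 0.618) (z0 := 0.5) (z1 := 0.29) (z2 := 0) (c01 := 0) (c02 := 0.21) (c12 := 0)
    (A0 := 0.599) (A1 := 0.88922) (A2 := 1.12978) (B0 := 2) (B1 := 2) (B2 := 2.25956)
    (by norm_num) (by linarith [gd_gt]) (by norm_num) (by norm_num) (by norm_num) (by norm_num) (by norm_num) (by norm_num)
    (by norm_num) (by norm_num) (by norm_num) (by norm_num) (by norm_num) (by norm_num)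
    (le_trans (le_trans (by norm_num) H0) (C.cmp0 (by norm_num) (by norm_num) (by norm_num)))
    (lt_of_lt_of_le (lt_of_lt_of_le (by norm_num) H1) (C.cmp1 (by norm_num) (by norm_num) (by norm_num)))
    (lt_of_lt_of_le (lt_of_lt_of_le (by norm_num) H2) (C.cmp2 (by norm_num) (by norm_num) (by norm_num)))

theorem leaf16 (C : Cfg) (h1 : 0.574 ≤ C.a) (h2 : C.a ≤ 0.612) (h3 : 0.325 ≤ C.b) (h4 : C.b ≤ 0.345) (h5 : 0.063 ≤ C.c)
    (h6 : C.c ≤ 0.081) : False := by
  have H0 : (2.0001 : ℝ) ≤ G 0.71248 0.81282 1.0927 C.b C.c := (G_rect (m := 2.0001) (x0 := 0.325) (x1 := 0.345) (y0 := 0.063) (y1 := 0.081)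
      (by norm_num) (by norm_num) (by norm_num) (by norm_num) (by norm_num) (by norm_num) (by norm_num)
      h3 h4 h5 h6
      (G_num (r := 0.143) (by norm_num) (by norm_num) (by norm_num))
      (G_num (r := 0.1622) (by norm_num) (by norm_num) (by norm_num))
      (G_num (r := 0.1474) (by norm_num) (by norm_num) (by norm_num))
      (G_num (r := 0.1671) (by norm_num) (by norm_num) (by norm_num)))
  have H1 : (2.0001 : ℝ) ≤ G 0.81282 0.71248 1.0927 C.a C.c := (G_rect (m := 2.0001) (x0 := 0.574) (x1 := 0.612) (y0 := 0.063) (y1 := 0.081)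
      (by norm_num) (by norm_num) (by norm_num) (by norm_num) (by norm_num) (by norm_num) (by norm_num)
      h1 h2 h5 h6
      (G_num (r := 0.1901) (by norm_num) (by norm_num) (by norm_num))
      (G_num (r := 0.2156) (by norm_num) (by norm_num) (by norm_num))
      (G_num (r := 0.1963) (by norm_num) (by norm_num) (by norm_num))
      (G_num (r := 0.2226) (by norm_num) (by norm_num) (by norm_num)))
  have H2 : (2.1855 : ℝ) ≤ G 1.0927 0.71248 0.81282 C.a C.b := (G_rect (m := 2.1855) (x0 := 0.574) (x1 := 0.612) (y0 := 0.325) (y1 := 0.345)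
      (by norm_num) (by norm_num) (by norm_num) (by norm_num) (by norm_num) (by norm_num) (by norm_num)
      h1 h2 h3 h4
      (G_num (r := 0.4319) (by norm_num) (by norm_num) (by norm_num))
      (G_num (r := 0.445) (by norm_num) (by norm_num) (by norm_num))
      (G_num (r := 0.4459) (by norm_num) (by norm_num) (by norm_num))
      (G_num (r := 0.4594) (by norm_num) (by norm_num) (by norm_num)))
  exact C.finish (γ := 0.618) (z0 := 0.36) (z1 := 0.49) (z2 := 0) (c01 := 0) (c02 := 0.15) (c12 := 0)
    (A0 := 0.71248) (A1 := 0.81282) (A2 := 1.0927) (B0 := 2) (B1 := 2) (B2 := 2.1854)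
    (by norm_num) (by linarith [gd_gt]) (by norm_num) (by norm_num) (by norm_num) (by norm_num) (by norm_num) (by norm_num)
    (by norm_num) (by norm_num) (by norm_num) (by norm_num) (by norm_num) (by norm_num)
    (le_trans (le_trans (by norm_num) H0) (C.cmp0 (by norm_num) (by norm_num) (by norm_num)))
    (lt_of_lt_of_le (lt_of_lt_of_le (by norm_num) H1) (C.cmp1 (by norm_num) (by norm_num) (by norm_num)))
    (lt_of_lt_of_le (lt_of_lt_of_le (by norm_num) H2) (C.cmp2 (by norm_num) (by norm_num) (by norm_num)))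

theorem leaf17 (C : Cfg) (h1 : 0.538 ≤ C.a) (h2 : C.a ≤ 0.613) (h3 : 0.306 ≤ C.b) (h4 : C.b ≤ 0.345) (h5 : 0.081 ≤ C.c)
    (h6 : C.c ≤ 0.117) : False := by
  have H0 : (2.0001 : ℝ) ≤ G 0.7272 0.81664 1.07416 C.b C.c := (G_rect (m := 2.0001) (x0 := 0.306) (x1 := 0.345) (y0 := 0.081) (y1 := 0.117)
      (by norm_num) (by norm_num) (by norm_num) (by norm_num) (by norm_num) (by norm_num) (by norm_num)
      h3 h4 h5 h6
      (G_num (r := 0.1574) (by norm_num) (by norm_num) (by norm_num))
      (G_num (r := 0.1892) (by norm_num) (by norm_num) (by norm_num))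
      (G_num (r := 0.1671) (by norm_num) (by norm_num) (by norm_num))
      (G_num (r := 0.2009) (by norm_num) (by norm_num) (by norm_num)))
  have H1 : (2.0001 : ℝ) ≤ G 0.81664 0.7272 1.07416 C.a C.c := (G_rect (m := 2.0001) (x0 := 0.538) (x1 := 0.613) (y0 := 0.081) (y1 := 0.117)
      (by norm_num) (by norm_num) (by norm_num) (by norm_num) (by norm_num) (by norm_num) (by norm_num)
      h1 h2 h5 h6
      (G_num (r := 0.2087) (by norm_num) (by norm_num) (by norm_num))
      (G_num (r := 0.2508) (by norm_num) (by norm_num) (by norm_num))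
      (G_num (r := 0.2228) (by norm_num) (by norm_num) (by norm_num))
      (G_num (r := 0.2678) (by norm_num) (by norm_num) (by norm_num)))
  have H2 : (2.14842 : ℝ) ≤ G 1.07416 0.7272 0.81664 C.a C.b := (G_rect (m := 2.14842) (x0 := 0.538) (x1 := 0.613) (y0 := 0.306) (y1 := 0.345)
      (by norm_num) (by norm_num) (by norm_num) (by norm_num) (by norm_num) (by norm_num) (by norm_num)
      h1 h2 h3 h4
      (G_num (r := 0.4057) (by norm_num) (by norm_num) (by norm_num))
      (G_num (r := 0.4308) (by norm_num) (by norm_num) (by norm_num))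
      (G_num (r := 0.4331) (by norm_num) (by norm_num) (by norm_num))
      (G_num (r := 0.4598) (by norm_num) (by norm_num) (by norm_num)))
  exact C.finish (γ := 0.618) (z0 := 0.4) (z1 := 0.48) (z2 := 0) (c01 := 0) (c02 := 0.12) (c12 := 0)
    (A0 := 0.7272) (A1 := 0.81664) (A2 := 1.07416) (B0 := 2) (B1 := 2) (B2 := 2.14832)
    (by norm_num) (by linarith [gd_gt]) (by norm_num) (by norm_num) (by norm_num) (by norm_num) (by norm_num) (by norm_num)
    (by norm_num) (by norm_num) (by norm_num) (by norm_num) (by norm_num) (by norm_num)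
    (le_trans (le_trans (by norm_num) H0) (C.cmp0 (by norm_num) (by norm_num) (by norm_num)))
    (lt_of_lt_of_le (lt_of_lt_of_le (by norm_num) H1) (C.cmp1 (by norm_num) (by norm_num) (by norm_num)))
    (lt_of_lt_of_le (lt_of_lt_of_le (by norm_num) H2) (C.cmp2 (by norm_num) (by norm_num) (by norm_num)))

theorem leaf18 (C : Cfg) (h1 : 0.541 ≤ C.a) (h2 : C.a ≤ 0.616) (h3 : 0.267 ≤ C.b) (h4 : C.b ≤ 0.306) (h5 : 0.117 ≤ C.c)
    (h6 : C.c ≤ 0.153) : False := by
  have H0 : (2.0001 : ℝ) ≤ G 0.7326 0.8545 1.0309 C.b C.c := (G_rect (m := 2.0001) (x0 := 0.267) (x1 := 0.306) (y0 := 0.117) (y1 := 0.153)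
      (by norm_num) (by norm_num) (by norm_num) (by norm_num) (by norm_num) (by norm_num) (by norm_num)
      h3 h4 h5 h6
      (G_num (r := 0.1767) (by norm_num) (by norm_num) (by norm_num))
      (G_num (r := 0.2021) (by norm_num) (by norm_num) (by norm_num))
      (G_num (r := 0.1892) (by norm_num) (by norm_num) (by norm_num))
      (G_num (r := 0.2163) (by norm_num) (by norm_num) (by norm_num)))
  have H1 : (2.0001 : ℝ) ≤ G 0.8545 0.7326 1.0309 C.a C.c := (G_rect (m := 2.0001) (x0 := 0.541) (x1 := 0.616) (y0 := 0.117) (y1 := 0.153)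
      (by norm_num) (by norm_num) (by norm_num) (by norm_num) (by norm_num) (by norm_num) (by norm_num)
      h1 h2 h5 h6
      (G_num (r := 0.2515) (by norm_num) (by norm_num) (by norm_num))
      (G_num (r := 0.2877) (by norm_num) (by norm_num) (by norm_num))
      (G_num (r := 0.2684) (by norm_num) (by norm_num) (by norm_num))
      (G_num (r := 0.3069) (by norm_num) (by norm_num) (by norm_num)))
  have H2 : (2.0619 : ℝ) ≤ G 1.0309 0.7326 0.8545 C.a C.b := (G_rect (m := 2.0619) (x0 := 0.541) (x1 := 0.616) (y0 := 0.267) (y1 := 0.306)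
      (by norm_num) (by norm_num) (by norm_num) (by norm_num) (by norm_num) (by norm_num) (by norm_num)
      h1 h2 h3 h4
      (G_num (r := 0.38) (by norm_num) (by norm_num) (by norm_num))
      (G_num (r := 0.4068) (by norm_num) (by norm_num) (by norm_num))
      (G_num (r := 0.4055) (by norm_num) (by norm_num) (by norm_num))
      (G_num (r := 0.4341) (by norm_num) (by norm_num) (by norm_num)))
  exact C.finish (γ := 0.618) (z0 := 0.7) (z1 := 0.25) (z2 := 0) (c01 := 0) (c02 := 0) (c12 := 0.05)
    (A0 := 0.7326) (A1 := 0.8545) (A2 := 1.0309) (B0 := 2) (B1 := 2) (B2 := 2.0618)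
    (by norm_num) (by linarith [gd_gt]) (by norm_num) (by norm_num) (by norm_num) (by norm_num) (by norm_num) (by norm_num)
    (by norm_num) (by norm_num) (by norm_num) (by norm_num) (by norm_num) (by norm_num)
    (le_trans (le_trans (by norm_num) H0) (C.cmp0 (by norm_num) (by norm_num) (by norm_num)))
    (lt_of_lt_of_le (lt_of_lt_of_le (by norm_num) H1) (C.cmp1 (by norm_num) (by norm_num) (by norm_num)))
    (lt_of_lt_of_le (lt_of_lt_of_le (by norm_num) H2) (C.cmp2 (by norm_num) (by norm_num) (by norm_num)))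

theorem leaf19 (C : Cfg) (h1 : 0.505 ≤ C.a) (h2 : C.a ≤ 0.58) (h3 : 0.267 ≤ C.b) (h4 : C.b ≤ 0.306) (h5 : 0.153 ≤ C.c)
    (h6 : C.c ≤ 0.189) : False := by
  have H0 : (2.0001 : ℝ) ≤ G 0.79372 0.87776 0.94652 C.b C.c := (G_rect (m := 2.0001) (x0 := 0.267) (x1 := 0.306) (y0 := 0.153) (y1 := 0.189)
      (by norm_num) (by norm_num) (by norm_num) (by norm_num) (by norm_num) (by norm_num) (by norm_num)
      h3 h4 h5 h6
      (G_num (r := 0.2021) (by norm_num) (by norm_num) (by norm_num))
      (G_num (r := 0.2246) (by norm_num) (by norm_num) (by norm_num))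
      (G_num (r := 0.2163) (by norm_num) (by norm_num) (by norm_num))
      (G_num (r := 0.2404) (by norm_num) (by norm_num) (by norm_num)))
  have H1 : (2.0001 : ℝ) ≤ G 0.87776 0.79372 0.94652 C.a C.c := (G_rect (m := 2.0001) (x0 := 0.505) (x1 := 0.58) (y0 := 0.153) (y1 := 0.189)
      (by norm_num) (by norm_num) (by norm_num) (by norm_num) (by norm_num) (by norm_num) (by norm_num)
      h1 h2 h5 h6
      (G_num (r := 0.2779) (by norm_num) (by norm_num) (by norm_num))
      (G_num (r := 0.3089) (by norm_num) (by norm_num) (by norm_num))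
      (G_num (r := 0.2978) (by norm_num) (by norm_num) (by norm_num))
      (G_num (r := 0.331) (by norm_num) (by norm_num) (by norm_num)))
  have H2 : (2.0001 : ℝ) ≤ G 0.94652 0.79372 0.87776 C.a C.b := (G_rect (m := 2.0001) (x0 := 0.505) (x1 := 0.58) (y0 := 0.267) (y1 := 0.306)
      (by norm_num) (by norm_num) (by norm_num) (by norm_num) (by norm_num) (by norm_num) (by norm_num)
      h1 h2 h3 h4
      (G_num (r := 0.3671) (by norm_num) (by norm_num) (by norm_num))
      (G_num (r := 0.3931) (by norm_num) (by norm_num) (by norm_num))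
      (G_num (r := 0.3935) (by norm_num) (by norm_num) (by norm_num))
      (G_num (r := 0.4212) (by norm_num) (by norm_num) (by norm_num)))
  exact C.finish (γ := 0.618) (z0 := 0.54) (z1 := 0.32) (z2 := 0.14) (c01 := 0) (c02 := 0) (c12 := 0)
    (A0 := 0.79372) (A1 := 0.87776) (A2 := 0.94652) (B0 := 2) (B1 := 2) (B2 := 2)
    (by norm_num) (by linarith [gd_gt]) (by norm_num) (by norm_num) (by norm_num) (by norm_num) (by norm_num) (by norm_num)
    (by norm_num) (by norm_num) (by norm_num) (by norm_num) (by norm_num) (by norm_num)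
    (le_trans (le_trans (by norm_num) H0) (C.cmp0 (by norm_num) (by norm_num) (by norm_num)))
    (lt_of_lt_of_le (lt_of_lt_of_le (by norm_num) H1) (C.cmp1 (by norm_num) (by norm_num) (by norm_num)))
    (lt_of_lt_of_le (lt_of_lt_of_le (by norm_num) H2) (C.cmp2 (by norm_num) (by norm_num) (by norm_num)))

theorem leaf20 (C : Cfg) (h1 : 0.502 ≤ C.a) (h2 : C.a ≤ 0.577) (h3 : 0.306 ≤ C.b) (h4 : C.b ≤ 0.345) (h5 : 0.117 ≤ C.c)
    (h6 : C.c ≤ 0.153) : False := by
  have H0 : (2.0001 : ℝ) ≤ G 0.7517 0.8354 1.0309 C.b C.c := (G_rect (m := 2.0001) (x0 := 0.306) (x1 := 0.345) (y0 := 0.117) (y1 := 0.153)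
      (by norm_num) (by norm_num) (by norm_num) (by norm_num) (by norm_num) (by norm_num) (by norm_num)
      h3 h4 h5 h6
      (G_num (r := 0.1892) (by norm_num) (by norm_num) (by norm_num))
      (G_num (r := 0.2163) (by norm_num) (by norm_num) (by norm_num))
      (G_num (r := 0.2009) (by norm_num) (by norm_num) (by norm_num))
      (G_num (r := 0.2297) (by norm_num) (by norm_num) (by norm_num)))
  have H1 : (2.0001 : ℝ) ≤ G 0.8354 0.7517 1.0309 C.a C.c := (G_rect (m := 2.0001) (x0 := 0.502) (x1 := 0.577) (y0 := 0.117) (y1 := 0.153)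
      (by norm_num) (by norm_num) (by norm_num) (by norm_num) (by norm_num) (by norm_num) (by norm_num)
      h1 h2 h5 h6
      (G_num (r := 0.2423) (by norm_num) (by norm_num) (by norm_num))
      (G_num (r := 0.2771) (by norm_num) (by norm_num) (by norm_num))
      (G_num (r := 0.2598) (by norm_num) (by norm_num) (by norm_num))
      (G_num (r := 0.2971) (by norm_num) (by norm_num) (by norm_num)))
  have H2 : (2.0619 : ℝ) ≤ G 1.0309 0.7517 0.8354 C.a C.b := (G_rect (m := 2.0619) (x0 := 0.502) (x1 := 0.577) (y0 := 0.306) (y1 := 0.345)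
      (by norm_num) (by norm_num) (by norm_num) (by norm_num) (by norm_num) (by norm_num) (by norm_num)
      h1 h2 h3 h4
      (G_num (r := 0.3919) (by norm_num) (by norm_num) (by norm_num))
      (G_num (r := 0.4161) (by norm_num) (by norm_num) (by norm_num))
      (G_num (r := 0.4201) (by norm_num) (by norm_num) (by norm_num))
      (G_num (r := 0.4461) (by norm_num) (by norm_num) (by norm_num)))
  exact C.finish (γ := 0.618) (z0 := 0.65) (z1 := 0.3) (z2 := 0) (c01 := 0) (c02 := 0) (c12 := 0.05)
    (A0 := 0.7517) (A1 := 0.8354) (A2 := 1.0309) (B0 := 2) (B1 := 2) (B2 := 2.0618)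
    (by norm_num) (by linarith [gd_gt]) (by norm_num) (by norm_num) (by norm_num) (by norm_num) (by norm_num) (by norm_num)
    (by norm_num) (by norm_num) (by norm_num) (by norm_num) (by norm_num) (by norm_num)
    (le_trans (le_trans (by norm_num) H0) (C.cmp0 (by norm_num) (by norm_num) (by norm_num)))
    (lt_of_lt_of_le (lt_of_lt_of_le (by norm_num) H1) (C.cmp1 (by norm_num) (by norm_num) (by norm_num)))
    (lt_of_lt_of_le (lt_of_lt_of_le (by norm_num) H2) (C.cmp2 (by norm_num) (by norm_num) (by norm_num)))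

end Pool.MP_653fdd_gt.Lib
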