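import Pool.Agent.Lib.MP_653fdd_gt.Cfg

set_option autoImplicit false

/-! Numerical cells, part 2. -/

namespace Pool.MP_653fdd_gt.Lib

theorem leaf21 (C : Cfg) (h1 : 0.466 ≤ C.a) (h2 : C.a ≤ 0.541) (h3 : 0.306 ≤ C.b) (h4 : C.b ≤ 0.345) (h5 : 0.153 ≤ C.c)
    (h6 : C.c ≤ 0.189) : False := by
  have H0 : (2.0001 : ℝ) ≤ G 0.80518 0.8663 0.94652 C.b C.c := (G_rect (m := 2.0001) (x0 := 0.306) (x1 := 0.345) (y0 := 0.153) (y1 := 0.189)
      (by norm_num) (by norm_num) (by norm_num) (by norm_num) (by norm_num) (by norm_num) (by norm_num)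
      h3 h4 h5 h6
      (G_num (r := 0.2163) (by norm_num) (by norm_num) (by norm_num))
      (G_num (r := 0.2404) (by norm_num) (by norm_num) (by norm_num))
      (G_num (r := 0.2297) (by norm_num) (by norm_num) (by norm_num))
      (G_num (r := 0.2553) (by norm_num) (by norm_num) (by norm_num)))
  have H1 : (2.0001 : ℝ) ≤ G 0.8663 0.80518 0.94652 C.a C.c := (G_rect (m := 2.0001) (x0 := 0.466) (x1 := 0.541) (y0 := 0.153) (y1 := 0.189)
      (by norm_num) (by norm_num) (by norm_num) (by norm_num) (by norm_num) (by norm_num) (by norm_num)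
      h1 h2 h5 h6
      (G_num (r := 0.267) (by norm_num) (by norm_num) (by norm_num))
      (G_num (r := 0.2967) (by norm_num) (by norm_num) (by norm_num))
      (G_num (r := 0.2877) (by norm_num) (by norm_num) (by norm_num))
      (G_num (r := 0.3197) (by norm_num) (by norm_num) (by norm_num)))
  have H2 : (2.0001 : ℝ) ≤ G 0.94652 0.80518 0.8663 C.a C.b := (G_rect (m := 2.0001) (x0 := 0.466) (x1 := 0.541) (y0 := 0.306) (y1 := 0.345)
      (by norm_num) (by norm_num) (by norm_num) (by norm_num) (by norm_num) (by norm_num) (by norm_num)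
      h1 h2 h3 h4
      (G_num (r := 0.3776) (by norm_num) (by norm_num) (by norm_num))
      (G_num (r := 0.4009) (by norm_num) (by norm_num) (by norm_num))
      (G_num (r := 0.4068) (by norm_num) (by norm_num) (by norm_num))
      (G_num (r := 0.432) (by norm_num) (by norm_num) (by norm_num)))
  exact C.finish (γ := 0.618) (z0 := 0.51) (z1 := 0.35) (z2 := 0.14) (c01 := 0) (c02 := 0) (c12 := 0)
    (A0 := 0.80518) (A1 := 0.8663) (A2 := 0.94652) (B0 := 2) (B1 := 2) (B2 := 2)
    (by norm_num) (by linarith [gd_gt]) (by norm_num) (by norm_num) (by norm_num) (by norm_num) (by norm_num) (by norm_num)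
    (by norm_num) (by norm_num) (by norm_num) (by norm_num) (by norm_num) (by norm_num)
    (le_trans (le_trans (by norm_num) H0) (C.cmp0 (by norm_num) (by norm_num) (by norm_num)))
    (lt_of_lt_of_le (lt_of_lt_of_le (by norm_num) H1) (C.cmp1 (by norm_num) (by norm_num) (by norm_num)))
    (lt_of_lt_of_le (lt_of_lt_of_le (by norm_num) H2) (C.cmp2 (by norm_num) (by norm_num) (by norm_num)))

theorem leaf22 (C : Cfg) (h1 : 0.544 ≤ C.a) (h2 : C.a ≤ 0.6) (h3 : 0.211 ≤ C.b) (h4 : C.b ≤ 0.228) (h5 : 0.189 ≤ C.c)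
    (h6 : C.c ≤ 0.228) : False := by
  have H0 : (2.0001 : ℝ) ≤ G 0.78608 0.91596 0.91596 C.b C.c := (G_rect (m := 2.0001) (x0 := 0.211) (x1 := 0.228) (y0 := 0.189) (y1 := 0.228)
      (by norm_num) (by norm_num) (by norm_num) (by norm_num) (by norm_num) (by norm_num) (by norm_num)
      h3 h4 h5 h6
      (G_num (r := 0.1996) (by norm_num) (by norm_num) (by norm_num))
      (G_num (r := 0.2193) (by norm_num) (by norm_num) (by norm_num))
      (G_num (r := 0.2075) (by norm_num) (by norm_num) (by norm_num))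
      (G_num (r := 0.228) (by norm_num) (by norm_num) (by norm_num)))
  have H1 : (2.0001 : ℝ) ≤ G 0.91596 0.78608 0.91596 C.a C.c := (G_rect (m := 2.0001) (x0 := 0.544) (x1 := 0.6) (y0 := 0.189) (y1 := 0.228)
      (by norm_num) (by norm_num) (by norm_num) (by norm_num) (by norm_num) (by norm_num) (by norm_num)
      h1 h2 h5 h6
      (G_num (r := 0.3206) (by norm_num) (by norm_num) (by norm_num))
      (G_num (r := 0.3521) (by norm_num) (by norm_num) (by norm_num))
      (G_num (r := 0.3367) (by norm_num) (by norm_num) (by norm_num))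
      (G_num (r := 0.3698) (by norm_num) (by norm_num) (by norm_num)))
  have H2 : (2.0001 : ℝ) ≤ G 0.91596 0.78608 0.91596 C.a C.b := (G_rect (m := 2.0001) (x0 := 0.544) (x1 := 0.6) (y0 := 0.211) (y1 := 0.228)
      (by norm_num) (by norm_num) (by norm_num) (by norm_num) (by norm_num) (by norm_num) (by norm_num)
      h1 h2 h3 h4
      (G_num (r := 0.3387) (by norm_num) (by norm_num) (by norm_num))
      (G_num (r := 0.3521) (by norm_num) (by norm_num) (by norm_num))
      (G_num (r := 0.3558) (by norm_num) (by norm_num) (by norm_num))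
      (G_num (r := 0.3698) (by norm_num) (by norm_num) (by norm_num)))
  exact C.finish (γ := 0.618) (z0 := 0.56) (z1 := 0.22) (z2 := 0.22) (c01 := 0) (c02 := 0) (c12 := 0)
    (A0 := 0.78608) (A1 := 0.91596) (A2 := 0.91596) (B0 := 2) (B1 := 2) (B2 := 2)
    (by norm_num) (by linarith [gd_gt]) (by norm_num) (by norm_num) (by norm_num) (by norm_num) (by norm_num) (by norm_num)
    (by norm_num) (by norm_num) (by norm_num) (by norm_num) (by norm_num) (by norm_num)
    (le_trans (le_trans (by norm_num) H0) (C.cmp0 (by norm_num) (by norm_num) (by norm_num)))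
    (lt_of_lt_of_le (lt_of_lt_of_le (by norm_num) H1) (C.cmp1 (by norm_num) (by norm_num) (by norm_num)))
    (lt_of_lt_of_le (lt_of_lt_of_le (by norm_num) H2) (C.cmp2 (by norm_num) (by norm_num) (by norm_num)))

theorem leaf23 (C : Cfg) (h1 : 0.508 ≤ C.a) (h2 : C.a ≤ 0.583) (h3 : 0.228 ≤ C.b) (h4 : C.b ≤ 0.267) (h5 : 0.189 ≤ C.c)
    (h6 : C.c ≤ 0.225) : False := by
  have H0 : (2.0001 : ℝ) ≤ G 0.7899 0.90068 0.92742 C.b C.c := (G_rect (m := 2.0001) (x0 := 0.228) (x1 := 0.267) (y0 := 0.189) (y1 := 0.225)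
      (by norm_num) (by norm_num) (by norm_num) (by norm_num) (by norm_num) (by norm_num) (by norm_num)
      h3 h4 h5 h6
      (G_num (r := 0.2075) (by norm_num) (by norm_num) (by norm_num))
      (G_num (r := 0.2264) (by norm_num) (by norm_num) (by norm_num))
      (G_num (r := 0.2246) (by norm_num) (by norm_num) (by norm_num))
      (G_num (r := 0.2451) (by norm_num) (by norm_num) (by norm_num)))
  have H1 : (2.0001 : ℝ) ≤ G 0.90068 0.7899 0.92742 C.a C.c := (G_rect (m := 2.0001) (x0 := 0.508) (x1 := 0.583) (y0 := 0.189) (y1 := 0.225)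
      (by norm_num) (by norm_num) (by norm_num) (by norm_num) (by norm_num) (by norm_num) (by norm_num)
      h1 h2 h5 h6
      (G_num (r := 0.3098) (by norm_num) (by norm_num) (by norm_num))
      (G_num (r := 0.338) (by norm_num) (by norm_num) (by norm_num))
      (G_num (r := 0.3319) (by norm_num) (by norm_num) (by norm_num))
      (G_num (r := 0.3621) (by norm_num) (by norm_num) (by norm_num)))
  have H2 : (2.0001 : ℝ) ≤ G 0.92742 0.7899 0.90068 C.a C.b := (G_rect (m := 2.0001) (x0 := 0.508) (x1 := 0.583) (y0 := 0.228) (y1 := 0.267)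
      (by norm_num) (by norm_num) (by norm_num) (by norm_num) (by norm_num) (by norm_num) (by norm_num)
      h1 h2 h3 h4
      (G_num (r := 0.3403) (by norm_num) (by norm_num) (by norm_num))
      (G_num (r := 0.3682) (by norm_num) (by norm_num) (by norm_num))
      (G_num (r := 0.3645) (by norm_num) (by norm_num) (by norm_num))
      (G_num (r := 0.3945) (by norm_num) (by norm_num) (by norm_num)))
  exact C.finish (γ := 0.618) (z0 := 0.55) (z1 := 0.26) (z2 := 0.19) (c01 := 0) (c02 := 0) (c12 := 0)
    (A0 := 0.7899) (A1 := 0.90068) (A2 := 0.92742) (B0 := 2) (B1 := 2) (B2 := 2)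
    (by norm_num) (by linarith [gd_gt]) (by norm_num) (by norm_num) (by norm_num) (by norm_num) (by norm_num) (by norm_num)
    (by norm_num) (by norm_num) (by norm_num) (by norm_num) (by norm_num) (by norm_num)
    (le_trans (le_trans (by norm_num) H0) (C.cmp0 (by norm_num) (by norm_num) (by norm_num)))
    (lt_of_lt_of_le (lt_of_lt_of_le (by norm_num) H1) (C.cmp1 (by norm_num) (by norm_num) (by norm_num)))
    (lt_of_lt_of_le (lt_of_lt_of_le (by norm_num) H2) (C.cmp2 (by norm_num) (by norm_num) (by norm_num)))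

theorem leaf24 (C : Cfg) (h1 : 0.472 ≤ C.a) (h2 : C.a ≤ 0.547) (h3 : 0.228 ≤ C.b) (h4 : C.b ≤ 0.267) (h5 : 0.225 ≤ C.c)
    (h6 : C.c ≤ 0.261) : False := by
  have H0 : (2.0001 : ℝ) ≤ G 0.80518 0.9045 0.90832 C.b C.c := (G_rect (m := 2.0001) (x0 := 0.228) (x1 := 0.267) (y0 := 0.225) (y1 := 0.261)
      (by norm_num) (by norm_num) (by norm_num) (by norm_num) (by norm_num) (by norm_num) (by norm_num)
      h3 h4 h5 h6
      (G_num (r := 0.2264) (by norm_num) (by norm_num) (by norm_num))
      (G_num (r := 0.2439) (by norm_num) (by norm_num) (by norm_num))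
      (G_num (r := 0.2451) (by norm_num) (by norm_num) (by norm_num))
      (G_num (r := 0.2639) (by norm_num) (by norm_num) (by norm_num)))
  have H1 : (2.0001 : ℝ) ≤ G 0.9045 0.80518 0.90832 C.a C.c := (G_rect (m := 2.0001) (x0 := 0.472) (x1 := 0.547) (y0 := 0.225) (y1 := 0.261)
      (by norm_num) (by norm_num) (by norm_num) (by norm_num) (by norm_num) (by norm_num) (by norm_num)
      h1 h2 h5 h6
      (G_num (r := 0.3258) (by norm_num) (by norm_num) (by norm_num))
      (G_num (r := 0.3509) (by norm_num) (by norm_num) (by norm_num))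
      (G_num (r := 0.3508) (by norm_num) (by norm_num) (by norm_num))
      (G_num (r := 0.3778) (by norm_num) (by norm_num) (by norm_num)))
  have H2 : (2.0001 : ℝ) ≤ G 0.90832 0.80518 0.9045 C.a C.b := (G_rect (m := 2.0001) (x0 := 0.472) (x1 := 0.547) (y0 := 0.228) (y1 := 0.267)
      (by norm_num) (by norm_num) (by norm_num) (by norm_num) (by norm_num) (by norm_num) (by norm_num)
      h1 h2 h3 h4
      (G_num (r := 0.328) (by norm_num) (by norm_num) (by norm_num))
      (G_num (r := 0.3549) (by norm_num) (by norm_num) (by norm_num))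
      (G_num (r := 0.3531) (by norm_num) (by norm_num) (by norm_num))
      (G_num (r := 0.3821) (by norm_num) (by norm_num) (by norm_num)))
  exact C.finish (γ := 0.618) (z0 := 0.51) (z1 := 0.25) (z2 := 0.24) (c01 := 0) (c02 := 0) (c12 := 0)
    (A0 := 0.80518) (A1 := 0.9045) (A2 := 0.90832) (B0 := 2) (B1 := 2) (B2 := 2)
    (by norm_num) (by linarith [gd_gt]) (by norm_num) (by norm_num) (by norm_num) (by norm_num) (by norm_num) (by norm_num)
    (by norm_num) (by norm_num) (by norm_num) (by norm_num) (by norm_num) (by norm_num)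
    (le_trans (le_trans (by norm_num) H0) (C.cmp0 (by norm_num) (by norm_num) (by norm_num)))
    (lt_of_lt_of_le (lt_of_lt_of_le (by norm_num) H1) (C.cmp1 (by norm_num) (by norm_num) (by norm_num)))
    (lt_of_lt_of_le (lt_of_lt_of_le (by norm_num) H2) (C.cmp2 (by norm_num) (by norm_num) (by norm_num)))

theorem leaf25 (C : Cfg) (h1 : 0.466 ≤ C.a) (h2 : C.a ≤ 0.478) (h3 : 0.261 ≤ C.b) (h4 : C.b ≤ 0.267) (h5 : 0.261 ≤ C.c)
    (h6 : C.c ≤ 0.267) : False := by
  have H0 : (2.0001 : ℝ) ≤ G 0.83956 0.88922 0.88922 C.b C.c := (G_rect (m := 2.0001) (x0 := 0.261) (x1 := 0.267) (y0 := 0.261) (y1 := 0.267)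
      (by norm_num) (by norm_num) (by norm_num) (by norm_num) (by norm_num) (by norm_num) (by norm_num)
      h3 h4 h5 h6
      (G_num (r := 0.261) (by norm_num) (by norm_num) (by norm_num))
      (G_num (r := 0.2639) (by norm_num) (by norm_num) (by norm_num))
      (G_num (r := 0.2639) (by norm_num) (by norm_num) (by norm_num))
      (G_num (r := 0.267) (by norm_num) (by norm_num) (by norm_num)))
  have H1 : (2.0001 : ℝ) ≤ G 0.88922 0.83956 0.88922 C.a C.c := (G_rect (m := 2.0001) (x0 := 0.466) (x1 := 0.478) (y0 := 0.261) (y1 := 0.267)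
      (by norm_num) (by norm_num) (by norm_num) (by norm_num) (by norm_num) (by norm_num) (by norm_num)
      h1 h2 h5 h6
      (G_num (r := 0.3487) (by norm_num) (by norm_num) (by norm_num))
      (G_num (r := 0.3527) (by norm_num) (by norm_num) (by norm_num))
      (G_num (r := 0.3532) (by norm_num) (by norm_num) (by norm_num))
      (G_num (r := 0.3572) (by norm_num) (by norm_num) (by norm_num)))
  have H2 : (2.0001 : ℝ) ≤ G 0.88922 0.83956 0.88922 C.a C.b := (G_rect (m := 2.0001) (x0 := 0.466) (x1 := 0.478) (y0 := 0.261) (y1 := 0.267)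
      (by norm_num) (by norm_num) (by norm_num) (by norm_num) (by norm_num) (by norm_num) (by norm_num)
      h1 h2 h3 h4
      (G_num (r := 0.3487) (by norm_num) (by norm_num) (by norm_num))
      (G_num (r := 0.3527) (by norm_num) (by norm_num) (by norm_num))
      (G_num (r := 0.3532) (by norm_num) (by norm_num) (by norm_num))
      (G_num (r := 0.3572) (by norm_num) (by norm_num) (by norm_num)))
  exact C.finish (γ := 0.618) (z0 := 0.42) (z1 := 0.29) (z2 := 0.29) (c01 := 0) (c02 := 0) (c12 := 0)
    (A0 := 0.83956) (A1 := 0.88922) (A2 := 0.88922) (B0 := 2) (B1 := 2) (B2 := 2)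
    (by norm_num) (by linarith [gd_gt]) (by norm_num) (by norm_num) (by norm_num) (by norm_num) (by norm_num) (by norm_num)
    (by norm_num) (by norm_num) (by norm_num) (by norm_num) (by norm_num) (by norm_num)
    (le_trans (le_trans (by norm_num) H0) (C.cmp0 (by norm_num) (by norm_num) (by norm_num)))
    (lt_of_lt_of_le (lt_of_lt_of_le (by norm_num) H1) (C.cmp1 (by norm_num) (by norm_num) (by norm_num)))
    (lt_of_lt_of_le (lt_of_lt_of_le (by norm_num) H2) (C.cmp2 (by norm_num) (by norm_num) (by norm_num)))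

theorem leaf26 (C : Cfg) (h1 : 0.433 ≤ C.a) (h2 : C.a ≤ 0.544) (h3 : 0.267 ≤ C.b) (h4 : C.b ≤ 0.306) (h5 : 0.189 ≤ C.c)
    (h6 : C.c ≤ 0.261) : False := by
  have H0 : (2.0001 : ℝ) ≤ G 0.79754 0.89686 0.9236 C.b C.c := (G_rect (m := 2.0001) (x0 := 0.267) (x1 := 0.306) (y0 := 0.189) (y1 := 0.261)
      (by norm_num) (by norm_num) (by norm_num) (by norm_num) (by norm_num) (by norm_num) (by norm_num)
      h3 h4 h5 h6
      (G_num (r := 0.2246) (by norm_num) (by norm_num) (by norm_num))
      (G_num (r := 0.2639) (by norm_num) (by norm_num) (by norm_num))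
      (G_num (r := 0.2404) (by norm_num) (by norm_num) (by norm_num))
      (G_num (r := 0.2826) (by norm_num) (by norm_num) (by norm_num)))
  have H1 : (2.0001 : ℝ) ≤ G 0.89686 0.79754 0.9236 C.a C.c := (G_rect (m := 2.0001) (x0 := 0.433) (x1 := 0.544) (y0 := 0.189) (y1 := 0.261)
      (by norm_num) (by norm_num) (by norm_num) (by norm_num) (by norm_num) (by norm_num) (by norm_num)
      h1 h2 h5 h6
      (G_num (r := 0.286) (by norm_num) (by norm_num) (by norm_num))
      (G_num (r := 0.3361) (by norm_num) (by norm_num) (by norm_num))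
      (G_num (r := 0.3206) (by norm_num) (by norm_num) (by norm_num))
      (G_num (r := 0.3768) (by norm_num) (by norm_num) (by norm_num)))
  have H2 : (2.0001 : ℝ) ≤ G 0.9236 0.79754 0.89686 C.a C.b := (G_rect (m := 2.0001) (x0 := 0.433) (x1 := 0.544) (y0 := 0.267) (y1 := 0.306)
      (by norm_num) (by norm_num) (by norm_num) (by norm_num) (by norm_num) (by norm_num) (by norm_num)
      h1 h2 h3 h4
      (G_num (r := 0.34) (by norm_num) (by norm_num) (by norm_num))
      (G_num (r := 0.364) (by norm_num) (by norm_num) (by norm_num))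
      (G_num (r := 0.3811) (by norm_num) (by norm_num) (by norm_num))
      (G_num (r := 0.408) (by norm_num) (by norm_num) (by norm_num)))
  exact C.finish (γ := 0.618) (z0 := 0.53) (z1 := 0.27) (z2 := 0.2) (c01 := 0) (c02 := 0) (c12 := 0)
    (A0 := 0.79754) (A1 := 0.89686) (A2 := 0.9236) (B0 := 2) (B1 := 2) (B2 := 2)
    (by norm_num) (by linarith [gd_gt]) (by norm_num) (by norm_num) (by norm_num) (by norm_num) (by norm_num) (by norm_num)
    (by norm_num) (by norm_num) (by norm_num) (by norm_num) (by norm_num) (by norm_num)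
    (le_trans (le_trans (by norm_num) H0) (C.cmp0 (by norm_num) (by norm_num) (by norm_num)))
    (lt_of_lt_of_le (lt_of_lt_of_le (by norm_num) H1) (C.cmp1 (by norm_num) (by norm_num) (by norm_num)))
    (lt_of_lt_of_le (lt_of_lt_of_le (by norm_num) H2) (C.cmp2 (by norm_num) (by norm_num) (by norm_num)))

theorem leaf27 (C : Cfg) (h1 : 0.394 ≤ C.a) (h2 : C.a ≤ 0.505) (h3 : 0.306 ≤ C.b) (h4 : C.b ≤ 0.345) (h5 : 0.189 ≤ C.c)
    (h6 : C.c ≤ 0.261) : False := by
  have H0 : (2.0001 : ℝ) ≤ G 0.81282 0.88158 0.9236 C.b C.c := (G_rect (m := 2.0001) (x0 := 0.306) (x1 := 0.345) (y0 := 0.189) (y1 := 0.261)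
      (by norm_num) (by norm_num) (by norm_num) (by norm_num) (by norm_num) (by norm_num) (by norm_num)
      h3 h4 h5 h6
      (G_num (r := 0.2404) (by norm_num) (by norm_num) (by norm_num))
      (G_num (r := 0.2826) (by norm_num) (by norm_num) (by norm_num))
      (G_num (r := 0.2553) (by norm_num) (by norm_num) (by norm_num))
      (G_num (r := 0.3) (by norm_num) (by norm_num) (by norm_num)))
  have H1 : (2.0001 : ℝ) ≤ G 0.88158 0.81282 0.9236 C.a C.c := (G_rect (m := 2.0001) (x0 := 0.394) (x1 := 0.505) (y0 := 0.189) (y1 := 0.261)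
      (by norm_num) (by norm_num) (by norm_num) (by norm_num) (by norm_num) (by norm_num) (by norm_num)
      h1 h2 h5 h6
      (G_num (r := 0.2728) (by norm_num) (by norm_num) (by norm_num))
      (G_num (r := 0.3206) (by norm_num) (by norm_num) (by norm_num))
      (G_num (r := 0.3089) (by norm_num) (by norm_num) (by norm_num))
      (G_num (r := 0.363) (by norm_num) (by norm_num) (by norm_num)))
  have H2 : (2.0001 : ℝ) ≤ G 0.9236 0.81282 0.88158 C.a C.b := (G_rect (m := 2.0001) (x0 := 0.394) (x1 := 0.505) (y0 := 0.306) (y1 := 0.345)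
      (by norm_num) (by norm_num) (by norm_num) (by norm_num) (by norm_num) (by norm_num) (by norm_num)
      h1 h2 h3 h4
      (G_num (r := 0.3472) (by norm_num) (by norm_num) (by norm_num))
      (G_num (r := 0.3686) (by norm_num) (by norm_num) (by norm_num))
      (G_num (r := 0.3931) (by norm_num) (by norm_num) (by norm_num))
      (G_num (r := 0.4174) (by norm_num) (by norm_num) (by norm_num)))
  exact C.finish (γ := 0.618) (z0 := 0.49) (z1 := 0.31) (z2 := 0.2) (c01 := 0) (c02 := 0) (c12 := 0)
    (A0 := 0.81282) (A1 := 0.88158) (A2 := 0.9236) (B0 := 2) (B1 := 2) (B2 := 2)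
    (by norm_num) (by linarith [gd_gt]) (by norm_num) (by norm_num) (by norm_num) (by norm_num) (by norm_num) (by norm_num)
    (by norm_num) (by norm_num) (by norm_num) (by norm_num) (by norm_num) (by norm_num)
    (le_trans (le_trans (by norm_num) H0) (C.cmp0 (by norm_num) (by norm_num) (by norm_num)))
    (lt_of_lt_of_le (lt_of_lt_of_le (by norm_num) H1) (C.cmp1 (by norm_num) (by norm_num) (by norm_num)))
    (lt_of_lt_of_le (lt_of_lt_of_le (by norm_num) H2) (C.cmp2 (by norm_num) (by norm_num) (by norm_num)))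

theorem leaf28 (C : Cfg) (h1 : 0.388 ≤ C.a) (h2 : C.a ≤ 0.472) (h3 : 0.267 ≤ C.b) (h4 : C.b ≤ 0.306) (h5 : 0.261 ≤ C.c)
    (h6 : C.c ≤ 0.306) : False := by
  have H0 : (2.0001 : ℝ) ≤ G 0.83192 0.89304 0.89304 C.b C.c := (G_rect (m := 2.0001) (x0 := 0.267) (x1 := 0.306) (y0 := 0.261) (y1 := 0.306)
      (by norm_num) (by norm_num) (by norm_num) (by norm_num) (by norm_num) (by norm_num) (by norm_num)
      h3 h4 h5 h6
      (G_num (r := 0.2639) (by norm_num) (by norm_num) (by norm_num))
      (G_num (r := 0.2858) (by norm_num) (by norm_num) (by norm_num))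
      (G_num (r := 0.2826) (by norm_num) (by norm_num) (by norm_num))
      (G_num (r := 0.306) (by norm_num) (by norm_num) (by norm_num)))
  have H1 : (2.0001 : ℝ) ≤ G 0.89304 0.83192 0.89304 C.a C.c := (G_rect (m := 2.0001) (x0 := 0.388) (x1 := 0.472) (y0 := 0.261) (y1 := 0.306)
      (by norm_num) (by norm_num) (by norm_num) (by norm_num) (by norm_num) (by norm_num) (by norm_num)
      h1 h2 h5 h6
      (G_num (r := 0.3182) (by norm_num) (by norm_num) (by norm_num))
      (G_num (r := 0.3445) (by norm_num) (by norm_num) (by norm_num))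
      (G_num (r := 0.3509) (by norm_num) (by norm_num) (by norm_num))
      (G_num (r := 0.38) (by norm_num) (by norm_num) (by norm_num)))
  have H2 : (2.0001 : ℝ) ≤ G 0.89304 0.83192 0.89304 C.a C.b := (G_rect (m := 2.0001) (x0 := 0.388) (x1 := 0.472) (y0 := 0.267) (y1 := 0.306)
      (by norm_num) (by norm_num) (by norm_num) (by norm_num) (by norm_num) (by norm_num) (by norm_num)
      h1 h2 h3 h4
      (G_num (r := 0.3218) (by norm_num) (by norm_num) (by norm_num))
      (G_num (r := 0.3445) (by norm_num) (by norm_num) (by norm_num))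
      (G_num (r := 0.3549) (by norm_num) (by norm_num) (by norm_num))
      (G_num (r := 0.38) (by norm_num) (by norm_num) (by norm_num)))
  exact C.finish (γ := 0.618) (z0 := 0.44) (z1 := 0.28) (z2 := 0.28) (c01 := 0) (c02 := 0) (c12 := 0)
    (A0 := 0.83192) (A1 := 0.89304) (A2 := 0.89304) (B0 := 2) (B1 := 2) (B2 := 2)
    (by norm_num) (by linarith [gd_gt]) (by norm_num) (by norm_num) (by norm_num) (by norm_num) (by norm_num) (by norm_num)
    (by norm_num) (by norm_num) (by norm_num) (by norm_num) (by norm_num) (by norm_num)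
    (le_trans (le_trans (by norm_num) H0) (C.cmp0 (by norm_num) (by norm_num) (by norm_num)))
    (lt_of_lt_of_le (lt_of_lt_of_le (by norm_num) H1) (C.cmp1 (by norm_num) (by norm_num) (by norm_num)))
    (lt_of_lt_of_le (lt_of_lt_of_le (by norm_num) H2) (C.cmp2 (by norm_num) (by norm_num) (by norm_num)))

theorem leaf29 (C : Cfg) (h1 : 0.333 ≤ C.a) (h2 : C.a ≤ 0.433) (h3 : 0.306 ≤ C.b) (h4 : C.b ≤ 0.345) (h5 : 0.261 ≤ C.c)
    (h6 : C.c ≤ 0.334) : False := by
  have H0 : (2.0001 : ℝ) ≤ G 0.8472 0.88158 0.88922 C.b C.c := (G_rect (m := 2.0001) (x0 := 0.306) (x1 := 0.345) (y0 := 0.261) (y1 := 0.334)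
      (by norm_num) (by norm_num) (by norm_num) (by norm_num) (by norm_num) (by norm_num) (by norm_num)
      h3 h4 h5 h6
      (G_num (r := 0.2826) (by norm_num) (by norm_num) (by norm_num))
      (G_num (r := 0.3196) (by norm_num) (by norm_num) (by norm_num))
      (G_num (r := 0.3) (by norm_num) (by norm_num) (by norm_num))
      (G_num (r := 0.3394) (by norm_num) (by norm_num) (by norm_num)))
  have H1 : (2.0001 : ℝ) ≤ G 0.88158 0.8472 0.88922 C.a C.c := (G_rect (m := 2.0001) (x0 := 0.333) (x1 := 0.433) (y0 := 0.261) (y1 := 0.334)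
      (by norm_num) (by norm_num) (by norm_num) (by norm_num) (by norm_num) (by norm_num) (by norm_num)
      h1 h2 h5 h6
      (G_num (r := 0.2948) (by norm_num) (by norm_num) (by norm_num))
      (G_num (r := 0.3334) (by norm_num) (by norm_num) (by norm_num))
      (G_num (r := 0.3361) (by norm_num) (by norm_num) (by norm_num))
      (G_num (r := 0.3802) (by norm_num) (by norm_num) (by norm_num)))
  have H2 : (2.0001 : ℝ) ≤ G 0.88922 0.8472 0.88158 C.a C.b := (G_rect (m := 2.0001) (x0 := 0.333) (x1 := 0.433) (y0 := 0.306) (y1 := 0.345)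
      (by norm_num) (by norm_num) (by norm_num) (by norm_num) (by norm_num) (by norm_num) (by norm_num)
      h1 h2 h3 h4
      (G_num (r := 0.3192) (by norm_num) (by norm_num) (by norm_num))
      (G_num (r := 0.3389) (by norm_num) (by norm_num) (by norm_num))
      (G_num (r := 0.364) (by norm_num) (by norm_num) (by norm_num))
      (G_num (r := 0.3865) (by norm_num) (by norm_num) (by norm_num)))
  exact C.finish (γ := 0.618) (z0 := 0.4) (z1 := 0.31) (z2 := 0.29) (c01 := 0) (c02 := 0) (c12 := 0)
    (A0 := 0.8472) (A1 := 0.88158) (A2 := 0.88922) (B0 := 2) (B1 := 2) (B2 := 2)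
    (by norm_num) (by linarith [gd_gt]) (by norm_num) (by norm_num) (by norm_num) (by norm_num) (by norm_num) (by norm_num)
    (by norm_num) (by norm_num) (by norm_num) (by norm_num) (by norm_num) (by norm_num)
    (le_trans (le_trans (by norm_num) H0) (C.cmp0 (by norm_num) (by norm_num) (by norm_num)))
    (lt_of_lt_of_le (lt_of_lt_of_le (by norm_num) H1) (C.cmp1 (by norm_num) (by norm_num) (by norm_num)))
    (lt_of_lt_of_le (lt_of_lt_of_le (by norm_num) H2) (C.cmp2 (by norm_num) (by norm_num) (by norm_num)))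

theorem leaf30 (C : Cfg) (h1 : 0.604 ≤ C.a) (h2 : C.a ≤ 0.61) (h3 : 0.345 ≤ C.b) (h4 : C.b ≤ 0.349) (h5 : 0.045 ≤ C.c)
    (h6 : C.c ≤ 0.047) : False := by
  have H0 : (2.0001 : ℝ) ≤ G 0.35226 1.11742 1.14832 C.b C.c := (G_rect (m := 2.0001) (x0 := 0.345) (x1 := 0.349) (y0 := 0.045) (y1 := 0.047)
      (by norm_num) (by norm_num) (by norm_num) (by norm_num) (by norm_num) (by norm_num) (by norm_num)
      h3 h4 h5 h6
      (G_num (r := 0.1245) (by norm_num) (by norm_num) (by norm_num))
      (G_num (r := 0.1273) (by norm_num) (by norm_num) (by norm_num))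
      (G_num (r := 0.1253) (by norm_num) (by norm_num) (by norm_num))
      (G_num (r := 0.128) (by norm_num) (by norm_num) (by norm_num)))
  have H1 : (2.23494 : ℝ) ≤ G 1.11742 0.35226 1.14832 C.a C.c := (G_rect (m := 2.23494) (x0 := 0.604) (x1 := 0.61) (y0 := 0.045) (y1 := 0.047)
      (by norm_num) (by norm_num) (by norm_num) (by norm_num) (by norm_num) (by norm_num) (by norm_num)
      h1 h2 h5 h6
      (G_num (r := 0.1648) (by norm_num) (by norm_num) (by norm_num))
      (G_num (r := 0.1684) (by norm_num) (by norm_num) (by norm_num))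
      (G_num (r := 0.1656) (by norm_num) (by norm_num) (by norm_num))
      (G_num (r := 0.1693) (by norm_num) (by norm_num) (by norm_num)))
  have H2 : (2.29674 : ℝ) ≤ G 1.14832 0.35226 1.11742 C.a C.b := (G_rect (m := 2.29674) (x0 := 0.604) (x1 := 0.61) (y0 := 0.345) (y1 := 0.349)
      (by norm_num) (by norm_num) (by norm_num) (by norm_num) (by norm_num) (by norm_num) (by norm_num)
      h1 h2 h3 h4
      (G_num (r := 0.4564) (by norm_num) (by norm_num) (by norm_num))
      (G_num (r := 0.4591) (by norm_num) (by norm_num) (by norm_num))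
      (G_num (r := 0.4587) (by norm_num) (by norm_num) (by norm_num))
      (G_num (r := 0.4614) (by norm_num) (by norm_num) (by norm_num)))
  exact C.finish (γ := 0.618) (z0 := 0.57) (z1 := 0) (z2 := 0) (c01 := 0.19) (c02 := 0.24) (c12 := 0)
    (A0 := 0.35226) (A1 := 1.11742) (A2 := 1.14832) (B0 := 2) (B1 := 2.23484) (B2 := 2.29664)
    (by norm_num) (by linarith [gd_gt]) (by norm_num) (by norm_num) (by norm_num) (by norm_num) (by norm_num) (by norm_num)
    (by norm_num) (by norm_num) (by norm_num) (by norm_num) (by norm_num) (by norm_num)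
    (le_trans (le_trans (by norm_num) H0) (C.cmp0 (by norm_num) (by norm_num) (by norm_num)))
    (lt_of_lt_of_le (lt_of_lt_of_le (by norm_num) H1) (C.cmp1 (by norm_num) (by norm_num) (by norm_num)))
    (lt_of_lt_of_le (lt_of_lt_of_le (by norm_num) H2) (C.cmp2 (by norm_num) (by norm_num) (by norm_num)))

theorem leaf31 (C : Cfg) (h1 : 0.602 ≤ C.a) (h2 : C.a ≤ 0.608) (h3 : 0.345 ≤ C.b) (h4 : C.b ≤ 0.349) (h5 : 0.047 ≤ C.c)
    (h6 : C.c ≤ 0.049) : False := by
  have H0 : (2.0001 : ℝ) ≤ G 0.33372 1.1236 1.16068 C.b C.c := (G_rect (m := 2.0001) (x0 := 0.345) (x1 := 0.349) (y0 := 0.047) (y1 := 0.049)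
      (by norm_num) (by norm_num) (by norm_num) (by norm_num) (by norm_num) (by norm_num) (by norm_num)
      h3 h4 h5 h6
      (G_num (r := 0.1273) (by norm_num) (by norm_num) (by norm_num))
      (G_num (r := 0.13) (by norm_num) (by norm_num) (by norm_num))
      (G_num (r := 0.128) (by norm_num) (by norm_num) (by norm_num))
      (G_num (r := 0.1307) (by norm_num) (by norm_num) (by norm_num)))
  have H1 : (2.2473 : ℝ) ≤ G 1.1236 0.33372 1.16068 C.a C.c := (G_rect (m := 2.2473) (x0 := 0.602) (x1 := 0.608) (y0 := 0.047) (y1 := 0.049)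
      (by norm_num) (by norm_num) (by norm_num) (by norm_num) (by norm_num) (by norm_num) (by norm_num)
      h1 h2 h5 h6
      (G_num (r := 0.1682) (by norm_num) (by norm_num) (by norm_num))
      (G_num (r := 0.1717) (by norm_num) (by norm_num) (by norm_num))
      (G_num (r := 0.169) (by norm_num) (by norm_num) (by norm_num))
      (G_num (r := 0.1726) (by norm_num) (by norm_num) (by norm_num)))
  have H2 : (2.32146 : ℝ) ≤ G 1.16068 0.33372 1.1236 C.a C.b := (G_rect (m := 2.32146) (x0 := 0.602) (x1 := 0.608) (y0 := 0.345) (y1 := 0.349)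
      (by norm_num) (by norm_num) (by norm_num) (by norm_num) (by norm_num) (by norm_num) (by norm_num)
      h1 h2 h3 h4
      (G_num (r := 0.4557) (by norm_num) (by norm_num) (by norm_num))
      (G_num (r := 0.4583) (by norm_num) (by norm_num) (by norm_num))
      (G_num (r := 0.4579) (by norm_num) (by norm_num) (by norm_num))
      (G_num (r := 0.4606) (by norm_num) (by norm_num) (by norm_num)))
  exact C.finish (γ := 0.618) (z0 := 0.54) (z1 := 0) (z2 := 0) (c01 := 0.2) (c02 := 0.26) (c12 := 0)
    (A0 := 0.33372) (A1 := 1.1236) (A2 := 1.16068) (B0 := 2) (B1 := 2.2472) (B2 := 2.32136)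
    (by norm_num) (by linarith [gd_gt]) (by norm_num) (by norm_num) (by norm_num) (by norm_num) (by norm_num) (by norm_num)
    (by norm_num) (by norm_num) (by norm_num) (by norm_num) (by norm_num) (by norm_num)
    (le_trans (le_trans (by norm_num) H0) (C.cmp0 (by norm_num) (by norm_num) (by norm_num)))
    (lt_of_lt_of_le (lt_of_lt_of_le (by norm_num) H1) (C.cmp1 (by norm_num) (by norm_num) (by norm_num)))
    (lt_of_lt_of_le (lt_of_lt_of_le (by norm_num) H2) (C.cmp2 (by norm_num) (by norm_num) (by norm_num)))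

theorem leaf32 (C : Cfg) (h1 : 0.597 ≤ C.a) (h2 : C.a ≤ 0.606) (h3 : 0.349 ≤ C.b) (h4 : C.b ≤ 0.354) (h5 : 0.045 ≤ C.c)
    (h6 : C.c ≤ 0.049) : False := by
  have H0 : (2.0001 : ℝ) ≤ G 0.32754 1.1236 1.16686 C.b C.c := (G_rect (m := 2.0001) (x0 := 0.349) (x1 := 0.354) (y0 := 0.045) (y1 := 0.049)
      (by norm_num) (by norm_num) (by norm_num) (by norm_num) (by norm_num) (by norm_num) (by norm_num)
      h3 h4 h5 h6
      (G_num (r := 0.1253) (by norm_num) (by norm_num) (by norm_num))
      (G_num (r := 0.1307) (by norm_num) (by norm_num) (by norm_num))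
      (G_num (r := 0.1262) (by norm_num) (by norm_num) (by norm_num))
      (G_num (r := 0.1317) (by norm_num) (by norm_num) (by norm_num)))
  have H1 : (2.2473 : ℝ) ≤ G 1.1236 0.32754 1.16686 C.a C.c := (G_rect (m := 2.2473) (x0 := 0.597) (x1 := 0.606) (y0 := 0.045) (y1 := 0.049)
      (by norm_num) (by norm_num) (by norm_num) (by norm_num) (by norm_num) (by norm_num) (by norm_num)
      h1 h2 h5 h6
      (G_num (r := 0.1639) (by norm_num) (by norm_num) (by norm_num))
      (G_num (r := 0.171) (by norm_num) (by norm_num) (by norm_num))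
      (G_num (r := 0.1651) (by norm_num) (by norm_num) (by norm_num))
      (G_num (r := 0.1723) (by norm_num) (by norm_num) (by norm_num)))
  have H2 : (2.33382 : ℝ) ≤ G 1.16686 0.32754 1.1236 C.a C.b := (G_rect (m := 2.33382) (x0 := 0.597) (x1 := 0.606) (y0 := 0.349) (y1 := 0.354)
      (by norm_num) (by norm_num) (by norm_num) (by norm_num) (by norm_num) (by norm_num) (by norm_num)
      h1 h2 h3 h4
      (G_num (r := 0.4564) (by norm_num) (by norm_num) (by norm_num))
      (G_num (r := 0.4597) (by norm_num) (by norm_num) (by norm_num))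
      (G_num (r := 0.4598) (by norm_num) (by norm_num) (by norm_num))
      (G_num (r := 0.4631) (by norm_num) (by norm_num) (by norm_num)))
  exact C.finish (γ := 0.618) (z0 := 0.53) (z1 := 0) (z2 := 0) (c01 := 0.2) (c02 := 0.27) (c12 := 0)
    (A0 := 0.32754) (A1 := 1.1236) (A2 := 1.16686) (B0 := 2) (B1 := 2.2472) (B2 := 2.33372)
    (by norm_num) (by linarith [gd_gt]) (by norm_num) (by norm_num) (by norm_num) (by norm_num) (by norm_num) (by norm_num)
    (by norm_num) (by norm_num) (by norm_num) (by norm_num) (by norm_num) (by norm_num)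
    (le_trans (le_trans (by norm_num) H0) (C.cmp0 (by norm_num) (by norm_num) (by norm_num)))
    (lt_of_lt_of_le (lt_of_lt_of_le (by norm_num) H1) (C.cmp1 (by norm_num) (by norm_num) (by norm_num)))
    (lt_of_lt_of_le (lt_of_lt_of_le (by norm_num) H2) (C.cmp2 (by norm_num) (by norm_num) (by norm_num)))

theorem leaf33 (C : Cfg) (h1 : 0.597 ≤ C.a) (h2 : C.a ≤ 0.606) (h3 : 0.345 ≤ C.b) (h4 : C.b ≤ 0.349) (h5 : 0.049 ≤ C.c)
    (h6 : C.c ≤ 0.054) : False := by
  have H0 : (2.0001 : ℝ) ≤ G 0.309 1.12978 1.17922 C.b C.c := (G_rect (m := 2.0001) (x0 := 0.345) (x1 := 0.349) (y0 := 0.049) (y1 := 0.054)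
      (by norm_num) (by norm_num) (by norm_num) (by norm_num) (by norm_num) (by norm_num) (by norm_num)
      h3 h4 h5 h6
      (G_num (r := 0.13) (by norm_num) (by norm_num) (by norm_num))
      (G_num (r := 0.1364) (by norm_num) (by norm_num) (by norm_num))
      (G_num (r := 0.1307) (by norm_num) (by norm_num) (by norm_num))
      (G_num (r := 0.1372) (by norm_num) (by norm_num) (by norm_num)))
  have H1 : (2.25966 : ℝ) ≤ G 1.12978 0.309 1.17922 C.a C.c := (G_rect (m := 2.25966) (x0 := 0.597) (x1 := 0.606) (y0 := 0.049) (y1 := 0.054)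
      (by norm_num) (by norm_num) (by norm_num) (by norm_num) (by norm_num) (by norm_num) (by norm_num)
      h1 h2 h5 h6
      (G_num (r := 0.171) (by norm_num) (by norm_num) (by norm_num))
      (G_num (r := 0.1795) (by norm_num) (by norm_num) (by norm_num))
      (G_num (r := 0.1723) (by norm_num) (by norm_num) (by norm_num))
      (G_num (r := 0.1808) (by norm_num) (by norm_num) (by norm_num)))
  have H2 : (2.35854 : ℝ) ≤ G 1.17922 0.309 1.12978 C.a C.b := (G_rect (m := 2.35854) (x0 := 0.597) (x1 := 0.606) (y0 := 0.345) (y1 := 0.349)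
      (by norm_num) (by norm_num) (by norm_num) (by norm_num) (by norm_num) (by norm_num) (by norm_num)
      h1 h2 h3 h4
      (G_num (r := 0.4538) (by norm_num) (by norm_num) (by norm_num))
      (G_num (r := 0.4564) (by norm_num) (by norm_num) (by norm_num))
      (G_num (r := 0.4572) (by norm_num) (by norm_num) (by norm_num))
      (G_num (r := 0.4598) (by norm_num) (by norm_num) (by norm_num)))
  exact C.finish (γ := 0.618) (z0 := 0.5) (z1 := 0) (z2 := 0) (c01 := 0.21) (c02 := 0.29) (c12 := 0)
    (A0 := 0.309) (A1 := 1.12978) (A2 := 1.17922) (B0 := 2) (B1 := 2.25956) (B2 := 2.35844)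
    (by norm_num) (by linarith [gd_gt]) (by norm_num) (by norm_num) (by norm_num) (by norm_num) (by norm_num) (by norm_num)
    (by norm_num) (by norm_num) (by norm_num) (by norm_num) (by norm_num) (by norm_num)
    (le_trans (le_trans (by norm_num) H0) (C.cmp0 (by norm_num) (by norm_num) (by norm_num)))
    (lt_of_lt_of_le (lt_of_lt_of_le (by norm_num) H1) (C.cmp1 (by norm_num) (by norm_num) (by norm_num)))
    (lt_of_lt_of_le (lt_of_lt_of_le (by norm_num) H2) (C.cmp2 (by norm_num) (by norm_num) (by norm_num)))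

theorem leaf34 (C : Cfg) (h1 : 0.592 ≤ C.a) (h2 : C.a ≤ 0.602) (h3 : 0.349 ≤ C.b) (h4 : C.b ≤ 0.354) (h5 : 0.049 ≤ C.c)
    (h6 : C.c ≤ 0.054) : False := by
  have H0 : (2.0001 : ℝ) ≤ G 0.58158 0.90046 1.13596 C.b C.c := (G_rect (m := 2.0001) (x0 := 0.349) (x1 := 0.354) (y0 := 0.049) (y1 := 0.054)
      (by norm_num) (by norm_num) (by norm_num) (by norm_num) (by norm_num) (by norm_num) (by norm_num)
      h3 h4 h5 h6
      (G_num (r := 0.1307) (by norm_num) (by norm_num) (by norm_num))
      (G_num (r := 0.1372) (by norm_num) (by norm_num) (by norm_num))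
      (G_num (r := 0.1317) (by norm_num) (by norm_num) (by norm_num))
      (G_num (r := 0.1382) (by norm_num) (by norm_num) (by norm_num)))
  have H1 : (2.09898 : ℝ) ≤ G 0.90046 0.58158 1.13596 C.a C.c := (G_rect (m := 2.09898) (x0 := 0.592) (x1 := 0.602) (y0 := 0.049) (y1 := 0.054)
      (by norm_num) (by norm_num) (by norm_num) (by norm_num) (by norm_num) (by norm_num) (by norm_num)
      h1 h2 h5 h6
      (G_num (r := 0.1703) (by norm_num) (by norm_num) (by norm_num))
      (G_num (r := 0.1787) (by norm_num) (by norm_num) (by norm_num))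
      (G_num (r := 0.1717) (by norm_num) (by norm_num) (by norm_num))
      (G_num (r := 0.1802) (by norm_num) (by norm_num) (by norm_num)))
  have H2 : (2.27202 : ℝ) ≤ G 1.13596 0.58158 0.90046 C.a C.b := (G_rect (m := 2.27202) (x0 := 0.592) (x1 := 0.602) (y0 := 0.349) (y1 := 0.354)
      (by norm_num) (by norm_num) (by norm_num) (by norm_num) (by norm_num) (by norm_num) (by norm_num)
      h1 h2 h3 h4
      (G_num (r := 0.4545) (by norm_num) (by norm_num) (by norm_num))
      (G_num (r := 0.4577) (by norm_num) (by norm_num) (by norm_num))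
      (G_num (r := 0.4583) (by norm_num) (by norm_num) (by norm_num))
      (G_num (r := 0.4616) (by norm_num) (by norm_num) (by norm_num)))
  exact C.finish (γ := 0.618) (z0 := 0.31) (z1 := 0.39) (z2 := 0) (c01 := 0.08) (c02 := 0.22) (c12 := 0)
    (A0 := 0.58158) (A1 := 0.90046) (A2 := 1.13596) (B0 := 2) (B1 := 2.09888) (B2 := 2.27192)
    (by norm_num) (by linarith [gd_gt]) (by norm_num) (by norm_num) (by norm_num) (by norm_num) (by norm_num) (by norm_num)
    (by norm_num) (by norm_num) (by norm_num) (by norm_num) (by norm_num) (by norm_num)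
    (le_trans (le_trans (by norm_num) H0) (C.cmp0 (by norm_num) (by norm_num) (by norm_num)))
    (lt_of_lt_of_le (lt_of_lt_of_le (by norm_num) H1) (C.cmp1 (by norm_num) (by norm_num) (by norm_num)))
    (lt_of_lt_of_le (lt_of_lt_of_le (by norm_num) H2) (C.cmp2 (by norm_num) (by norm_num) (by norm_num)))

theorem leaf35 (C : Cfg) (h1 : 0.583 ≤ C.a) (h2 : C.a ≤ 0.601) (h3 : 0.345 ≤ C.b) (h4 : C.b ≤ 0.354) (h5 : 0.054 ≤ C.c)
    (h6 : C.c ≤ 0.063) : False := by
  have H0 : (2.0001 : ℝ) ≤ G 0.70922 0.79754 1.11124 C.b C.c := (G_rect (m := 2.0001) (x0 := 0.345) (x1 := 0.354) (y0 := 0.054) (y1 := 0.063)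
      (by norm_num) (by norm_num) (by norm_num) (by norm_num) (by norm_num) (by norm_num) (by norm_num)
      h3 h4 h5 h6
      (G_num (r := 0.1364) (by norm_num) (by norm_num) (by norm_num))
      (G_num (r := 0.1474) (by norm_num) (by norm_num) (by norm_num))
      (G_num (r := 0.1382) (by norm_num) (by norm_num) (by norm_num))
      (G_num (r := 0.1493) (by norm_num) (by norm_num) (by norm_num)))
  have H1 : (2.0001 : ℝ) ≤ G 0.79754 0.70922 1.11124 C.a C.c := (G_rect (m := 2.0001) (x0 := 0.583) (x1 := 0.601) (y0 := 0.054) (y1 := 0.063)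
      (by norm_num) (by norm_num) (by norm_num) (by norm_num) (by norm_num) (by norm_num) (by norm_num)
      h1 h2 h5 h6
      (G_num (r := 0.1774) (by norm_num) (by norm_num) (by norm_num))
      (G_num (r := 0.1916) (by norm_num) (by norm_num) (by norm_num))
      (G_num (r := 0.1801) (by norm_num) (by norm_num) (by norm_num))
      (G_num (r := 0.1945) (by norm_num) (by norm_num) (by norm_num)))
  have H2 : (2.22258 : ℝ) ≤ G 1.11124 0.70922 0.79754 C.a C.b := (G_rect (m := 2.22258) (x0 := 0.583) (x1 := 0.601) (y0 := 0.345) (y1 := 0.354)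
      (by norm_num) (by norm_num) (by norm_num) (by norm_num) (by norm_num) (by norm_num) (by norm_num)
      h1 h2 h3 h4
      (G_num (r := 0.4484) (by norm_num) (by norm_num) (by norm_num))
      (G_num (r := 0.4542) (by norm_num) (by norm_num) (by norm_num))
      (G_num (r := 0.4553) (by norm_num) (by norm_num) (by norm_num))
      (G_num (r := 0.4612) (by norm_num) (by norm_num) (by norm_num)))
  exact C.finish (γ := 0.618) (z0 := 0.29) (z1 := 0.53) (z2 := 0) (c01 := 0) (c02 := 0.18) (c12 := 0)
    (A0 := 0.70922) (A1 := 0.79754) (A2 := 1.11124) (B0 := 2) (B1 := 2) (B2 := 2.22248)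
    (by norm_num) (by linarith [gd_gt]) (by norm_num) (by norm_num) (by norm_num) (by norm_num) (by norm_num) (by norm_num)
    (by norm_num) (by norm_num) (by norm_num) (by norm_num) (by norm_num) (by norm_num)
    (le_trans (le_trans (by norm_num) H0) (C.cmp0 (by norm_num) (by norm_num) (by norm_num)))
    (lt_of_lt_of_le (lt_of_lt_of_le (by norm_num) H1) (C.cmp1 (by norm_num) (by norm_num) (by norm_num)))
    (lt_of_lt_of_le (lt_of_lt_of_le (by norm_num) H2) (C.cmp2 (by norm_num) (by norm_num) (by norm_num)))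

theorem leaf36 (C : Cfg) (h1 : 0.595 ≤ C.a) (h2 : C.a ≤ 0.601) (h3 : 0.354 ≤ C.b) (h4 : C.b ≤ 0.356) (h5 : 0.045 ≤ C.c)
    (h6 : C.c ≤ 0.049) : False := by
  have H0 : (2.0001 : ℝ) ≤ G 0.31518 1.1236 1.17922 C.b C.c := (G_rect (m := 2.0001) (x0 := 0.354) (x1 := 0.356) (y0 := 0.045) (y1 := 0.049)
      (by norm_num) (by norm_num) (by norm_num) (by norm_num) (by norm_num) (by norm_num) (by norm_num)
      h3 h4 h5 h6
      (G_num (r := 0.1262) (by norm_num) (by norm_num) (by norm_num))
      (G_num (r := 0.1317) (by norm_num) (by norm_num) (by norm_num))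
      (G_num (r := 0.1265) (by norm_num) (by norm_num) (by norm_num))
      (G_num (r := 0.132) (by norm_num) (by norm_num) (by norm_num)))
  have H1 : (2.2473 : ℝ) ≤ G 1.1236 0.31518 1.17922 C.a C.c := (G_rect (m := 2.2473) (x0 := 0.595) (x1 := 0.601) (y0 := 0.045) (y1 := 0.049)
      (by norm_num) (by norm_num) (by norm_num) (by norm_num) (by norm_num) (by norm_num) (by norm_num)
      h1 h2 h5 h6
      (G_num (r := 0.1636) (by norm_num) (by norm_num) (by norm_num))
      (G_num (r := 0.1707) (by norm_num) (by norm_num) (by norm_num))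
      (G_num (r := 0.1644) (by norm_num) (by norm_num) (by norm_num))
      (G_num (r := 0.1716) (by norm_num) (by norm_num) (by norm_num)))
  have H2 : (2.35854 : ℝ) ≤ G 1.17922 0.31518 1.1236 C.a C.b := (G_rect (m := 2.35854) (x0 := 0.595) (x1 := 0.601) (y0 := 0.354) (y1 := 0.356)
      (by norm_num) (by norm_num) (by norm_num) (by norm_num) (by norm_num) (by norm_num) (by norm_num)
      h1 h2 h3 h4
      (G_num (r := 0.4589) (by norm_num) (by norm_num) (by norm_num))
      (G_num (r := 0.4602) (by norm_num) (by norm_num) (by norm_num))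
      (G_num (r := 0.4612) (by norm_num) (by norm_num) (by norm_num))
      (G_num (r := 0.4625) (by norm_num) (by norm_num) (by norm_num)))
  exact C.finish (γ := 0.618) (z0 := 0.51) (z1 := 0) (z2 := 0) (c01 := 0.2) (c02 := 0.29) (c12 := 0)
    (A0 := 0.31518) (A1 := 1.1236) (A2 := 1.17922) (B0 := 2) (B1 := 2.2472) (B2 := 2.35844)
    (by norm_num) (by linarith [gd_gt]) (by norm_num) (by norm_num) (by norm_num) (by norm_num) (by norm_num) (by norm_num)
    (by norm_num) (by norm_num) (by norm_num) (by norm_num) (by norm_num) (by norm_num)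
    (le_trans (le_trans (by norm_num) H0) (C.cmp0 (by norm_num) (by norm_num) (by norm_num)))
    (lt_of_lt_of_le (lt_of_lt_of_le (by norm_num) H1) (C.cmp1 (by norm_num) (by norm_num) (by norm_num)))
    (lt_of_lt_of_le (lt_of_lt_of_le (by norm_num) H2) (C.cmp2 (by norm_num) (by norm_num) (by norm_num)))

theorem leaf37 (C : Cfg) (h1 : 0.594 ≤ C.a) (h2 : C.a ≤ 0.599) (h3 : 0.356 ≤ C.b) (h4 : C.b ≤ 0.359) (h5 : 0.045 ≤ C.c)
    (h6 : C.c ≤ 0.047) : False := by
  have H0 : (2.0001 : ℝ) ≤ G 0.31518 1.1236 1.17922 C.b C.c := (G_rect (m := 2.0001) (x0 := 0.356) (x1 := 0.359) (y0 := 0.045) (y1 := 0.047)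
      (by norm_num) (by norm_num) (by norm_num) (by norm_num) (by norm_num) (by norm_num) (by norm_num)
      h3 h4 h5 h6
      (G_num (r := 0.1265) (by norm_num) (by norm_num) (by norm_num))
      (G_num (r := 0.1293) (by norm_num) (by norm_num) (by norm_num))
      (G_num (r := 0.1271) (by norm_num) (by norm_num) (by norm_num))
      (G_num (r := 0.1298) (by norm_num) (by norm_num) (by norm_num)))
  have H1 : (2.2473 : ℝ) ≤ G 1.1236 0.31518 1.17922 C.a C.c := (G_rect (m := 2.2473) (x0 := 0.594) (x1 := 0.599) (y0 := 0.045) (y1 := 0.047)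
      (by norm_num) (by norm_num) (by norm_num) (by norm_num) (by norm_num) (by norm_num) (by norm_num)
      h1 h2 h5 h6
      (G_num (r := 0.1634) (by norm_num) (by norm_num) (by norm_num))
      (G_num (r := 0.167) (by norm_num) (by norm_num) (by norm_num))
      (G_num (r := 0.1641) (by norm_num) (by norm_num) (by norm_num))
      (G_num (r := 0.1677) (by norm_num) (by norm_num) (by norm_num)))
  have H2 : (2.35854 : ℝ) ≤ G 1.17922 0.31518 1.1236 C.a C.b := (G_rect (m := 2.35854) (x0 := 0.594) (x1 := 0.599) (y0 := 0.356) (y1 := 0.359)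
      (by norm_num) (by norm_num) (by norm_num) (by norm_num) (by norm_num) (by norm_num) (by norm_num)
      h1 h2 h3 h4
      (G_num (r := 0.4598) (by norm_num) (by norm_num) (by norm_num))
      (G_num (r := 0.4617) (by norm_num) (by norm_num) (by norm_num))
      (G_num (r := 0.4617) (by norm_num) (by norm_num) (by norm_num))
      (G_num (r := 0.4637) (by norm_num) (by norm_num) (by norm_num)))
  exact C.finish (γ := 0.618) (z0 := 0.51) (z1 := 0) (z2 := 0) (c01 := 0.2) (c02 := 0.29) (c12 := 0)
    (A0 := 0.31518) (A1 := 1.1236) (A2 := 1.17922) (B0 := 2) (B1 := 2.2472) (B2 := 2.35844)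
    (by norm_num) (by linarith [gd_gt]) (by norm_num) (by norm_num) (by norm_num) (by norm_num) (by norm_num) (by norm_num)
    (by norm_num) (by norm_num) (by norm_num) (by norm_num) (by norm_num) (by norm_num)
    (le_trans (le_trans (by norm_num) H0) (C.cmp0 (by norm_num) (by norm_num) (by norm_num)))
    (lt_of_lt_of_le (lt_of_lt_of_le (by norm_num) H1) (C.cmp1 (by norm_num) (by norm_num) (by norm_num)))
    (lt_of_lt_of_le (lt_of_lt_of_le (by norm_num) H2) (C.cmp2 (by norm_num) (by norm_num) (by norm_num)))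

theorem leaf38 (C : Cfg) (h1 : 0.592 ≤ C.a) (h2 : C.a ≤ 0.597) (h3 : 0.356 ≤ C.b) (h4 : C.b ≤ 0.359) (h5 : 0.047 ≤ C.c)
    (h6 : C.c ≤ 0.049) : False := by
  have H0 : (2.0001 : ℝ) ≤ G 0.29664 1.12978 1.19158 C.b C.c := (G_rect (m := 2.0001) (x0 := 0.356) (x1 := 0.359) (y0 := 0.047) (y1 := 0.049)
      (by norm_num) (by norm_num) (by norm_num) (by norm_num) (by norm_num) (by norm_num) (by norm_num)
      h3 h4 h5 h6
      (G_num (r := 0.1293) (by norm_num) (by norm_num) (by norm_num))
      (G_num (r := 0.132) (by norm_num) (by norm_num) (by norm_num))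
      (G_num (r := 0.1298) (by norm_num) (by norm_num) (by norm_num))
      (G_num (r := 0.1326) (by norm_num) (by norm_num) (by norm_num)))
  have H1 : (2.25966 : ℝ) ≤ G 1.12978 0.29664 1.19158 C.a C.c := (G_rect (m := 2.25966) (x0 := 0.592) (x1 := 0.597) (y0 := 0.047) (y1 := 0.049)
      (by norm_num) (by norm_num) (by norm_num) (by norm_num) (by norm_num) (by norm_num) (by norm_num)
      h1 h2 h5 h6
      (G_num (r := 0.1668) (by norm_num) (by norm_num) (by norm_num))
      (G_num (r := 0.1703) (by norm_num) (by norm_num) (by norm_num))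
      (G_num (r := 0.1675) (by norm_num) (by norm_num) (by norm_num))
      (G_num (r := 0.171) (by norm_num) (by norm_num) (by norm_num)))
  have H2 : (2.38326 : ℝ) ≤ G 1.19158 0.29664 1.12978 C.a C.b := (G_rect (m := 2.38326) (x0 := 0.592) (x1 := 0.597) (y0 := 0.356) (y1 := 0.359)
      (by norm_num) (by norm_num) (by norm_num) (by norm_num) (by norm_num) (by norm_num) (by norm_num)
      h1 h2 h3 h4
      (G_num (r := 0.459) (by norm_num) (by norm_num) (by norm_num))
      (G_num (r := 0.461) (by norm_num) (by norm_num) (by norm_num))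
      (G_num (r := 0.461) (by norm_num) (by norm_num) (by norm_num))
      (G_num (r := 0.4629) (by norm_num) (by norm_num) (by norm_num)))
  exact C.finish (γ := 0.618) (z0 := 0.48) (z1 := 0) (z2 := 0) (c01 := 0.21) (c02 := 0.31) (c12 := 0)
    (A0 := 0.29664) (A1 := 1.12978) (A2 := 1.19158) (B0 := 2) (B1 := 2.25956) (B2 := 2.38316)
    (by norm_num) (by linarith [gd_gt]) (by norm_num) (by norm_num) (by norm_num) (by norm_num) (by norm_num) (by norm_num)
    (by norm_num) (by norm_num) (by norm_num) (by norm_num) (by norm_num) (by norm_num)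
    (le_trans (le_trans (by norm_num) H0) (C.cmp0 (by norm_num) (by norm_num) (by norm_num)))
    (lt_of_lt_of_le (lt_of_lt_of_le (by norm_num) H1) (C.cmp1 (by norm_num) (by norm_num) (by norm_num)))
    (lt_of_lt_of_le (lt_of_lt_of_le (by norm_num) H2) (C.cmp2 (by norm_num) (by norm_num) (by norm_num)))

theorem leaf39 (C : Cfg) (h1 : 0.587 ≤ C.a) (h2 : C.a ≤ 0.597) (h3 : 0.354 ≤ C.b) (h4 : C.b ≤ 0.359) (h5 : 0.049 ≤ C.c)
    (h6 : C.c ≤ 0.054) : False := by
  have H0 : (2.0001 : ℝ) ≤ G 0.58304 0.89282 1.14214 C.b C.c := (G_rect (m := 2.0001) (x0 := 0.354) (x1 := 0.359) (y0 := 0.049) (y1 := 0.054)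
      (by norm_num) (by norm_num) (by norm_num) (by norm_num) (by norm_num) (by norm_num) (by norm_num)
      h3 h4 h5 h6
      (G_num (r := 0.1317) (by norm_num) (by norm_num) (by norm_num))
      (G_num (r := 0.1382) (by norm_num) (by norm_num) (by norm_num))
      (G_num (r := 0.1326) (by norm_num) (by norm_num) (by norm_num))
      (G_num (r := 0.1392) (by norm_num) (by norm_num) (by norm_num)))
  have H1 : (2.09898 : ℝ) ≤ G 0.89282 0.58304 1.14214 C.a C.c := (G_rect (m := 2.09898) (x0 := 0.587) (x1 := 0.597) (y0 := 0.049) (y1 := 0.054)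
      (by norm_num) (by norm_num) (by norm_num) (by norm_num) (by norm_num) (by norm_num) (by norm_num)
      h1 h2 h5 h6
      (G_num (r := 0.1695) (by norm_num) (by norm_num) (by norm_num))
      (G_num (r := 0.178) (by norm_num) (by norm_num) (by norm_num))
      (G_num (r := 0.171) (by norm_num) (by norm_num) (by norm_num))
      (G_num (r := 0.1795) (by norm_num) (by norm_num) (by norm_num)))
  have H2 : (2.28438 : ℝ) ≤ G 1.14214 0.58304 0.89282 C.a C.b := (G_rect (m := 2.28438) (x0 := 0.587) (x1 := 0.597) (y0 := 0.354) (y1 := 0.359)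
      (by norm_num) (by norm_num) (by norm_num) (by norm_num) (by norm_num) (by norm_num) (by norm_num)
      h1 h2 h3 h4
      (G_num (r := 0.4558) (by norm_num) (by norm_num) (by norm_num))
      (G_num (r := 0.459) (by norm_num) (by norm_num) (by norm_num))
      (G_num (r := 0.4597) (by norm_num) (by norm_num) (by norm_num))
      (G_num (r := 0.4629) (by norm_num) (by norm_num) (by norm_num)))
  exact C.finish (γ := 0.618) (z0 := 0.28) (z1 := 0.41) (z2 := 0) (c01 := 0.08) (c02 := 0.23) (c12 := 0)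
    (A0 := 0.58304) (A1 := 0.89282) (A2 := 1.14214) (B0 := 2) (B1 := 2.09888) (B2 := 2.28428)
    (by norm_num) (by linarith [gd_gt]) (by norm_num) (by norm_num) (by norm_num) (by norm_num) (by norm_num) (by norm_num)
    (by norm_num) (by norm_num) (by norm_num) (by norm_num) (by norm_num) (by norm_num)
    (le_trans (le_trans (by norm_num) H0) (C.cmp0 (by norm_num) (by norm_num) (by norm_num)))
    (lt_of_lt_of_le (lt_of_lt_of_le (by norm_num) H1) (C.cmp1 (by norm_num) (by norm_num) (by norm_num)))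
    (lt_of_lt_of_le (lt_of_lt_of_le (by norm_num) H2) (C.cmp2 (by norm_num) (by norm_num) (by norm_num)))

theorem leaf40 (C : Cfg) (h1 : 0.582 ≤ C.a) (h2 : C.a ≤ 0.596) (h3 : 0.359 ≤ C.b) (h4 : C.b ≤ 0.364) (h5 : 0.045 ≤ C.c)
    (h6 : C.c ≤ 0.054) : False := by
  have H0 : (2.0001 : ℝ) ≤ G 0.579 0.89686 1.14214 C.b C.c := (G_rect (m := 2.0001) (x0 := 0.359) (x1 := 0.364) (y0 := 0.045) (y1 := 0.054)
      (by norm_num) (by norm_num) (by norm_num) (by norm_num) (by norm_num) (by norm_num) (by norm_num)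
      h3 h4 h5 h6
      (G_num (r := 0.1271) (by norm_num) (by norm_num) (by norm_num))
      (G_num (r := 0.1392) (by norm_num) (by norm_num) (by norm_num))
      (G_num (r := 0.1279) (by norm_num) (by norm_num) (by norm_num))
      (G_num (r := 0.1401) (by norm_num) (by norm_num) (by norm_num)))
  have H1 : (2.0001 : ℝ) ≤ G 0.89686 0.579 1.14214 C.a C.c := (G_rect (m := 2.0001) (x0 := 0.582) (x1 := 0.596) (y0 := 0.045) (y1 := 0.054)
      (by norm_num) (by norm_num) (by norm_num) (by norm_num) (by norm_num) (by norm_num) (by norm_num)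
      h1 h2 h5 h6
      (G_num (r := 0.1618) (by norm_num) (by norm_num) (by norm_num))
      (G_num (r := 0.1772) (by norm_num) (by norm_num) (by norm_num))
      (G_num (r := 0.1637) (by norm_num) (by norm_num) (by norm_num))
      (G_num (r := 0.1793) (by norm_num) (by norm_num) (by norm_num)))
  have H2 : (2.28438 : ℝ) ≤ G 1.14214 0.579 0.89686 C.a C.b := (G_rect (m := 2.28438) (x0 := 0.582) (x1 := 0.596) (y0 := 0.359) (y1 := 0.364)
      (by norm_num) (by norm_num) (by norm_num) (by norm_num) (by norm_num) (by norm_num) (by norm_num)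
      h1 h2 h3 h4
      (G_num (r := 0.457) (by norm_num) (by norm_num) (by norm_num))
      (G_num (r := 0.4602) (by norm_num) (by norm_num) (by norm_num))
      (G_num (r := 0.4625) (by norm_num) (by norm_num) (by norm_num))
      (G_num (r := 0.4657) (by norm_num) (by norm_num) (by norm_num)))
  exact C.finish (γ := 0.618) (z0 := 0.5) (z1 := 0.27) (z2 := 0) (c01 := 0) (c02 := 0.23) (c12 := 0)
    (A0 := 0.579) (A1 := 0.89686) (A2 := 1.14214) (B0 := 2) (B1 := 2) (B2 := 2.28428)
    (by norm_num) (by linarith [gd_gt]) (by norm_num) (by norm_num) (by norm_num) (by norm_num) (by norm_num) (by norm_num)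
    (by norm_num) (by norm_num) (by norm_num) (by norm_num) (by norm_num) (by norm_num)
    (le_trans (le_trans (by norm_num) H0) (C.cmp0 (by norm_num) (by norm_num) (by norm_num)))
    (lt_of_lt_of_le (lt_of_lt_of_le (by norm_num) H1) (C.cmp1 (by norm_num) (by norm_num) (by norm_num)))
    (lt_of_lt_of_le (lt_of_lt_of_le (by norm_num) H2) (C.cmp2 (by norm_num) (by norm_num) (by norm_num)))

theorem leaf41 (C : Cfg) (h1 : 0.573 ≤ C.a) (h2 : C.a ≤ 0.592) (h3 : 0.354 ≤ C.b) (h4 : C.b ≤ 0.364) (h5 : 0.054 ≤ C.c)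
    (h6 : C.c ≤ 0.063) : False := by
  have H0 : (2.0001 : ℝ) ≤ G 0.74788 0.75888 1.11124 C.b C.c := (G_rect (m := 2.0001) (x0 := 0.354) (x1 := 0.364) (y0 := 0.054) (y1 := 0.063)
      (by norm_num) (by norm_num) (by norm_num) (by norm_num) (by norm_num) (by norm_num) (by norm_num)
      h3 h4 h5 h6
      (G_num (r := 0.1382) (by norm_num) (by norm_num) (by norm_num))
      (G_num (r := 0.1493) (by norm_num) (by norm_num) (by norm_num))
      (G_num (r := 0.1401) (by norm_num) (by norm_num) (by norm_num))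
      (G_num (r := 0.1514) (by norm_num) (by norm_num) (by norm_num)))
  have H1 : (2.0001 : ℝ) ≤ G 0.75888 0.74788 1.11124 C.a C.c := (G_rect (m := 2.0001) (x0 := 0.573) (x1 := 0.592) (y0 := 0.054) (y1 := 0.063)
      (by norm_num) (by norm_num) (by norm_num) (by norm_num) (by norm_num) (by norm_num) (by norm_num)
      h1 h2 h5 h6
      (G_num (r := 0.1759) (by norm_num) (by norm_num) (by norm_num))
      (G_num (r := 0.1899) (by norm_num) (by norm_num) (by norm_num))
      (G_num (r := 0.1787) (by norm_num) (by norm_num) (by norm_num))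
      (G_num (r := 0.1931) (by norm_num) (by norm_num) (by norm_num)))
  have H2 : (2.22258 : ℝ) ≤ G 1.11124 0.74788 0.75888 C.a C.b := (G_rect (m := 2.22258) (x0 := 0.573) (x1 := 0.592) (y0 := 0.354) (y1 := 0.364)
      (by norm_num) (by norm_num) (by norm_num) (by norm_num) (by norm_num) (by norm_num) (by norm_num)
      h1 h2 h3 h4
      (G_num (r := 0.4503) (by norm_num) (by norm_num) (by norm_num))
      (G_num (r := 0.4566) (by norm_num) (by norm_num) (by norm_num))
      (G_num (r := 0.4577) (by norm_num) (by norm_num) (by norm_num))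
      (G_num (r := 0.4642) (by norm_num) (by norm_num) (by norm_num)))
  exact C.finish (γ := 0.618) (z0 := 0.66) (z1 := 0.16) (z2 := 0) (c01 := 0) (c02 := 0) (c12 := 0.18)
    (A0 := 0.74788) (A1 := 0.75888) (A2 := 1.11124) (B0 := 2) (B1 := 2) (B2 := 2.22248)
    (by norm_num) (by linarith [gd_gt]) (by norm_num) (by norm_num) (by norm_num) (by norm_num) (by norm_num) (by norm_num)
    (by norm_num) (by norm_num) (by norm_num) (by norm_num) (by norm_num) (by norm_num)
    (le_trans (le_trans (by norm_num) H0) (C.cmp0 (by norm_num) (by norm_num) (by norm_num)))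
    (lt_of_lt_of_le (lt_of_lt_of_le (by norm_num) H1) (C.cmp1 (by norm_num) (by norm_num) (by norm_num)))
    (lt_of_lt_of_le (lt_of_lt_of_le (by norm_num) H2) (C.cmp2 (by norm_num) (by norm_num) (by norm_num)))

end Pool.MP_653fdd_gt.Lib
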