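import Pool.Agent.Lib.MP_653fdd_gt.Cfg

set_option autoImplicit false

/-! Numerical cells, part 3. -/

namespace Pool.MP_653fdd_gt.Lib

theorem leaf42 (C : Cfg) (h1 : 0.555 ≤ C.a) (h2 : C.a ≤ 0.592) (h3 : 0.345 ≤ C.b) (h4 : C.b ≤ 0.364) (h5 : 0.063 ≤ C.c)
    (h6 : C.c ≤ 0.081) : False := by
  have H0 : (2.0001 : ℝ) ≤ G 0.74024 0.7727 1.10506 C.b C.c := (G_rect (m := 2.0001) (x0 := 0.345) (x1 := 0.364) (y0 := 0.063) (y1 := 0.081)
      (by norm_num) (by norm_num) (by norm_num) (by norm_num) (by norm_num) (by norm_num) (by norm_num)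
      h3 h4 h5 h6
      (G_num (r := 0.1474) (by norm_num) (by norm_num) (by norm_num))
      (G_num (r := 0.1671) (by norm_num) (by norm_num) (by norm_num))
      (G_num (r := 0.1514) (by norm_num) (by norm_num) (by norm_num))
      (G_num (r := 0.1717) (by norm_num) (by norm_num) (by norm_num)))
  have H1 : (2.0001 : ℝ) ≤ G 0.7727 0.74024 1.10506 C.a C.c := (G_rect (m := 2.0001) (x0 := 0.555) (x1 := 0.592) (y0 := 0.063) (y1 := 0.081)
      (by norm_num) (by norm_num) (by norm_num) (by norm_num) (by norm_num) (by norm_num) (by norm_num)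
      h1 h2 h5 h6
      (G_num (r := 0.1869) (by norm_num) (by norm_num) (by norm_num))
      (G_num (r := 0.212) (by norm_num) (by norm_num) (by norm_num))
      (G_num (r := 0.1931) (by norm_num) (by norm_num) (by norm_num))
      (G_num (r := 0.2189) (by norm_num) (by norm_num) (by norm_num)))
  have H2 : (2.21022 : ℝ) ≤ G 1.10506 0.74024 0.7727 C.a C.b := (G_rect (m := 2.21022) (x0 := 0.555) (x1 := 0.592) (y0 := 0.345) (y1 := 0.364)
      (by norm_num) (by norm_num) (by norm_num) (by norm_num) (by norm_num) (by norm_num) (by norm_num)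
      h1 h2 h3 h4
      (G_num (r := 0.4375) (by norm_num) (by norm_num) (by norm_num))
      (G_num (r := 0.4494) (by norm_num) (by norm_num) (by norm_num))
      (G_num (r := 0.4519) (by norm_num) (by norm_num) (by norm_num))
      (G_num (r := 0.4642) (by norm_num) (by norm_num) (by norm_num)))
  exact C.finish (γ := 0.618) (z0 := 0.68) (z1 := 0.15) (z2 := 0) (c01 := 0) (c02 := 0) (c12 := 0.17)
    (A0 := 0.74024) (A1 := 0.7727) (A2 := 1.10506) (B0 := 2) (B1 := 2) (B2 := 2.21012)
    (by norm_num) (by linarith [gd_gt]) (by norm_num) (by norm_num) (by norm_num) (by norm_num) (by norm_num) (by norm_num)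
    (by norm_num) (by norm_num) (by norm_num) (by norm_num) (by norm_num) (by norm_num)
    (le_trans (le_trans (by norm_num) H0) (C.cmp0 (by norm_num) (by norm_num) (by norm_num)))
    (lt_of_lt_of_le (lt_of_lt_of_le (by norm_num) H1) (C.cmp1 (by norm_num) (by norm_num) (by norm_num)))
    (lt_of_lt_of_le (lt_of_lt_of_le (by norm_num) H2) (C.cmp2 (by norm_num) (by norm_num) (by norm_num)))

theorem leaf43 (C : Cfg) (h1 : 0.583 ≤ C.a) (h2 : C.a ≤ 0.591) (h3 : 0.364 ≤ C.b) (h4 : C.b ≤ 0.368) (h5 : 0.045 ≤ C.c)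
    (h6 : C.c ≤ 0.049) : False := by
  have H0 : (2.0001 : ℝ) ≤ G 0.69832 0.7899 1.12978 C.b C.c := (G_rect (m := 2.0001) (x0 := 0.364) (x1 := 0.368) (y0 := 0.045) (y1 := 0.049)
      (by norm_num) (by norm_num) (by norm_num) (by norm_num) (by norm_num) (by norm_num) (by norm_num)
      h3 h4 h5 h6
      (G_num (r := 0.1279) (by norm_num) (by norm_num) (by norm_num))
      (G_num (r := 0.1335) (by norm_num) (by norm_num) (by norm_num))
      (G_num (r := 0.1286) (by norm_num) (by norm_num) (by norm_num))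
      (G_num (r := 0.1342) (by norm_num) (by norm_num) (by norm_num)))
  have H1 : (2.0001 : ℝ) ≤ G 0.7899 0.69832 1.12978 C.a C.c := (G_rect (m := 2.0001) (x0 := 0.583) (x1 := 0.591) (y0 := 0.045) (y1 := 0.049)
      (by norm_num) (by norm_num) (by norm_num) (by norm_num) (by norm_num) (by norm_num) (by norm_num)
      h1 h2 h5 h6
      (G_num (r := 0.1619) (by norm_num) (by norm_num) (by norm_num))
      (G_num (r := 0.169) (by norm_num) (by norm_num) (by norm_num))
      (G_num (r := 0.163) (by norm_num) (by norm_num) (by norm_num))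
      (G_num (r := 0.1701) (by norm_num) (by norm_num) (by norm_num)))
  have H2 : (2.25966 : ℝ) ≤ G 1.12978 0.69832 0.7899 C.a C.b := (G_rect (m := 2.25966) (x0 := 0.583) (x1 := 0.591) (y0 := 0.364) (y1 := 0.368)
      (by norm_num) (by norm_num) (by norm_num) (by norm_num) (by norm_num) (by norm_num) (by norm_num)
      h1 h2 h3 h4
      (G_num (r := 0.4606) (by norm_num) (by norm_num) (by norm_num))
      (G_num (r := 0.4631) (by norm_num) (by norm_num) (by norm_num))
      (G_num (r := 0.4638) (by norm_num) (by norm_num) (by norm_num))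
      (G_num (r := 0.4663) (by norm_num) (by norm_num) (by norm_num)))
  exact C.finish (γ := 0.618) (z0 := 0.24) (z1 := 0.55) (z2 := 0) (c01 := 0) (c02 := 0.21) (c12 := 0)
    (A0 := 0.69832) (A1 := 0.7899) (A2 := 1.12978) (B0 := 2) (B1 := 2) (B2 := 2.25956)
    (by norm_num) (by linarith [gd_gt]) (by norm_num) (by norm_num) (by norm_num) (by norm_num) (by norm_num) (by norm_num)
    (by norm_num) (by norm_num) (by norm_num) (by norm_num) (by norm_num) (by norm_num)
    (le_trans (le_trans (by norm_num) H0) (C.cmp0 (by norm_num) (by norm_num) (by norm_num)))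
    (lt_of_lt_of_le (lt_of_lt_of_le (by norm_num) H1) (C.cmp1 (by norm_num) (by norm_num) (by norm_num)))
    (lt_of_lt_of_le (lt_of_lt_of_le (by norm_num) H2) (C.cmp2 (by norm_num) (by norm_num) (by norm_num)))

theorem leaf44 (C : Cfg) (h1 : 0.578 ≤ C.a) (h2 : C.a ≤ 0.587) (h3 : 0.368 ≤ C.b) (h4 : C.b ≤ 0.373) (h5 : 0.045 ≤ C.c)
    (h6 : C.c ≤ 0.049) : False := by
  have H0 : (2.0001 : ℝ) ≤ G 0.7517 0.7427 1.1236 C.b C.c := (G_rect (m := 2.0001) (x0 := 0.368) (x1 := 0.373) (y0 := 0.045) (y1 := 0.049)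
      (by norm_num) (by norm_num) (by norm_num) (by norm_num) (by norm_num) (by norm_num) (by norm_num)
      h3 h4 h5 h6
      (G_num (r := 0.1286) (by norm_num) (by norm_num) (by norm_num))
      (G_num (r := 0.1342) (by norm_num) (by norm_num) (by norm_num))
      (G_num (r := 0.1295) (by norm_num) (by norm_num) (by norm_num))
      (G_num (r := 0.1351) (by norm_num) (by norm_num) (by norm_num)))
  have H1 : (2.0001 : ℝ) ≤ G 0.7427 0.7517 1.1236 C.a C.c := (G_rect (m := 2.0001) (x0 := 0.578) (x1 := 0.587) (y0 := 0.045) (y1 := 0.049)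
      (by norm_num) (by norm_num) (by norm_num) (by norm_num) (by norm_num) (by norm_num) (by norm_num)
      h1 h2 h5 h6
      (G_num (r := 0.1612) (by norm_num) (by norm_num) (by norm_num))
      (G_num (r := 0.1682) (by norm_num) (by norm_num) (by norm_num))
      (G_num (r := 0.1625) (by norm_num) (by norm_num) (by norm_num))
      (G_num (r := 0.1695) (by norm_num) (by norm_num) (by norm_num)))
  have H2 : (2.2473 : ℝ) ≤ G 1.1236 0.7517 0.7427 C.a C.b := (G_rect (m := 2.2473) (x0 := 0.578) (x1 := 0.587) (y0 := 0.368) (y1 := 0.373)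
      (by norm_num) (by norm_num) (by norm_num) (by norm_num) (by norm_num) (by norm_num) (by norm_num)
      h1 h2 h3 h4
      (G_num (r := 0.4611) (by norm_num) (by norm_num) (by norm_num))
      (G_num (r := 0.4643) (by norm_num) (by norm_num) (by norm_num))
      (G_num (r := 0.4647) (by norm_num) (by norm_num) (by norm_num))
      (G_num (r := 0.4679) (by norm_num) (by norm_num) (by norm_num)))
  exact C.finish (γ := 0.618) (z0 := 0.65) (z1 := 0.15) (z2 := 0) (c01 := 0) (c02 := 0) (c12 := 0.2)
    (A0 := 0.7517) (A1 := 0.7427) (A2 := 1.1236) (B0 := 2) (B1 := 2) (B2 := 2.2472)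
    (by norm_num) (by linarith [gd_gt]) (by norm_num) (by norm_num) (by norm_num) (by norm_num) (by norm_num) (by norm_num)
    (by norm_num) (by norm_num) (by norm_num) (by norm_num) (by norm_num) (by norm_num)
    (le_trans (le_trans (by norm_num) H0) (C.cmp0 (by norm_num) (by norm_num) (by norm_num)))
    (lt_of_lt_of_le (lt_of_lt_of_le (by norm_num) H1) (C.cmp1 (by norm_num) (by norm_num) (by norm_num)))
    (lt_of_lt_of_le (lt_of_lt_of_le (by norm_num) H2) (C.cmp2 (by norm_num) (by norm_num) (by norm_num)))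

theorem leaf45 (C : Cfg) (h1 : 0.573 ≤ C.a) (h2 : C.a ≤ 0.587) (h3 : 0.364 ≤ C.b) (h4 : C.b ≤ 0.373) (h5 : 0.049 ≤ C.c)
    (h6 : C.c ≤ 0.054) : False := by
  have H0 : (2.0001 : ℝ) ≤ G 0.7517 0.74888 1.11742 C.b C.c := (G_rect (m := 2.0001) (x0 := 0.364) (x1 := 0.373) (y0 := 0.049) (y1 := 0.054)
      (by norm_num) (by norm_num) (by norm_num) (by norm_num) (by norm_num) (by norm_num) (by norm_num)
      h3 h4 h5 h6
      (G_num (r := 0.1335) (by norm_num) (by norm_num) (by norm_num))
      (G_num (r := 0.1401) (by norm_num) (by norm_num) (by norm_num))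
      (G_num (r := 0.1351) (by norm_num) (by norm_num) (by norm_num))
      (G_num (r := 0.1419) (by norm_num) (by norm_num) (by norm_num)))
  have H1 : (2.0001 : ℝ) ≤ G 0.74888 0.7517 1.11742 C.a C.c := (G_rect (m := 2.0001) (x0 := 0.573) (x1 := 0.587) (y0 := 0.049) (y1 := 0.054)
      (by norm_num) (by norm_num) (by norm_num) (by norm_num) (by norm_num) (by norm_num) (by norm_num)
      h1 h2 h5 h6
      (G_num (r := 0.1675) (by norm_num) (by norm_num) (by norm_num))
      (G_num (r := 0.1759) (by norm_num) (by norm_num) (by norm_num))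
      (G_num (r := 0.1695) (by norm_num) (by norm_num) (by norm_num))
      (G_num (r := 0.178) (by norm_num) (by norm_num) (by norm_num)))
  have H2 : (2.23494 : ℝ) ≤ G 1.11742 0.7517 0.74888 C.a C.b := (G_rect (m := 2.23494) (x0 := 0.573) (x1 := 0.587) (y0 := 0.364) (y1 := 0.373)
      (by norm_num) (by norm_num) (by norm_num) (by norm_num) (by norm_num) (by norm_num) (by norm_num)
      h1 h2 h3 h4
      (G_num (r := 0.4566) (by norm_num) (by norm_num) (by norm_num))
      (G_num (r := 0.4623) (by norm_num) (by norm_num) (by norm_num))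
      (G_num (r := 0.4622) (by norm_num) (by norm_num) (by norm_num))
      (G_num (r := 0.4679) (by norm_num) (by norm_num) (by norm_num)))
  exact C.finish (γ := 0.618) (z0 := 0.65) (z1 := 0.16) (z2 := 0) (c01 := 0) (c02 := 0) (c12 := 0.19)
    (A0 := 0.7517) (A1 := 0.74888) (A2 := 1.11742) (B0 := 2) (B1 := 2) (B2 := 2.23484)
    (by norm_num) (by linarith [gd_gt]) (by norm_num) (by norm_num) (by norm_num) (by norm_num) (by norm_num) (by norm_num)
    (by norm_num) (by norm_num) (by norm_num) (by norm_num) (by norm_num) (by norm_num)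
    (le_trans (le_trans (by norm_num) H0) (C.cmp0 (by norm_num) (by norm_num) (by norm_num)))
    (lt_of_lt_of_le (lt_of_lt_of_le (by norm_num) H1) (C.cmp1 (by norm_num) (by norm_num) (by norm_num)))
    (lt_of_lt_of_le (lt_of_lt_of_le (by norm_num) H2) (C.cmp2 (by norm_num) (by norm_num) (by norm_num)))

theorem leaf46 (C : Cfg) (h1 : 0.564 ≤ C.a) (h2 : C.a ≤ 0.582) (h3 : 0.364 ≤ C.b) (h4 : C.b ≤ 0.373) (h5 : 0.054 ≤ C.c)
    (h6 : C.c ≤ 0.063) : False := by
  have H0 : (2.0001 : ℝ) ≤ G 0.74406 0.75652 1.11742 C.b C.c := (G_rect (m := 2.0001) (x0 := 0.364) (x1 := 0.373) (y0 := 0.054) (y1 := 0.063)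
      (by norm_num) (by norm_num) (by norm_num) (by norm_num) (by norm_num) (by norm_num) (by norm_num)
      h3 h4 h5 h6
      (G_num (r := 0.1401) (by norm_num) (by norm_num) (by norm_num))
      (G_num (r := 0.1514) (by norm_num) (by norm_num) (by norm_num))
      (G_num (r := 0.1419) (by norm_num) (by norm_num) (by norm_num))
      (G_num (r := 0.1532) (by norm_num) (by norm_num) (by norm_num)))
  have H1 : (2.0001 : ℝ) ≤ G 0.75652 0.74406 1.11742 C.a C.c := (G_rect (m := 2.0001) (x0 := 0.564) (x1 := 0.582) (y0 := 0.054) (y1 := 0.063)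
      (by norm_num) (by norm_num) (by norm_num) (by norm_num) (by norm_num) (by norm_num) (by norm_num)
      h1 h2 h5 h6
      (G_num (r := 0.1745) (by norm_num) (by norm_num) (by norm_num))
      (G_num (r := 0.1884) (by norm_num) (by norm_num) (by norm_num))
      (G_num (r := 0.1772) (by norm_num) (by norm_num) (by norm_num))
      (G_num (r := 0.1914) (by norm_num) (by norm_num) (by norm_num)))
  have H2 : (2.23494 : ℝ) ≤ G 1.11742 0.74406 0.75652 C.a C.b := (G_rect (m := 2.23494) (x0 := 0.564) (x1 := 0.582) (y0 := 0.364) (y1 := 0.373)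
      (by norm_num) (by norm_num) (by norm_num) (by norm_num) (by norm_num) (by norm_num) (by norm_num)
      h1 h2 h3 h4
      (G_num (r := 0.453) (by norm_num) (by norm_num) (by norm_num))
      (G_num (r := 0.4586) (by norm_num) (by norm_num) (by norm_num))
      (G_num (r := 0.4602) (by norm_num) (by norm_num) (by norm_num))
      (G_num (r := 0.4659) (by norm_num) (by norm_num) (by norm_num)))
  exact C.finish (γ := 0.618) (z0 := 0.67) (z1 := 0.14) (z2 := 0) (c01 := 0) (c02 := 0) (c12 := 0.19)
    (A0 := 0.74406) (A1 := 0.75652) (A2 := 1.11742) (B0 := 2) (B1 := 2) (B2 := 2.23484)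
    (by norm_num) (by linarith [gd_gt]) (by norm_num) (by norm_num) (by norm_num) (by norm_num) (by norm_num) (by norm_num)
    (by norm_num) (by norm_num) (by norm_num) (by norm_num) (by norm_num) (by norm_num)
    (le_trans (le_trans (by norm_num) H0) (C.cmp0 (by norm_num) (by norm_num) (by norm_num)))
    (lt_of_lt_of_le (lt_of_lt_of_le (by norm_num) H1) (C.cmp1 (by norm_num) (by norm_num) (by norm_num)))
    (lt_of_lt_of_le (lt_of_lt_of_le (by norm_num) H2) (C.cmp2 (by norm_num) (by norm_num) (by norm_num)))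

theorem leaf47 (C : Cfg) (h1 : 0.554 ≤ C.a) (h2 : C.a ≤ 0.582) (h3 : 0.373 ≤ C.b) (h4 : C.b ≤ 0.383) (h5 : 0.045 ≤ C.c)
    (h6 : C.c ≤ 0.063) : False := by
  have H0 : (2.0001 : ℝ) ≤ G 0.74788 0.7527 1.11742 C.b C.c := (G_rect (m := 2.0001) (x0 := 0.373) (x1 := 0.383) (y0 := 0.045) (y1 := 0.063)
      (by norm_num) (by norm_num) (by norm_num) (by norm_num) (by norm_num) (by norm_num) (by norm_num)
      h3 h4 h5 h6
      (G_num (r := 0.1295) (by norm_num) (by norm_num) (by norm_num))
      (G_num (r := 0.1532) (by norm_num) (by norm_num) (by norm_num))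
      (G_num (r := 0.1312) (by norm_num) (by norm_num) (by norm_num))
      (G_num (r := 0.1553) (by norm_num) (by norm_num) (by norm_num)))
  have H1 : (2.0001 : ℝ) ≤ G 0.7527 0.74788 1.11742 C.a C.c := (G_rect (m := 2.0001) (x0 := 0.554) (x1 := 0.582) (y0 := 0.045) (y1 := 0.063)
      (by norm_num) (by norm_num) (by norm_num) (by norm_num) (by norm_num) (by norm_num) (by norm_num)
      h1 h2 h5 h6
      (G_num (r := 0.1578) (by norm_num) (by norm_num) (by norm_num))
      (G_num (r := 0.1868) (by norm_num) (by norm_num) (by norm_num))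
      (G_num (r := 0.1618) (by norm_num) (by norm_num) (by norm_num))
      (G_num (r := 0.1914) (by norm_num) (by norm_num) (by norm_num)))
  have H2 : (2.23494 : ℝ) ≤ G 1.11742 0.74788 0.7527 C.a C.b := (G_rect (m := 2.23494) (x0 := 0.554) (x1 := 0.582) (y0 := 0.373) (y1 := 0.383)
      (by norm_num) (by norm_num) (by norm_num) (by norm_num) (by norm_num) (by norm_num) (by norm_num)
      h1 h2 h3 h4
      (G_num (r := 0.4545) (by norm_num) (by norm_num) (by norm_num))
      (G_num (r := 0.4606) (by norm_num) (by norm_num) (by norm_num))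
      (G_num (r := 0.4659) (by norm_num) (by norm_num) (by norm_num))
      (G_num (r := 0.4721) (by norm_num) (by norm_num) (by norm_num)))
  exact C.finish (γ := 0.618) (z0 := 0.66) (z1 := 0.15) (z2 := 0) (c01 := 0) (c02 := 0) (c12 := 0.19)
    (A0 := 0.74788) (A1 := 0.7527) (A2 := 1.11742) (B0 := 2) (B1 := 2) (B2 := 2.23484)
    (by norm_num) (by linarith [gd_gt]) (by norm_num) (by norm_num) (by norm_num) (by norm_num) (by norm_num) (by norm_num)
    (by norm_num) (by norm_num) (by norm_num) (by norm_num) (by norm_num) (by norm_num)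
    (le_trans (le_trans (by norm_num) H0) (C.cmp0 (by norm_num) (by norm_num) (by norm_num)))
    (lt_of_lt_of_le (lt_of_lt_of_le (by norm_num) H1) (C.cmp1 (by norm_num) (by norm_num) (by norm_num)))
    (lt_of_lt_of_le (lt_of_lt_of_le (by norm_num) H2) (C.cmp2 (by norm_num) (by norm_num) (by norm_num)))

theorem leaf48 (C : Cfg) (h1 : 0.536 ≤ C.a) (h2 : C.a ≤ 0.573) (h3 : 0.364 ≤ C.b) (h4 : C.b ≤ 0.383) (h5 : 0.063 ≤ C.c)
    (h6 : C.c ≤ 0.081) : False := by
  have H0 : (2.0001 : ℝ) ≤ G 0.73642 0.76416 1.11742 C.b C.c := (G_rect (m := 2.0001) (x0 := 0.364) (x1 := 0.383) (y0 := 0.063) (y1 := 0.081)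
      (by norm_num) (by norm_num) (by norm_num) (by norm_num) (by norm_num) (by norm_num) (by norm_num)
      h3 h4 h5 h6
      (G_num (r := 0.1514) (by norm_num) (by norm_num) (by norm_num))
      (G_num (r := 0.1717) (by norm_num) (by norm_num) (by norm_num))
      (G_num (r := 0.1553) (by norm_num) (by norm_num) (by norm_num))
      (G_num (r := 0.1761) (by norm_num) (by norm_num) (by norm_num)))
  have H1 : (2.0001 : ℝ) ≤ G 0.76416 0.73642 1.11742 C.a C.c := (G_rect (m := 2.0001) (x0 := 0.536) (x1 := 0.573) (y0 := 0.063) (y1 := 0.081)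
      (by norm_num) (by norm_num) (by norm_num) (by norm_num) (by norm_num) (by norm_num) (by norm_num)
      h1 h2 h5 h6
      (G_num (r := 0.1837) (by norm_num) (by norm_num) (by norm_num))
      (G_num (r := 0.2083) (by norm_num) (by norm_num) (by norm_num))
      (G_num (r := 0.1899) (by norm_num) (by norm_num) (by norm_num))
      (G_num (r := 0.2154) (by norm_num) (by norm_num) (by norm_num)))
  have H2 : (2.23494 : ℝ) ≤ G 1.11742 0.73642 0.76416 C.a C.b := (G_rect (m := 2.23494) (x0 := 0.536) (x1 := 0.573) (y0 := 0.364) (y1 := 0.383)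
      (by norm_num) (by norm_num) (by norm_num) (by norm_num) (by norm_num) (by norm_num) (by norm_num)
      h1 h2 h3 h4
      (G_num (r := 0.4417) (by norm_num) (by norm_num) (by norm_num))
      (G_num (r := 0.453) (by norm_num) (by norm_num) (by norm_num))
      (G_num (r := 0.4566) (by norm_num) (by norm_num) (by norm_num))
      (G_num (r := 0.4684) (by norm_num) (by norm_num) (by norm_num)))
  exact C.finish (γ := 0.618) (z0 := 0.69) (z1 := 0.12) (z2 := 0) (c01 := 0) (c02 := 0) (c12 := 0.19)
    (A0 := 0.73642) (A1 := 0.76416) (A2 := 1.11742) (B0 := 2) (B1 := 2) (B2 := 2.23484)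
    (by norm_num) (by linarith [gd_gt]) (by norm_num) (by norm_num) (by norm_num) (by norm_num) (by norm_num) (by norm_num)
    (by norm_num) (by norm_num) (by norm_num) (by norm_num) (by norm_num) (by norm_num)
    (le_trans (le_trans (by norm_num) H0) (C.cmp0 (by norm_num) (by norm_num) (by norm_num)))
    (lt_of_lt_of_le (lt_of_lt_of_le (by norm_num) H1) (C.cmp1 (by norm_num) (by norm_num) (by norm_num)))
    (lt_of_lt_of_le (lt_of_lt_of_le (by norm_num) H2) (C.cmp2 (by norm_num) (by norm_num) (by norm_num)))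

theorem leaf49 (C : Cfg) (h1 : 0.5 ≤ C.a) (h2 : C.a ≤ 0.574) (h3 : 0.345 ≤ C.b) (h4 : C.b ≤ 0.383) (h5 : 0.081 ≤ C.c)
    (h6 : C.c ≤ 0.117) : False := by
  have H0 : (2.0001 : ℝ) ≤ G 0.7135 0.7809 1.1236 C.b C.c := (G_rect (m := 2.0001) (x0 := 0.345) (x1 := 0.383) (y0 := 0.081) (y1 := 0.117)
      (by norm_num) (by norm_num) (by norm_num) (by norm_num) (by norm_num) (by norm_num) (by norm_num)
      h3 h4 h5 h6
      (G_num (r := 0.1671) (by norm_num) (by norm_num) (by norm_num))
      (G_num (r := 0.2009) (by norm_num) (by norm_num) (by norm_num))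
      (G_num (r := 0.1761) (by norm_num) (by norm_num) (by norm_num))
      (G_num (r := 0.2116) (by norm_num) (by norm_num) (by norm_num)))
  have H1 : (2.0001 : ℝ) ≤ G 0.7809 0.7135 1.1236 C.a C.c := (G_rect (m := 2.0001) (x0 := 0.5) (x1 := 0.574) (y0 := 0.081) (y1 := 0.117)
      (by norm_num) (by norm_num) (by norm_num) (by norm_num) (by norm_num) (by norm_num) (by norm_num)
      h1 h2 h5 h6
      (G_num (r := 0.2012) (by norm_num) (by norm_num) (by norm_num))
      (G_num (r := 0.2418) (by norm_num) (by norm_num) (by norm_num))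
      (G_num (r := 0.2156) (by norm_num) (by norm_num) (by norm_num))
      (G_num (r := 0.2591) (by norm_num) (by norm_num) (by norm_num)))
  have H2 : (2.2473 : ℝ) ≤ G 1.1236 0.7135 0.7809 C.a C.b := (G_rect (m := 2.2473) (x0 := 0.5) (x1 := 0.574) (y0 := 0.345) (y1 := 0.383)
      (by norm_num) (by norm_num) (by norm_num) (by norm_num) (by norm_num) (by norm_num) (by norm_num)
      h1 h2 h3 h4
      (G_num (r := 0.4153) (by norm_num) (by norm_num) (by norm_num))
      (G_num (r := 0.4376) (by norm_num) (by norm_num) (by norm_num))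
      (G_num (r := 0.445) (by norm_num) (by norm_num) (by norm_num))
      (G_num (r := 0.4688) (by norm_num) (by norm_num) (by norm_num)))
  exact C.finish (γ := 0.618) (z0 := 0.75) (z1 := 0.05) (z2 := 0) (c01 := 0) (c02 := 0) (c12 := 0.2)
    (A0 := 0.7135) (A1 := 0.7809) (A2 := 1.1236) (B0 := 2) (B1 := 2) (B2 := 2.2472)
    (by norm_num) (by linarith [gd_gt]) (by norm_num) (by norm_num) (by norm_num) (by norm_num) (by norm_num) (by norm_num)
    (by norm_num) (by norm_num) (by norm_num) (by norm_num) (by norm_num) (by norm_num)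
    (le_trans (le_trans (by norm_num) H0) (C.cmp0 (by norm_num) (by norm_num) (by norm_num)))
    (lt_of_lt_of_le (lt_of_lt_of_le (by norm_num) H1) (C.cmp1 (by norm_num) (by norm_num) (by norm_num)))
    (lt_of_lt_of_le (lt_of_lt_of_le (by norm_num) H2) (C.cmp2 (by norm_num) (by norm_num) (by norm_num)))

theorem leaf50 (C : Cfg) (h1 : 0.517 ≤ C.a) (h2 : C.a ≤ 0.572) (h3 : 0.383 ≤ C.b) (h4 : C.b ≤ 0.402) (h5 : 0.045 ≤ C.c)
    (h6 : C.c ≤ 0.081) : False := by
  have H0 : (2.0001 : ℝ) ≤ G 0.74788 0.7527 1.11742 C.b C.c := (G_rect (m := 2.0001) (x0 := 0.383) (x1 := 0.402) (y0 := 0.045) (y1 := 0.081)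
      (by norm_num) (by norm_num) (by norm_num) (by norm_num) (by norm_num) (by norm_num) (by norm_num)
      h3 h4 h5 h6
      (G_num (r := 0.1312) (by norm_num) (by norm_num) (by norm_num))
      (G_num (r := 0.1761) (by norm_num) (by norm_num) (by norm_num))
      (G_num (r := 0.1344) (by norm_num) (by norm_num) (by norm_num))
      (G_num (r := 0.1804) (by norm_num) (by norm_num) (by norm_num)))
  have H1 : (2.0001 : ℝ) ≤ G 0.7527 0.74788 1.11742 C.a C.c := (G_rect (m := 2.0001) (x0 := 0.517) (x1 := 0.572) (y0 := 0.045) (y1 := 0.081)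
      (by norm_num) (by norm_num) (by norm_num) (by norm_num) (by norm_num) (by norm_num) (by norm_num)
      h1 h2 h5 h6
      (G_num (r := 0.1525) (by norm_num) (by norm_num) (by norm_num))
      (G_num (r := 0.2046) (by norm_num) (by norm_num) (by norm_num))
      (G_num (r := 0.1604) (by norm_num) (by norm_num) (by norm_num))
      (G_num (r := 0.2152) (by norm_num) (by norm_num) (by norm_num)))
  have H2 : (2.23494 : ℝ) ≤ G 1.11742 0.74788 0.7527 C.a C.b := (G_rect (m := 2.23494) (x0 := 0.517) (x1 := 0.572) (y0 := 0.383) (y1 := 0.402)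
      (by norm_num) (by norm_num) (by norm_num) (by norm_num) (by norm_num) (by norm_num) (by norm_num)
      h1 h2 h3 h4
      (G_num (r := 0.4449) (by norm_num) (by norm_num) (by norm_num))
      (G_num (r := 0.4558) (by norm_num) (by norm_num) (by norm_num))
      (G_num (r := 0.468) (by norm_num) (by norm_num) (by norm_num))
      (G_num (r := 0.4795) (by norm_num) (by norm_num) (by norm_num)))
  exact C.finish (γ := 0.618) (z0 := 0.66) (z1 := 0.15) (z2 := 0) (c01 := 0) (c02 := 0) (c12 := 0.19)
    (A0 := 0.74788) (A1 := 0.7527) (A2 := 1.11742) (B0 := 2) (B1 := 2) (B2 := 2.23484)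
    (by norm_num) (by linarith [gd_gt]) (by norm_num) (by norm_num) (by norm_num) (by norm_num) (by norm_num) (by norm_num)
    (by norm_num) (by norm_num) (by norm_num) (by norm_num) (by norm_num) (by norm_num)
    (le_trans (le_trans (by norm_num) H0) (C.cmp0 (by norm_num) (by norm_num) (by norm_num)))
    (lt_of_lt_of_le (lt_of_lt_of_le (by norm_num) H1) (C.cmp1 (by norm_num) (by norm_num) (by norm_num)))
    (lt_of_lt_of_le (lt_of_lt_of_le (by norm_num) H2) (C.cmp2 (by norm_num) (by norm_num) (by norm_num)))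

theorem leaf51 (C : Cfg) (h1 : 0.497 ≤ C.a) (h2 : C.a ≤ 0.553) (h3 : 0.402 ≤ C.b) (h4 : C.b ≤ 0.422) (h5 : 0.045 ≤ C.c)
    (h6 : C.c ≤ 0.081) : False := by
  have H0 : (2.0001 : ℝ) ≤ G 0.74788 0.74034 1.12978 C.b C.c := (G_rect (m := 2.0001) (x0 := 0.402) (x1 := 0.422) (y0 := 0.045) (y1 := 0.081)
      (by norm_num) (by norm_num) (by norm_num) (by norm_num) (by norm_num) (by norm_num) (by norm_num)
      h3 h4 h5 h6
      (G_num (r := 0.1344) (by norm_num) (by norm_num) (by norm_num))
      (G_num (r := 0.1804) (by norm_num) (by norm_num) (by norm_num))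
      (G_num (r := 0.1378) (by norm_num) (by norm_num) (by norm_num))
      (G_num (r := 0.1848) (by norm_num) (by norm_num) (by norm_num)))
  have H1 : (2.0001 : ℝ) ≤ G 0.74034 0.74788 1.12978 C.a C.c := (G_rect (m := 2.0001) (x0 := 0.497) (x1 := 0.553) (y0 := 0.045) (y1 := 0.081)
      (by norm_num) (by norm_num) (by norm_num) (by norm_num) (by norm_num) (by norm_num) (by norm_num)
      h1 h2 h5 h6
      (G_num (r := 0.1495) (by norm_num) (by norm_num) (by norm_num))
      (G_num (r := 0.2006) (by norm_num) (by norm_num) (by norm_num))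
      (G_num (r := 0.1577) (by norm_num) (by norm_num) (by norm_num))
      (G_num (r := 0.2116) (by norm_num) (by norm_num) (by norm_num)))
  have H2 : (2.25966 : ℝ) ≤ G 1.12978 0.74788 0.74034 C.a C.b := (G_rect (m := 2.25966) (x0 := 0.497) (x1 := 0.553) (y0 := 0.402) (y1 := 0.422)
      (by norm_num) (by norm_num) (by norm_num) (by norm_num) (by norm_num) (by norm_num) (by norm_num)
      h1 h2 h3 h4
      (G_num (r := 0.4469) (by norm_num) (by norm_num) (by norm_num))
      (G_num (r := 0.4579) (by norm_num) (by norm_num) (by norm_num))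
      (G_num (r := 0.4714) (by norm_num) (by norm_num) (by norm_num))
      (G_num (r := 0.483) (by norm_num) (by norm_num) (by norm_num)))
  exact C.finish (γ := 0.618) (z0 := 0.66) (z1 := 0.13) (z2 := 0) (c01 := 0) (c02 := 0) (c12 := 0.21)
    (A0 := 0.74788) (A1 := 0.74034) (A2 := 1.12978) (B0 := 2) (B1 := 2) (B2 := 2.25956)
    (by norm_num) (by linarith [gd_gt]) (by norm_num) (by norm_num) (by norm_num) (by norm_num) (by norm_num) (by norm_num)
    (by norm_num) (by norm_num) (by norm_num) (by norm_num) (by norm_num) (by norm_num)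
    (le_trans (le_trans (by norm_num) H0) (C.cmp0 (by norm_num) (by norm_num) (by norm_num)))
    (lt_of_lt_of_le (lt_of_lt_of_le (by norm_num) H1) (C.cmp1 (by norm_num) (by norm_num) (by norm_num)))
    (lt_of_lt_of_le (lt_of_lt_of_le (by norm_num) H2) (C.cmp2 (by norm_num) (by norm_num) (by norm_num)))

theorem leaf52 (C : Cfg) (h1 : 0.461 ≤ C.a) (h2 : C.a ≤ 0.536) (h3 : 0.383 ≤ C.b) (h4 : C.b ≤ 0.422) (h5 : 0.081 ≤ C.c)
    (h6 : C.c ≤ 0.117) : False := by
  have H0 : (2.0001 : ℝ) ≤ G 0.70114 0.75 1.16686 C.b C.c := (G_rect (m := 2.0001) (x0 := 0.383) (x1 := 0.422) (y0 := 0.081) (y1 := 0.117)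
      (by norm_num) (by norm_num) (by norm_num) (by norm_num) (by norm_num) (by norm_num) (by norm_num)
      h3 h4 h5 h6
      (G_num (r := 0.1761) (by norm_num) (by norm_num) (by norm_num))
      (G_num (r := 0.2116) (by norm_num) (by norm_num) (by norm_num))
      (G_num (r := 0.1848) (by norm_num) (by norm_num) (by norm_num))
      (G_num (r := 0.2222) (by norm_num) (by norm_num) (by norm_num)))
  have H1 : (2.0001 : ℝ) ≤ G 0.75 0.70114 1.16686 C.a C.c := (G_rect (m := 2.0001) (x0 := 0.461) (x1 := 0.536) (y0 := 0.081) (y1 := 0.117)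
      (by norm_num) (by norm_num) (by norm_num) (by norm_num) (by norm_num) (by norm_num) (by norm_num)
      h1 h2 h5 h6
      (G_num (r := 0.1932) (by norm_num) (by norm_num) (by norm_num))
      (G_num (r := 0.2322) (by norm_num) (by norm_num) (by norm_num))
      (G_num (r := 0.2083) (by norm_num) (by norm_num) (by norm_num))
      (G_num (r := 0.2504) (by norm_num) (by norm_num) (by norm_num)))
  have H2 : (2.33382 : ℝ) ≤ G 1.16686 0.70114 0.75 C.a C.b := (G_rect (m := 2.33382) (x0 := 0.461) (x1 := 0.536) (y0 := 0.383) (y1 := 0.422)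
      (by norm_num) (by norm_num) (by norm_num) (by norm_num) (by norm_num) (by norm_num) (by norm_num)
      h1 h2 h3 h4
      (G_num (r := 0.4201) (by norm_num) (by norm_num) (by norm_num))
      (G_num (r := 0.441) (by norm_num) (by norm_num) (by norm_num))
      (G_num (r := 0.453) (by norm_num) (by norm_num) (by norm_num))
      (G_num (r := 0.4755) (by norm_num) (by norm_num) (by norm_num)))
  exact C.finish (γ := 0.618) (z0 := 0.73) (z1 := 0) (z2 := 0) (c01 := 0) (c02 := 0.02) (c12 := 0.25)
    (A0 := 0.70114) (A1 := 0.75) (A2 := 1.16686) (B0 := 2) (B1 := 2) (B2 := 2.33372)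
    (by norm_num) (by linarith [gd_gt]) (by norm_num) (by norm_num) (by norm_num) (by norm_num) (by norm_num) (by norm_num)
    (by norm_num) (by norm_num) (by norm_num) (by norm_num) (by norm_num) (by norm_num)
    (le_trans (le_trans (by norm_num) H0) (C.cmp0 (by norm_num) (by norm_num) (by norm_num)))
    (lt_of_lt_of_le (lt_of_lt_of_le (by norm_num) H1) (C.cmp1 (by norm_num) (by norm_num) (by norm_num)))
    (lt_of_lt_of_le (lt_of_lt_of_le (by norm_num) H2) (C.cmp2 (by norm_num) (by norm_num) (by norm_num)))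

theorem leaf53 (C : Cfg) (h1 : 0.428 ≤ C.a) (h2 : C.a ≤ 0.538) (h3 : 0.345 ≤ C.b) (h4 : C.b ≤ 0.383) (h5 : 0.117 ≤ C.c)
    (h6 : C.c ≤ 0.189) : False := by
  have H0 : (2.0001 : ℝ) ≤ G 0.79372 0.85102 0.97326 C.b C.c := (G_rect (m := 2.0001) (x0 := 0.345) (x1 := 0.383) (y0 := 0.117) (y1 := 0.189)
      (by norm_num) (by norm_num) (by norm_num) (by norm_num) (by norm_num) (by norm_num) (by norm_num)
      h3 h4 h5 h6
      (G_num (r := 0.2009) (by norm_num) (by norm_num) (by norm_num))
      (G_num (r := 0.2553) (by norm_num) (by norm_num) (by norm_num))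
      (G_num (r := 0.2116) (by norm_num) (by norm_num) (by norm_num))
      (G_num (r := 0.269) (by norm_num) (by norm_num) (by norm_num)))
  have H1 : (2.0001 : ℝ) ≤ G 0.85102 0.79372 0.97326 C.a C.c := (G_rect (m := 2.0001) (x0 := 0.428) (x1 := 0.538) (y0 := 0.117) (y1 := 0.189)
      (by norm_num) (by norm_num) (by norm_num) (by norm_num) (by norm_num) (by norm_num) (by norm_num)
      h1 h2 h5 h6
      (G_num (r := 0.2237) (by norm_num) (by norm_num) (by norm_num))
      (G_num (r := 0.2844) (by norm_num) (by norm_num) (by norm_num))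
      (G_num (r := 0.2508) (by norm_num) (by norm_num) (by norm_num))
      (G_num (r := 0.3188) (by norm_num) (by norm_num) (by norm_num)))
  have H2 : (2.0001 : ℝ) ≤ G 0.97326 0.79372 0.85102 C.a C.b := (G_rect (m := 2.0001) (x0 := 0.428) (x1 := 0.538) (y0 := 0.345) (y1 := 0.383)
      (by norm_num) (by norm_num) (by norm_num) (by norm_num) (by norm_num) (by norm_num) (by norm_num)
      h1 h2 h3 h4
      (G_num (r := 0.3842) (by norm_num) (by norm_num) (by norm_num))
      (G_num (r := 0.4048) (by norm_num) (by norm_num) (by norm_num))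
      (G_num (r := 0.4308) (by norm_num) (by norm_num) (by norm_num))
      (G_num (r := 0.4539) (by norm_num) (by norm_num) (by norm_num)))
  exact C.finish (γ := 0.618) (z0 := 0.54) (z1 := 0.39) (z2 := 0.07) (c01 := 0) (c02 := 0) (c12 := 0)
    (A0 := 0.79372) (A1 := 0.85102) (A2 := 0.97326) (B0 := 2) (B1 := 2) (B2 := 2)
    (by norm_num) (by linarith [gd_gt]) (by norm_num) (by norm_num) (by norm_num) (by norm_num) (by norm_num) (by norm_num)
    (by norm_num) (by norm_num) (by norm_num) (by norm_num) (by norm_num) (by norm_num)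
    (le_trans (le_trans (by norm_num) H0) (C.cmp0 (by norm_num) (by norm_num) (by norm_num)))
    (lt_of_lt_of_le (lt_of_lt_of_le (by norm_num) H1) (C.cmp1 (by norm_num) (by norm_num) (by norm_num)))
    (lt_of_lt_of_le (lt_of_lt_of_le (by norm_num) H2) (C.cmp2 (by norm_num) (by norm_num) (by norm_num)))

theorem leaf54 (C : Cfg) (h1 : 0.405 ≤ C.a) (h2 : C.a ≤ 0.5) (h3 : 0.383 ≤ C.b) (h4 : C.b ≤ 0.422) (h5 : 0.117 ≤ C.c)
    (h6 : C.c ≤ 0.189) : False := by
  have H0 : (2.0001 : ℝ) ≤ G 0.81664 0.84338 0.95798 C.b C.c := (G_rect (m := 2.0001) (x0 := 0.383) (x1 := 0.422) (y0 := 0.117) (y1 := 0.189)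
      (by norm_num) (by norm_num) (by norm_num) (by norm_num) (by norm_num) (by norm_num) (by norm_num)
      h3 h4 h5 h6
      (G_num (r := 0.2116) (by norm_num) (by norm_num) (by norm_num))
      (G_num (r := 0.269) (by norm_num) (by norm_num) (by norm_num))
      (G_num (r := 0.2222) (by norm_num) (by norm_num) (by norm_num))
      (G_num (r := 0.2824) (by norm_num) (by norm_num) (by norm_num)))
  have H1 : (2.0001 : ℝ) ≤ G 0.84338 0.81664 0.95798 C.a C.c := (G_rect (m := 2.0001) (x0 := 0.405) (x1 := 0.5) (y0 := 0.117) (y1 := 0.189)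
      (by norm_num) (by norm_num) (by norm_num) (by norm_num) (by norm_num) (by norm_num) (by norm_num)
      h1 h2 h5 h6
      (G_num (r := 0.2176) (by norm_num) (by norm_num) (by norm_num))
      (G_num (r := 0.2766) (by norm_num) (by norm_num) (by norm_num))
      (G_num (r := 0.2418) (by norm_num) (by norm_num) (by norm_num))
      (G_num (r := 0.3074) (by norm_num) (by norm_num) (by norm_num)))
  have H2 : (2.0001 : ℝ) ≤ G 0.95798 0.81664 0.84338 C.a C.b := (G_rect (m := 2.0001) (x0 := 0.405) (x1 := 0.5) (y0 := 0.383) (y1 := 0.422)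
      (by norm_num) (by norm_num) (by norm_num) (by norm_num) (by norm_num) (by norm_num) (by norm_num)
      h1 h2 h3 h4
      (G_num (r := 0.3938) (by norm_num) (by norm_num) (by norm_num))
      (G_num (r := 0.4134) (by norm_num) (by norm_num) (by norm_num))
      (G_num (r := 0.4376) (by norm_num) (by norm_num) (by norm_num))
      (G_num (r := 0.4593) (by norm_num) (by norm_num) (by norm_num)))
  exact C.finish (γ := 0.618) (z0 := 0.48) (z1 := 0.41) (z2 := 0.11) (c01 := 0) (c02 := 0) (c12 := 0)
    (A0 := 0.81664) (A1 := 0.84338) (A2 := 0.95798) (B0 := 2) (B1 := 2) (B2 := 2)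
    (by norm_num) (by linarith [gd_gt]) (by norm_num) (by norm_num) (by norm_num) (by norm_num) (by norm_num) (by norm_num)
    (by norm_num) (by norm_num) (by norm_num) (by norm_num) (by norm_num) (by norm_num)
    (le_trans (le_trans (by norm_num) H0) (C.cmp0 (by norm_num) (by norm_num) (by norm_num)))
    (lt_of_lt_of_le (lt_of_lt_of_le (by norm_num) H1) (C.cmp1 (by norm_num) (by norm_num) (by norm_num)))
    (lt_of_lt_of_le (lt_of_lt_of_le (by norm_num) H2) (C.cmp2 (by norm_num) (by norm_num) (by norm_num)))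

theorem leaf55 (C : Cfg) (h1 : 0.441 ≤ C.a) (h2 : C.a ≤ 0.533) (h3 : 0.422 ≤ C.b) (h4 : C.b ≤ 0.461) (h5 : 0.045 ≤ C.c)
    (h6 : C.c ≤ 0.117) : False := by
  have H0 : (2.0001 : ℝ) ≤ G 0.74978 0.76316 1.10506 C.b C.c := (G_rect (m := 2.0001) (x0 := 0.422) (x1 := 0.461) (y0 := 0.045) (y1 := 0.117)
      (by norm_num) (by norm_num) (by norm_num) (by norm_num) (by norm_num) (by norm_num) (by norm_num)
      h3 h4 h5 h6
      (G_num (r := 0.1378) (by norm_num) (by norm_num) (by norm_num))
      (G_num (r := 0.2222) (by norm_num) (by norm_num) (by norm_num))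
      (G_num (r := 0.144) (by norm_num) (by norm_num) (by norm_num))
      (G_num (r := 0.2322) (by norm_num) (by norm_num) (by norm_num)))
  have H1 : (2.0001 : ℝ) ≤ G 0.76316 0.74978 1.10506 C.a C.c := (G_rect (m := 2.0001) (x0 := 0.441) (x1 := 0.533) (y0 := 0.045) (y1 := 0.117)
      (by norm_num) (by norm_num) (by norm_num) (by norm_num) (by norm_num) (by norm_num) (by norm_num)
      h1 h2 h5 h6
      (G_num (r := 0.1408) (by norm_num) (by norm_num) (by norm_num))
      (G_num (r := 0.2271) (by norm_num) (by norm_num) (by norm_num))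
      (G_num (r := 0.1548) (by norm_num) (by norm_num) (by norm_num))
      (G_num (r := 0.2497) (by norm_num) (by norm_num) (by norm_num)))
  have H2 : (2.21022 : ℝ) ≤ G 1.10506 0.74978 0.76316 C.a C.b := (G_rect (m := 2.21022) (x0 := 0.441) (x1 := 0.533) (y0 := 0.422) (y1 := 0.461)
      (by norm_num) (by norm_num) (by norm_num) (by norm_num) (by norm_num) (by norm_num) (by norm_num)
      h1 h2 h3 h4
      (G_num (r := 0.4313) (by norm_num) (by norm_num) (by norm_num))
      (G_num (r := 0.4508) (by norm_num) (by norm_num) (by norm_num))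
      (G_num (r := 0.4742) (by norm_num) (by norm_num) (by norm_num))
      (G_num (r := 0.4956) (by norm_num) (by norm_num) (by norm_num)))
  exact C.finish (γ := 0.618) (z0 := 0.21) (z1 := 0.62) (z2 := 0) (c01 := 0) (c02 := 0.17) (c12 := 0)
    (A0 := 0.74978) (A1 := 0.76316) (A2 := 1.10506) (B0 := 2) (B1 := 2) (B2 := 2.21012)
    (by norm_num) (by linarith [gd_gt]) (by norm_num) (by norm_num) (by norm_num) (by norm_num) (by norm_num) (by norm_num)
    (by norm_num) (by norm_num) (by norm_num) (by norm_num) (by norm_num) (by norm_num)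
    (le_trans (le_trans (by norm_num) H0) (C.cmp0 (by norm_num) (by norm_num) (by norm_num)))
    (lt_of_lt_of_le (lt_of_lt_of_le (by norm_num) H1) (C.cmp1 (by norm_num) (by norm_num) (by norm_num)))
    (lt_of_lt_of_le (lt_of_lt_of_le (by norm_num) H2) (C.cmp2 (by norm_num) (by norm_num) (by norm_num)))

theorem leaf56 (C : Cfg) (h1 : 0.461 ≤ C.a) (h2 : C.a ≤ 0.494) (h3 : 0.461 ≤ C.b) (h4 : C.b ≤ 0.478) (h5 : 0.045 ≤ C.c)
    (h6 : C.c ≤ 0.078) : False := by
  have H0 : (2.0001 : ℝ) ≤ G 0.73642 0.73326 1.14832 C.b C.c := (G_rect (m := 2.0001) (x0 := 0.461) (x1 := 0.478) (y0 := 0.045) (y1 := 0.078)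
      (by norm_num) (by norm_num) (by norm_num) (by norm_num) (by norm_num) (by norm_num) (by norm_num)
      h3 h4 h5 h6
      (G_num (r := 0.144) (by norm_num) (by norm_num) (by norm_num))
      (G_num (r := 0.1896) (by norm_num) (by norm_num) (by norm_num))
      (G_num (r := 0.1466) (by norm_num) (by norm_num) (by norm_num))
      (G_num (r := 0.193) (by norm_num) (by norm_num) (by norm_num)))
  have H1 : (2.0001 : ℝ) ≤ G 0.73326 0.73642 1.14832 C.a C.c := (G_rect (m := 2.0001) (x0 := 0.461) (x1 := 0.494) (y0 := 0.045) (y1 := 0.078)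
      (by norm_num) (by norm_num) (by norm_num) (by norm_num) (by norm_num) (by norm_num) (by norm_num)
      h1 h2 h5 h6
      (G_num (r := 0.144) (by norm_num) (by norm_num) (by norm_num))
      (G_num (r := 0.1896) (by norm_num) (by norm_num) (by norm_num))
      (G_num (r := 0.149) (by norm_num) (by norm_num) (by norm_num))
      (G_num (r := 0.1962) (by norm_num) (by norm_num) (by norm_num)))
  have H2 : (2.29674 : ℝ) ≤ G 1.14832 0.73642 0.73326 C.a C.b := (G_rect (m := 2.29674) (x0 := 0.461) (x1 := 0.494) (y0 := 0.461) (y1 := 0.478)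
      (by norm_num) (by norm_num) (by norm_num) (by norm_num) (by norm_num) (by norm_num) (by norm_num)
      h1 h2 h3 h4
      (G_num (r := 0.461) (by norm_num) (by norm_num) (by norm_num))
      (G_num (r := 0.4694) (by norm_num) (by norm_num) (by norm_num))
      (G_num (r := 0.4772) (by norm_num) (by norm_num) (by norm_num))
      (G_num (r := 0.4859) (by norm_num) (by norm_num) (by norm_num)))
  exact C.finish (γ := 0.618) (z0 := 0.69) (z1 := 0.07) (z2 := 0) (c01 := 0) (c02 := 0) (c12 := 0.24)
    (A0 := 0.73642) (A1 := 0.73326) (A2 := 1.14832) (B0 := 2) (B1 := 2) (B2 := 2.29664)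
    (by norm_num) (by linarith [gd_gt]) (by norm_num) (by norm_num) (by norm_num) (by norm_num) (by norm_num) (by norm_num)
    (by norm_num) (by norm_num) (by norm_num) (by norm_num) (by norm_num) (by norm_num)
    (le_trans (le_trans (by norm_num) H0) (C.cmp0 (by norm_num) (by norm_num) (by norm_num)))
    (lt_of_lt_of_le (lt_of_lt_of_le (by norm_num) H1) (C.cmp1 (by norm_num) (by norm_num) (by norm_num)))
    (lt_of_lt_of_le (lt_of_lt_of_le (by norm_num) H2) (C.cmp2 (by norm_num) (by norm_num) (by norm_num)))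

theorem leaf57 (C : Cfg) (h1 : 0.422 ≤ C.a) (h2 : C.a ≤ 0.461) (h3 : 0.422 ≤ C.b) (h4 : C.b ≤ 0.442) (h5 : 0.117 ≤ C.c)
    (h6 : C.c ≤ 0.156) : False := by
  have H0 : (2.0001 : ℝ) ≤ G 0.81664 0.82046 0.9809 C.b C.c := (G_rect (m := 2.0001) (x0 := 0.422) (x1 := 0.442) (y0 := 0.117) (y1 := 0.156)
      (by norm_num) (by norm_num) (by norm_num) (by norm_num) (by norm_num) (by norm_num) (by norm_num)
      h3 h4 h5 h6
      (G_num (r := 0.2222) (by norm_num) (by norm_num) (by norm_num))
      (G_num (r := 0.2565) (by norm_num) (by norm_num) (by norm_num))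
      (G_num (r := 0.2274) (by norm_num) (by norm_num) (by norm_num))
      (G_num (r := 0.2625) (by norm_num) (by norm_num) (by norm_num)))
  have H1 : (2.0001 : ℝ) ≤ G 0.82046 0.81664 0.9809 C.a C.c := (G_rect (m := 2.0001) (x0 := 0.422) (x1 := 0.461) (y0 := 0.117) (y1 := 0.156)
      (by norm_num) (by norm_num) (by norm_num) (by norm_num) (by norm_num) (by norm_num) (by norm_num)
      h1 h2 h5 h6
      (G_num (r := 0.2222) (by norm_num) (by norm_num) (by norm_num))
      (G_num (r := 0.2565) (by norm_num) (by norm_num) (by norm_num))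
      (G_num (r := 0.2322) (by norm_num) (by norm_num) (by norm_num))
      (G_num (r := 0.2681) (by norm_num) (by norm_num) (by norm_num)))
  have H2 : (2.0001 : ℝ) ≤ G 0.9809 0.81664 0.82046 C.a C.b := (G_rect (m := 2.0001) (x0 := 0.422) (x1 := 0.461) (y0 := 0.422) (y1 := 0.442)
      (by norm_num) (by norm_num) (by norm_num) (by norm_num) (by norm_num) (by norm_num) (by norm_num)
      h1 h2 h3 h4
      (G_num (r := 0.422) (by norm_num) (by norm_num) (by norm_num))
      (G_num (r := 0.4318) (by norm_num) (by norm_num) (by norm_num))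
      (G_num (r := 0.441) (by norm_num) (by norm_num) (by norm_num))
      (G_num (r := 0.4514) (by norm_num) (by norm_num) (by norm_num)))
  exact C.finish (γ := 0.618) (z0 := 0.48) (z1 := 0.47) (z2 := 0.05) (c01 := 0) (c02 := 0) (c12 := 0)
    (A0 := 0.81664) (A1 := 0.82046) (A2 := 0.9809) (B0 := 2) (B1 := 2) (B2 := 2)
    (by norm_num) (by linarith [gd_gt]) (by norm_num) (by norm_num) (by norm_num) (by norm_num) (by norm_num) (by norm_num)
    (by norm_num) (by norm_num) (by norm_num) (by norm_num) (by norm_num) (by norm_num)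
    (le_trans (le_trans (by norm_num) H0) (C.cmp0 (by norm_num) (by norm_num) (by norm_num)))
    (lt_of_lt_of_le (lt_of_lt_of_le (by norm_num) H1) (C.cmp1 (by norm_num) (by norm_num) (by norm_num)))
    (lt_of_lt_of_le (lt_of_lt_of_le (by norm_num) H2) (C.cmp2 (by norm_num) (by norm_num) (by norm_num)))

theorem leaf58 (C : Cfg) (h1 : 0.369 ≤ C.a) (h2 : C.a ≤ 0.466) (h3 : 0.345 ≤ C.b) (h4 : C.b ≤ 0.383) (h5 : 0.189 ≤ C.c)
    (h6 : C.c ≤ 0.261) : False := by
  have H0 : (2.0001 : ℝ) ≤ G 0.83192 0.86248 0.9236 C.b C.c := (G_rect (m := 2.0001) (x0 := 0.345) (x1 := 0.383) (y0 := 0.189) (y1 := 0.261)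
      (by norm_num) (by norm_num) (by norm_num) (by norm_num) (by norm_num) (by norm_num) (by norm_num)
      h3 h4 h5 h6
      (G_num (r := 0.2553) (by norm_num) (by norm_num) (by norm_num))
      (G_num (r := 0.3) (by norm_num) (by norm_num) (by norm_num))
      (G_num (r := 0.269) (by norm_num) (by norm_num) (by norm_num))
      (G_num (r := 0.3161) (by norm_num) (by norm_num) (by norm_num)))
  have H1 : (2.0001 : ℝ) ≤ G 0.86248 0.83192 0.9236 C.a C.c := (G_rect (m := 2.0001) (x0 := 0.369) (x1 := 0.466) (y0 := 0.189) (y1 := 0.261)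
      (by norm_num) (by norm_num) (by norm_num) (by norm_num) (by norm_num) (by norm_num) (by norm_num)
      h1 h2 h5 h6
      (G_num (r := 0.264) (by norm_num) (by norm_num) (by norm_num))
      (G_num (r := 0.3103) (by norm_num) (by norm_num) (by norm_num))
      (G_num (r := 0.2967) (by norm_num) (by norm_num) (by norm_num))
      (G_num (r := 0.3487) (by norm_num) (by norm_num) (by norm_num)))
  have H2 : (2.0001 : ℝ) ≤ G 0.9236 0.83192 0.86248 C.a C.b := (G_rect (m := 2.0001) (x0 := 0.369) (x1 := 0.466) (y0 := 0.345) (y1 := 0.383)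
      (by norm_num) (by norm_num) (by norm_num) (by norm_num) (by norm_num) (by norm_num) (by norm_num)
      h1 h2 h3 h4
      (G_num (r := 0.3567) (by norm_num) (by norm_num) (by norm_num))
      (G_num (r := 0.3759) (by norm_num) (by norm_num) (by norm_num))
      (G_num (r := 0.4009) (by norm_num) (by norm_num) (by norm_num))
      (G_num (r := 0.4224) (by norm_num) (by norm_num) (by norm_num)))
  exact C.finish (γ := 0.618) (z0 := 0.44) (z1 := 0.36) (z2 := 0.2) (c01 := 0) (c02 := 0) (c12 := 0)
    (A0 := 0.83192) (A1 := 0.86248) (A2 := 0.9236) (B0 := 2) (B1 := 2) (B2 := 2)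
    (by norm_num) (by linarith [gd_gt]) (by norm_num) (by norm_num) (by norm_num) (by norm_num) (by norm_num) (by norm_num)
    (by norm_num) (by norm_num) (by norm_num) (by norm_num) (by norm_num) (by norm_num)
    (le_trans (le_trans (by norm_num) H0) (C.cmp0 (by norm_num) (by norm_num) (by norm_num)))
    (lt_of_lt_of_le (lt_of_lt_of_le (by norm_num) H1) (C.cmp1 (by norm_num) (by norm_num) (by norm_num)))
    (lt_of_lt_of_le (lt_of_lt_of_le (by norm_num) H2) (C.cmp2 (by norm_num) (by norm_num) (by norm_num)))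

theorem leaf59 (C : Cfg) (h1 : 0.383 ≤ C.a) (h2 : C.a ≤ 0.428) (h3 : 0.383 ≤ C.b) (h4 : C.b ≤ 0.406) (h5 : 0.189 ≤ C.c)
    (h6 : C.c ≤ 0.234) : False := by
  have H0 : (2.0001 : ℝ) ≤ G 0.8472 0.85102 0.91978 C.b C.c := (G_rect (m := 2.0001) (x0 := 0.383) (x1 := 0.406) (y0 := 0.189) (y1 := 0.234)
      (by norm_num) (by norm_num) (by norm_num) (by norm_num) (by norm_num) (by norm_num) (by norm_num)
      h3 h4 h5 h6
      (G_num (r := 0.269) (by norm_num) (by norm_num) (by norm_num))
      (G_num (r := 0.2993) (by norm_num) (by norm_num) (by norm_num))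
      (G_num (r := 0.277) (by norm_num) (by norm_num) (by norm_num))
      (G_num (r := 0.3082) (by norm_num) (by norm_num) (by norm_num)))
  have H1 : (2.0001 : ℝ) ≤ G 0.85102 0.8472 0.91978 C.a C.c := (G_rect (m := 2.0001) (x0 := 0.383) (x1 := 0.428) (y0 := 0.189) (y1 := 0.234)
      (by norm_num) (by norm_num) (by norm_num) (by norm_num) (by norm_num) (by norm_num) (by norm_num)
      h1 h2 h5 h6
      (G_num (r := 0.269) (by norm_num) (by norm_num) (by norm_num))
      (G_num (r := 0.2993) (by norm_num) (by norm_num) (by norm_num))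
      (G_num (r := 0.2844) (by norm_num) (by norm_num) (by norm_num))
      (G_num (r := 0.3164) (by norm_num) (by norm_num) (by norm_num)))
  have H2 : (2.0001 : ℝ) ≤ G 0.91978 0.8472 0.85102 C.a C.b := (G_rect (m := 2.0001) (x0 := 0.383) (x1 := 0.428) (y0 := 0.383) (y1 := 0.406)
      (by norm_num) (by norm_num) (by norm_num) (by norm_num) (by norm_num) (by norm_num) (by norm_num)
      h1 h2 h3 h4
      (G_num (r := 0.383) (by norm_num) (by norm_num) (by norm_num))
      (G_num (r := 0.3943) (by norm_num) (by norm_num) (by norm_num))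
      (G_num (r := 0.4048) (by norm_num) (by norm_num) (by norm_num))
      (G_num (r := 0.4168) (by norm_num) (by norm_num) (by norm_num)))
  exact C.finish (γ := 0.618) (z0 := 0.4) (z1 := 0.39) (z2 := 0.21) (c01 := 0) (c02 := 0) (c12 := 0)
    (A0 := 0.8472) (A1 := 0.85102) (A2 := 0.91978) (B0 := 2) (B1 := 2) (B2 := 2)
    (by norm_num) (by linarith [gd_gt]) (by norm_num) (by norm_num) (by norm_num) (by norm_num) (by norm_num) (by norm_num)
    (by norm_num) (by norm_num) (by norm_num) (by norm_num) (by norm_num) (by norm_num)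
    (le_trans (le_trans (by norm_num) H0) (C.cmp0 (by norm_num) (by norm_num) (by norm_num)))
    (lt_of_lt_of_le (lt_of_lt_of_le (by norm_num) H1) (C.cmp1 (by norm_num) (by norm_num) (by norm_num)))
    (lt_of_lt_of_le (lt_of_lt_of_le (by norm_num) H2) (C.cmp2 (by norm_num) (by norm_num) (by norm_num)))

theorem leaf60 (C : Cfg) (h1 : 0.345 ≤ C.a) (h2 : C.a ≤ 0.394) (h3 : 0.345 ≤ C.b) (h4 : C.b ≤ 0.37) (h5 : 0.261 ≤ C.c)
    (h6 : C.c ≤ 0.31) : False := by
  have H0 : (2.0001 : ℝ) ≤ G 0.85866 0.8663 0.89304 C.b C.c := (G_rect (m := 2.0001) (x0 := 0.345) (x1 := 0.37) (y0 := 0.261) (y1 := 0.31)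
      (by norm_num) (by norm_num) (by norm_num) (by norm_num) (by norm_num) (by norm_num) (by norm_num)
      h3 h4 h5 h6
      (G_num (r := 0.3) (by norm_num) (by norm_num) (by norm_num))
      (G_num (r := 0.327) (by norm_num) (by norm_num) (by norm_num))
      (G_num (r := 0.3107) (by norm_num) (by norm_num) (by norm_num))
      (G_num (r := 0.3386) (by norm_num) (by norm_num) (by norm_num)))
  have H1 : (2.0001 : ℝ) ≤ G 0.8663 0.85866 0.89304 C.a C.c := (G_rect (m := 2.0001) (x0 := 0.345) (x1 := 0.394) (y0 := 0.261) (y1 := 0.31)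
      (by norm_num) (by norm_num) (by norm_num) (by norm_num) (by norm_num) (by norm_num) (by norm_num)
      h1 h2 h5 h6
      (G_num (r := 0.3) (by norm_num) (by norm_num) (by norm_num))
      (G_num (r := 0.327) (by norm_num) (by norm_num) (by norm_num))
      (G_num (r := 0.3206) (by norm_num) (by norm_num) (by norm_num))
      (G_num (r := 0.3494) (by norm_num) (by norm_num) (by norm_num)))
  have H2 : (2.0001 : ℝ) ≤ G 0.89304 0.85866 0.8663 C.a C.b := (G_rect (m := 2.0001) (x0 := 0.345) (x1 := 0.394) (y0 := 0.345) (y1 := 0.37)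
      (by norm_num) (by norm_num) (by norm_num) (by norm_num) (by norm_num) (by norm_num) (by norm_num)
      h1 h2 h3 h4
      (G_num (r := 0.345) (by norm_num) (by norm_num) (by norm_num))
      (G_num (r := 0.3572) (by norm_num) (by norm_num) (by norm_num))
      (G_num (r := 0.3686) (by norm_num) (by norm_num) (by norm_num))
      (G_num (r := 0.3818) (by norm_num) (by norm_num) (by norm_num)))
  exact C.finish (γ := 0.618) (z0 := 0.37) (z1 := 0.35) (z2 := 0.28) (c01 := 0) (c02 := 0) (c12 := 0)
    (A0 := 0.85866) (A1 := 0.8663) (A2 := 0.89304) (B0 := 2) (B1 := 2) (B2 := 2)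
    (by norm_num) (by linarith [gd_gt]) (by norm_num) (by norm_num) (by norm_num) (by norm_num) (by norm_num) (by norm_num)
    (by norm_num) (by norm_num) (by norm_num) (by norm_num) (by norm_num) (by norm_num)
    (le_trans (le_trans (by norm_num) H0) (C.cmp0 (by norm_num) (by norm_num) (by norm_num)))
    (lt_of_lt_of_le (lt_of_lt_of_le (by norm_num) H1) (C.cmp1 (by norm_num) (by norm_num) (by norm_num)))
    (lt_of_lt_of_le (lt_of_lt_of_le (by norm_num) H2) (C.cmp2 (by norm_num) (by norm_num) (by norm_num)))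

end Pool.MP_653fdd_gt.Lib
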