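import Pool.Agent.Lib.MP_653fdd_gt.Conc

set_option autoImplicit false

/-! The finite-dimensional core: configurations of three lines cutting a triangle. -/

namespace Pool.MP_653fdd_gt.Lib

/-- inverse golden ratio -/
noncomputable def gd : ℝ := (√5 - 1) / 2

lemma gd_sq : gd ^ 2 = 1 - gd := by
  unfold gd
  have h : √5 ^ 2 = 5 := Real.sq_sqrt (by norm_num)
  nlinarith

lemma gd_gt : (0.618033 : ℝ) < gd := by
  unfold gd
  have : (2.236066 : ℝ) < √5 := by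
    apply Real.lt_sqrt_of_sq_lt; norm_num
  linarith

lemma gd_lt : gd < (0.618035 : ℝ) := by
  unfold gd
  have : √5 < (2.23607 : ℝ) := by
    rw [Real.sqrt_lt' (by norm_num)]; norm_num
  linarith

lemma gd_pos : 0 < gd := by linarith [gd_gt]

/-- A normalized configuration. `a, b, c` are the barycentric coordinates of the common point, the side
lengths are `p0 + p1`, `p0 + p2`, `p1 + p2`, and `xij` is the fraction of the side from vertex `i` to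
vertex `j` cut off (from vertex `i`) by the `i`-th line. -/
structure Cfg where
  (a b c p0 p1 p2 x01 x02 x10 x12 x20 x21 k : ℝ)
  hk : 0 < k
  ha : 0 < a
  hb : 0 < b
  hc : 0 < c
  hsum : a + b + c = 1
  hp0 : 0 ≤ p0
  hp1 : 0 ≤ p1
  hp2 : 0 ≤ p2
  hp01 : 0 < p0 + p1
  hp02 : 0 < p0 + p2
  hp12 : 0 < p1 + p2
  x01_pos : 0 < x01
  x02_pos : 0 < x02
  x10_pos : 0 < x10
  x12_pos : 0 < x12
  x20_pos : 0 < x20
  x21_pos : 0 < x21
  x01_le : x01 ≤ 1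
  x02_le : x02 ≤ 1
  x10_le : x10 ≤ 1
  x12_le : x12 ≤ 1
  x20_le : x20 ≤ 1
  x21_le : x21 ≤ 1
  e0 : b / x01 + c / x02 = 1
  e1 : a / x10 + c / x12 = 1
  e2 : a / x20 + b / x21 = 1
  K0 : k ≤ 2 * (p0 + p1 + p2) - (p1 * (x10 + x12) + p0 * x10 + p2 * x12)
        - (p2 * (x20 + x21) + p0 * x20 + p1 * x21)
  K1 : k ≤ 2 * (p0 + p1 + p2) - (p0 * (x01 + x02) + p1 * x01 + p2 * x02)
        - (p2 * (x20 + x21) + p0 * x20 + p1 * x21)
  K2 : k ≤ 2 * (p0 + p1 + p2) - (p0 * (x01 + x02) + p1 * x01 + p2 * x02)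
        - (p1 * (x10 + x12) + p0 * x10 + p2 * x12)
  KB : (p0 * (x01 + x02) + p1 * x01 + p2 * x02) + (p1 * (x10 + x12) + p0 * x10 + p2 * x12)
        + (p2 * (x20 + x21) + p0 * x20 + p1 * x21) - 2 * (p0 + p1 + p2) ≤ gd * k
  KC0 : gd * ((p0 * (x01 + x02) + p1 * x01 + p2 * x02) - 2 * p0) ≤ k
  KC1 : gd * ((p1 * (x10 + x12) + p0 * x10 + p2 * x12) - 2 * p1) ≤ k
  KC2 : gd * ((p2 * (x20 + x21) + p0 * x20 + p1 * x21) - 2 * p2) ≤ k

namespace Cfg

/-- cut-off length at vertex 0 -/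
def M0 (C : Cfg) : ℝ := C.p0 * (C.x01 + C.x02) + C.p1 * C.x01 + C.p2 * C.x02
/-- cut-off length at vertex 1 -/
def M1 (C : Cfg) : ℝ := C.p1 * (C.x10 + C.x12) + C.p0 * C.x10 + C.p2 * C.x12
/-- cut-off length at vertex 2 -/
def M2 (C : Cfg) : ℝ := C.p2 * (C.x20 + C.x21) + C.p0 * C.x20 + C.p1 * C.x21

variable (C : Cfg)

lemma M0_pos : 0 < C.M0 := by
  have := mul_pos C.hp01 C.x01_pos
  have := mul_pos C.hp02 C.x02_pos
  unfold M0; linarith
lemma M1_pos : 0 < C.M1 := by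
  have := mul_pos C.hp01 C.x10_pos
  have := mul_pos C.hp12 C.x12_pos
  unfold M1; linarith
lemma M2_pos : 0 < C.M2 := by
  have := mul_pos C.hp02 C.x20_pos
  have := mul_pos C.hp12 C.x21_pos
  unfold M2; linarith

/-- `Z`-type inequalities -/
lemma Zaux {k L A B D γ : ℝ} (hγ : γ ≤ gd) (hD : 0 ≤ D)
    (h1 : k ≤ L - A - B) (h2 : A + B + D - L ≤ gd * k) : A + B + γ * D ≤ L := by
  have hg := gd_pos
  have h3 : A + B + D - L ≤ gd * (L - A - B) := h2.trans (mul_le_mul_of_nonneg_left h1 hg.le)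
  have h4 : A + B + gd * D ≤ L := by
    have h5 : gd * (A + B + D - L) ≤ gd * (gd * (L - A - B)) := mul_le_mul_of_nonneg_left h3 hg.le
    have h6 : gd * (gd * (L - A - B)) = (1 - gd) * (L - A - B) := by rw [← gd_sq]; ring
    rw [h6] at h5
    linarith
  nlinarith [mul_le_mul_of_nonneg_right hγ hD]

lemma Caux {k L A B D P γ : ℝ} (hγ0 : 0 ≤ γ) (hγ : γ ≤ gd) (hk : 0 < k)
    (h1 : k ≤ L - A - B) (h2 : gd * (D - 2 * P) ≤ k) : A + B + γ * D ≤ L + 2 * γ * P := by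
  rcases le_total 0 (D - 2 * P) with h | h
  · have := mul_le_mul_of_nonneg_right hγ h
    linarith
  · have := mul_nonneg hγ0 (by linarith : 0 ≤ 2 * P - D)
    linarith

lemma combine {γ z0 z1 z2 c01 c02 c12 : ℝ} (hγ0 : 0 ≤ γ) (hγ : γ ≤ gd)
    (hz0 : 0 ≤ z0) (hz1 : 0 ≤ z1) (hz2 : 0 ≤ z2) (hc01 : 0 ≤ c01) (hc02 : 0 ≤ c02)
    (hc12 : 0 ≤ c12) :
    (γ * z0 + z1 + z2 + c12) * C.M0 + (z0 + γ * z1 + z2 + (1 + γ) * c01 + c02) * C.M1
      + (z0 + z1 + γ * z2 + c01 + (1 + γ) * c02 + (1 + γ) * c12) * C.M2 ≤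
    2 * (z0 + z1 + z2 + c01 + c02 + c12) * (C.p0 + C.p1 + C.p2) + 2 * γ * c01 * C.p1
      + 2 * γ * (c02 + c12) * C.p2 := by
  have Z0 : C.M1 + C.M2 + γ * C.M0 ≤ 2 * (C.p0 + C.p1 + C.p2) :=
    Zaux hγ C.M0_pos.le C.K0 (by have := C.KB; unfold M0 M1 M2; linarith)
  have Z1 : C.M0 + C.M2 + γ * C.M1 ≤ 2 * (C.p0 + C.p1 + C.p2) :=
    Zaux hγ C.M1_pos.le C.K1 (by have := C.KB; unfold M0 M1 M2; linarith)
  have Z2 : C.M0 + C.M1 + γ * C.M2 ≤ 2 * (C.p0 + C.p1 + C.p2) :=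
    Zaux hγ C.M2_pos.le C.K2 (by have := C.KB; unfold M0 M1 M2; linarith)
  have C01 : C.M1 + C.M2 + γ * C.M1 ≤ 2 * (C.p0 + C.p1 + C.p2) + 2 * γ * C.p1 :=
    Caux hγ0 hγ C.hk C.K0 C.KC1
  have C02 : C.M1 + C.M2 + γ * C.M2 ≤ 2 * (C.p0 + C.p1 + C.p2) + 2 * γ * C.p2 :=
    Caux hγ0 hγ C.hk C.K0 C.KC2
  have C12 : C.M0 + C.M2 + γ * C.M2 ≤ 2 * (C.p0 + C.p1 + C.p2) + 2 * γ * C.p2 :=
    Caux hγ0 hγ C.hk C.K1 C.KC2
  have := mul_le_mul_of_nonneg_left Z0 hz0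
  have := mul_le_mul_of_nonneg_left Z1 hz1
  have := mul_le_mul_of_nonneg_left Z2 hz2
  have := mul_le_mul_of_nonneg_left C01 hc01
  have := mul_le_mul_of_nonneg_left C02 hc02
  have := mul_le_mul_of_nonneg_left C12 hc12
  nlinarith

/-- The final contradiction: vertexwise positivity of the combined inequality. -/
lemma finish {γ z0 z1 z2 c01 c02 c12 A0 A1 A2 B0 B1 B2 : ℝ} (hγ0 : 0 ≤ γ) (hγ : γ ≤ gd)
    (hz0 : 0 ≤ z0) (hz1 : 0 ≤ z1) (hz2 : 0 ≤ z2) (hc01 : 0 ≤ c01) (hc02 : 0 ≤ c02)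
    (hc12 : 0 ≤ c12)
    (hA0 : A0 = γ * z0 + z1 + z2 + c12)
    (hA1 : A1 = z0 + γ * z1 + z2 + (1 + γ) * c01 + c02)
    (hA2 : A2 = z0 + z1 + γ * z2 + c01 + (1 + γ) * c02 + (1 + γ) * c12)
    (hB0 : B0 = 2 * (z0 + z1 + z2 + c01 + c02 + c12))
    (hB1 : B1 = 2 * (z0 + z1 + z2 + c01 + c02 + c12) + 2 * γ * c01)
    (hB2 : B2 = 2 * (z0 + z1 + z2 + c01 + c02 + c12) + 2 * γ * (c02 + c12))
    (h0 : B0 ≤ A0 * (C.x01 + C.x02) + A1 * C.x10 + A2 * C.x20)
    (h1 : B1 < A1 * (C.x10 + C.x12) + A0 * C.x01 + A2 * C.x21)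
    (h2 : B2 < A2 * (C.x20 + C.x21) + A0 * C.x02 + A1 * C.x12) : False := by
  have h := C.combine hγ0 hγ hz0 hz1 hz2 hc01 hc02 hc12
  rw [← hA0, ← hA1, ← hA2] at h
  have h0' := mul_le_mul_of_nonneg_left h0 C.hp0
  have h12 : 0 < C.p1 * ((A1 * (C.x10 + C.x12) + A0 * C.x01 + A2 * C.x21) - B1)
      + C.p2 * ((A2 * (C.x20 + C.x21) + A0 * C.x02 + A1 * C.x12) - B2) := by
    have hp1 := C.hp1
    have hp2 := C.hp2
    rcases eq_or_lt_of_le hp1 with h | h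
    · have hp : 0 < C.p2 := by have := C.hp12; linarith
      have := mul_pos hp (sub_pos.2 h2)
      rw [← h]; linarith
    · have h3 := mul_pos h (sub_pos.2 h1)
      have h4 := mul_nonneg hp2 (sub_pos.2 h2).le
      linarith
  have e : 2 * (z0 + z1 + z2 + c01 + c02 + c12) * (C.p0 + C.p1 + C.p2) + 2 * γ * c01 * C.p1
      + 2 * γ * (c02 + c12) * C.p2 = C.p0 * B0 + C.p1 * B1 + C.p2 * B2 := by
    rw [hB0, hB1, hB2]; ring
  rw [e] at h
  unfold M0 M1 M2 at h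
  nlinarith

/-! Lower bounds on the fractions. -/

lemma frac_lb {u v x y : ℝ} (hv : 0 < v) (hx : 0 < x) (hy : 0 < y) (hy1 : y ≤ 1)
    (huv : v < 1) (e : u / x + v / y = 1) : u / (1 - v) ≤ x := by
  have h1 : v ≤ v / y := by rw [le_div_iff₀ hy]; nlinarith
  have h2 : u / x ≤ 1 - v := by linarith
  rw [div_le_iff₀ hx] at h2
  rw [div_le_iff₀ (by linarith)]
  linarith

lemma frac_am {u v x y : ℝ} (hu : 0 < u) (hv : 0 < v) (hx : 0 < x) (hy : 0 < y)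
    (e : u / x + v / y = 1) : u + v + 2 * √(u * v) ≤ x + y := by
  have h1 : u * y + v * x = x * y := by
    field_simp at e; linarith
  -- (x - u) (y - v) = u v, AM-GM
  have h2 : (x - u) * (y - v) = u * v := by nlinarith
  have hxu : u < x := by
    have : u / x < 1 := by have := div_pos hv hy; linarith
    rwa [div_lt_one hx] at this
  have hyv : v < y := by
    have : v / y < 1 := by have := div_pos hu hx; linarith
    rwa [div_lt_one hy] at this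
  have h3 : √(u * v) ≤ ((x - u) + (y - v)) / 2 := by
    apply Real.sqrt_le_iff.2
    constructor
    · linarith
    · rw [← h2]; nlinarith [sq_nonneg ((x - u) - (y - v))]
  linarith

lemma l01 : C.b / (1 - C.c) ≤ C.x01 :=
  frac_lb C.hc C.x01_pos C.x02_pos C.x02_le (by linarith [C.ha, C.hb, C.hsum]) C.e0
lemma l02 : C.c / (1 - C.b) ≤ C.x02 :=
  frac_lb C.hb C.x02_pos C.x01_pos C.x01_le (by linarith [C.ha, C.hc, C.hsum])
    (by have := C.e0; linarith)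
lemma l10 : C.a / (1 - C.c) ≤ C.x10 :=
  frac_lb C.hc C.x10_pos C.x12_pos C.x12_le (by linarith [C.ha, C.hb, C.hsum]) C.e1
lemma l12 : C.c / (1 - C.a) ≤ C.x12 :=
  frac_lb C.ha C.x12_pos C.x10_pos C.x10_le (by linarith [C.hb, C.hc, C.hsum])
    (by have := C.e1; linarith)
lemma l20 : C.a / (1 - C.b) ≤ C.x20 :=
  frac_lb C.hb C.x20_pos C.x21_pos C.x21_le (by linarith [C.ha, C.hc, C.hsum]) C.e2
lemma l21 : C.b / (1 - C.a) ≤ C.x21 :=
  frac_lb C.ha C.x21_pos C.x20_pos C.x20_le (by linarith [C.hb, C.hc, C.hsum])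
    (by have := C.e2; linarith)
lemma s0 : C.b + C.c + 2 * √(C.b * C.c) ≤ C.x01 + C.x02 :=
  frac_am C.hb C.hc C.x01_pos C.x02_pos C.e0
lemma s1 : C.a + C.c + 2 * √(C.a * C.c) ≤ C.x10 + C.x12 :=
  frac_am C.ha C.hc C.x10_pos C.x12_pos C.e1
lemma s2 : C.a + C.b + 2 * √(C.a * C.b) ≤ C.x20 + C.x21 :=
  frac_am C.ha C.hb C.x20_pos C.x21_pos C.e2

/-- comparison at vertex 0 -/
lemma cmp0 {A0 A1 A2 : ℝ} (h0 : 0 ≤ A0) (h1 : 0 ≤ A1) (h2 : 0 ≤ A2) :
    G A0 A1 A2 C.b C.c ≤ A0 * (C.x01 + C.x02) + A1 * C.x10 + A2 * C.x20 := by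
  have ha := C.ha; have hb := C.hb; have hc := C.hc; have hs := C.hsum
  have e1 : 1 - C.b / (1 - C.c) = C.a / (1 - C.c) := by
    have : 1 - C.c ≠ 0 := by linarith
    field_simp; linarith
  have e2 : 1 - C.c / (1 - C.b) = C.a / (1 - C.b) := by
    have : 1 - C.b ≠ 0 := by linarith
    field_simp; linarith
  unfold G
  rw [e1, e2]
  have := mul_le_mul_of_nonneg_left C.s0 h0
  have := mul_le_mul_of_nonneg_left C.l10 h1
  have := mul_le_mul_of_nonneg_left C.l20 h2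
  linarith

/-- comparison at vertex 1 -/
lemma cmp1 {A0 A1 A2 : ℝ} (h0 : 0 ≤ A0) (h1 : 0 ≤ A1) (h2 : 0 ≤ A2) :
    G A1 A0 A2 C.a C.c ≤ A1 * (C.x10 + C.x12) + A0 * C.x01 + A2 * C.x21 := by
  have ha := C.ha; have hb := C.hb; have hc := C.hc; have hs := C.hsum
  have e1 : 1 - C.a / (1 - C.c) = C.b / (1 - C.c) := by
    have : 1 - C.c ≠ 0 := by linarith
    field_simp; linarith
  have e2 : 1 - C.c / (1 - C.a) = C.b / (1 - C.a) := by
    have : 1 - C.a ≠ 0 := by linarith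
    field_simp; linarith
  unfold G
  rw [e1, e2]
  have := mul_le_mul_of_nonneg_left C.s1 h1
  have := mul_le_mul_of_nonneg_left C.l01 h0
  have := mul_le_mul_of_nonneg_left C.l21 h2
  linarith

/-- comparison at vertex 2 -/
lemma cmp2 {A0 A1 A2 : ℝ} (h0 : 0 ≤ A0) (h1 : 0 ≤ A1) (h2 : 0 ≤ A2) :
    G A2 A0 A1 C.a C.b ≤ A2 * (C.x20 + C.x21) + A0 * C.x02 + A1 * C.x12 := by
  have ha := C.ha; have hb := C.hb; have hc := C.hc; have hs := C.hsum
  have e1 : 1 - C.a / (1 - C.b) = C.c / (1 - C.b) := by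
    have : 1 - C.b ≠ 0 := by linarith
    field_simp; linarith
  have e2 : 1 - C.b / (1 - C.a) = C.c / (1 - C.a) := by
    have : 1 - C.a ≠ 0 := by linarith
    field_simp; linarith
  unfold G
  rw [e1, e2]
  have := mul_le_mul_of_nonneg_left C.s2 h2
  have := mul_le_mul_of_nonneg_left C.l02 h0
  have := mul_le_mul_of_nonneg_left C.l12 h1
  linarith

/-- exchange the vertices 0 and 1 -/
def swap01 : Cfg where
  a := C.b
  b := C.a
  c := C.c
  p0 := C.p1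
  p1 := C.p0
  p2 := C.p2
  x01 := C.x10
  x02 := C.x12
  x10 := C.x01
  x12 := C.x02
  x20 := C.x21
  x21 := C.x20
  k := C.k
  hk := C.hk
  ha := C.hb
  hb := C.ha
  hc := C.hc
  hsum := by have := C.hsum; linarith
  hp0 := C.hp1
  hp1 := C.hp0
  hp2 := C.hp2
  hp01 := by have := C.hp01; linarith
  hp02 := C.hp12
  hp12 := C.hp02
  x01_pos := C.x10_pos
  x02_pos := C.x12_pos
  x10_pos := C.x01_pos
  x12_pos := C.x02_pos
  x20_pos := C.x21_pos
  x21_pos := C.x20_pos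
  x01_le := C.x10_le
  x02_le := C.x12_le
  x10_le := C.x01_le
  x12_le := C.x02_le
  x20_le := C.x21_le
  x21_le := C.x20_le
  e0 := C.e1
  e1 := C.e0
  e2 := by have := C.e2; linarith
  K0 := by have := C.K1; linarith
  K1 := by have := C.K0; linarith
  K2 := by have := C.K2; linarith
  KB := by have := C.KB; linarith
  KC0 := by have := C.KC1; linarith
  KC1 := by have := C.KC0; linarith
  KC2 := by have := C.KC2; linarith

/-- exchange the vertices 1 and 2 -/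
def swap12 : Cfg where
  a := C.a
  b := C.c
  c := C.b
  p0 := C.p0
  p1 := C.p2
  p2 := C.p1
  x01 := C.x02
  x02 := C.x01
  x10 := C.x20
  x12 := C.x21
  x20 := C.x10
  x21 := C.x12
  k := C.k
  hk := C.hk
  ha := C.ha
  hb := C.hc
  hc := C.hb
  hsum := by have := C.hsum; linarith
  hp0 := C.hp0
  hp1 := C.hp2
  hp2 := C.hp1
  hp01 := C.hp02
  hp02 := C.hp01
  hp12 := by have := C.hp12; linarith
  x01_pos := C.x02_pos
  x02_pos := C.x01_pos
  x10_pos := C.x20_pos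
  x12_pos := C.x21_pos
  x20_pos := C.x10_pos
  x21_pos := C.x12_pos
  x01_le := C.x02_le
  x02_le := C.x01_le
  x10_le := C.x20_le
  x12_le := C.x21_le
  x20_le := C.x10_le
  x21_le := C.x12_le
  e0 := by have := C.e0; linarith
  e1 := C.e2
  e2 := C.e1
  K0 := by have := C.K0; linarith
  K1 := by have := C.K2; linarith
  K2 := by have := C.K1; linarith
  KB := by have := C.KB; linarith
  KC0 := by have := C.KC0; linarith
  KC1 := by have := C.KC2; linarith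
  KC2 := by have := C.KC1; linarith

end Cfg

end Pool.MP_653fdd_gt.Lib
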