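import Mathlib

set_option autoImplicit false

/-! Separately concave comparison functions used in the numerical core. -/

namespace Pool.MP_653fdd_gt.Lib

/-- the comparison function -/
noncomputable def G (α β γ x y : ℝ) : ℝ :=
  α * (x + y + 2 * √(x * y)) + β * (1 - x / (1 - y)) + γ * (1 - y / (1 - x))

lemma G_swap (α β γ x y : ℝ) : G α β γ x y = G α γ β y x := by
  unfold G
  rw [mul_comm x y]
  ring

lemma inv_conv {A B t : ℝ} (hA : 0 < A) (hB : 0 < B) (ht0 : 0 ≤ t) (ht1 : t ≤ 1) :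
    1 / ((1 - t) * A + t * B) ≤ (1 - t) / A + t / B := by
  have hden : 0 < (1 - t) * A + t * B := by
    rcases eq_or_lt_of_le ht0 with h | h
    · rw [← h]; simpa using hA
    · have : 0 ≤ (1 - t) * A := mul_nonneg (by linarith) hA.le
      have : 0 < t * B := mul_pos h hB
      linarith
  rw [div_add_div _ _ hA.ne' hB.ne', div_le_div_iff₀ hden (mul_pos hA hB)]
  have h1 : 0 ≤ t * (1 - t) * (A - B) ^ 2 := by
    apply mul_nonneg (mul_nonneg ht0 (by linarith)) (sq_nonneg _)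
  nlinarith [h1]

/-- concavity in the first variable, written with a convex combination -/
lemma G_concave_left {α β γ x0 x1 y t : ℝ} (hα : 0 ≤ α) (hγ : 0 ≤ γ)
    (hx0 : 0 ≤ x0) (hx1 : 0 ≤ x1) (hy : 0 ≤ y) (hx0' : x0 < 1) (hx1' : x1 < 1)
    (ht0 : 0 ≤ t) (ht1 : t ≤ 1) :
    (1 - t) * G α β γ x0 y + t * G α β γ x1 y ≤ G α β γ ((1 - t) * x0 + t * x1) y := by
  have hs : (1 - t) * √(x0 * y) + t * √(x1 * y) ≤ √(((1 - t) * x0 + t * x1) * y) := by
    have hc := Real.strictConcaveOn_sqrt.concaveOn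
    have := hc.2 (Set.mem_Ici.2 (mul_nonneg hx0 hy))
      (Set.mem_Ici.2 (mul_nonneg hx1 hy)) (by linarith : (0:ℝ) ≤ 1 - t) ht0 (by ring)
    simp only [smul_eq_mul] at this
    have e : ((1 - t) * x0 + t * x1) * y = (1 - t) * (x0 * y) + t * (x1 * y) := by ring
    rw [e]; exact this
  have hi : 1 / (1 - ((1 - t) * x0 + t * x1)) ≤ (1 - t) / (1 - x0) + t / (1 - x1) := by
    have := inv_conv (A := 1 - x0) (B := 1 - x1) (t := t) (by linarith) (by linarith) ht0 ht1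
    have e : 1 - ((1 - t) * x0 + t * x1) = (1 - t) * (1 - x0) + t * (1 - x1) := by ring
    rw [e]; exact this
  unfold G
  have e1 : y / (1 - ((1 - t) * x0 + t * x1)) = y * (1 / (1 - ((1 - t) * x0 + t * x1))) := by
    rw [mul_one_div]
  rw [e1]
  have h2 := mul_le_mul_of_nonneg_left hi hy
  have h3 : γ * (y * (1 / (1 - ((1 - t) * x0 + t * x1)))) ≤
      γ * (y * ((1 - t) / (1 - x0) + t / (1 - x1))) := mul_le_mul_of_nonneg_left h2 hγ
  have h4 : α * ((1 - t) * √(x0 * y) + t * √(x1 * y)) ≤ α * √(((1 - t) * x0 + t * x1) * y) :=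
    mul_le_mul_of_nonneg_left hs hα
  have e2 : y * ((1 - t) / (1 - x0) + t / (1 - x1)) =
      (1 - t) * (y / (1 - x0)) + t * (y / (1 - x1)) := by ring
  rw [e2] at h3
  have e3 : ((1 - t) * x0 + t * x1) / (1 - y) = (1 - t) * (x0 / (1 - y)) + t * (x1 / (1 - y)) := by
    ring
  rw [e3]
  nlinarith [h3, h4]

lemma G_seg_left {α β γ x0 x1 x y m : ℝ} (hα : 0 ≤ α) (hγ : 0 ≤ γ)
    (hx0 : 0 ≤ x0) (hy : 0 ≤ y) (hx1' : x1 < 1) (h0 : x0 ≤ x) (h1 : x ≤ x1)
    (hm0 : m ≤ G α β γ x0 y) (hm1 : m ≤ G α β γ x1 y) : m ≤ G α β γ x y := by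
  rcases eq_or_lt_of_le (h0.trans h1) with h | h
  · have : x = x0 := le_antisymm (h ▸ h1) h0
    rw [this]; exact hm0
  · set t := (x - x0) / (x1 - x0) with ht
    have hpos : 0 < x1 - x0 := by linarith
    have ht0 : 0 ≤ t := div_nonneg (by linarith) hpos.le
    have ht1 : t ≤ 1 := by rw [ht, div_le_one hpos]; linarith
    have ex : x = (1 - t) * x0 + t * x1 := by
      have : t * (x1 - x0) = x - x0 := by rw [ht]; field_simp
      linarith
    have hc := G_concave_left (α := α) (β := β) (γ := γ) (x0 := x0) (x1 := x1) (y := y) (t := t)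
      hα hγ hx0 (by linarith) hy (by linarith) hx1' ht0 ht1
    rw [← ex] at hc
    have h1 : m ≤ (1 - t) * G α β γ x0 y + t * G α β γ x1 y := by
      nlinarith [mul_le_mul_of_nonneg_left hm0 (by linarith : (0:ℝ) ≤ 1 - t),
        mul_le_mul_of_nonneg_left hm1 ht0]
    linarith

/-- a lower bound for `G` on a rectangle from the four corners -/
lemma G_rect {α β γ x0 x1 y0 y1 x y m : ℝ} (hα : 0 ≤ α) (hβ : 0 ≤ β) (hγ : 0 ≤ γ)
    (hx0 : 0 ≤ x0) (hy0 : 0 ≤ y0) (hx1 : x1 < 1) (hy1 : y1 < 1)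
    (hx : x0 ≤ x) (hx' : x ≤ x1) (hy : y0 ≤ y) (hy' : y ≤ y1)
    (h00 : m ≤ G α β γ x0 y0) (h01 : m ≤ G α β γ x0 y1)
    (h10 : m ≤ G α β γ x1 y0) (h11 : m ≤ G α β γ x1 y1) : m ≤ G α β γ x y := by
  apply G_seg_left hα hγ hx0 (hy0.trans hy) hx1 hx hx'
  · rw [G_swap]
    apply G_seg_left hα hβ hy0 hx0 hy1 hy hy'
    · rw [G_swap]; exact h00
    · rw [G_swap]; exact h01
  · rw [G_swap]
    apply G_seg_left hα hβ hy0 (hx0.trans (hx.trans hx')) hy1 hy hy'
    · rw [G_swap]; exact h10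
    · rw [G_swap]; exact h11

/-- numerical lower bound at a point -/
lemma G_num {α β γ x y m r : ℝ} (hα : 0 ≤ α) (hr2 : r ^ 2 ≤ x * y)
    (h : m ≤ α * (x + y + 2 * r) + β * (1 - x / (1 - y)) + γ * (1 - y / (1 - x))) :
    m ≤ G α β γ x y := by
  have : r ≤ √(x * y) := Real.le_sqrt_of_sq_le hr2
  unfold G
  nlinarith [mul_le_mul_of_nonneg_left this hα]

end Pool.MP_653fdd_gt.Lib
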