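import Pool.Agent.Lib.MP_653fdd_gt.Main0

set_option autoImplicit false

/-! Translations, lines through interior points, and edges of a convex curve. -/

open MeasureTheory Set Metric
open scoped ENNReal NNReal Topology Pointwise

namespace Pool.MP_653fdd_gt.Lib

/-- rotation by a quarter turn -/
def J (v : P) : P := !₂[-(v 1), v 0]

lemma inner_eq (x y : P) : inner ℝ x y = x 0 * y 0 + x 1 * y 1 := by
  rw [PiLp.inner_apply, Fin.sum_univ_two]
  simp [mul_comm]

lemma cr_J (y v : P) : cr y (J v) = inner ℝ y v := by
  rw [inner_eq]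
  simp [cr, J]

lemma cr_J_J (y v : P) : cr (J y) (J v) = cr y v := by
  simp [cr, J]; ring

lemma J_ne {v : P} (hv : v ≠ 0) : J v ≠ 0 := by
  intro h
  apply hv
  have h0 := congrArg (fun z : P => z 0) h
  have h1 := congrArg (fun z : P => z 1) h
  simp [J] at h0 h1
  ext i
  fin_cases i
  · simpa using h1
  · simpa using h0

lemma J_add (x y : P) : J (x + y) = J x + J y := by
  ext i; fin_cases i
  · simp [J]; ring
  · simp [J]
lemma J_smul (a : ℝ) (x : P) : J (a • x) = a • J x := by
  ext i; fin_cases i <;> simp [J]

/-- translate -/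
lemma shift_bd (K : Set P) (x : P) {S : Set P} (hS : MeasurableSet S) :
    bd ((fun y : P => y + x) ⁻¹' K) S = bd K {y | y - x ∈ S} := by
  have hS' : MeasurableSet {y : P | y - x ∈ S} := (measurable_sub_const x) hS
  rw [bd_apply hS, bd_apply hS']
  have h1 : frontier ((fun y : P => y + x) ⁻¹' K) = (fun y : P => y + x) ⁻¹' frontier K :=
    ((Homeomorph.addRight x).preimage_frontier K).symm
  have h2 : frontier ((fun y : P => y + x) ⁻¹' K) ∩ S =
      (IsometryEquiv.addRight x) ⁻¹' (frontier K ∩ {y : P | y - x ∈ S}) := by
    rw [h1]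
    ext y
    simp
  rw [h2, IsometryEquiv.hausdorffMeasure_preimage]

lemma shift_body {K : Set P} (hK : Convex ℝ K) (hKc : IsCompact K) {x : P} (hx : x ∈ interior K) :
    Body ((fun y : P => y + x) ⁻¹' K) where
  conv := hK.translate_preimage_left x
  comp := (Homeomorph.addRight x).isCompact_preimage.2 hKc
  zero := by
    have h : interior ((fun y : P => y + x) ⁻¹' K) = (fun y : P => y + x) ⁻¹' interior K :=
      ((Homeomorph.addRight x).preimage_interior K).symm
    rw [h]
    simpa using hx

/-- a line through an interior point meets the boundary in a null set -/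
lemma line_null' {K : Set P} (hK : Convex ℝ K) (hKc : IsCompact K) {x : P} (hx : x ∈ interior K)
    {v : P} (hv : v ≠ 0) : bd K {y | inner ℝ (y - x) v = 0} = 0 := by
  have h := (shift_body hK hKc hx).line_null (J_ne hv)
  have hm : MeasurableSet {y : P | cr y (J v) = 0} :=
    (isClosed_eq (continuous_cr_right _) continuous_const).measurableSet
  rw [shift_bd K x hm] at h
  simpa only [mem_ofPred_eq, cr_J] using h

lemma univ_pos' {K : Set P} (hB : Body K) : 0 < bd K univ := by
  have hD : 0 < cr (!₂[1, 0] : P) !₂[0, 1] := by simp [cr]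
  have hU : (!₂[1, 0] : P) ≠ 0 := by intro h; rw [h] at hD; simp [cr] at hD
  have h := hB.chord hD
  have h1 : 0 < ‖(gauge K (!₂[1, 0] : P))⁻¹ • (!₂[1, 0] : P) - (gauge K !₂[0, 1])⁻¹ • !₂[0, 1]‖ := by
    rw [norm_pos_iff]
    intro h2
    have h3 : (gauge K (!₂[1, 0] : P))⁻¹ • (!₂[1, 0] : P) + (-(gauge K !₂[0, 1])⁻¹) • !₂[0, 1] = 0 := by
      rw [neg_smul, ← sub_eq_add_neg]; exact h2
    have h4 := (li_of_cr hD.ne' _ _ h3).1
    exact (inv_ne_zero (hB.N_pos hU).ne') h4
  have h2 := lt_of_lt_of_le h1 h
  have h3 : 0 < bd K (sec (!₂[1, 0] : P) !₂[0, 1]) := (ENNReal.toReal_pos_iff.1 h2).1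
  exact lt_of_lt_of_le h3 (measure_mono (subset_univ _))

lemma univ_pos {K : Set P} (hK : Convex ℝ K) (hKc : IsCompact K) (hint : (interior K).Nonempty) :
    0 < bd K univ := by
  obtain ⟨x, hx⟩ := hint
  have h := univ_pos' (shift_body hK hKc hx)
  rw [shift_bd K x MeasurableSet.univ] at h
  simpa using h

lemma univ_fin {K : Set P} (hK : Convex ℝ K) (hKc : IsCompact K) (hint : (interior K).Nonempty) :
    bd K univ < ⊤ := by
  rw [bd_univ]; exact frontier_finite hK hKc hint

lemma bd_mono {K S T : Set P} (hS : MeasurableSet S) (hT : MeasurableSet T)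
    (h : ∀ y ∈ frontier K, y ∈ S → y ∈ T) : bd K S ≤ bd K T := by
  rw [bd_apply hS, bd_apply hT]
  exact measure_mono (fun y hy => ⟨hy.1, h y hy.1 hy.2⟩)

lemma cr_id (v U W : P) : ‖v‖ ^ 2 * cr U W = inner ℝ U v * cr v W - inner ℝ W v * cr v U := by
  rw [← real_inner_self_eq_norm_sq, inner_eq, inner_eq, inner_eq]
  simp only [cr]; ring

lemma dec_J (v y : P) : ‖v‖ ^ 2 • y = (inner ℝ y v) • v + (cr v y) • J v := by
  rw [← real_inner_self_eq_norm_sq, inner_eq, inner_eq]
  ext i
  fin_cases i
  · simp [cr, J]; ring
  · simp [cr, J]; ring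

/-- an edge is at most as long as the rest of the curve -/
lemma edge_key {K : Set P} (hB : Body K) {v : P} (hv : v ≠ 0) {t : ℝ} (ht : 0 < t)
    (hKt : ∀ y ∈ K, inner ℝ y v ≤ t) :
    bd K {y | inner ℝ y v = t} ≤ bd K {y | inner ℝ y v < t} := by
  have cin : Continuous (fun y : P => inner ℝ y v) := continuous_id.inner continuous_const
  have m1 : MeasurableSet {y : P | inner ℝ y v = t} :=
    (isClosed_eq cin continuous_const).measurableSet
  have m2 : MeasurableSet {y : P | inner ℝ y v < t} :=
    (isOpen_lt cin continuous_const).measurableSet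
  have hvp : 0 < ‖v‖ ^ 2 := by have := norm_pos_iff.2 hv; positivity
  have hfK : frontier K ⊆ K := hB.comp.isClosed.frontier_subset
  have hFc : IsCompact (K ∩ {y : P | inner ℝ y v = t}) :=
    hB.comp.inter_right (isClosed_eq cin continuous_const)
  rcases (K ∩ {y : P | inner ℝ y v = t}).eq_empty_or_nonempty with hF | hF
  · have : bd K {y : P | inner ℝ y v = t} ≤ bd K ∅ := by
      apply bd_mono m1 MeasurableSet.empty
      intro y hy hy2
      rw [← hF]
      exact ⟨hfK hy, hy2⟩
    rw [measure_empty] at this
    exact this.trans bot_le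
  · obtain ⟨U, ⟨hUK, hUt⟩, hUmin⟩ := hFc.exists_isMinOn hF (continuous_cr_left v).continuousOn
    obtain ⟨W, ⟨hWK, hWt⟩, hWmax⟩ := hFc.exists_isMaxOn hF (continuous_cr_left v).continuousOn
    rw [mem_ofPred_eq] at hUt hWt
    have hmin : ∀ y ∈ K, inner ℝ y v = t → cr v U ≤ cr v y := fun y hy hy2 => hUmin ⟨hy, hy2⟩
    have hmax : ∀ y ∈ K, inner ℝ y v = t → cr v y ≤ cr v W := fun y hy hy2 => hWmax ⟨hy, hy2⟩
    rcases eq_or_lt_of_le (hmin W hWK hWt) with heq | hlt
    · have : NullSingletonClass (μH[1] : Measure P) :=
        Measure.nullSingletonClass_hausdorff P one_pos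
      have h0 : bd K {y : P | inner ℝ y v = t} ≤ 0 := by
        rw [bd_apply m1]
        have hsub : frontier K ∩ {y : P | inner ℝ y v = t} ⊆ {U} := by
          rintro y ⟨hy, hyt⟩
          rw [mem_ofPred_eq] at hyt
          have e1 : cr v y = cr v U := by
            have := hmin y (hfK hy) hyt
            have := hmax y (hfK hy) hyt
            linarith
          have e2 : ‖v‖ ^ 2 • y = ‖v‖ ^ 2 • U := by
            rw [dec_J, dec_J, e1, hyt, hUt]
          exact smul_right_injective P hvp.ne' e2
        exact (measure_mono_null hsub ((Set.toFinite _).measure_zero _)).le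
      exact h0.trans bot_le
    · have hUW : 0 < cr U W := by
        have h1 := cr_id v U W
        rw [hUt, hWt] at h1
        have h2 : 0 < ‖v‖ ^ 2 * cr U W := by
          rw [h1]; nlinarith
        exact (mul_pos_iff_of_pos_left hvp).1 h2
      have hseg : ∀ y ∈ K, inner ℝ y v = t → ∃ l : ℝ, 0 ≤ l ∧ l ≤ 1 ∧ y = (1 - l) • U + l • W := by
        intro y hy hyt
        have hpos : 0 < cr v W - cr v U := by linarith
        refine ⟨(cr v y - cr v U) / (cr v W - cr v U), ?_, ?_, ?_⟩
        · exact div_nonneg (by linarith [hmin y hy hyt]) hpos.le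
        · rw [div_le_one hpos]; linarith [hmax y hy hyt]
        · have e2 : ‖v‖ ^ 2 • y = ‖v‖ ^ 2 • ((1 - (cr v y - cr v U) / (cr v W - cr v U)) • U +
              ((cr v y - cr v U) / (cr v W - cr v U)) • W) := by
            rw [smul_add, smul_comm, smul_comm (‖v‖ ^ 2) _ W, dec_J, dec_J v U, dec_J v W, hyt, hUt,
              hWt]
            have e3 : cr v y = (1 - (cr v y - cr v U) / (cr v W - cr v U)) * cr v U +
              ((cr v y - cr v U) / (cr v W - cr v U)) * cr v W := by
              field_simp; ring
            nth_rewrite 1 [e3]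
            module
          exact smul_right_injective P hvp.ne' e2
      have hg1 : ∀ Z ∈ K, inner ℝ Z v = t → gauge K Z = 1 := by
        intro Z hZ hZt
        have hZ0 : Z ≠ 0 := by
          rintro rfl
          rw [inner_zero_left] at hZt
          linarith
        have gp := hB.N_pos hZ0
        apply le_antisymm (hB.N_le_one.2 hZ)
        have h1 : (gauge K Z)⁻¹ • Z ∈ K := by
          rw [← hB.N_le_one, Body.N_smul (inv_nonneg.2 gp.le), inv_mul_cancel₀ gp.ne']
        have h2 := hKt _ h1
        rw [real_inner_smul_left, hZt] at h2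
        have h3 : (gauge K Z)⁻¹ ≤ 1 := by
          by_contra hcon
          push Not at hcon
          nlinarith
        exact (inv_le_one₀ gp).1 h3
      have gU := hg1 U hUK hUt
      have gW := hg1 W hWK hWt
      have hU0 : U ≠ 0 := by rintro rfl; simp [cr] at hUW
      have hW0 : W ≠ 0 := by rintro rfl; simp [cr] at hUW
      have a1 := hB.arc_lower (U := W) (W := -U) (by rw [cr_neg_right, cr_comm, neg_neg]; exact hUW)
      have a2 := hB.arc_lower (U := -U) (W := -W) (by rw [cr_neg_right, cr_neg_left, neg_neg]; exact hUW)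
      have a3 := hB.arc_lower (U := -W) (W := U) (by rw [cr_neg_left, cr_comm, neg_neg]; exact hUW)
      rw [gW, inv_one, one_smul] at a1
      rw [gU, inv_one, one_smul] at a3
      rw [← bd_apply (isClosed_sec _ _).measurableSet] at a1 a2 a3
      have hle1 : bd K {y : P | inner ℝ y v = t} ≤ edist W U := by
        rw [bd_apply m1, edist_comm, ← hausdorffMeasure_segment]
        apply measure_mono
        rintro y ⟨hy, hyt⟩
        obtain ⟨l, l0, l1, hl⟩ := hseg y (hfK hy) hyt
        exact ⟨1 - l, l, by linarith, l0, by ring, hl.symm⟩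
      have hle2 : edist W U ≤ bd K (sec W (-U)) + bd K (sec (-U) (-W)) + bd K (sec (-W) U) := by
        refine (edist_triangle W _ U).trans (add_le_add ?_ a3)
        exact (edist_triangle W _ _).trans (add_le_add a1 a2)
      have hn1 : ∀ x y : P, cr (-x) y = cr y x := fun x y => by rw [cr_neg_left, cr_comm, neg_neg]
      have hs : ∀ x y : P, cr x y = - cr y x := fun x y => cr_comm _ _
      have hle3 : bd K (sec W (-U)) + bd K (sec (-U) (-W)) + bd K (sec (-W) U) =
          bd K (sec W (-U) ∪ sec (-U) (-W) ∪ sec (-W) U) := by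
        rw [measure_union₀ (isClosed_sec _ _).measurableSet.nullMeasurableSet,
          measure_union₀ (isClosed_sec _ _).measurableSet.nullMeasurableSet]
        · refine measure_mono_null ?_ (hB.line_null hU0)
          rintro y ⟨⟨y1, y2⟩, ⟨y3, y4⟩⟩
          rw [mem_ofPred_eq]
          rw [cr_neg_right] at y1
          rw [hn1] at y4
          linarith
        · refine measure_mono_null ?_ (hB.line_null hW0)
          rintro y ⟨(⟨y1, y2⟩ | ⟨y1, y2⟩), ⟨y3, y4⟩⟩
          · rw [mem_ofPred_eq]
            rw [hn1] at y4
            rw [hs] at y2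
            linarith
          · rw [mem_ofPred_eq]
            rw [hn1] at y4
            rw [cr_neg_right] at y1
            linarith
      have hle4 : bd K (sec W (-U) ∪ sec (-U) (-W) ∪ sec (-W) U) ≤
          bd K ({y | inner ℝ y v < t} ∪ ({y | cr y U = 0} ∪ {y | cr y W = 0})) := by
        apply bd_mono
        · exact (((isClosed_sec _ _).measurableSet).union (isClosed_sec _ _).measurableSet).union
            (isClosed_sec _ _).measurableSet
        · refine m2.union (MeasurableSet.union ?_ ?_)
          · exact (isClosed_eq (continuous_cr_right _) continuous_const).measurableSet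
          · exact (isClosed_eq (continuous_cr_right _) continuous_const).measurableSet
        · intro y hy hyS
          by_cases hyt : inner ℝ y v < t
          · left; exact hyt
          · right
            have hyt2 : inner ℝ y v = t := le_antisymm (hKt y (hfK hy)) (not_lt.1 hyt)
            obtain ⟨l, l0, l1, hl⟩ := hseg y (hfK hy) hyt2
            have q1 : 0 ≤ cr y W := by
              rw [hl, cr_add_left, cr_smul_left, cr_smul_left, cr_self, mul_zero, add_zero]
              exact mul_nonneg (by linarith) hUW.le
            have q2 : cr y U ≤ 0 := by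
              rw [hl, cr_add_left, cr_smul_left, cr_smul_left, cr_self, mul_zero, zero_add, hs]
              have := mul_nonneg l0 hUW.le
              linarith
            rcases hyS with (⟨y1, y2⟩ | ⟨y1, y2⟩) | ⟨y1, y2⟩
            · right
              rw [mem_ofPred_eq]
              rw [hs] at y2
              linarith
            · right
              rw [mem_ofPred_eq]
              rw [cr_neg_right] at y1
              linarith
            · left
              rw [mem_ofPred_eq]
              linarith
      refine hle1.trans (hle2.trans (hle3.le.trans (hle4.trans ?_)))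
      refine (measure_union_le _ _).trans ?_
      rw [measure_union_null (hB.line_null hU0) (hB.line_null hW0), add_zero]

lemma edge0 {K : Set P} (hB : Body K) {v : P} (hv : v ≠ 0) {t : ℝ} (ht : 0 < t)
    (hKt : ∀ y ∈ K, inner ℝ y v ≤ t) : bd K univ ≤ 2 * bd K {y | inner ℝ y v < t} := by
  have cin : Continuous (fun y : P => inner ℝ y v) := continuous_id.inner continuous_const
  have m1 : MeasurableSet {y : P | inner ℝ y v = t} :=
    (isClosed_eq cin continuous_const).measurableSet
  have m2 : MeasurableSet {y : P | inner ℝ y v < t} :=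
    (isOpen_lt cin continuous_const).measurableSet
  have hfK : frontier K ⊆ K := hB.comp.isClosed.frontier_subset
  have h1 : bd K univ ≤ bd K ({y | inner ℝ y v < t} ∪ {y | inner ℝ y v = t}) := by
    apply bd_mono MeasurableSet.univ (m2.union m1)
    intro y hy _
    exact lt_or_eq_of_le (hKt y (hfK hy))
  refine h1.trans ((measure_union_le _ _).trans ?_)
  rw [two_mul]
  exact add_le_add le_rfl (edge_key hB hv ht hKt)

/-- if `K` lies on one side of a line then at least half of its boundary is off the line -/
lemma edge {K : Set P} (hK : Convex ℝ K) (hKc : IsCompact K) (hint : (interior K).Nonempty)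
    {v o : P} (hv : v ≠ 0) (hKt : ∀ y ∈ K, inner ℝ (y - o) v ≤ 0) :
    bd K univ ≤ 2 * bd K {y | inner ℝ (y - o) v < 0} := by
  obtain ⟨x, hx⟩ := hint
  have hB := shift_body hK hKc hx
  have hvp : 0 < ‖v‖ := norm_pos_iff.2 hv
  have ht : 0 < inner ℝ (o - x) v := by
    obtain ⟨ε, hε, hball⟩ := Metric.isOpen_iff.1 isOpen_interior x hx
    have h1 : x + (ε / (2 * ‖v‖)) • v ∈ K := by
      apply interior_subset
      apply hball
      rw [mem_ball, dist_eq_norm, add_sub_cancel_left, norm_smul, Real.norm_of_nonneg (by positivity)]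
      field_simp
      linarith
    have h2 := hKt _ h1
    rw [add_sub_right_comm, inner_add_left, real_inner_smul_left, real_inner_self_eq_norm_sq] at h2
    have h3 : 0 < ε / (2 * ‖v‖) * ‖v‖ ^ 2 := by positivity
    have h4 : inner ℝ (o - x) v = - inner ℝ (x - o) v := by
      rw [← inner_neg_left, neg_sub]
    linarith
  have h := edge0 hB hv ht (by
    intro y hy
    have := hKt (y + x) hy
    rw [inner_sub_left] at this
    rw [inner_sub_left]
    rw [inner_add_left] at this
    linarith)
  have cin : Continuous (fun y : P => inner ℝ y v) := continuous_id.inner continuous_const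
  have m2 : MeasurableSet {y : P | inner ℝ y v < inner ℝ (o - x) v} :=
    (isOpen_lt cin continuous_const).measurableSet
  rw [shift_bd K x MeasurableSet.univ, shift_bd K x m2] at h
  have e : {y : P | y - x ∈ {y : P | inner ℝ y v < inner ℝ (o - x) v}} =
      {y | inner ℝ (y - o) v < 0} := by
    ext y
    simp only [mem_ofPred_eq, inner_sub_left]
    constructor <;> intro h <;> linarith
  rw [e] at h
  simpa using h

end Pool.MP_653fdd_gt.Lib
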