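import Pool.Agent.Lib.MP_653fdd_gt.Tree

set_option autoImplicit false

/-! From hexagonal data to a normalized configuration: the real-variable part. -/

namespace Pool.MP_653fdd_gt.Lib

lemma one_sub_frac {Λ A B l m c : ℝ} (hΛ : Λ ≠ 0) (hA : A ≠ 0)
    (h : c * m = Λ * A - l * (A + B)) : 1 - l * (A + B) / (Λ * A) = c * m / (Λ * A) := by
  rw [h]; field_simp

theorem ofData {a b c s0 s1 s2 x01 x02 x10 x12 x20 x21 k c0 c1 c2 : ℝ}
    (hk : 0 < k) (ha : 0 < a) (hb : 0 < b) (hc : 0 < c) (hsum : a + b + c = 1)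
    (hag : a < gd) (hbg : b < gd) (hcg : c < gd)
    (ps0 : 0 < s0) (ps1 : 0 < s1) (ps2 : 0 < s2)
    (t0 : s0 ≤ s1 + s2) (t1 : s1 ≤ s2 + s0) (t2 : s2 ≤ s0 + s1)
    (p01 : 0 < x01) (p02 : 0 < x02) (p10 : 0 < x10) (p12 : 0 < x12) (p20 : 0 < x20) (p21 : 0 < x21)
    (l01 : x01 ≤ 1) (l02 : x02 ≤ 1) (l10 : x10 ≤ 1) (l12 : x12 ≤ 1) (l20 : x20 ≤ 1) (l21 : x21 ≤ 1)
    (e0 : b / x01 + c / x02 = 1) (e1 : a / x10 + c / x12 = 1) (e2 : a / x20 + b / x21 = 1)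
    (K0 : k ≤ (1 - x10) * s2 + (1 - x20) * s1 - (x12 + x21 - 1) * s0)
    (K1 : k ≤ (1 - x21) * s0 + (1 - x01) * s2 - (x20 + x02 - 1) * s1)
    (K2 : k ≤ (1 - x02) * s1 + (1 - x12) * s0 - (x01 + x10 - 1) * s2)
    (KB : (x12 + x21 - 1) * s0 + (x20 + x02 - 1) * s1 + (x01 + x10 - 1) * s2 ≤ gd * k)
    (L0 : s0 ≤ (1 - x02) * s1 + c0 + (1 - x01) * s2)
    (L1 : s1 ≤ (1 - x10) * s2 + c1 + (1 - x12) * s0)
    (L2 : s2 ≤ (1 - x21) * s0 + c2 + (1 - x20) * s1)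
    (hc0 : gd * c0 ≤ k) (hc1 : gd * c1 ≤ k) (hc2 : gd * c2 ≤ k) : False := by
  have hg := gd_pos
  have g0 : gd * (((s1 + s2 - s0) / 2 * (x01 + x02) + (s0 + s2 - s1) / 2 * x01 +
      (s0 + s1 - s2) / 2 * x02) - 2 * ((s1 + s2 - s0) / 2)) ≤ k := by
    refine le_trans (mul_le_mul_of_nonneg_left ?_ hg.le) hc0
    linarith
  have g1 : gd * (((s0 + s2 - s1) / 2 * (x10 + x12) + (s1 + s2 - s0) / 2 * x10 +
      (s0 + s1 - s2) / 2 * x12) - 2 * ((s0 + s2 - s1) / 2)) ≤ k := by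
    refine le_trans (mul_le_mul_of_nonneg_left ?_ hg.le) hc1
    linarith
  have g2 : gd * (((s0 + s1 - s2) / 2 * (x20 + x21) + (s1 + s2 - s0) / 2 * x20 +
      (s0 + s2 - s1) / 2 * x21) - 2 * ((s0 + s1 - s2) / 2)) ≤ k := by
    refine le_trans (mul_le_mul_of_nonneg_left ?_ hg.le) hc2
    linarith
  exact cfg_false
    { a := a
      b := b
      c := c
      p0 := (s1 + s2 - s0) / 2
      p1 := (s0 + s2 - s1) / 2
      p2 := (s0 + s1 - s2) / 2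
      x01 := x01
      x02 := x02
      x10 := x10
      x12 := x12
      x20 := x20
      x21 := x21
      k := k
      hk := hk
      ha := ha
      hb := hb
      hc := hc
      hsum := hsum
      hp0 := by linarith
      hp1 := by linarith
      hp2 := by linarith
      hp01 := by linarith
      hp02 := by linarith
      hp12 := by linarith
      x01_pos := p01
      x02_pos := p02
      x10_pos := p10
      x12_pos := p12
      x20_pos := p20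
      x21_pos := p21
      x01_le := l01
      x02_le := l02
      x10_le := l10
      x12_le := l12
      x20_le := l20
      x21_le := l21
      e0 := e0
      e1 := e1
      e2 := e2
      K0 := by linarith
      K1 := by linarith
      K2 := by linarith
      KB := by linarith
      KC0 := g0
      KC1 := g1
      KC2 := g2 } hag hbg hcg

theorem realCase {l0 l1 l2 A0 A1 A2 B0 B1 B2 δ0 δ1 δ2 c0 c1 c2 a0 a1 a2 b0' b1' b2' k : ℝ}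
    (h0 : 0 < l0) (h1 : 0 < l1) (h2 : 0 < l2)
    (hu0 : l0 < gd * (l0 + l1 + l2)) (hu1 : l1 < gd * (l0 + l1 + l2))
    (hu2 : l2 < gd * (l0 + l1 + l2))
    (p0 : 0 < δ0) (p1 : 0 < δ1) (p2 : 0 < δ2)
    (hA0 : 0 < A0) (hA1 : 0 < A1) (hA2 : 0 < A2) (hB0 : 0 < B0) (hB1 : 0 < B1) (hB2 : 0 < B2)
    (cB0 : B0 ≤ A1 + A2) (cB1 : B1 ≤ A0 + A2) (cB2 : B2 ≤ A0 + A1)
    (cA0 : A0 ≤ B1 + B2) (cA1 : A1 ≤ B0 + B2) (cA2 : A2 ≤ B0 + B1)
    (e0 : l0 = A0 * A2 + B0 * B1 - A0 * B0)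
    (e1 : l1 = A1 * A0 + B1 * B2 - A1 * B1)
    (e2 : l2 = A2 * A1 + B2 * B0 - A2 * B2)
    (T0 : A1 * B2 / (l1 * l2) * δ0 ≤ A2 * B0 / (l2 * l0) * δ1 + A0 * B1 / (l0 * l1) * δ2)
    (T1 : A2 * B0 / (l2 * l0) * δ1 ≤ A0 * B1 / (l0 * l1) * δ2 + A1 * B2 / (l1 * l2) * δ0)
    (T2 : A0 * B1 / (l0 * l1) * δ2 ≤ A1 * B2 / (l1 * l2) * δ0 + A2 * B0 / (l2 * l0) * δ1)
    (L0 : (l0 + l1 + l2) * A1 * B2 / (l1 * l2) * δ0 ≤
      (B0 + B2 - A1) * A2 / l2 * δ1 + c0 + (A0 + A1 - B2) * B1 / l1 * δ2)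
    (L1 : (l1 + l2 + l0) * A2 * B0 / (l2 * l0) * δ1 ≤
      (B1 + B0 - A2) * A0 / l0 * δ2 + c1 + (A1 + A2 - B0) * B2 / l2 * δ0)
    (L2 : (l2 + l0 + l1) * A0 * B1 / (l0 * l1) * δ2 ≤
      (B2 + B1 - A0) * A1 / l1 * δ0 + c2 + (A2 + A0 - B1) * B0 / l0 * δ1)
    (hk0 : 0 < k) (hc0 : gd * c0 ≤ k) (hc1 : gd * c1 ≤ k) (hc2 : gd * c2 ≤ k)
    (o0 : a0 ≤ (B0 + B1 - A2) * A0 / l0 * δ2 + (A0 + A2 - B1) * B0 / l0 * δ1)
    (b0 : δ0 ≤ b0') (k0 : k ≤ a0 - b0')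
    (o1 : a1 ≤ (B1 + B2 - A0) * A1 / l1 * δ0 + (A1 + A0 - B2) * B1 / l1 * δ2)
    (b1 : δ1 ≤ b1') (k1 : k ≤ a1 - b1')
    (o2 : a2 ≤ (B2 + B0 - A1) * A2 / l2 * δ1 + (A2 + A1 - B0) * B2 / l2 * δ0)
    (b2 : δ2 ≤ b2') (kb : b0' + b1' + b2' ≤ gd * k) (k2 : k ≤ a2 - b2') : False := by
  obtain ⟨Λ, hΛ⟩ : ∃ x, x = l0 + l1 + l2 := ⟨_, rfl⟩
  have pΛ : 0 < Λ := by rw [hΛ]; linarith
  have hΛ1 : l1 + l2 + l0 = Λ := by rw [hΛ]; ring
  have hΛ2 : l2 + l0 + l1 = Λ := by rw [hΛ]; ring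
  rw [← hΛ] at hu0 hu1 hu2 L0
  rw [hΛ1] at L1
  rw [hΛ2] at L2
  have i1 : (A0 + A1 - B2) * l0 = Λ * A0 - l1 * (A0 + B0) := by rw [hΛ, e0, e1, e2]; ring
  have i2 : (B0 + B2 - A1) * l0 = Λ * B0 - l2 * (B0 + A0) := by rw [hΛ, e0, e1, e2]; ring
  have i3 : (A1 + A2 - B0) * l1 = Λ * A1 - l2 * (A1 + B1) := by rw [hΛ, e0, e1, e2]; ring
  have i4 : (B1 + B0 - A2) * l1 = Λ * B1 - l0 * (B1 + A1) := by rw [hΛ, e0, e1, e2]; ring
  have i5 : (A2 + A0 - B1) * l2 = Λ * A2 - l0 * (A2 + B2) := by rw [hΛ, e0, e1, e2]; ring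
  have i6 : (B2 + B1 - A0) * l2 = Λ * B2 - l1 * (B2 + A2) := by rw [hΛ, e0, e1, e2]; ring
  have j0 : l2 * B1 * B2 + l1 * A1 * A2 - l0 * A1 * B2 = l1 * l2 := by rw [e0, e1, e2]; ring
  have j1 : l0 * B2 * B0 + l2 * A2 * A0 - l1 * A2 * B0 = l2 * l0 := by rw [e0, e1, e2]; ring
  have j2 : l1 * B0 * B1 + l0 * A0 * A1 - l2 * A0 * B1 = l0 * l1 := by rw [e0, e1, e2]; ring
  have nΛ := pΛ.ne'
  have n0 := h0.ne'
  have n1 := h1.ne'
  have n2 := h2.ne'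
  -- sides
  obtain ⟨s0, hs0⟩ : ∃ x, x = Λ * A1 * B2 / (l1 * l2) * δ0 := ⟨_, rfl⟩
  obtain ⟨s1, hs1⟩ : ∃ x, x = Λ * A2 * B0 / (l2 * l0) * δ1 := ⟨_, rfl⟩
  obtain ⟨s2, hs2⟩ : ∃ x, x = Λ * A0 * B1 / (l0 * l1) * δ2 := ⟨_, rfl⟩
  have ps0 : 0 < s0 := by rw [hs0]; positivity
  have ps1 : 0 < s1 := by rw [hs1]; positivity
  have ps2 : 0 < s2 := by rw [hs2]; positivity
  have t0 : s0 ≤ s1 + s2 := by
    have := mul_le_mul_of_nonneg_left T0 pΛ.le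
    rw [hs0, hs1, hs2]
    calc Λ * A1 * B2 / (l1 * l2) * δ0 = Λ * (A1 * B2 / (l1 * l2) * δ0) := by ring
      _ ≤ _ := this
      _ = _ := by ring
  have t1 : s1 ≤ s2 + s0 := by
    have := mul_le_mul_of_nonneg_left T1 pΛ.le
    rw [hs0, hs1, hs2]
    calc Λ * A2 * B0 / (l2 * l0) * δ1 = Λ * (A2 * B0 / (l2 * l0) * δ1) := by ring
      _ ≤ _ := this
      _ = _ := by ring
  have t2 : s2 ≤ s0 + s1 := by
    have := mul_le_mul_of_nonneg_left T2 pΛ.le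
    rw [hs0, hs1, hs2]
    calc Λ * A0 * B1 / (l0 * l1) * δ2 = Λ * (A0 * B1 / (l0 * l1) * δ2) := by ring
      _ ≤ _ := this
      _ = _ := by ring
  -- fractions
  obtain ⟨x01, hx01⟩ : ∃ x, x = l1 * (A0 + B0) / (Λ * A0) := ⟨_, rfl⟩
  obtain ⟨x02, hx02⟩ : ∃ x, x = l2 * (B0 + A0) / (Λ * B0) := ⟨_, rfl⟩
  obtain ⟨x12, hx12⟩ : ∃ x, x = l2 * (A1 + B1) / (Λ * A1) := ⟨_, rfl⟩
  obtain ⟨x10, hx10⟩ : ∃ x, x = l0 * (B1 + A1) / (Λ * B1) := ⟨_, rfl⟩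
  obtain ⟨x20, hx20⟩ : ∃ x, x = l0 * (A2 + B2) / (Λ * A2) := ⟨_, rfl⟩
  obtain ⟨x21, hx21⟩ : ∃ x, x = l1 * (B2 + A2) / (Λ * B2) := ⟨_, rfl⟩
  have w01 : 1 - x01 = (A0 + A1 - B2) * l0 / (Λ * A0) := by
    rw [hx01]; exact one_sub_frac nΛ hA0.ne' i1
  have w02 : 1 - x02 = (B0 + B2 - A1) * l0 / (Λ * B0) := by
    rw [hx02]; exact one_sub_frac nΛ hB0.ne' i2
  have w12 : 1 - x12 = (A1 + A2 - B0) * l1 / (Λ * A1) := by
    rw [hx12]; exact one_sub_frac nΛ hA1.ne' i3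
  have w10 : 1 - x10 = (B1 + B0 - A2) * l1 / (Λ * B1) := by
    rw [hx10]; exact one_sub_frac nΛ hB1.ne' i4
  have w20 : 1 - x20 = (A2 + A0 - B1) * l2 / (Λ * A2) := by
    rw [hx20]; exact one_sub_frac nΛ hA2.ne' i5
  have w21 : 1 - x21 = (B2 + B1 - A0) * l2 / (Λ * B2) := by
    rw [hx21]; exact one_sub_frac nΛ hB2.ne' i6
  have le01 : x01 ≤ 1 := by
    have : 0 ≤ 1 - x01 := by rw [w01]; exact div_nonneg (mul_nonneg (by linarith) h0.le) (by positivity)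
    linarith
  have le02 : x02 ≤ 1 := by
    have : 0 ≤ 1 - x02 := by rw [w02]; exact div_nonneg (mul_nonneg (by linarith) h0.le) (by positivity)
    linarith
  have le12 : x12 ≤ 1 := by
    have : 0 ≤ 1 - x12 := by rw [w12]; exact div_nonneg (mul_nonneg (by linarith) h1.le) (by positivity)
    linarith
  have le10 : x10 ≤ 1 := by
    have : 0 ≤ 1 - x10 := by rw [w10]; exact div_nonneg (mul_nonneg (by linarith) h1.le) (by positivity)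
    linarith
  have le20 : x20 ≤ 1 := by
    have : 0 ≤ 1 - x20 := by rw [w20]; exact div_nonneg (mul_nonneg (by linarith) h2.le) (by positivity)
    linarith
  have le21 : x21 ≤ 1 := by
    have : 0 ≤ 1 - x21 := by rw [w21]; exact div_nonneg (mul_nonneg (by linarith) h2.le) (by positivity)
    linarith
  -- products
  have q102 : (1 - x10) * s2 = (B0 + B1 - A2) * A0 / l0 * δ2 := by
    rw [w10, hs2]; field_simp; ring
  have q201 : (1 - x20) * s1 = (A0 + A2 - B1) * B0 / l0 * δ1 := by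
    rw [w20, hs1]; field_simp; ring
  have q210 : (1 - x21) * s0 = (B1 + B2 - A0) * A1 / l1 * δ0 := by
    rw [w21, hs0]; field_simp; ring
  have q012 : (1 - x01) * s2 = (A1 + A0 - B2) * B1 / l1 * δ2 := by
    rw [w01, hs2]; field_simp; ring
  have q021 : (1 - x02) * s1 = (B2 + B0 - A1) * A2 / l2 * δ1 := by
    rw [w02, hs1]; field_simp; ring
  have q120 : (1 - x12) * s0 = (A2 + A1 - B0) * B2 / l2 * δ0 := by
    rw [w12, hs0]; field_simp; ring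
  have z0 : (x12 + x21 - 1) * s0 = δ0 := by
    have : x12 + x21 - 1 = l1 * l2 / (Λ * A1 * B2) := by
      rw [hx12, hx21, ← j0]; field_simp; rw [hΛ]; ring
    rw [this, hs0]; field_simp
  have z1 : (x20 + x02 - 1) * s1 = δ1 := by
    have : x20 + x02 - 1 = l2 * l0 / (Λ * A2 * B0) := by
      rw [hx20, hx02, ← j1]; field_simp; rw [hΛ]; ring
    rw [this, hs1]; field_simp
  have z2 : (x01 + x10 - 1) * s2 = δ2 := by
    have : x01 + x10 - 1 = l0 * l1 / (Λ * A0 * B1) := by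
      rw [hx01, hx10, ← j2]; field_simp; rw [hΛ]; ring
    rw [this, hs2]; field_simp
  rw [← q102, ← q201] at o0
  rw [← q210, ← q012] at o1
  rw [← q021, ← q120] at o2
  have r1 : (B0 + B2 - A1) * A2 / l2 * δ1 = (1 - x02) * s1 := by rw [q021]; ring
  have r2 : (A0 + A1 - B2) * B1 / l1 * δ2 = (1 - x01) * s2 := by rw [q012]; ring
  have r3 : (B1 + B0 - A2) * A0 / l0 * δ2 = (1 - x10) * s2 := by rw [q102]; ring
  have r4 : (A1 + A2 - B0) * B2 / l2 * δ0 = (1 - x12) * s0 := by rw [q120]; ring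
  have r5 : (B2 + B1 - A0) * A1 / l1 * δ0 = (1 - x21) * s0 := by rw [q210]; ring
  have r6 : (A2 + A0 - B1) * B0 / l0 * δ1 = (1 - x20) * s1 := by rw [q201]; ring
  rw [← hs0, r1, r2] at L0
  rw [← hs1, r3, r4] at L1
  rw [← hs2, r5, r6] at L2
  have ee0 : l1 / Λ / x01 + l2 / Λ / x02 = 1 := by
    rw [hx01, hx02]; field_simp; ring
  have ee1 : l0 / Λ / x10 + l2 / Λ / x12 = 1 := by
    rw [hx10, hx12]; field_simp; ring
  have ee2 : l0 / Λ / x20 + l1 / Λ / x21 = 1 := by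
    rw [hx20, hx21]; field_simp; ring
  have px01 : 0 < x01 := by rw [hx01]; positivity
  have px02 : 0 < x02 := by rw [hx02]; positivity
  have px10 : 0 < x10 := by rw [hx10]; positivity
  have px12 : 0 < x12 := by rw [hx12]; positivity
  have px20 : 0 < x20 := by rw [hx20]; positivity
  have px21 : 0 < x21 := by rw [hx21]; positivity
  exact ofData hk0 (div_pos h0 pΛ) (div_pos h1 pΛ) (div_pos h2 pΛ)
    (by rw [hΛ] at nΛ ⊢; field_simp)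
    (by rw [div_lt_iff₀ pΛ]; exact hu0) (by rw [div_lt_iff₀ pΛ]; exact hu1)
    (by rw [div_lt_iff₀ pΛ]; exact hu2) ps0 ps1 ps2 t0 t1 t2 px01 px02 px10 px12 px20 px21
    le01 le02 le10 le12 le20 le21 ee0 ee1 ee2
    (by rw [z0]; linarith only [o0, b0, k0]) (by rw [z1]; linarith only [o1, b1, k1])
    (by rw [z2]; linarith only [o2, b2, k2])
    (by rw [z0, z1, z2]; linarith only [b0, b1, b2, kb]) L0 L1 L2 hc0 hc1 hc2

end Pool.MP_653fdd_gt.Lib
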