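import Pool.Agent.Lib.MP_653fdd_gt.Proper
import Pool.Agent.Lib.MP_653fdd_gt.RealCase

set_option autoImplicit false

/-! Assembly of the finite-dimensional statement. -/

namespace Pool.MP_653fdd_gt.Lib
namespace Hex

variable {E : Type*} [NormedAddCommGroup E] [NormedSpace ℝ E] (H : Hex E)

lemma triT (h0 : 0 < H.l0) (h1 : 0 < H.l1) (h2 : 0 < H.l2) :
    (H.A1 * H.B2 / (H.l1 * H.l2)) * ‖(1 / H.A1) • H.E1 + (1 / H.B2) • H.E2‖ ≤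
      (H.A2 * H.B0 / (H.l2 * H.l0)) * ‖(1 / H.A2) • H.E2 + (1 / H.B0) • H.E0‖ +
      (H.A0 * H.B1 / (H.l0 * H.l1)) * ‖(1 / H.A0) • H.E0 + (1 / H.B1) • H.E1‖ := by
  have hA0 := H.hA0
  have hA1 := H.hA1
  have hA2 := H.hA2
  have hB0 := H.hB0
  have hB1 := H.hB1
  have hB2 := H.hB2
  have hE := H.e0
  have e0 : H.l0 = H.A0 * H.A2 + H.B0 * H.B1 - H.A0 * H.B0 := rfl
  have e1 : H.l1 = H.A1 * H.A0 + H.B1 * H.B2 - H.A1 * H.B1 := rfl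
  have e2 : H.l2 = H.A2 * H.A1 + H.B2 * H.B0 - H.A2 * H.B2 := rfl
  generalize H.l0 = l0 at *
  generalize H.l1 = l1 at *
  generalize H.l2 = l2 at *
  generalize H.A0 = A0 at *
  generalize H.A1 = A1 at *
  generalize H.A2 = A2 at *
  generalize H.B0 = B0 at *
  generalize H.B1 = B1 at *
  generalize H.B2 = B2 at *
  generalize H.E0 = E0 at *
  generalize H.E1 = E1 at *
  generalize H.E2 = E2 at *
  have f1 : (A1 * B2 / (l1 * l2)) • ((1 / A1) • E1 + (1 / B2) • E2) =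
      -((A2 * B0 / (l2 * l0)) • ((1 / A2) • E2 + (1 / B0) • E0) +
        (A0 * B1 / (l0 * l1)) • ((1 / A0) • E0 + (1 / B1) • E1)) := by
    rw [hE]
    match_scalars
    · field_simp
      rw [e0, e1, e2]; ring
    · field_simp
      rw [e0, e1, e2]; ring
  have f2 := norm_add_le ((A2 * B0 / (l2 * l0)) • ((1 / A2) • E2 + (1 / B0) • E0))
    ((A0 * B1 / (l0 * l1)) • ((1 / A0) • E0 + (1 / B1) • E1))
  rw [← norm_neg, ← f1, norm_smul, norm_smul, norm_smul, Real.norm_of_nonneg (by positivity),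
    Real.norm_of_nonneg (by positivity), Real.norm_of_nonneg (by positivity)] at f2
  exact f2

lemma triL (h0 : 0 < H.l0) (h1 : 0 < H.l1) (h2 : 0 < H.l2) :
    ((H.l0 + H.l1 + H.l2) * H.A1 * H.B2 / (H.l1 * H.l2)) *
        ‖(1 / H.A1) • H.E1 + (1 / H.B2) • H.E2‖ ≤
      ((H.B0 + H.B2 - H.A1) * H.A2 / H.l2) * ‖(1 / H.A2) • H.E2 + (1 / H.B0) • H.E0‖ +
      (1 / H.A0 + 1 / H.B0) * ‖H.E0‖ +
      ((H.A0 + H.A1 - H.B2) * H.B1 / H.l1) * ‖(1 / H.A0) • H.E0 + (1 / H.B1) • H.E1‖ := by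
  have hA0 := H.hA0
  have hA1 := H.hA1
  have hA2 := H.hA2
  have hB0 := H.hB0
  have hB1 := H.hB1
  have hB2 := H.hB2
  have hE := H.e0
  have cB2 := H.cB2
  have cA1 := H.cA1
  have e0 : H.l0 = H.A0 * H.A2 + H.B0 * H.B1 - H.A0 * H.B0 := rfl
  have e1 : H.l1 = H.A1 * H.A0 + H.B1 * H.B2 - H.A1 * H.B1 := rfl
  have e2 : H.l2 = H.A2 * H.A1 + H.B2 * H.B0 - H.A2 * H.B2 := rfl
  generalize H.l0 = l0 at *
  generalize H.l1 = l1 at *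
  generalize H.l2 = l2 at *
  generalize H.A0 = A0 at *
  generalize H.A1 = A1 at *
  generalize H.A2 = A2 at *
  generalize H.B0 = B0 at *
  generalize H.B1 = B1 at *
  generalize H.B2 = B2 at *
  generalize H.E0 = E0 at *
  generalize H.E1 = E1 at *
  generalize H.E2 = E2 at *
  have f1 : ((l0 + l1 + l2) * A1 * B2 / (l1 * l2)) • ((1 / A1) • E1 + (1 / B2) • E2) =
      -(((B0 + B2 - A1) * A2 / l2) • ((1 / A2) • E2 + (1 / B0) • E0) +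
    (1 / A0 + 1 / B0) • E0 + ((A0 + A1 - B2) * B1 / l1) • ((1 / A0) • E0 + (1 / B1) • E1)) := by
    rw [hE]
    match_scalars
    · field_simp
      rw [e0, e1, e2]; ring
    · field_simp
      rw [e0, e1, e2]; ring
  have f2 := norm_add₃_le (a := ((B0 + B2 - A1) * A2 / l2) • ((1 / A2) • E2 + (1 / B0) • E0))
    (b := (1 / A0 + 1 / B0) • E0) (c := ((A0 + A1 - B2) * B1 / l1) • ((1 / A0) • E0 + (1 / B1) • E1))
  have q1 : 0 ≤ (B0 + B2 - A1) * A2 / l2 := div_nonneg (mul_nonneg (by linarith) hA2.le) h2.le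
  have q2 : 0 ≤ (A0 + A1 - B2) * B1 / l1 := div_nonneg (mul_nonneg (by linarith) hB1.le) h1.le
  rw [← norm_neg, ← f1, norm_smul, norm_smul, norm_smul, norm_smul,
    Real.norm_of_nonneg (by positivity),
    Real.norm_of_nonneg q1, Real.norm_of_nonneg (by positivity),
    Real.norm_of_nonneg q2] at f2
  exact f2

lemma pos0 : 0 < ‖(1 / H.A1) • H.E1 + (1 / H.B2) • H.E2‖ := by
  rw [norm_pos_iff]
  intro h
  obtain ⟨h3, h4⟩ := H.hli _ _ h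
  have := H.hA1
  have : 0 < 1 / H.A1 := by positivity
  linarith

theorem smallE (h0 : 0 < H.l0) (h1 : 0 < H.l1) (h2 : 0 < H.l2)
    (hu0 : H.l0 < gd * (H.l0 + H.l1 + H.l2)) (hu1 : H.l1 < gd * (H.l0 + H.l1 + H.l2))
    (hu2 : H.l2 < gd * (H.l0 + H.l1 + H.l2)) : False := by
  have hA0 := H.hA0
  have hA1 := H.hA1
  have hA2 := H.hA2
  have hB0 := H.hB0
  have hB1 := H.hB1
  have hB2 := H.hB2
  have hk0 := H.hk
  have hc0 := H.chord0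
  have hc1 : gd * ((1 / H.A1 + 1 / H.B1) * ‖H.E1‖) ≤ H.k := H.rot.chord0
  have hc2 : gd * ((1 / H.A2 + 1 / H.B2) * ‖H.E2‖) ≤ H.k := H.rot.rot.chord0
  have cB0 := H.cB0
  have cB1 := H.cB1
  have cB2 := H.cB2
  have cA0 := H.cA0
  have cA1 := H.cA1
  have cA2 := H.cA2
  have o0 := H.hu0 h0
  have o1 := H.hu1 h1
  have o2 := H.hu2 h2
  have k0 := H.k0
  have k1 := H.k1
  have k2 := H.k2
  have kb := H.kb
  have b0 := H.hb0
  have b1 := H.hb1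
  have b2 := H.hb2
  have T0 := H.triT h0 h1 h2
  have T1 : (H.A2 * H.B0 / (H.l2 * H.l0)) * ‖(1 / H.A2) • H.E2 + (1 / H.B0) • H.E0‖ ≤
      (H.A0 * H.B1 / (H.l0 * H.l1)) * ‖(1 / H.A0) • H.E0 + (1 / H.B1) • H.E1‖ +
      (H.A1 * H.B2 / (H.l1 * H.l2)) * ‖(1 / H.A1) • H.E1 + (1 / H.B2) • H.E2‖ :=
    H.rot.triT h1 h2 h0
  have T2 : (H.A0 * H.B1 / (H.l0 * H.l1)) * ‖(1 / H.A0) • H.E0 + (1 / H.B1) • H.E1‖ ≤
      (H.A1 * H.B2 / (H.l1 * H.l2)) * ‖(1 / H.A1) • H.E1 + (1 / H.B2) • H.E2‖ +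
      (H.A2 * H.B0 / (H.l2 * H.l0)) * ‖(1 / H.A2) • H.E2 + (1 / H.B0) • H.E0‖ :=
    H.rot.rot.triT h2 h0 h1
  have L0 := H.triL h0 h1 h2
  have L1 : ((H.l1 + H.l2 + H.l0) * H.A2 * H.B0 / (H.l2 * H.l0)) *
        ‖(1 / H.A2) • H.E2 + (1 / H.B0) • H.E0‖ ≤
      ((H.B1 + H.B0 - H.A2) * H.A0 / H.l0) * ‖(1 / H.A0) • H.E0 + (1 / H.B1) • H.E1‖ +
      (1 / H.A1 + 1 / H.B1) * ‖H.E1‖ +
      ((H.A1 + H.A2 - H.B0) * H.B2 / H.l2) * ‖(1 / H.A1) • H.E1 + (1 / H.B2) • H.E2‖ :=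
    H.rot.triL h1 h2 h0
  have L2 : ((H.l2 + H.l0 + H.l1) * H.A0 * H.B1 / (H.l0 * H.l1)) *
        ‖(1 / H.A0) • H.E0 + (1 / H.B1) • H.E1‖ ≤
      ((H.B2 + H.B1 - H.A0) * H.A1 / H.l1) * ‖(1 / H.A1) • H.E1 + (1 / H.B2) • H.E2‖ +
      (1 / H.A2 + 1 / H.B2) * ‖H.E2‖ +
      ((H.A2 + H.A0 - H.B1) * H.B0 / H.l0) * ‖(1 / H.A2) • H.E2 + (1 / H.B0) • H.E0‖ :=
    H.rot.rot.triL h2 h0 h1
  have p0 := H.pos0
  have p1 : 0 < ‖(1 / H.A2) • H.E2 + (1 / H.B0) • H.E0‖ := H.rot.pos0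
  have p2 : 0 < ‖(1 / H.A0) • H.E0 + (1 / H.B1) • H.E1‖ := H.rot.rot.pos0
  have e0 : H.l0 = H.A0 * H.A2 + H.B0 * H.B1 - H.A0 * H.B0 := rfl
  have e1 : H.l1 = H.A1 * H.A0 + H.B1 * H.B2 - H.A1 * H.B1 := rfl
  have e2 : H.l2 = H.A2 * H.A1 + H.B2 * H.B0 - H.A2 * H.B2 := rfl
  rw [← e0] at o0
  rw [← e1] at o1
  rw [← e2] at o2
  exact realCase h0 h1 h2 hu0 hu1 hu2 p0 p1 p2 hA0 hA1 hA2 hB0 hB1 hB2 cB0 cB1 cB2 cA0 cA1 cA2
    e0 e1 e2 T0 T1 T2 L0 L1 L2 hk0 hc0 hc1 hc2 o0 b0 k0 o1 b1 k1 o2 b2 kb k2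

theorem proper (h0 : 0 < H.l0) (h1 : 0 < H.l1) (h2 : 0 < H.l2) : False := by
  rcases le_or_gt (gd * (H.l0 + H.l1 + H.l2)) H.l0 with g0 | g0
  · exact H.bigE h0 h1 h2 g0
  rcases le_or_gt (gd * (H.l0 + H.l1 + H.l2)) H.l1 with g1 | g1
  · refine H.rot.bigE h1 h2 h0 ?_
    change gd * (H.l1 + H.l2 + H.l0) ≤ H.l1
    linarith
  rcases le_or_gt (gd * (H.l0 + H.l1 + H.l2)) H.l2 with g2 | g2
  · refine H.rot.rot.bigE h2 h0 h1 ?_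
    change gd * (H.l2 + H.l0 + H.l1) ≤ H.l2
    linarith
  exact H.smallE h0 h1 h2 g0 g1 g2

theorem improper (hl : H.l0 ≤ 0) : False := by
  rcases le_total H.B0 H.A0 with h | h
  · exact H.improper1 hl h
  · refine H.refl.improper1 ?_ h
    change H.B0 * H.B1 + H.A0 * H.A2 - H.B0 * H.A0 ≤ 0
    have : H.l0 = H.A0 * H.A2 + H.B0 * H.B1 - H.A0 * H.B0 := rfl
    linarith

/-- Hexagonal data do not exist. -/
theorem contra (H : Hex E) : False := by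
  rcases le_or_gt H.l0 0 with h0 | h0
  · exact H.improper h0
  rcases le_or_gt H.l1 0 with h1 | h1
  · exact H.rot.improper h1
  rcases le_or_gt H.l2 0 with h2 | h2
  · exact H.rot.rot.improper h2
  exact H.proper h0 h1 h2

end Hex
end Pool.MP_653fdd_gt.Lib
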