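import Pool.Agent.Lib.MP_653fdd_gt.Assemble

set_option autoImplicit false

/-! The golden ratio theorem for convex curves. -/

open MeasureTheory Set Metric
open scoped ENNReal NNReal Topology Pointwise

namespace Pool.MP_653fdd_gt.Lib

lemma caps_closed {K : Set P} (hKc : IsCompact K) (a : ℝ≥0∞) :
    IsClosed {p : P × ℝ | bd K {y | p.2 < inner ℝ y p.1} ≤ a} := by
  have cin : ∀ v : P, Continuous (fun y : P => inner ℝ y v) := fun v => by fun_prop
  have hm : ∀ (v : P) (t : ℝ), MeasurableSet {y : P | t < inner ℝ y v} := fun v t =>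
    (isOpen_lt continuous_const (cin v)).measurableSet
  obtain ⟨R0, hR0⟩ := hKc.isBounded.subset_closedBall 0
  rw [← isOpen_compl_iff, isOpen_iff_mem_nhds]
  rintro ⟨v0, t0⟩ hp0
  rw [mem_compl_iff, mem_ofPred_eq, not_le] at hp0
  have hmono : Monotone (fun n : ℕ => {y : P | t0 + 1 / ((n : ℝ) + 1) < inner ℝ y v0}) := by
    intro i j hij y hy
    rw [mem_ofPred_eq] at hy ⊢
    have h1 : 1 / ((j : ℝ) + 1) ≤ 1 / ((i : ℝ) + 1) := by
      apply one_div_le_one_div_of_le (by positivity)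
      have : (i : ℝ) ≤ j := by exact_mod_cast hij
      linarith
    linarith
  have hU : (⋃ n : ℕ, {y : P | t0 + 1 / ((n : ℝ) + 1) < inner ℝ y v0}) =
      {y | t0 < inner ℝ y v0} := by
    ext y
    simp only [mem_iUnion, mem_ofPred_eq]
    constructor
    · rintro ⟨n, hn⟩
      have : 0 < 1 / ((n : ℝ) + 1) := by positivity
      linarith
    · intro h
      obtain ⟨n, hn⟩ := exists_nat_one_div_lt (sub_pos.2 h)
      exact ⟨n, by linarith⟩
  simp only at hp0
  rw [← hU, hmono.measure_iUnion, lt_iSup_iff] at hp0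
  obtain ⟨n, hn⟩ := hp0
  have hopen : IsOpen {p : P × ℝ | (p.2 - t0) + |R0| * ‖p.1 - v0‖ < 1 / ((n : ℝ) + 1)} := by
    apply isOpen_lt _ continuous_const
    fun_prop
  refine Filter.mem_of_superset (hopen.mem_nhds ?_) ?_
  · rw [mem_ofPred_eq, sub_self, sub_self, norm_zero, mul_zero, add_zero]
    positivity
  · rintro ⟨v, t⟩ hp
    rw [mem_ofPred_eq] at hp
    rw [mem_compl_iff, mem_ofPred_eq, not_le]
    refine lt_of_lt_of_le hn ?_
    apply bd_mono (hm _ _) (hm _ _)
    intro y hy hy2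
    have hyK := hR0 (hKc.isClosed.frontier_subset hy)
    rw [mem_closedBall, dist_zero_right] at hyK
    rw [mem_ofPred_eq] at hy2 ⊢
    have h1 : inner ℝ y v = inner ℝ y v0 + inner ℝ y (v - v0) := by
      rw [← inner_add_right, add_sub_cancel]
    have h2 := abs_real_inner_le_norm y (v - v0)
    have h3 : ‖y‖ * ‖v - v0‖ ≤ |R0| * ‖v - v0‖ :=
      mul_le_mul_of_nonneg_right (hyK.trans (le_abs_self R0)) (norm_nonneg _)
    have h4 := neg_abs_le (inner ℝ y (v - v0))
    simp only at hp ⊢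
    rw [h1]
    linarith

lemma gd_phi : (Real.sqrt 5 + 1) / 2 = 1 + gd := by
  unfold gd; ring

/-- the cap through an interior point -/
lemma cap_of {K : Set P} (hK : Convex ℝ K) (hKc : IsCompact K) {x : P} (hx : x ∈ interior K)
    {v : P} (hv : v ≠ 0)
    (h : ENNReal.ofReal ((Real.sqrt 5 + 1) / 2) * μH[1] (frontier K ∩ {y | inner ℝ (y - x) v ≤ 0}) ≤
      μH[1] (frontier K ∩ {y | 0 ≤ inner ℝ (y - x) v})) :
    Good K x ((-(‖v‖)⁻¹) • v) := by
  have hvp : 0 < ‖v‖ := norm_pos_iff.2 hv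
  refine ⟨?_, ?_⟩
  · rw [norm_smul, norm_neg, norm_inv, norm_norm, inv_mul_cancel₀ hvp.ne']
  have cin : Continuous (fun y : P => inner ℝ (y - x) v) := by fun_prop
  have m1 : MeasurableSet {y : P | inner ℝ (y - x) v ≤ 0} :=
    (isClosed_le cin continuous_const).measurableSet
  have m2 : MeasurableSet {y : P | 0 ≤ inner ℝ (y - x) v} :=
    (isClosed_le continuous_const cin).measurableSet
  have m3 : MeasurableSet {y : P | inner ℝ (y - x) v = 0} :=
    (isClosed_eq cin continuous_const).measurableSet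
  rw [← bd_apply m1, ← bd_apply m2] at h
  have hsub : {y : P | 0 < inner ℝ (y - x) ((-(‖v‖)⁻¹) • v)} ⊆ {y : P | inner ℝ (y - x) v ≤ 0} := by
    intro y hy
    rw [mem_ofPred_eq, real_inner_smul_right] at hy
    rw [mem_ofPred_eq]
    by_contra hcon
    push Not at hcon
    have : 0 < ‖v‖⁻¹ * inner ℝ (y - x) v := by positivity
    linarith
  refine (measure_mono hsub).trans ?_
  have hnull := line_null' hK hKc hx hv
  have h1 : bd K {y : P | inner ℝ (y - x) v ≤ 0} + bd K {y : P | 0 ≤ inner ℝ (y - x) v} ≤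
      bd K univ := by
    rw [← measure_union₀ m2.nullMeasurableSet]
    · exact measure_mono (subset_univ _)
    · refine measure_mono_null ?_ hnull
      rintro y ⟨y1, y2⟩
      exact le_antisymm y1 y2
  have h2 : bd K {y : P | inner ℝ (y - x) v ≤ 0} +
      ENNReal.ofReal ((Real.sqrt 5 + 1) / 2) * bd K {y : P | inner ℝ (y - x) v ≤ 0} ≤ bd K univ :=
    (add_le_add le_rfl h).trans h1
  have h3 : bd K {y : P | inner ℝ (y - x) v ≤ 0} = ENNReal.ofReal (gd ^ 2) *
      (bd K {y : P | inner ℝ (y - x) v ≤ 0} +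
      ENNReal.ofReal ((Real.sqrt 5 + 1) / 2) * bd K {y : P | inner ℝ (y - x) v ≤ 0}) := by
    have gp := gd_pos
    have e1 : bd K {y : P | inner ℝ (y - x) v ≤ 0} +
      ENNReal.ofReal ((Real.sqrt 5 + 1) / 2) * bd K {y : P | inner ℝ (y - x) v ≤ 0} =
      ENNReal.ofReal (2 + gd) * bd K {y : P | inner ℝ (y - x) v ≤ 0} := by
      rw [gd_phi]
      have : (2 + gd) = 1 + (1 + gd) := by ring
      have h5 : ENNReal.ofReal (1 + (1 + gd)) = 1 + ENNReal.ofReal (1 + gd) := by
        rw [ENNReal.ofReal_add zero_le_one (by linarith : 0 ≤ 1 + gd), ENNReal.ofReal_one]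
      rw [this, h5, add_mul, one_mul]
    rw [e1, ← mul_assoc, ← ENNReal.ofReal_mul (sq_nonneg _)]
    have e2 : gd ^ 2 * (2 + gd) = 1 := by
      have := gd_sq
      rw [this]
      linear_combination (-1) * gd_sq
    rw [e2, ENNReal.ofReal_one, one_mul]
  rw [h3]
  exact mul_le_mul_right h2 _

theorem golden (K : Set P) (hK : Convex ℝ K) (hKc : IsCompact K) (hint : (interior K).Nonempty) :
    ∃ x ∈ interior K, ∀ v : P, v ≠ 0 →
      μH[1] (frontier K ∩ {y : P | 0 ≤ inner ℝ (y - x) v}) <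
        ENNReal.ofReal ((Real.sqrt 5 + 1) / 2) *
          μH[1] (frontier K ∩ {y : P | inner ℝ (y - x) v ≤ 0}) := by
  by_contra hcon
  push Not at hcon
  obtain ⟨R0, hR0⟩ := hKc.isBounded.subset_closedBall 0
  set R : ℝ := |R0| + 1 with hR
  have hRp : 0 < R := by positivity
  have hKR : ∀ y ∈ K, ‖y‖ ≤ R := by
    intro y hy
    have h1 := hR0 hy
    rw [mem_closedBall, dist_zero_right] at h1
    have := le_abs_self R0
    linarith
  have hfK : frontier K ⊆ K := hKc.isClosed.frontier_subset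
  have cin : ∀ v : P, Continuous (fun y : P => inner ℝ y v) := fun v => by fun_prop
  have hm : ∀ (v : P) (t : ℝ), MeasurableSet {y : P | t < inner ℝ y v} := fun v t =>
    (isOpen_lt continuous_const (cin v)).measurableSet
  set Γ : Set (P × ℝ) := (sphere (0 : P) 1 ×ˢ Icc (-R) R) ∩
    {p : P × ℝ | bd K {y | p.2 < inner ℝ y p.1} ≤ ENNReal.ofReal (gd ^ 2) * bd K univ} with hΓ
  have hΓc : IsCompact Γ :=
    ((isCompact_sphere (0 : P) 1).prod isCompact_Icc).inter_right (caps_closed hKc _)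
  have hnull : ∀ (v : P) (t : ℝ), (∀ y ∈ K, inner ℝ y v ≤ t) →
      bd K {y | t < inner ℝ y v} ≤ ENNReal.ofReal (gd ^ 2) * bd K univ := by
    intro v t h
    have h1 : bd K {y : P | t < inner ℝ y v} ≤ bd K ∅ := by
      apply bd_mono (hm v t) MeasurableSet.empty
      intro y hy hy2
      have := h y (hfK hy)
      rw [mem_ofPred_eq] at hy2
      exact absurd hy2 (not_lt.2 this)
    rw [measure_empty] at h1
    exact h1.trans bot_le
  have hin : ∀ (x v : P), ‖v‖ = 1 → |inner ℝ x v| ≤ ‖x‖ := by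
    intro x v hv
    have := abs_real_inner_le_norm x v
    rwa [hv, mul_one] at this
  have htop : ∀ v : P, ‖v‖ = 1 → (v, R) ∈ Γ := by
    intro v hv
    refine ⟨⟨by simpa using hv, ⟨by linarith, le_rfl⟩⟩, ?_⟩
    apply hnull
    intro y hy
    exact (le_abs_self _).trans ((hin y v hv).trans (hKR y hy))
  have hu : ∀ p ∈ Γ, ‖p.1‖ = 1 ∧ -R ≤ p.2 := by
    rintro ⟨v, t⟩ ⟨⟨h1, h2⟩, -⟩
    exact ⟨by simpa using h1, h2.1⟩
  have hpos : ∀ x : P, ∃ p ∈ Γ, 0 ≤ inner ℝ x p.1 - p.2 := by
    intro x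
    by_cases hx : x ∈ interior K
    · obtain ⟨v, hv, hv2⟩ := hcon x hx
      obtain ⟨g1, g2⟩ := cap_of hK hKc hx hv hv2
      generalize (-(‖v‖)⁻¹) • v = v' at g1 g2
      have hb := abs_le.1 ((hin x v' g1).trans (hKR x (interior_subset hx)))
      refine ⟨(v', inner ℝ x v'), ⟨⟨by simpa using g1, hb⟩, ?_⟩, by simp⟩
      have e : {y : P | inner ℝ x v' < inner ℝ y v'} = {y : P | 0 < inner ℝ (y - x) v'} := by
        ext y
        simp only [mem_ofPred_eq, inner_sub_left, sub_pos]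
      rw [mem_ofPred_eq]
      simp only
      rw [e]
      exact g2
    · obtain ⟨n, hn, hnK⟩ := exists_normal hK hint hx
      have hnp : 0 < ‖n‖ := norm_pos_iff.2 hn
      obtain ⟨v, hvdef⟩ : ∃ v : P, v = (‖n‖)⁻¹ • n := ⟨_, rfl⟩
      have hv1 : ‖v‖ = 1 := by
        rw [hvdef, norm_smul, norm_inv, norm_norm, inv_mul_cancel₀ hnp.ne']
      have hvK : ∀ y ∈ K, inner ℝ y v ≤ inner ℝ x v := by
        intro y hy
        have h1 := hnK y hy
        have h2 : inner ℝ (y - x) v ≤ 0 := by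
          rw [hvdef, real_inner_smul_right, real_inner_comm]
          exact mul_nonpos_of_nonneg_of_nonpos (by positivity) h1
        rw [inner_sub_left] at h2
        linarith
      by_cases htR : inner ℝ x v ≤ R
      · refine ⟨(v, inner ℝ x v), ⟨⟨by simpa using hv1, ⟨?_, htR⟩⟩, ?_⟩, by simp⟩
        · obtain ⟨y, hy⟩ := hint
          have hyK := interior_subset hy
          have h1 := hvK y hyK
          have h2 := (abs_le.1 ((hin y v hv1).trans (hKR y hyK))).1
          linarith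
        · exact hnull v _ hvK
      · push Not at htR
        refine ⟨(v, R), htop v hv1, ?_⟩
        simp only
        linarith
  obtain ⟨o, m, -, h2, h3⟩ := exists_minimax hΓc hRp hu htop
  have hm0 : 0 ≤ m := by
    obtain ⟨p, hp, hp2⟩ := hpos o
    exact hp2.trans (h2 p hp)
  have h0 := first_order hΓc h2 h3
  obtain ⟨w, z, hw, hz, hsum⟩ := hull_three h0
  refine exclude hK hKc hint hw hsum (o := o) (fun i => ?_)
  obtain ⟨t, ht, htm⟩ := hz i
  refine ⟨(hu _ ht).1, ?_⟩
  refine (measure_mono ?_).trans ht.2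
  intro y hy
  rw [mem_ofPred_eq, inner_sub_left] at hy
  rw [mem_ofPred_eq]
  simp only
  linarith

end Pool.MP_653fdd_gt.Lib
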