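import Pool.Agent.Lib.MP_653fdd_gt.Golden

set_option autoImplicit false

/-! The golden ratio theorem with a uniform constant, for chords and arcs. -/

open MeasureTheory Set Metric
open scoped ENNReal NNReal Topology Pointwise

namespace Pool.MP_653fdd_gt.Lib

/-- the part of the boundary strictly on one side of a line through an interior point is
connected -/
lemma side_connected {K : Set P} (hK : Convex ℝ K) (hKc : IsCompact K) {x : P}
    (hx : x ∈ interior K) {v : P} (hv : v ≠ 0) :
    IsConnected (frontier K ∩ {y : P | 0 < inner ℝ (y - x) v}) := by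
  have hB := shift_body hK hKc hx
  have hfr : frontier ((fun y : P => y + x) ⁻¹' K) = (fun y : P => y + x) ⁻¹' frontier K :=
    ((Homeomorph.addRight x).preimage_frontier K).symm
  generalize (fun y : P => y + x) ⁻¹' K = K' at hB hfr
  have hg : Continuous (gauge K') := continuous_gauge hB.conv hB.nhds
  have hH : IsConnected {u : P | 0 < inner ℝ u v} := by
    refine ⟨⟨v, ?_⟩, ?_⟩
    · rw [mem_ofPred_eq, real_inner_self_eq_norm_sq]
      have := norm_pos_iff.2 hv
      positivity
    · apply Convex.isPreconnected
      intro a ha b hb s t hs ht hst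
      rw [mem_ofPred_eq] at ha hb ⊢
      rw [inner_add_left, real_inner_smul_left, real_inner_smul_left]
      rcases hs.lt_or_eq with h | h
      · have := mul_pos h ha
        have := mul_nonneg ht hb.le
        linarith
      · subst h
        rw [zero_add] at hst
        subst hst
        linarith
  have hne : ∀ u : P, 0 < inner ℝ u v → u ≠ 0 := by
    rintro u hu rfl
    rw [inner_zero_left] at hu
    exact lt_irrefl _ hu
  have himg : frontier K ∩ {y : P | 0 < inner ℝ (y - x) v} =
      (fun u : P => (gauge K' u)⁻¹ • u + x) '' {u : P | 0 < inner ℝ u v} := by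
    ext y
    constructor
    · rintro ⟨hy, hy2⟩
      refine ⟨y - x, hy2, ?_⟩
      have h1 : y - x ∈ frontier K' := by
        rw [hfr, mem_preimage, sub_add_cancel]; exact hy
      have h2 := hB.N_eq_one.2 h1
      simp only [h2, inv_one, one_smul, sub_add_cancel]
    · rintro ⟨u, hu, rfl⟩
      rw [mem_ofPred_eq] at hu
      have hp := hB.N_pos (hne u hu)
      refine ⟨?_, ?_⟩
      · have h1 : (gauge K' u)⁻¹ • u ∈ frontier K' := by
          apply hB.N_eq_one.1
          rw [gauge_smul_of_nonneg (inv_nonneg.2 hp.le), smul_eq_mul, inv_mul_cancel₀ hp.ne']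
        rw [hfr, mem_preimage] at h1
        exact h1
      · rw [mem_ofPred_eq, add_sub_cancel_right, real_inner_smul_left]
        positivity
  rw [himg]
  refine hH.image _ ?_
  have hinv : ContinuousOn (fun u : P => (gauge K' u)⁻¹) {u : P | 0 < inner ℝ u v} :=
    hg.continuousOn.inv₀ (fun u hu => (hB.N_pos (hne u hu)).ne')
  exact (hinv.smul continuousOn_id).add continuousOn_const

/-- a chord through an interior point meets the boundary only at its ends -/
lemma line_frontier {K : Set P} (hK : Convex ℝ K) {x p q : P}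
    (hx : x ∈ interior K) (hp : p ∈ frontier K) (hq : q ∈ frontier K) (hxs : x ∈ segment ℝ p q) :
    p ≠ q ∧ frontier K ∩ {y : P | inner ℝ (y - x) (J (q - p)) = 0} = {p, q} := by
  have hpc : p ∈ closure K := frontier_subset_closure hp
  have hqc : q ∈ closure K := frontier_subset_closure hq
  have hpi : p ∉ interior K := fun h => hp.2 h
  have hqi : q ∉ interior K := fun h => hq.2 h
  have hpq : p ≠ q := by
    rintro rfl
    rw [segment_same, mem_singleton_iff] at hxs
    exact hpi (hxs ▸ hx)
  refine ⟨hpq, ?_⟩
  obtain ⟨a, b, ha, hb, hab, hxe⟩ := hxs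
  have hb0 : 0 < b := by
    rcases hb.lt_or_eq with h | h
    · exact h
    · exfalso
      apply hpi
      rw [← h, add_zero] at hab
      rw [← h, hab, one_smul, zero_smul, add_zero] at hxe
      exact hxe ▸ hx
  have ha0 : 0 < a := by
    rcases ha.lt_or_eq with h | h
    · exact h
    · exfalso
      apply hqi
      rw [← h, zero_add] at hab
      rw [← h, hab, one_smul, zero_smul, zero_add] at hxe
      exact hxe ▸ hx
  have hw : q - p ≠ 0 := sub_ne_zero.2 hpq.symm
  have ecr : ∀ y : P, inner ℝ (y - x) (J (q - p)) = cr (y - x) (J (J (q - p))) := fun y =>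
    (cr_J _ _).symm
  have eJJ : J (J (q - p)) = -(q - p) := by
    ext i
    fin_cases i <;> simp [J]
  have hpx : p = x + (-b) • (q - p) := by
    rw [← hxe]
    have : a = 1 - b := by linarith
    rw [this]
    module
  have hqx : q = x + a • (q - p) := by
    rw [← hxe]
    have : b = 1 - a := by linarith
    rw [this]
    module
  have hint : ∀ z : P, z ∈ closure K → ∀ y : P, y ∈ openSegment ℝ x z → y ∈ interior K :=
    fun z hz y hy => hK.openSegment_interior_closure_subset_interior hx hz hy
  ext y
  constructor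
  · rintro ⟨hy, hy2⟩
    have hyi : y ∉ interior K := fun h => hy.2 h
    have hyc : y ∈ closure K := frontier_subset_closure hy
    rw [mem_ofPred_eq, ecr, eJJ, cr_neg_right, neg_eq_zero] at hy2
    obtain ⟨c, hc⟩ := mem_line hw hy2
    have hyx : y = x + c • (q - p) := by rw [← hc]; abel
    rw [mem_insert_iff, mem_singleton_iff]
    rcases lt_trichotomy c 0 with h | h | h
    · left
      rcases lt_trichotomy c (-b) with h1 | h1 | h1
      · -- p between x and y
        exfalso
        apply hpi
        apply hint y hyc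
        refine ⟨1 - b / (-c), b / (-c), ?_, ?_, by ring, ?_⟩
        · rw [sub_pos, div_lt_one (by linarith)]; linarith
        · apply div_pos hb0; linarith
        · have e : (b / (-c)) * c = -b := by
            have hc0 : c ≠ 0 := by linarith
            field_simp
          rw [hyx]
          calc (1 - b / (-c)) • x + (b / (-c)) • (x + c • (q - p)) =
              x + ((b / (-c)) * c) • (q - p) := by module
            _ = p := by rw [e]; exact hpx.symm
      · rw [hyx, h1]; exact hpx.symm
      · exfalso
        apply hyi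
        apply hint p hpc
        refine ⟨1 - (-c) / b, (-c) / b, ?_, ?_, by ring, ?_⟩
        · rw [sub_pos, div_lt_one hb0]; linarith
        · apply div_pos _ hb0; linarith
        · have e : ((-c) / b) * (-b) = c := by field_simp
          calc (1 - (-c) / b) • x + ((-c) / b) • p =
              (1 - (-c) / b) • x + ((-c) / b) • (x + (-b) • (q - p)) := by rw [← hpx]
            _ = x + (((-c) / b) * (-b)) • (q - p) := by module
            _ = y := by rw [e]; exact hyx.symm
    · exfalso
      apply hyi
      rw [hyx, h, zero_smul, add_zero]; exact hx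
    · right
      rcases lt_trichotomy c a with h1 | h1 | h1
      · exfalso
        apply hyi
        apply hint q hqc
        refine ⟨1 - c / a, c / a, ?_, ?_, by ring, ?_⟩
        · rw [sub_pos, div_lt_one ha0]; linarith
        · positivity
        · have e : (c / a) * a = c := by field_simp
          calc (1 - c / a) • x + (c / a) • q =
              (1 - c / a) • x + (c / a) • (x + a • (q - p)) := by rw [← hqx]
            _ = x + ((c / a) * a) • (q - p) := by module
            _ = y := by rw [e]; exact hyx.symm
      · rw [hyx, h1]; exact hqx.symm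
      · exfalso
        apply hqi
        apply hint y hyc
        refine ⟨1 - a / c, a / c, ?_, ?_, by ring, ?_⟩
        · rw [sub_pos, div_lt_one h]; linarith
        · positivity
        · have e : (a / c) * c = a := by field_simp
          rw [hyx]
          calc (1 - a / c) • x + (a / c) • (x + c • (q - p)) =
              x + ((a / c) * c) • (q - p) := by module
            _ = q := by rw [e]; exact hqx.symm
  · intro hy
    have key : ∀ c : ℝ, inner ℝ (x + c • (q - p) - x) (J (q - p)) = 0 := by
      intro c
      rw [ecr, eJJ, add_sub_cancel_left, cr_neg_right, cr_smul_left, cr_self, mul_zero, neg_zero]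
    rcases hy with rfl | hy
    · refine ⟨hp, ?_⟩
      rw [mem_ofPred_eq]
      have := key (-b)
      rwa [← hpx] at this
    · rw [mem_singleton_iff] at hy
      subst hy
      refine ⟨hq, ?_⟩
      rw [mem_ofPred_eq]
      have := key a
      rwa [← hqx] at this

/-- the golden ratio theorem with one constant below the golden ratio for all lines through
the point -/
theorem golden_uniform (K : Set P) (hK : Convex ℝ K) (hKc : IsCompact K)
    (hint : (interior K).Nonempty) :
    ∃ x ∈ interior K, ∃ c : ℝ, 1 ≤ c ∧ c < (1 + Real.sqrt 5) / 2 ∧ ∀ v : P, v ≠ 0 →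
      0 < (bd K {y : P | 0 < inner ℝ (y - x) v}).toReal ∧
      (bd K {y : P | 0 < inner ℝ (y - x) v}).toReal + (bd K {y : P | inner ℝ (y - x) v < 0}).toReal
        = (bd K univ).toReal ∧
      (bd K {y : P | 0 < inner ℝ (y - x) v}).toReal ≤
        c * (bd K {y : P | inner ℝ (y - x) v < 0}).toReal := by
  obtain ⟨x, hx, hgold⟩ := golden K hK hKc hint
  refine ⟨x, hx, ?_⟩
  have cin : ∀ v : P, Continuous (fun y : P => inner ℝ (y - x) v) := fun v => by fun_prop
  have m1 : ∀ v : P, MeasurableSet {y : P | inner ℝ (y - x) v ≤ 0} := fun v =>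
    (isClosed_le (cin v) continuous_const).measurableSet
  have m2 : ∀ v : P, MeasurableSet {y : P | 0 ≤ inner ℝ (y - x) v} := fun v =>
    (isClosed_le continuous_const (cin v)).measurableSet
  have m3 : ∀ v : P, MeasurableSet {y : P | inner ℝ (y - x) v = 0} := fun v =>
    (isClosed_eq (cin v) continuous_const).measurableSet
  have m4 : ∀ v : P, MeasurableSet {y : P | 0 < inner ℝ (y - x) v} := fun v =>
    (isOpen_lt continuous_const (cin v)).measurableSet
  have m5 : ∀ v : P, MeasurableSet {y : P | inner ℝ (y - x) v < 0} := fun v =>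
    (isOpen_lt (cin v) continuous_const).measurableSet
  set m : P → ℝ≥0∞ := fun v => bd K {y : P | 0 < inner ℝ (y - x) v} with hmdef
  have hneg : ∀ v : P, bd K {y : P | inner ℝ (y - x) v < 0} = m (-v) := by
    intro v
    rw [hmdef]
    simp only
    congr 1
    ext y
    simp only [mem_ofPred_eq, inner_neg_right]
    constructor <;> intro h <;> linarith
  have hcl : ∀ v : P, v ≠ 0 → bd K {y : P | 0 ≤ inner ℝ (y - x) v} = m v := by
    intro v hv
    apply le_antisymm
    · have hsub : {y : P | 0 ≤ inner ℝ (y - x) v} ⊆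
          {y : P | 0 < inner ℝ (y - x) v} ∪ {y : P | inner ℝ (y - x) v = 0} := by
        intro y hy
        rcases (show 0 ≤ inner ℝ (y - x) v from hy).lt_or_eq with h | h
        · left; exact h
        · right; exact h.symm
      refine (measure_mono hsub).trans ((measure_union_le _ _).trans ?_)
      rw [line_null' hK hKc hx hv, add_zero]
    · exact measure_mono (fun y (hy : 0 < inner ℝ (y - x) v) => hy.le)
  have hfin : bd K univ < ⊤ := univ_fin hK hKc hint
  have hpos : 0 < bd K univ := univ_pos hK hKc hint
  have hmfin : ∀ v : P, m v < ⊤ := fun v => (measure_mono (subset_univ _)).trans_lt hfin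
  have hsum : ∀ v : P, v ≠ 0 → m v + m (-v) = bd K univ := by
    intro v hv
    rw [← hneg, ← hcl v hv, ← measure_union _ (m5 v)]
    · congr 1
      ext y
      simp only [mem_union, mem_ofPred_eq, mem_univ, iff_true]
      exact le_or_gt 0 _
    · rw [Set.disjoint_left]
      intro y h1 h2
      rw [mem_ofPred_eq] at h1 h2
      linarith
  have hlt : ∀ v : P, v ≠ 0 → m (-v) < ENNReal.ofReal ((Real.sqrt 5 + 1) / 2) * m v := by
    intro v hv
    have h := hgold (-v) (neg_ne_zero.2 hv)
    rw [← bd_apply (m2 _), ← bd_apply (m1 _), hcl (-v) (neg_ne_zero.2 hv)] at h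
    have e : {y : P | inner ℝ (y - x) (-v) ≤ 0} = {y : P | 0 ≤ inner ℝ (y - x) v} := by
      ext y
      simp only [mem_ofPred_eq, inner_neg_right]
      constructor <;> intro h <;> linarith
    rw [e, hcl v hv] at h
    exact h
  -- lower semicontinuity
  have hlsc : LowerSemicontinuous m := by
    rw [lowerSemicontinuous_iff_isClosed_preimage]
    intro a
    have h1 := caps_closed hKc a
    have h2 : m ⁻¹' Iic a = (fun v : P => (v, inner ℝ x v)) ⁻¹'
        {p : P × ℝ | bd K {y | p.2 < inner ℝ y p.1} ≤ a} := by
      ext v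
      rw [mem_preimage, mem_Iic, mem_preimage, mem_ofPred_eq, hmdef]
      simp only
      have e : {y : P | 0 < inner ℝ (y - x) v} = {y : P | inner ℝ x v < inner ℝ y v} := by
        ext y
        simp only [mem_ofPred_eq, inner_sub_left, sub_pos]
      rw [e]
    rw [h2]
    exact h1.preimage (by fun_prop)
  have hS : (sphere (0 : P) 1).Nonempty := by
    refine ⟨!₂[1, 0], ?_⟩
    rw [mem_sphere_zero_iff_norm, EuclideanSpace.norm_eq, Fin.sum_univ_two]; simp
  obtain ⟨v0, hv0, hmin⟩ := LowerSemicontinuousOn.exists_isMinOn hS (isCompact_sphere (0 : P) 1)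
    (hlsc.lowerSemicontinuousOn _)
  have hv0' : v0 ≠ 0 := by
    rintro rfl
    rw [mem_sphere_zero_iff_norm, norm_zero] at hv0
    exact zero_ne_one hv0
  have hmin' : ∀ v : P, v ≠ 0 → m v0 ≤ m v := by
    intro v hv
    have hvp : 0 < ‖v‖ := norm_pos_iff.2 hv
    have h1 : (‖v‖)⁻¹ • v ∈ sphere (0 : P) 1 := by
      rw [mem_sphere_zero_iff_norm, norm_smul, norm_inv, norm_norm, inv_mul_cancel₀ hvp.ne']
    have h2 : m v0 ≤ m ((‖v‖)⁻¹ • v) := hmin h1
    have h3 : m ((‖v‖)⁻¹ • v) = m v := by
      rw [hmdef]
      simp only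
      congr 1
      ext y
      simp only [mem_ofPred_eq, real_inner_smul_right]
      constructor
      · intro h
        exact (pos_iff_pos_of_mul_pos h).1 (inv_pos.2 hvp)
      · intro h; positivity
    rwa [h3] at h2
  set L : ℝ := (bd K univ).toReal with hL
  have hLp : 0 < L := ENNReal.toReal_pos hpos.ne' hfin.ne
  have hsumR : ∀ v : P, v ≠ 0 → (m v).toReal + (m (-v)).toReal = L := by
    intro v hv
    rw [← ENNReal.toReal_add (hmfin _).ne (hmfin _).ne, hsum v hv]
  have hφ : 0 < (Real.sqrt 5 + 1) / 2 := by positivity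
  have hltR : ∀ v : P, v ≠ 0 → (m (-v)).toReal < (Real.sqrt 5 + 1) / 2 * (m v).toReal := by
    intro v hv
    have h := ENNReal.toReal_strict_mono
      (ENNReal.mul_ne_top ENNReal.ofReal_ne_top (hmfin v).ne) (hlt v hv)
    rwa [ENNReal.toReal_mul, ENNReal.toReal_ofReal hφ.le] at h
  have hposR : ∀ v : P, v ≠ 0 → 0 < (m v).toReal := by
    intro v hv
    have h1 := hsumR v hv
    have h2 := hltR v hv
    by_contra hcon
    push Not at hcon
    have h3 : (m v).toReal = 0 := le_antisymm hcon ENNReal.toReal_nonneg
    rw [h3] at h1 h2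
    rw [mul_zero] at h2
    linarith
  have hminR : ∀ v : P, v ≠ 0 → (m v0).toReal ≤ (m v).toReal := fun v hv =>
    ENNReal.toReal_mono (hmfin v).ne (hmin' v hv)
  have hm0 := hposR v0 hv0'
  have hs0 := hsumR v0 hv0'
  have hl0 := hltR v0 hv0'
  have hn0 := hminR (-v0) (neg_ne_zero.2 hv0')
  refine ⟨(m (-v0)).toReal / (m v0).toReal, ?_, ?_, ?_⟩
  · rw [le_div_iff₀ hm0]; linarith
  · rw [div_lt_iff₀ hm0]
    have : (1 + Real.sqrt 5) / 2 = (Real.sqrt 5 + 1) / 2 := by ring
    rw [this]; exact hl0
  · intro v hv
    rw [hneg v]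
    refine ⟨hposR v hv, hsumR v hv, ?_⟩
    have h1 := hsumR v hv
    have h2 := hminR (-v) (neg_ne_zero.2 hv)
    have h3 : (m (-v0)).toReal / (m v0).toReal * (m v0).toReal = (m (-v0)).toReal := by
      field_simp
    have h4 : 0 ≤ (m (-v0)).toReal / (m v0).toReal := by positivity
    have h5 := mul_le_mul_of_nonneg_left h2 h4
    linarith

/-- a decomposition of the boundary without the ends of a chord into two connected
sets is the decomposition into the two open sides -/
lemma arcs_unique {K : Set P} (hK : Convex ℝ K) (hKc : IsCompact K) {x p q : P}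
    (hx : x ∈ interior K) (hp : p ∈ frontier K) (hq : q ∈ frontier K) (hxs : x ∈ segment ℝ p q)
    {A B : Set P} (hA : IsConnected A) (hB : IsConnected B)
    (hU : A ∪ B = frontier K \ {p, q}) :
    ∃ v : P, v ≠ 0 ∧ A = frontier K ∩ {y : P | 0 < inner ℝ (y - x) v} ∧
      B = frontier K ∩ {y : P | inner ℝ (y - x) v < 0} := by
  obtain ⟨hpq, hline⟩ := line_frontier hK hx hp hq hxs
  set w : P := J (q - p) with hwdef
  have hw : w ≠ 0 := J_ne (sub_ne_zero.2 hpq.symm)
  have cin : ∀ v : P, Continuous (fun y : P => inner ℝ (y - x) v) := fun v => by fun_prop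
  have oU : IsOpen {y : P | 0 < inner ℝ (y - x) w} := isOpen_lt continuous_const (cin w)
  have oV : IsOpen {y : P | inner ℝ (y - x) w < 0} := isOpen_lt (cin w) continuous_const
  have dUV : Disjoint {y : P | 0 < inner ℝ (y - x) w} {y : P | inner ℝ (y - x) w < 0} := by
    rw [Set.disjoint_left]
    intro y h1 h2
    rw [mem_ofPred_eq] at h1 h2
    linarith
  have hcov : frontier K \ {p, q} ⊆
      {y : P | 0 < inner ℝ (y - x) w} ∪ {y : P | inner ℝ (y - x) w < 0} := by
    rintro y ⟨hy, hy2⟩
    rcases lt_trichotomy (inner ℝ (y - x) w) 0 with h | h | h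
    · right; exact h
    · exfalso
      apply hy2
      rw [← hline]
      exact ⟨hy, h⟩
    · left; exact h
  have hcov' : ∀ y ∈ frontier K, inner ℝ (y - x) w ≠ 0 → y ∈ A ∪ B := by
    intro y hy h
    rw [hU]
    refine ⟨hy, fun h2 => h ?_⟩
    rw [← hline] at h2
    exact h2.2
  have hAf : A ⊆ frontier K := fun y hy => (hU ▸ mem_union_left B hy : y ∈ frontier K \ {p, q}).1
  have hBf : B ⊆ frontier K := fun y hy => (hU ▸ mem_union_right A hy : y ∈ frontier K \ {p, q}).1
  have hA2 := hA.isPreconnected.subset_or_subset oU oV dUV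
    (fun y hy => hcov (hU ▸ mem_union_left B hy))
  have hB2 := hB.isPreconnected.subset_or_subset oU oV dUV
    (fun y hy => hcov (hU ▸ mem_union_right A hy))
  obtain ⟨y1, hy1, hy1'⟩ := (side_connected hK hKc hx hw).nonempty
  obtain ⟨y2, hy2, hy2'⟩ := (side_connected hK hKc hx (neg_ne_zero.2 hw)).nonempty
  rw [mem_ofPred_eq] at hy1' hy2'
  rw [inner_neg_right] at hy2'
  -- the two cases
  have main : ∀ u : P, u = w ∨ u = -w → A ⊆ {y : P | 0 < inner ℝ (y - x) u} →
      B ⊆ {y : P | inner ℝ (y - x) u < 0} → A = frontier K ∩ {y : P | 0 < inner ℝ (y - x) u} ∧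
      B = frontier K ∩ {y : P | inner ℝ (y - x) u < 0} := by
    intro u hu h1 h2
    have hz : ∀ y : P, inner ℝ (y - x) u ≠ 0 → inner ℝ (y - x) w ≠ 0 := by
      intro y h
      rcases hu with rfl | rfl
      · exact h
      · rw [inner_neg_right] at h
        exact fun h3 => h (by rw [h3, neg_zero])
    constructor
    · apply Subset.antisymm
      · intro y hy
        exact ⟨hAf hy, h1 hy⟩
      rintro y ⟨hy, hy'⟩
      rw [mem_ofPred_eq] at hy'
      rcases hcov' y hy (hz y hy'.ne') with h | h
      · exact h
      · exfalso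
        have := h2 h
        rw [mem_ofPred_eq] at this
        linarith
    · apply Subset.antisymm
      · intro y hy
        exact ⟨hBf hy, h2 hy⟩
      rintro y ⟨hy, hy'⟩
      rw [mem_ofPred_eq] at hy'
      rcases hcov' y hy (hz y hy'.ne) with h | h
      · exfalso
        have := h1 h
        rw [mem_ofPred_eq] at this
        linarith
      · exact h
  rcases hA2 with hA3 | hA3 <;> rcases hB2 with hB3 | hB3
  · exfalso
    rcases hcov' y2 hy2 (by linarith) with h | h
    · have := hA3 h
      rw [mem_ofPred_eq] at this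
      linarith
    · have := hB3 h
      rw [mem_ofPred_eq] at this
      linarith
  · exact ⟨w, hw, main w (Or.inl rfl) hA3 hB3⟩
  · refine ⟨-w, neg_ne_zero.2 hw, main (-w) (Or.inr rfl) ?_ ?_⟩
    · intro y hy
      have := hA3 hy
      rw [mem_ofPred_eq] at this ⊢
      rw [inner_neg_right]; linarith
    · intro y hy
      have := hB3 hy
      rw [mem_ofPred_eq] at this ⊢
      rw [inner_neg_right]; linarith
  · exfalso
    rcases hcov' y1 hy1 (by linarith) with h | h
    · have := hA3 h
      rw [mem_ofPred_eq] at this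
      linarith
    · have := hB3 h
      rw [mem_ofPred_eq] at this
      linarith

lemma arcs_exist {K : Set P} (hK : Convex ℝ K) (hKc : IsCompact K) {x p q : P}
    (hx : x ∈ interior K) (hp : p ∈ frontier K) (hq : q ∈ frontier K) (hxs : x ∈ segment ℝ p q) :
    ∃ A B : Set P, IsConnected A ∧ IsConnected B ∧ Disjoint A B ∧
      A ∪ B = frontier K \ {p, q} := by
  obtain ⟨hpq, hline⟩ := line_frontier hK hx hp hq hxs
  have hw : J (q - p) ≠ 0 := J_ne (sub_ne_zero.2 hpq.symm)
  refine ⟨_, _, side_connected hK hKc hx hw, side_connected hK hKc hx (neg_ne_zero.2 hw), ?_, ?_⟩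
  · rw [Set.disjoint_left]
    rintro y ⟨-, h1⟩ ⟨-, h2⟩
    rw [mem_ofPred_eq] at h1 h2
    rw [inner_neg_right] at h2
    linarith
  · rw [← hline]
    ext y
    simp only [mem_union, mem_inter_iff, mem_ofPred_eq, inner_neg_right, mem_sdiff, not_and]
    constructor
    · rintro (⟨h1, h2⟩ | ⟨h1, h2⟩)
      · exact ⟨h1, fun _ h => by linarith⟩
      · exact ⟨h1, fun _ h => by linarith⟩
    · rintro ⟨h1, h2⟩
      rcases lt_or_gt_of_ne (h2 h1) with h | h
      · right; exact ⟨h1, by linarith⟩
      · left; exact ⟨h1, h⟩

end Pool.MP_653fdd_gt.Lib
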