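import Pool.Agent.Lib.MP_653fdd_gt.Cfg

set_option autoImplicit false

/-! Hexagonal data: three concurrent lines cutting a convex curve, in a normed plane. -/

namespace Pool.MP_653fdd_gt.Lib

/-- The six points `E_j / A_j`, `-E_j / B_j` on three lines through the origin, arc lengths
`a_j`, `b_j`, and the inequalities extracted from a convex curve through the six points. -/
structure Hex (E : Type*) [NormedAddCommGroup E] [NormedSpace ℝ E] where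
  (E0 E1 E2 : E)
  (A0 A1 A2 B0 B1 B2 a0 a1 a2 b0 b1 b2 k : ℝ)
  hE : E0 + E1 + E2 = 0
  hli : ∀ x y : ℝ, x • E1 + y • E2 = 0 → x = 0 ∧ y = 0
  hA0 : 0 < A0
  hA1 : 0 < A1
  hA2 : 0 < A2
  hB0 : 0 < B0
  hB1 : 0 < B1
  hB2 : 0 < B2
  hk : 0 < k
  cB0 : B0 ≤ A1 + A2
  cB1 : B1 ≤ A0 + A2
  cB2 : B2 ≤ A0 + A1
  cA0 : A0 ≤ B1 + B2
  cA1 : A1 ≤ B0 + B2
  cA2 : A2 ≤ B0 + B1
  hb0 : ‖(1 / A1) • E1 + (1 / B2) • E2‖ ≤ b0
  hb1 : ‖(1 / A2) • E2 + (1 / B0) • E0‖ ≤ b1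
  hb2 : ‖(1 / A0) • E0 + (1 / B1) • E1‖ ≤ b2
  ha0 : ‖(1 / B1) • E1 + (1 / A2) • E2‖ ≤ a0
  ha1 : ‖(1 / B2) • E2 + (1 / A0) • E0‖ ≤ a1
  ha2 : ‖(1 / B0) • E0 + (1 / A1) • E1‖ ≤ a2
  hu0 : 0 < A0 * A2 + B0 * B1 - A0 * B0 →
    a0 ≤ ((B0 + B1 - A2) * A0 / (A0 * A2 + B0 * B1 - A0 * B0)) * ‖(1 / A0) • E0 + (1 / B1) • E1‖
      + ((A0 + A2 - B1) * B0 / (A0 * A2 + B0 * B1 - A0 * B0)) * ‖(1 / A2) • E2 + (1 / B0) • E0‖
  hu1 : 0 < A1 * A0 + B1 * B2 - A1 * B1 →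
    a1 ≤ ((B1 + B2 - A0) * A1 / (A1 * A0 + B1 * B2 - A1 * B1)) * ‖(1 / A1) • E1 + (1 / B2) • E2‖
      + ((A1 + A0 - B2) * B1 / (A1 * A0 + B1 * B2 - A1 * B1)) * ‖(1 / A0) • E0 + (1 / B1) • E1‖
  hu2 : 0 < A2 * A1 + B2 * B0 - A2 * B2 →
    a2 ≤ ((B2 + B0 - A1) * A2 / (A2 * A1 + B2 * B0 - A2 * B2)) * ‖(1 / A2) • E2 + (1 / B0) • E0‖
      + ((A2 + A1 - B0) * B2 / (A2 * A1 + B2 * B0 - A2 * B2)) * ‖(1 / A1) • E1 + (1 / B2) • E2‖
  k0 : k ≤ a0 - b0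
  k1 : k ≤ a1 - b1
  k2 : k ≤ a2 - b2
  kb : b0 + b1 + b2 ≤ gd * k
  m0 : gd * (a0 + b1 + b2) ≤ k
  m1 : gd * (a1 + b2 + b0) ≤ k
  m2 : gd * (a2 + b0 + b1) ≤ k

namespace Hex

variable {E : Type*} [NormedAddCommGroup E] [NormedSpace ℝ E] (H : Hex E)

/-- cyclic rotation -/
def rot : Hex E where
  E0 := H.E1
  E1 := H.E2
  E2 := H.E0
  A0 := H.A1
  A1 := H.A2
  A2 := H.A0
  B0 := H.B1
  B1 := H.B2
  B2 := H.B0
  a0 := H.a1
  a1 := H.a2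
  a2 := H.a0
  b0 := H.b1
  b1 := H.b2
  b2 := H.b0
  k := H.k
  hE := by rw [← H.hE]; abel
  hli := by
    intro x y h
    have e : H.E0 = -(H.E1 + H.E2) := by
      have := H.hE
      rw [eq_neg_iff_add_eq_zero, ← this]; abel
    rw [e] at h
    have h2 : (-y) • H.E1 + (x - y) • H.E2 = 0 := by rw [← h]; module
    obtain ⟨h3, h4⟩ := H.hli _ _ h2
    constructor <;> linarith
  hA0 := H.hA1
  hA1 := H.hA2
  hA2 := H.hA0
  hB0 := H.hB1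
  hB1 := H.hB2
  hB2 := H.hB0
  hk := H.hk
  cB0 := by have := H.cB1; linarith
  cB1 := by have := H.cB2; linarith
  cB2 := by have := H.cB0; linarith
  cA0 := by have := H.cA1; linarith
  cA1 := by have := H.cA2; linarith
  cA2 := by have := H.cA0; linarith
  hb0 := H.hb1
  hb1 := H.hb2
  hb2 := H.hb0
  ha0 := H.ha1
  ha1 := H.ha2
  ha2 := H.ha0
  hu0 := H.hu1
  hu1 := H.hu2
  hu2 := H.hu0
  k0 := H.k1
  k1 := H.k2
  k2 := H.k0
  kb := by have := H.kb; linarith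
  m0 := by have := H.m1; linarith
  m1 := by have := H.m2; linarith
  m2 := by have := H.m0; linarith

/-- reflection -/
def refl : Hex E where
  E0 := -H.E0
  E1 := -H.E2
  E2 := -H.E1
  A0 := H.B0
  A1 := H.B2
  A2 := H.B1
  B0 := H.A0
  B1 := H.A2
  B2 := H.A1
  a0 := H.a0
  a1 := H.a2
  a2 := H.a1
  b0 := H.b0
  b1 := H.b2
  b2 := H.b1
  k := H.k
  hE := by
    have := H.hE
    have h : -H.E0 + -H.E2 + -H.E1 = -(H.E0 + H.E1 + H.E2) := by abel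
    rw [h, this, neg_zero]
  hli := by
    intro x y h
    have h2 : (-y) • H.E1 + (-x) • H.E2 = 0 := by rw [← h]; module
    obtain ⟨h3, h4⟩ := H.hli _ _ h2
    constructor <;> linarith
  hA0 := H.hB0
  hA1 := H.hB2
  hA2 := H.hB1
  hB0 := H.hA0
  hB1 := H.hA2
  hB2 := H.hA1
  hk := H.hk
  cB0 := by have := H.cA0; linarith
  cB1 := by have := H.cA2; linarith
  cB2 := by have := H.cA1; linarith
  cA0 := by have := H.cB0; linarith
  cA1 := by have := H.cB2; linarith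
  cA2 := by have := H.cB1; linarith
  hb0 := by
    rw [← norm_neg]
    refine le_of_eq_of_le ?_ H.hb0
    congr 1
    module
  hb1 := by
    rw [← norm_neg]
    refine le_of_eq_of_le ?_ H.hb2
    congr 1
    module
  hb2 := by
    rw [← norm_neg]
    refine le_of_eq_of_le ?_ H.hb1
    congr 1
    module
  ha0 := by
    rw [← norm_neg]
    refine le_of_eq_of_le ?_ H.ha0
    congr 1
    module
  ha1 := by
    rw [← norm_neg]
    refine le_of_eq_of_le ?_ H.ha2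
    congr 1
    module
  ha2 := by
    rw [← norm_neg]
    refine le_of_eq_of_le ?_ H.ha1
    congr 1
    module
  hu0 := by
    intro h
    have h1 := H.hu0 (by linarith)
    have e1 : ‖(1 / H.B0) • -H.E0 + (1 / H.A2) • -H.E2‖ = ‖(1 / H.A2) • H.E2 + (1 / H.B0) • H.E0‖ := by
      rw [← norm_neg]; congr 1; module
    have e2 : ‖(1 / H.B1) • -H.E1 + (1 / H.A0) • -H.E0‖ = ‖(1 / H.A0) • H.E0 + (1 / H.B1) • H.E1‖ := by
      rw [← norm_neg]; congr 1; module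
    rw [e1, e2]
    have e3 : H.B0 * H.B1 + H.A0 * H.A2 - H.B0 * H.A0 = H.A0 * H.A2 + H.B0 * H.B1 - H.A0 * H.B0 := by
      ring
    rw [e3]
    have e4 : H.B0 + H.B1 - H.A2 = H.B0 + H.B1 - H.A2 := rfl
    linarith
  hu1 := by
    intro h
    have h1 := H.hu2 (by linarith)
    have e1 : ‖(1 / H.B2) • -H.E2 + (1 / H.A1) • -H.E1‖ = ‖(1 / H.A1) • H.E1 + (1 / H.B2) • H.E2‖ := by
      rw [← norm_neg]; congr 1; module
    have e2 : ‖(1 / H.B0) • -H.E0 + (1 / H.A2) • -H.E2‖ = ‖(1 / H.A2) • H.E2 + (1 / H.B0) • H.E0‖ := by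
      rw [← norm_neg]; congr 1; module
    rw [e1, e2]
    have e3 : H.B2 * H.B0 + H.A2 * H.A1 - H.B2 * H.A2 = H.A2 * H.A1 + H.B2 * H.B0 - H.A2 * H.B2 := by
      ring
    rw [e3]
    linarith
  hu2 := by
    intro h
    have h1 := H.hu1 (by linarith)
    have e1 : ‖(1 / H.B1) • -H.E1 + (1 / H.A0) • -H.E0‖ = ‖(1 / H.A0) • H.E0 + (1 / H.B1) • H.E1‖ := by
      rw [← norm_neg]; congr 1; module
    have e2 : ‖(1 / H.B2) • -H.E2 + (1 / H.A1) • -H.E1‖ = ‖(1 / H.A1) • H.E1 + (1 / H.B2) • H.E2‖ := by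
      rw [← norm_neg]; congr 1; module
    rw [e1, e2]
    have e3 : H.B1 * H.B2 + H.A1 * H.A0 - H.B1 * H.A1 = H.A1 * H.A0 + H.B1 * H.B2 - H.A1 * H.B1 := by
      ring
    rw [e3]
    linarith
  k0 := H.k0
  k1 := H.k2
  k2 := H.k1
  kb := by have := H.kb; linarith
  m0 := by have := H.m0; linarith
  m1 := by have := H.m2; linarith
  m2 := by have := H.m1; linarith

lemma e0 : H.E0 = -(H.E1 + H.E2) := by
  have := H.hE
  rw [eq_neg_iff_add_eq_zero, ← this]; abel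

/-- the chord of the line 0 is at most the arc on the `a0` side -/
lemma chord0 : gd * ((1 / H.A0 + 1 / H.B0) * ‖H.E0‖) ≤ H.k := by
  refine le_trans (mul_le_mul_of_nonneg_left ?_ gd_pos.le) H.m0
  have hA := H.hA0
  have hB := H.hB0
  have h1 : ‖(1 / H.A0 + 1 / H.B0) • H.E0‖ = (1 / H.A0 + 1 / H.B0) * ‖H.E0‖ := by
    rw [norm_smul, Real.norm_of_nonneg (by positivity)]
  rw [← h1]
  have h2 : (1 / H.A0 + 1 / H.B0) • H.E0 = ((1 / H.A0) • H.E0 + (1 / H.B1) • H.E1)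
      - ((1 / H.B1) • H.E1 + (1 / H.A2) • H.E2) + ((1 / H.A2) • H.E2 + (1 / H.B0) • H.E0) := by
    module
  rw [h2]
  have h3 := norm_add_le (((1 / H.A0) • H.E0 + (1 / H.B1) • H.E1)
      - ((1 / H.B1) • H.E1 + (1 / H.A2) • H.E2)) ((1 / H.A2) • H.E2 + (1 / H.B0) • H.E0)
  have h4 := norm_sub_le ((1 / H.A0) • H.E0 + (1 / H.B1) • H.E1)
    ((1 / H.B1) • H.E1 + (1 / H.A2) • H.E2)
  have := H.hb1
  have := H.hb2
  have := H.ha0
  linarith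

end Hex

end Pool.MP_653fdd_gt.Lib
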