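import Pool.Agent.Lib.MP_653fdd_gt.Hex

set_option autoImplicit false

/-! The case where two of the outer lines do not meet. -/

namespace Pool.MP_653fdd_gt.Lib

lemma improper_coef {ξ Y σ ω : ℝ} (hξ0 : 0 ≤ ξ) (hξ1 : ξ < 1) (hY : 0 ≤ Y) (hσ : 1 / 2 ≤ σ)
    (R1 : σ * (1 + Y) = (1 - ω) * (1 - ξ)) : ω * (1 + ξ + Y) ≤ 1 - σ := by
  have h1 : 0 < 1 - ξ := by linarith
  have h2 : 0 ≤ (1 - ξ) * (1 - σ - ω * (1 + ξ + Y)) := by
    have e1 : ω * (1 - ξ) = (1 - ξ) - σ * (1 + Y) := by linarith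
    have e2 : (1 - ξ) * (1 - σ - ω * (1 + ξ + Y)) =
        (1 - ξ) * (1 - σ) - ((1 - ξ) - σ * (1 + Y)) * (1 + ξ + Y) := by
      rw [← e1]; ring
    rw [e2]
    have h3 : 0 ≤ (1 + Y) ^ 2 + (1 + Y) * ξ - 1 + ξ := by nlinarith [mul_nonneg hY hξ0, sq_nonneg Y]
    nlinarith [mul_nonneg hY hξ0, sq_nonneg Y, sq_nonneg ξ,
      mul_nonneg (by linarith : 0 ≤ σ - 1 / 2) h3]
  have h4 := nonneg_of_mul_nonneg_right h2 h1
  linarith

lemma improper_ineq {ξ Y σ ω c2 c3 s0 y1 β l κ : ℝ} (hξ0 : 0 ≤ ξ) (hξ1 : ξ < 1) (hY : 0 ≤ Y)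
    (hσ : 1 / 2 ≤ σ) (hω0 : 0 < ω) (hω1 : ω < 1) (hc2 : 0 ≤ c2) (hc3 : 0 ≤ c3)
    (hβ : 0 ≤ β)
    (R1 : σ * (1 + Y) = (1 - ω) * (1 - ξ)) (R2 : ω * (c2 + 1) = (1 - σ) * c2 + σ * c3)
    (N1 : (1 + Y) * s0 ≤ l + |c2 - c3| * β) (N2 : (1 + Y) * y1 ≤ Y * l + c3 * β + Y * (c2 * β))
    (hD : y1 ≤ c3 * β + Y * s0) (hd : κ ≤ ξ * s0 + y1 - β) (hl : gd * l ≤ κ) (hκ : 0 < κ) :
    False := by
  have hg := gd_gt
  have h1 := improper_coef hξ0 hξ1 hY hσ R1
  have h2 : ω * (1 + ξ) ≤ 1 - σ := by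
    have := mul_nonneg hω0.le hY
    nlinarith
  have h3 : ω * ((1 + ξ) * (c2 + c3) + Y * c2) ≤ (1 - σ) * c2 + σ * c3 := by
    have i1 := mul_le_mul_of_nonneg_right h1 hc2
    have i2 := mul_le_mul_of_nonneg_right h2 hc3
    have i3 : (1 - σ) * c3 ≤ σ * c3 := mul_le_mul_of_nonneg_right (by linarith) hc3
    nlinarith
  have h4 : c3 + Y * c2 + ξ * (c2 + c3) ≤ 1 := by
    have : ω * (c3 + Y * c2 + ξ * (c2 + c3)) ≤ ω * 1 := by nlinarith
    exact le_of_mul_le_mul_left this hω0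
  have h5 : c3 * β + Y * (c2 * β) + ξ * (c2 * β + c3 * β) ≤ β := by
    have := mul_le_mul_of_nonneg_right h4 hβ
    nlinarith
  set y2 := c2 * β with hy2
  set w := c3 * β with hw
  have hy2n : 0 ≤ y2 := mul_nonneg hc2 hβ
  have hwn : 0 ≤ w := mul_nonneg hc3 hβ
  have hd2 : κ ≤ ξ * (s0 - y2 - w) + (y1 - w) - Y * y2 := by nlinarith
  have key : (1 + Y) * κ ≤ (ξ + Y) * l := by
    have hd3 := mul_le_mul_of_nonneg_left hd2 (by linarith : 0 ≤ 1 + Y)
    have hξY := mul_nonneg hξ0 hY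
    have p1 := mul_nonneg hξ0 hwn
    have p2 := mul_nonneg hY hwn
    have p3 := mul_nonneg hξ0 hy2n
    have p4 := mul_nonneg hY hy2n
    have p5 := mul_nonneg hξY hwn
    have p6 := mul_nonneg hξY hy2n
    have p7 := mul_nonneg hY p4
    have p8 := mul_nonneg hY p2
    rcases le_total c3 c2 with h | h
    · rw [abs_of_nonneg (by linarith)] at N1
      have N1' : (1 + Y) * s0 ≤ l + (y2 - w) := by rw [hy2, hw]; linarith
      have i1 := mul_le_mul_of_nonneg_left N1' (by linarith : 0 ≤ ξ + Y)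
      have i2 := mul_le_mul_of_nonneg_left hD (by linarith : 0 ≤ 1 + Y)
      nlinarith
    · rw [abs_of_nonpos (by linarith)] at N1
      have N1' : (1 + Y) * s0 ≤ l + (w - y2) := by rw [hy2, hw]; linarith
      have i1 := mul_le_mul_of_nonneg_left N1' (mul_nonneg hξ0 (by linarith : 0 ≤ 1 + Y))
      have i2 := mul_le_mul_of_nonneg_left N2 (by linarith : 0 ≤ 1 - ξ)
      have i3 := mul_le_mul_of_nonneg_left hD (mul_nonneg hξ0 (by linarith : 0 ≤ 1 + Y))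
      have p9 : 0 ≤ (1 - ξ) * (Y * w) := mul_nonneg (by linarith) p2
      nlinarith
  have h6 : (1 + Y) / 2 ≤ 1 - ξ := by
    have : σ * (1 + Y) ≤ 1 - ξ := by
      rw [R1]
      have : 0 ≤ ω * (1 - ξ) := mul_nonneg hω0.le (by linarith)
      linarith
    nlinarith
  have hl0 : 0 < l := by
    by_contra hneg
    have : (ξ + Y) * l ≤ 0 := mul_nonpos_of_nonneg_of_nonpos (by linarith) (by linarith)
    have : 0 < (1 + Y) * κ := mul_pos (by linarith) hκ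
    linarith
  have h7 : (ξ + Y) * l ≤ ((1 + Y) / 2) * l := mul_le_mul_of_nonneg_right (by linarith) hl0.le
  have h8 : κ ≤ l / 2 := by
    have : (1 + Y) * κ ≤ (1 + Y) * (l / 2) := by linarith
    exact le_of_mul_le_mul_left this (by linarith)
  nlinarith

namespace Hex

variable {E : Type*} [NormedAddCommGroup E] [NormedSpace ℝ E] (H : Hex E)

theorem improper1 (hl : H.A0 * H.A2 + H.B0 * H.B1 - H.A0 * H.B0 ≤ 0) (hAB : H.B0 ≤ H.A0) :
    False := by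
  have hA0 := H.hA0
  have hA1 := H.hA1
  have hA2 := H.hA2
  have hB0 := H.hB0
  have hB1 := H.hB1
  have hB2 := H.hB2
  have hk0 := H.hk
  have hE := H.e0
  have hchord := H.chord0
  have cB2 := H.cB2
  have cA0 := H.cA0
  have cA1 := H.cA1
  have hu1 := H.hu1
  have hk1 := H.k1
  have hb1 := H.hb1
  generalize H.A0 = A0 at *
  generalize H.A1 = A1 at *
  generalize H.A2 = A2 at *
  generalize H.B0 = B0 at *
  generalize H.B1 = B1 at *
  generalize H.B2 = B2 at *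
  generalize H.k = k at *
  generalize H.a1 = a1 at *
  generalize H.b1 = b1 at *
  generalize H.E0 = E0 at *
  generalize H.E1 = E1 at *
  generalize H.E2 = E2 at *
  have hAB2 : A2 < B0 := by
    by_contra h
    have : A0 * B0 ≤ A0 * A2 := mul_le_mul_of_nonneg_left (by linarith) hA0.le
    have := mul_pos hB0 hB1
    linarith
  have hBA1 : B1 < A0 := by
    by_contra h
    have : B0 * A0 ≤ B0 * B1 := mul_le_mul_of_nonneg_left (by linarith) hB0.le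
    have := mul_pos hA0 hA2
    linarith
  obtain ⟨l0, hl0⟩ : ∃ x, x = A0 * A2 + B0 * B1 - A0 * B0 := ⟨_, rfl⟩
  obtain ⟨l1, hl1⟩ : ∃ x, x = A1 * A0 + B1 * B2 - A1 * B1 := ⟨_, rfl⟩
  obtain ⟨l2, hl2⟩ : ∃ x, x = A2 * A1 + B2 * B0 - A2 * B2 := ⟨_, rfl⟩
  have pl1 : 0 < l1 := by
    rw [hl1]
    have := mul_pos hA1 (sub_pos.2 hBA1)
    have := mul_pos hB1 hB2
    nlinarith
  have pl2 : 0 < l2 := by
    rw [hl2]
    have := mul_pos hB2 (sub_pos.2 hAB2)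
    have := mul_pos hA2 hA1
    nlinarith
  obtain ⟨Λ, hΛ⟩ : ∃ x, x = l0 + l1 + l2 := ⟨_, rfl⟩
  have hΛB : B2 * Λ = (A2 + B2) * l1 + (B1 + B2 - A0) * l2 := by
    rw [hΛ, hl0, hl1, hl2]; ring
  have pΛ : 0 < Λ := by
    have h1 : 0 < B2 * Λ := by
      rw [hΛB]
      have := mul_pos (by linarith : 0 < A2 + B2) pl1
      have := mul_nonneg (by linarith : 0 ≤ B1 + B2 - A0) pl2.le
      linarith
    exact pos_of_mul_pos_right (by linarith) hB2.le
  have hu := hu1 (by rw [← hl1]; exact pl1)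
  rw [← hl1] at hu
  -- parameters
  obtain ⟨δ0, hδ0⟩ : ∃ x, x = ‖(1 / A1) • E1 + (1 / B2) • E2‖ := ⟨_, rfl⟩
  obtain ⟨δ1, hδ1⟩ : ∃ x, x = ‖(1 / A2) • E2 + (1 / B0) • E0‖ := ⟨_, rfl⟩
  obtain ⟨δ2, hδ2⟩ : ∃ x, x = ‖(1 / A0) • E0 + (1 / B1) • E1‖ := ⟨_, rfl⟩
  have hδ0n : 0 ≤ δ0 := by rw [hδ0]; exact norm_nonneg _
  have hδ1n : 0 ≤ δ1 := by rw [hδ1]; exact norm_nonneg _
  have hδ2n : 0 ≤ δ2 := by rw [hδ2]; exact norm_nonneg _
  rw [← hδ0, ← hδ2] at hu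
  rw [← hδ1] at hb1
  set ξ := (B1 + B2 - A0) * l2 / (Λ * B2) with hξ
  set Y := -(A0 + A1 - B2) * l0 / (Λ * A0) with hY
  set c2 := (B0 + B2 - A1) * A2 / l2 with hc2
  set c3 := (A0 + A1 - B2) * A2 * B0 / (A0 * l2) with hc3
  set s0 := Λ * A1 * B2 / (l1 * l2) * δ0 with hs0
  set y1 := (A1 + A0 - B2) * B1 / l1 * δ2 with hy1
  have hl0n : l0 ≤ 0 := by rw [hl0]; exact hl
  have ne1 := pl1.ne'
  have ne2 := pl2.ne'
  have neΛ := pΛ.ne'
  have hξ0 : 0 ≤ ξ := by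
    rw [hξ]; apply div_nonneg (mul_nonneg (by linarith) pl2.le) (by positivity)
  have hξ1 : ξ < 1 := by
    rw [hξ, div_lt_one (by positivity), mul_comm Λ B2, hΛB]
    have := mul_pos (by linarith : 0 < A2 + B2) pl1
    linarith
  have hY0 : 0 ≤ Y := by
    rw [hY]; apply div_nonneg _ (by positivity)
    have := mul_nonneg (by linarith : 0 ≤ A0 + A1 - B2) (neg_nonneg.2 hl0n)
    linarith
  -- norm identities
  have n1 : (1 + Y) * s0 ≤ (1 / A0 + 1 / B0) * ‖E0‖ + |c2 - c3| * δ1 := by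
    have e1 : (1 + Y) * s0 = ‖((1 + Y) * (Λ * A1 * B2 / (l1 * l2))) • ((1 / A1) • E1 + (1 / B2) • E2)‖ := by
      rw [norm_smul, Real.norm_of_nonneg (by positivity), ← hδ0, hs0]; ring
    have e2 : ((1 + Y) * (Λ * A1 * B2 / (l1 * l2))) • ((1 / A1) • E1 + (1 / B2) • E2)
        = (-(1 / A0 + 1 / B0)) • E0 - (c2 - c3) • ((1 / A2) • E2 + (1 / B0) • E0) := by
      rw [hE, hY, hc2, hc3]
      match_scalars
      · field_simp
        rw [hΛ, hl0, hl1, hl2]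
        ring
      · field_simp
        rw [hΛ, hl0, hl1, hl2]
        ring
    rw [e1, e2]
    refine (norm_sub_le _ _).trans ?_
    rw [norm_smul, norm_smul, norm_neg, Real.norm_of_nonneg (by positivity), Real.norm_eq_abs, ← hδ1]
  have hc2n : 0 ≤ c2 := by
    rw [hc2]; exact div_nonneg (mul_nonneg (by linarith) hA2.le) pl2.le
  have hc3n : 0 ≤ c3 := by
    rw [hc3]
    exact div_nonneg (mul_nonneg (mul_nonneg (by linarith) hA2.le) hB0.le) (by positivity)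
  have hcc : 0 ≤ (A1 + A0 - B2) * B1 / l1 :=
    div_nonneg (mul_nonneg (by linarith) hB1.le) pl1.le
  have n2 : (1 + Y) * y1 ≤ Y * ((1 / A0 + 1 / B0) * ‖E0‖) + c3 * δ1 + Y * (c2 * δ1) := by
    have e1 : (1 + Y) * y1 =
        ‖((1 + Y) * ((A1 + A0 - B2) * B1 / l1)) • ((1 / A0) • E0 + (1 / B1) • E1)‖ := by
      rw [norm_smul, Real.norm_of_nonneg (mul_nonneg (by linarith) hcc), ← hδ2, hy1]; ring
    have e2 : ((1 + Y) * ((A1 + A0 - B2) * B1 / l1)) • ((1 / A0) • E0 + (1 / B1) • E1)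
        = -((Y * (1 / A0 + 1 / B0)) • E0 + (c3 + Y * c2) • ((1 / A2) • E2 + (1 / B0) • E0)) := by
      rw [hE, hY, hc2, hc3]
      match_scalars
      · field_simp
        rw [hΛ, hl0, hl1, hl2]
        ring
      · field_simp
        rw [hΛ, hl0, hl1, hl2]
        ring
    rw [e1, e2, norm_neg]
    refine (norm_add_le _ _).trans ?_
    rw [norm_smul, norm_smul, Real.norm_of_nonneg (by positivity),
      Real.norm_of_nonneg (by positivity), ← hδ1]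
    apply le_of_eq; ring
  have n3 : y1 ≤ c3 * δ1 + Y * s0 := by
    have e1 : y1 =
        ‖((A1 + A0 - B2) * B1 / l1) • ((1 / A0) • E0 + (1 / B1) • E1)‖ := by
      rw [norm_smul, Real.norm_of_nonneg hcc, ← hδ2, hy1]
    have e2 : ((A1 + A0 - B2) * B1 / l1) • ((1 / A0) • E0 + (1 / B1) • E1)
        = -(c3 • ((1 / A2) • E2 + (1 / B0) • E0)) +
          (Y * (Λ * A1 * B2 / (l1 * l2))) • ((1 / A1) • E1 + (1 / B2) • E2) := by
      rw [hE, hY, hc3]
      match_scalars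
      · field_simp
        rw [hl0, hl1, hl2]
        ring
      · field_simp
        rw [hl0, hl1, hl2]
        ring
    rw [e1, e2]
    refine (norm_add_le _ _).trans ?_
    rw [norm_neg, norm_smul, norm_smul, Real.norm_of_nonneg hc3n,
      Real.norm_of_nonneg (by positivity), ← hδ1, ← hδ0, hs0]
    apply le_of_eq; ring
  refine improper_ineq (ξ := ξ) (Y := Y) (σ := A0 / (A0 + B0)) (ω := A2 / (A2 + B2)) (c2 := c2)
    (c3 := c3) (s0 := s0) (y1 := y1) (β := δ1) (l := (1 / A0 + 1 / B0) * ‖E0‖) (κ := k)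
    hξ0 hξ1 hY0 ?_ (by positivity) ?_ hc2n hc3n hδ1n ?_ ?_ n1 n2 n3 ?_ hchord hk0
  · rw [div_le_div_iff₀ (by norm_num) (by linarith)]; linarith
  · rw [div_lt_one (by linarith)]; linarith
  · rw [hξ, hY]
    field_simp
    rw [hΛ, hl0, hl1, hl2]
    ring
  · rw [hc2, hc3]
    field_simp
    rw [hl2]
    ring
  · have e1 : ξ * s0 = (B1 + B2 - A0) * A1 / l1 * δ0 := by
      rw [hξ, hs0]; field_simp
    rw [e1]
    linarith

end Hex

end Pool.MP_653fdd_gt.Lib
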