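import Pool.Agent.Lib.MP_653fdd_gt.Arc
import Pool.Agent.Lib.MP_653fdd_gt.Final

set_option autoImplicit false

/-! The case of three concurrent lines. -/

open MeasureTheory Set Metric
open scoped ENNReal NNReal Topology Pointwise

namespace Pool.MP_653fdd_gt.Lib

/-- length measure on the boundary -/
noncomputable def bd (K : Set P) : Measure P := (μH[1] : Measure P).restrict (frontier K)

lemma bd_apply {K S : Set P} (hS : MeasurableSet S) : bd K S = μH[1] (frontier K ∩ S) := by
  rw [bd, Measure.restrict_apply hS, inter_comm]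

lemma bd_univ {K : Set P} : bd K univ = μH[1] (frontier K) := by
  rw [bd_apply MeasurableSet.univ, inter_univ]

lemma isClosed_sec (U W : P) : IsClosed (sec U W) :=
  (isClosed_le continuous_const (continuous_cr_right W)).inter
    (isClosed_le continuous_const (continuous_cr_left U))

lemma mem_line {y w : P} (hw : w ≠ 0) (h : cr y w = 0) : ∃ c : ℝ, y = c • w := by
  by_cases h0 : w 0 = 0
  · have h1 : w 1 ≠ 0 := by
      intro h1
      apply hw
      ext i
      fin_cases i
      · simpa using h0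
      · simpa using h1
    refine ⟨y 1 / w 1, ?_⟩
    have h2 : y 0 = 0 := by
      simp only [cr, h0, mul_zero, sub_zero] at h
      exact (mul_eq_zero.1 h).resolve_right h1
    ext i
    fin_cases i
    · simp [h0, h2]
    · simp [h1]
  · refine ⟨y 0 / w 0, ?_⟩
    have h2 : y 1 = y 0 / w 0 * w 1 := by
      simp only [cr] at h
      field_simp
      linarith
    ext i
    fin_cases i
    · simp [h0]
    · simpa using h2

namespace Body

variable {K : Set P} (hB : Body K)
include hB

lemma bd_fin : bd K univ < ⊤ := by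
  rw [bd_univ]
  exact frontier_finite hB.conv hB.comp hB.int

lemma bd_lt_top (S : Set P) : bd K S < ⊤ := lt_of_le_of_lt (measure_mono (subset_univ S)) hB.bd_fin

lemma line_null {w : P} (hw : w ≠ 0) : bd K {y | cr y w = 0} = 0 := by
  have hm : MeasurableSet {y : P | cr y w = 0} :=
    (isClosed_eq (continuous_cr_right w) continuous_const).measurableSet
  rw [bd_apply hm]
  have : NullSingletonClass (μH[1] : Measure P) :=
    Measure.nullSingletonClass_hausdorff P one_pos
  have hsub : frontier K ∩ {y : P | cr y w = 0} ⊆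
      {(gauge K w)⁻¹ • w, (gauge K (-w))⁻¹ • (-w)} := by
    rintro y ⟨hy, hy2⟩
    obtain ⟨c, rfl⟩ := mem_line hw hy2
    have h1 := hB.N_eq_one.2 hy
    rcases lt_trichotomy c 0 with h | h | h
    · right
      have e : c • w = (-c) • (-w) := by module
      rw [e, N_smul (by linarith)] at h1
      have hp := hB.N_pos (neg_ne_zero.2 hw)
      have : -c = (gauge K (-w))⁻¹ := by
        field_simp
        linarith
      rw [mem_singleton_iff, e, this]
    · exfalso
      rw [h, zero_smul, gauge_zero] at h1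
      exact zero_ne_one h1
    · left
      rw [N_smul h.le] at h1
      have hp := hB.N_pos hw
      have : c = (gauge K w)⁻¹ := by
        field_simp
        linarith
      rw [this]
  exact measure_mono_null hsub ((Set.toFinite _).measure_zero _)

/-- chord below arc -/
lemma chord {U W : P} (hD : 0 < cr U W) :
    ‖(gauge K U)⁻¹ • U - (gauge K W)⁻¹ • W‖ ≤ (bd K (sec U W)).toReal := by
  have h := hB.arc_lower hD
  rw [← bd_apply (isClosed_sec U W).measurableSet] at h
  have h2 := ENNReal.toReal_mono (hB.bd_lt_top _).ne h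
  rwa [edist_dist, ENNReal.toReal_ofReal dist_nonneg, dist_eq_norm] at h2

lemma upper {E0 E1 E2 : P} (hE : E0 + E1 + E2 = 0) (hD : 0 < cr E1 E2)
    (hdet : 0 < gauge K E0 * gauge K E2 + gauge K (-E0) * gauge K (-E1)
      - gauge K E0 * gauge K (-E0)) :
    (bd K (sec E2 (-E1))).toReal ≤
      ((gauge K (-E0) + gauge K (-E1) - gauge K E2) * gauge K E0 /
        (gauge K E0 * gauge K E2 + gauge K (-E0) * gauge K (-E1) - gauge K E0 * gauge K (-E0)))
        * ‖(1 / gauge K E0) • E0 + (1 / gauge K (-E1)) • E1‖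
      + ((gauge K E0 + gauge K E2 - gauge K (-E1)) * gauge K (-E0) /
        (gauge K E0 * gauge K E2 + gauge K (-E0) * gauge K (-E1) - gauge K E0 * gauge K (-E0)))
        * ‖(1 / gauge K E2) • E2 + (1 / gauge K (-E0)) • E0‖ := by
  have hD' : 0 < cr E2 (-E1) := by
    rw [cr_neg_right, cr_comm, neg_neg]; exact hD
  have hE1 : E1 ≠ 0 := by rintro rfl; simp [cr] at hD
  have hE2 : E2 ≠ 0 := by rintro rfl; simp [cr] at hD
  have hE0 : E0 ≠ 0 := by
    rintro rfl
    rw [zero_add] at hE
    have : E1 = -E2 := eq_neg_of_add_eq_zero_left hE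
    rw [this, cr_neg_left, cr_self] at hD
    simp at hD
  have e0 : E0 = -(E1 + E2) := by
    rw [eq_neg_iff_add_eq_zero, ← hE]; abel
  have pA0 := hB.N_pos hE0
  have pA2 := hB.N_pos hE2
  have pB0 := hB.N_pos (neg_ne_zero.2 hE0)
  have pB1 := hB.N_pos (neg_ne_zero.2 hE1)
  have c1 : gauge K E2 ≤ gauge K (-E0) + gauge K (-E1) := by
    have := hB.N_add (-E0) (-E1)
    have e : -E0 + -E1 = E2 := by rw [e0]; abel
    rwa [e] at this
  have c2 : gauge K (-E1) ≤ gauge K E0 + gauge K E2 := by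
    have := hB.N_add E0 E2
    have e : E0 + E2 = -E1 := by rw [e0]; abel
    rwa [e] at this
  have hf : ∀ s t : ℝ, 0 ≤ s → 0 ≤ t → gauge K E2 * s + (gauge K E2 - gauge K (-E0)) * t ≤
      gauge K (s • E2 + t • (-E1)) := by
    intro s t hs ht
    have h1 := hB.N_add (s • E2 + t • (-E1)) (t • (-E0))
    have e : (s • E2 + t • (-E1)) + t • (-E0) = (s + t) • E2 := by rw [e0]; module
    rw [e, N_smul (by linarith), N_smul ht] at h1
    linarith
  have hh : ∀ s t : ℝ, 0 ≤ s → 0 ≤ t → (gauge K (-E1) - gauge K E0) * s + gauge K (-E1) * t ≤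
      gauge K (s • E2 + t • (-E1)) := by
    intro s t hs ht
    have h1 := hB.N_add (s • E2 + t • (-E1)) (s • E0)
    have e : (s • E2 + t • (-E1)) + s • E0 = (s + t) • (-E1) := by rw [e0]; module
    rw [e, N_smul (by linarith), N_smul hs] at h1
    linarith
  have edet : gauge K E2 * gauge K (-E1) - (gauge K E2 - gauge K (-E0)) *
      (gauge K (-E1) - gauge K E0) = gauge K E0 * gauge K E2 + gauge K (-E0) * gauge K (-E1)
      - gauge K E0 * gauge K (-E0) := by ring
  have h := hB.arc_upper (a := gauge K E2) (b := gauge K (-E1)) (a' := gauge K E2 - gauge K (-E0))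
    (b' := gauge K (-E1) - gauge K E0) hD' rfl rfl (by linarith) (by linarith)
    (by rw [edet]; exact hdet) hf hh
  rw [edet] at h
  rw [← bd_apply (isClosed_sec _ _).measurableSet] at h
  have hfin : ∀ x y z : P, edist x y + edist y z ≠ ⊤ := fun x y z =>
    ENNReal.add_ne_top.2 ⟨edist_ne_top _ _, edist_ne_top _ _⟩
  have h2 := ENNReal.toReal_mono (hfin _ _ _) h
  rw [ENNReal.toReal_add (edist_ne_top _ _) (edist_ne_top _ _), edist_dist, edist_dist,
    ENNReal.toReal_ofReal dist_nonneg, ENNReal.toReal_ofReal dist_nonneg, dist_eq_norm,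
    dist_eq_norm] at h2
  refine h2.trans (le_of_eq ?_)
  generalize gauge K E0 = A0 at *
  generalize gauge K E2 = A2 at *
  generalize gauge K (-E0) = B0 at *
  generalize gauge K (-E1) = B1 at *
  obtain ⟨lam, hlam⟩ : ∃ lam, lam = A0 * A2 + B0 * B1 - A0 * B0 := ⟨_, rfl⟩
  rw [← hlam] at hdet ⊢
  rw [add_comm]
  congr 1
  · have e : ((B1 - (A2 - B0)) / lam) • E2 +
        ((A2 - (B1 - A0)) / lam) • -E1 - B1⁻¹ • -E1 =
        (-((B0 + B1 - A2) * A0 / lam)) •
          ((1 / A0) • E0 + (1 / B1) • E1) := by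
      have q1 : (B1 - (A2 - B0)) / lam =
        ((B0 + B1 - A2) * A0 / lam) * (1 / A0) := by
        field_simp; ring
      have q2 : B1⁻¹ - (A2 - (B1 - A0)) / lam =
        ((B0 + B1 - A2) * A0 / lam) * (1 / A0)
          - ((B0 + B1 - A2) * A0 / lam) * (1 / B1) := by
        field_simp; rw [hlam]; ring
      have q3 : ((B1 - (A2 - B0)) / lam) • E2 +
        ((A2 - (B1 - A0)) / lam) • -E1 - B1⁻¹ • -E1 =
        ((B1 - (A2 - B0)) / lam) • E2 +
        (B1⁻¹ - (A2 - (B1 - A0)) / lam) • E1 := by module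
      rw [q3, q1, q2, e0]
      module
    rw [e, norm_smul, norm_neg, Real.norm_of_nonneg]
    apply div_nonneg _ hdet.le
    apply mul_nonneg _ pA0.le
    linarith
  · have e : A2⁻¹ • E2 - (((B1 - (A2 - B0)) / lam) • E2 +
        ((A2 - (B1 - A0)) / lam) • -E1) =
        (-((A0 + A2 - B1) * B0 / lam)) •
          ((1 / A2) • E2 + (1 / B0) • E0) := by
      have q1 : (A2 - (B1 - A0)) / lam =
        ((A0 + A2 - B1) * B0 / lam) * (1 / B0) := by
        field_simp; ring
      have q2 : A2⁻¹ - (B1 - (A2 - B0)) / lam =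
        ((A0 + A2 - B1) * B0 / lam) * (1 / B0)
          - ((A0 + A2 - B1) * B0 / lam) * (1 / A2) := by
        field_simp; rw [hlam]; ring
      have q3 : A2⁻¹ • E2 - (((B1 - (A2 - B0)) / lam) • E2 +
        ((A2 - (B1 - A0)) / lam) • -E1) =
        (A2⁻¹ - (B1 - (A2 - B0)) / lam) • E2 +
        ((A2 - (B1 - A0)) / lam) • E1 := by module
      rw [q3, q1, q2, e0]
      module
    rw [e, norm_smul, norm_neg, Real.norm_of_nonneg]
    apply div_nonneg _ hdet.le
    apply mul_nonneg _ pB0.le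
    linarith

/-- the three sectors inside a half plane -/
lemma half {E0 E1 E2 : P} (hE : E0 + E1 + E2 = 0) (hE0 : E0 ≠ 0) (hE1 : E1 ≠ 0) (hE2 : E2 ≠ 0) :
    bd K (sec E2 (-E1)) + bd K (sec (-E0) E2) + bd K (sec (-E1) E0) ≤
      bd K {y | 0 < cr y E0} := by
  have hg : ∀ y : P, cr y E0 + cr y E1 + cr y E2 = 0 := by
    intro y
    rw [← cr_add_right, ← cr_add_right, hE]; simp [cr]
  have hs : ∀ y : P, cr E2 y = - cr y E2 := fun y => cr_comm _ _
  have h1 : bd K (sec E2 (-E1)) + bd K (sec (-E0) E2) + bd K (sec (-E1) E0) =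
      bd K (sec E2 (-E1) ∪ sec (-E0) E2 ∪ sec (-E1) E0) := by
    rw [measure_union₀ (isClosed_sec _ _).measurableSet.nullMeasurableSet,
      measure_union₀ (isClosed_sec _ _).measurableSet.nullMeasurableSet]
    · refine measure_mono_null ?_ (hB.line_null hE2)
      rintro y ⟨⟨y1, y2⟩, ⟨y3, y4⟩⟩
      rw [mem_ofPred_eq]
      rw [hs] at y2
      linarith
    · refine measure_mono_null ?_ (measure_union_null (hB.line_null hE1) (hB.line_null hE0))
      rintro y ⟨(⟨y1, y2⟩ | ⟨y1, y2⟩), ⟨y3, y4⟩⟩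
      · left
        rw [mem_ofPred_eq]
        rw [cr_neg_right] at y1
        rw [cr_neg_left, cr_comm, neg_neg] at y4
        linarith
      · right
        rw [mem_ofPred_eq]
        rw [cr_neg_left, cr_comm, neg_neg] at y4
        have := hg y
        linarith
  rw [h1]
  have h2 : sec E2 (-E1) ∪ sec (-E0) E2 ∪ sec (-E1) E0 ⊆ {y | 0 < cr y E0} ∪ {y | cr y E0 = 0} := by
    intro y hy
    have h3 : 0 ≤ cr y E0 := by
      rcases hy with (⟨y1, y2⟩ | ⟨y1, y2⟩) | ⟨y1, y2⟩
      · rw [cr_neg_right] at y1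
        rw [hs] at y2
        have := hg y
        linarith
      · rw [cr_neg_left, cr_comm, neg_neg] at y2
        exact y2
      · exact y1
    rcases h3.lt_or_eq with h | h
    · left; exact h
    · right; exact h.symm
  refine (measure_mono h2).trans ((measure_union_le _ _).trans ?_)
  rw [hB.line_null hE0, add_zero]

omit hB in
/-- the six sectors cover the plane -/
lemma cover {E0 E1 E2 : P} (hE : E0 + E1 + E2 = 0) :
    bd K univ ≤ (bd K (sec E2 (-E1)) + bd K (sec E0 (-E2)) + bd K (sec E1 (-E0))) +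
      (bd K (sec (-E2) E1) + bd K (sec (-E0) E2) + bd K (sec (-E1) E0)) := by
  have h : (univ : Set P) ⊆ (sec E2 (-E1) ∪ sec E0 (-E2) ∪ sec E1 (-E0)) ∪
      (sec (-E2) E1 ∪ sec (-E0) E2 ∪ sec (-E1) E0) := by
    intro y _
    have hs : ∀ x : P, cr x y = - cr y x := fun x => cr_comm _ _
    have hn : ∀ x : P, cr (-x) y = cr y x := fun x => by rw [cr_neg_left, cr_comm, neg_neg]
    simp only [mem_union, sec, mem_ofPred_eq, cr_neg_right, hn, hs]
    have hg : cr y E0 + cr y E1 + cr y E2 = 0 := by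
      rw [← cr_add_right, ← cr_add_right, hE]; simp [cr]
    rcases le_total (cr y E0) 0 with h0 | h0 <;> rcases le_total (cr y E1) 0 with h1 | h1 <;>
      rcases le_total (cr y E2) 0 with h2 | h2
    · left; left; left; constructor <;> linarith
    · left; right; constructor <;> linarith
    · left; left; right; constructor <;> linarith
    · right; left; left; constructor <;> linarith
    · left; left; left; constructor <;> linarith
    · right; left; right; constructor <;> linarith
    · right; right; constructor <;> linarith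
    · right; left; left; constructor <;> linarith
  refine (measure_mono h).trans ((measure_union_le _ _).trans (add_le_add ?_ ?_))
  · exact (measure_union_le _ _).trans (add_le_add (measure_union_le _ _) le_rfl)
  · exact (measure_union_le _ _).trans (add_le_add (measure_union_le _ _) le_rfl)

/-- three concurrent lines cannot all cut off short caps -/
theorem main0 {E0 E1 E2 : P} (hE : E0 + E1 + E2 = 0) (hD : 0 < cr E0 E1)
    (h0 : bd K {y | 0 < cr y E0} ≤ ENNReal.ofReal (gd ^ 2) * bd K univ)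
    (h1 : bd K {y | 0 < cr y E1} ≤ ENNReal.ofReal (gd ^ 2) * bd K univ)
    (h2 : bd K {y | 0 < cr y E2} ≤ ENNReal.ofReal (gd ^ 2) * bd K univ) : False := by
  have e2 : E2 = -(E0 + E1) := by
    rw [eq_neg_iff_add_eq_zero, ← hE]; abel
  have e0 : E0 = -(E1 + E2) := by
    rw [eq_neg_iff_add_eq_zero, ← hE]; abel
  have e1 : E1 = -(E0 + E2) := by
    rw [eq_neg_iff_add_eq_zero, ← hE]; abel
  have hD1 : 0 < cr E1 E2 := by
    rw [e2, cr_neg_right, cr_add_right, cr_self, add_zero, cr_comm, neg_neg]; exact hD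
  have hD2 : 0 < cr E2 E0 := by
    rw [e2, cr_neg_left, cr_add_left, cr_self, zero_add, cr_comm, neg_neg]; exact hD
  have n0 : E0 ≠ 0 := by rintro rfl; simp [cr] at hD
  have n1 : E1 ≠ 0 := by rintro rfl; simp [cr] at hD
  have n2 : E2 ≠ 0 := by rintro rfl; simp [cr] at hD1
  have hfin : ∀ S, bd K S ≠ ⊤ := fun S => (hB.bd_lt_top S).ne
  set L := (bd K univ).toReal with hL
  have conv : ∀ S T U V, bd K S + bd K T + bd K U ≤ bd K V →
      bd K V ≤ ENNReal.ofReal (gd ^ 2) * bd K univ →
      (bd K S).toReal + (bd K T).toReal + (bd K U).toReal ≤ gd ^ 2 * L := by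
    intro S T U V h h'
    have h3 := h.trans h'
    have h4 := ENNReal.toReal_mono (ENNReal.mul_ne_top ENNReal.ofReal_ne_top (hfin univ)) h3
    rw [ENNReal.toReal_add (ENNReal.add_ne_top.2 ⟨hfin _, hfin _⟩) (hfin _),
      ENNReal.toReal_add (hfin _) (hfin _), ENNReal.toReal_mul,
      ENNReal.toReal_ofReal (sq_nonneg _)] at h4
    exact h4
  have m0 := conv _ _ _ _ (hB.half hE n0 n1 n2) h0
  have m1 := conv _ _ _ _ (hB.half (E0 := E1) (E1 := E2) (E2 := E0)
    (by rw [← hE]; abel) n1 n2 n0) h1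
  have m2 := conv _ _ _ _ (hB.half (E0 := E2) (E1 := E0) (E2 := E1)
    (by rw [← hE]; abel) n2 n0 n1) h2
  have hcov : L ≤ ((bd K (sec E2 (-E1))).toReal + (bd K (sec E0 (-E2))).toReal +
      (bd K (sec E1 (-E0))).toReal) +
      ((bd K (sec (-E2) E1)).toReal + (bd K (sec (-E0) E2)).toReal +
      (bd K (sec (-E1) E0)).toReal) := by
    have h := cover (K := K) hE
    have h4 := ENNReal.toReal_mono (ENNReal.add_ne_top.2
      ⟨ENNReal.add_ne_top.2 ⟨ENNReal.add_ne_top.2 ⟨hfin _, hfin _⟩, hfin _⟩,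
        ENNReal.add_ne_top.2 ⟨ENNReal.add_ne_top.2 ⟨hfin _, hfin _⟩, hfin _⟩⟩) h
    rw [ENNReal.toReal_add (ENNReal.add_ne_top.2 ⟨ENNReal.add_ne_top.2 ⟨hfin _, hfin _⟩, hfin _⟩)
        (ENNReal.add_ne_top.2 ⟨ENNReal.add_ne_top.2 ⟨hfin _, hfin _⟩, hfin _⟩),
      ENNReal.toReal_add (ENNReal.add_ne_top.2 ⟨hfin _, hfin _⟩) (hfin _),
      ENNReal.toReal_add (hfin _) (hfin _),
      ENNReal.toReal_add (ENNReal.add_ne_top.2 ⟨hfin _, hfin _⟩) (hfin _),
      ENNReal.toReal_add (hfin _) (hfin _)] at h4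
    exact h4
  have nn : ∀ S, 0 ≤ (bd K S).toReal := fun S => ENNReal.toReal_nonneg
  have ch : ∀ U W : P, 0 < cr U W → ∀ x y : ℝ, gauge K U = x → gauge K W = y →
      ‖(1 / x) • U - (1 / y) • W‖ ≤ (bd K (sec U W)).toReal := by
    rintro U W h x y rfl rfl
    rw [one_div, one_div]
    exact hB.chord h
  have cB0 : gauge K (-E0) ≤ gauge K E1 + gauge K E2 := by
    have := hB.N_add E1 E2
    have e : E1 + E2 = -E0 := by rw [e0]; abel
    rwa [e] at this
  have cB1 : gauge K (-E1) ≤ gauge K E0 + gauge K E2 := by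
    have := hB.N_add E0 E2
    have e : E0 + E2 = -E1 := by rw [e1]; abel
    rwa [e] at this
  have cB2 : gauge K (-E2) ≤ gauge K E0 + gauge K E1 := by
    have := hB.N_add E0 E1
    have e : E0 + E1 = -E2 := by rw [e2]; abel
    rwa [e] at this
  have cA0 : gauge K E0 ≤ gauge K (-E1) + gauge K (-E2) := by
    have := hB.N_add (-E1) (-E2)
    have e : -E1 + -E2 = E0 := by rw [e0]; abel
    rwa [e] at this
  have cA1 : gauge K E1 ≤ gauge K (-E0) + gauge K (-E2) := by
    have := hB.N_add (-E0) (-E2)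
    have e : -E0 + -E2 = E1 := by rw [e1]; abel
    rwa [e] at this
  have cA2 : gauge K E2 ≤ gauge K (-E0) + gauge K (-E1) := by
    have := hB.N_add (-E0) (-E1)
    have e : -E0 + -E1 = E2 := by rw [e2]; abel
    rwa [e] at this
  have gg := gd_gt
  have gl := gd_lt
  have gp := gd_pos
  have gs := gd_sq
  have ha0 := hB.chord (U := E2) (W := -E1) (by rw [cr_neg_right, cr_comm, neg_neg]; exact hD1)
  have ha1 := hB.chord (U := E0) (W := -E2) (by rw [cr_neg_right, cr_comm, neg_neg]; exact hD2)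
  have ha2 := hB.chord (U := E1) (W := -E0) (by rw [cr_neg_right, cr_comm, neg_neg]; exact hD)
  have hb0 := hB.chord (U := -E2) (W := E1) (by rw [cr_neg_left, cr_comm, neg_neg]; exact hD1)
  have hb1 := hB.chord (U := -E0) (W := E2) (by rw [cr_neg_left, cr_comm, neg_neg]; exact hD2)
  have hb2 := hB.chord (U := -E1) (W := E0) (by rw [cr_neg_left, cr_comm, neg_neg]; exact hD)
  have hu0 := fun h => hB.upper (E0 := E0) (E1 := E1) (E2 := E2) hE hD1 h
  have hu1 := fun h => hB.upper (E0 := E1) (E1 := E2) (E2 := E0) (by rw [← hE]; abel) hD2 h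
  have hu2 := fun h => hB.upper (E0 := E2) (E1 := E0) (E2 := E1) (by rw [← hE]; abel) hD h
  rw [← norm_neg] at ha0 ha1 ha2 hb0 hb1 hb2
  have pA0 := hB.N_pos n0
  have pA1 := hB.N_pos n1
  have pA2 := hB.N_pos n2
  have pB0 := hB.N_pos (neg_ne_zero.2 n0)
  have pB1 := hB.N_pos (neg_ne_zero.2 n1)
  have pB2 := hB.N_pos (neg_ne_zero.2 n2)
  have na0 := nn (sec E2 (-E1))
  have na1 := nn (sec E0 (-E2))
  have na2 := nn (sec E1 (-E0))
  have nb0 := nn (sec (-E2) E1)
  have nb1 := nn (sec (-E0) E2)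
  have nb2 := nn (sec (-E1) E0)
  generalize gauge K (-E0) = B0 at *
  generalize gauge K (-E1) = B1 at *
  generalize gauge K (-E2) = B2 at *
  generalize gauge K E0 = A0 at *
  generalize gauge K E1 = A1 at *
  generalize gauge K E2 = A2 at *
  generalize (bd K (sec E2 (-E1))).toReal = a0 at *
  generalize (bd K (sec E0 (-E2))).toReal = a1 at *
  generalize (bd K (sec E1 (-E0))).toReal = a2 at *
  generalize (bd K (sec (-E2) E1)).toReal = b0 at *
  generalize (bd K (sec (-E0) E2)).toReal = b1 at *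
  generalize (bd K (sec (-E1) E0)).toReal = b2 at *
  have ea0 : -(A2⁻¹ • E2 - B1⁻¹ • -E1) = -((1 / B1) • E1 + (1 / A2) • E2) := by
    rw [one_div, one_div]; module
  have ea1 : -(A0⁻¹ • E0 - B2⁻¹ • -E2) = -((1 / B2) • E2 + (1 / A0) • E0) := by
    rw [one_div, one_div]; module
  have ea2 : -(A1⁻¹ • E1 - B0⁻¹ • -E0) = -((1 / B0) • E0 + (1 / A1) • E1) := by
    rw [one_div, one_div]; module
  have eb0 : -(B2⁻¹ • -E2 - A1⁻¹ • E1) = ((1 / A1) • E1 + (1 / B2) • E2) := by
    rw [one_div, one_div]; module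
  have eb1 : -(B0⁻¹ • -E0 - A2⁻¹ • E2) = ((1 / A2) • E2 + (1 / B0) • E0) := by
    rw [one_div, one_div]; module
  have eb2 : -(B1⁻¹ • -E1 - A0⁻¹ • E0) = ((1 / A0) • E0 + (1 / B1) • E1) := by
    rw [one_div, one_div]; module
  rw [ea0, norm_neg] at ha0
  rw [ea1, norm_neg] at ha1
  rw [ea2, norm_neg] at ha2
  rw [eb0] at hb0
  rw [eb1] at hb1
  rw [eb2] at hb2
  have b0p : 0 < b0 := by
    refine lt_of_lt_of_le (norm_pos_iff.2 ?_) hb0
    intro h
    have := (li_of_cr hD1.ne' _ _ h).1
    rw [one_div, inv_eq_zero] at this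
    exact pA1.ne' this
  have Lp : 0 < L := by
    by_contra hcon
    push Not at hcon
    have h5 : gd ^ 2 * L ≤ 0 := mul_nonpos_of_nonneg_of_nonpos (sq_nonneg _) hcon
    linarith
  rw [gs] at m0 m1 m2
  have hk : 0 < (2 * gd - 1) * L := by
    apply mul_pos _ Lp; linarith
  have g3 : gd * ((1 - gd) * L) = (2 * gd - 1) * L := by
    linear_combination (-L) * gs
  have g4 : gd * ((2 * gd - 1) * L) = (2 - 3 * gd) * L := by
    linear_combination (2 * L) * gs
  have mm0 := mul_le_mul_of_nonneg_left m0 gp.le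
  have mm1 := mul_le_mul_of_nonneg_left m1 gp.le
  have mm2 := mul_le_mul_of_nonneg_left m2 gp.le
  rw [g3] at mm0 mm1 mm2
  exact Hex.contra (E := P)
    { E0 := E0, E1 := E1, E2 := E2, A0 := A0, A1 := A1, A2 := A2, B0 := B0, B1 := B1, B2 := B2
      a0 := a0, a1 := a1, a2 := a2, b0 := b0, b1 := b1, b2 := b2, k := (2 * gd - 1) * L
      hE := hE
      hli := fun x y h => li_of_cr hD1.ne' x y h
      hA0 := pA0, hA1 := pA1, hA2 := pA2, hB0 := pB0, hB1 := pB1, hB2 := pB2, hk := hk
      cB0 := cB0, cB1 := cB1, cB2 := cB2, cA0 := cA0, cA1 := cA1, cA2 := cA2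
      hb0 := hb0, hb1 := hb1, hb2 := hb2, ha0 := ha0, ha1 := ha1, ha2 := ha2
      hu0 := hu0, hu1 := hu1, hu2 := hu2
      k0 := by linarith
      k1 := by linarith
      k2 := by linarith
      kb := by rw [g4]; linarith
      m0 := by linarith
      m1 := by linarith
      m2 := by linarith }

end Body

end Pool.MP_653fdd_gt.Lib
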