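import Mathlib

set_option autoImplicit false

/-! One-dimensional Hausdorff measure of pieces of convex curves. -/

open MeasureTheory Set Metric
open scoped ENNReal NNReal Topology Pointwise

namespace Pool.MP_653fdd_gt.Lib

/-- the plane -/
abbrev P : Type := EuclideanSpace ℝ (Fin 2)

/-- Comparison along outward normals: if every point of `S` sees a point of `Γ` in an outward normal
direction of `K`, then `S` is not longer than `Γ`. -/
theorem haus_le_of_normals {K S Γ : Set P} (hS : S ⊆ K)
    (h : ∀ y ∈ S, ∃ z ∈ Γ, ∀ w ∈ K, inner ℝ (z - y) (w - y) ≤ 0) :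
    μH[1] S ≤ μH[1] Γ := by
  choose! f hf hfn using h
  have anti : AntilipschitzWith 1 (fun y : S => f y) := by
    rw [antilipschitzWith_iff_le_mul_dist]
    rintro ⟨y, hy⟩ ⟨y', hy'⟩
    simp only [NNReal.coe_one, one_mul, Subtype.dist_eq]
    have h1 := hfn y hy y' (hS hy')
    have h2 := hfn y' hy' y (hS hy)
    rw [dist_eq_norm, dist_eq_norm]
    rcases eq_or_ne (y - y') 0 with h0 | h0
    · rw [h0, norm_zero]; exact norm_nonneg _
    · have hpos : 0 < ‖y - y'‖ := norm_pos_iff.2 h0
      have h3 : ‖y - y'‖ ^ 2 ≤ inner ℝ (f y - f y') (y - y') := by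
        have e1 : inner ℝ (f y - y) (y' - y) = - inner ℝ (f y) (y - y') + inner ℝ y (y - y') := by
          simp only [inner_sub_left, inner_sub_right]; ring
        have e2 : inner ℝ (f y' - y') (y - y') = inner ℝ (f y') (y - y') - inner ℝ y' (y - y') := by
          simp only [inner_sub_left]
        have e3 : ‖y - y'‖ ^ 2 = inner ℝ y (y - y') - inner ℝ y' (y - y') := by
          rw [← inner_sub_left, real_inner_self_eq_norm_sq]
        rw [e1] at h1
        rw [e2] at h2
        rw [e3, inner_sub_left]
        linarith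
      have h4 := real_inner_le_norm (f y - f y') (y - y')
      have h5 : ‖y - y'‖ * ‖y - y'‖ ≤ ‖f y - f y'‖ * ‖y - y'‖ := by nlinarith
      exact le_of_mul_le_mul_right h5 hpos
  have h1 := anti.le_hausdorffMeasure_image (d := 1) zero_le_one (univ : Set S)
  have h2 : μH[1] ((fun y : S => (y : P)) '' univ) = μH[1] (univ : Set S) :=
    isometry_subtype_coe.hausdorffMeasure_image (Or.inl zero_le_one) univ
  have h3 : (fun y : S => (y : P)) '' univ = S := by
    rw [image_univ]; exact Subtype.range_coe
  rw [h3] at h2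
  rw [h2]
  refine h1.trans ?_
  rw [ENNReal.coe_one, ENNReal.one_rpow, one_mul]
  apply measure_mono
  rintro _ ⟨⟨y, hy⟩, -, rfl⟩
  exact hf y hy

/-- A set containing a path is at least as long as the distance of the end points. -/
theorem haus_ge_of_path {S : Set P} (γ : ℝ → P) (hγ : ContinuousOn γ (Icc 0 1))
    (hS : ∀ t ∈ Icc (0 : ℝ) 1, γ t ∈ S) : edist (γ 0) (γ 1) ≤ μH[1] S := by
  rcases eq_or_ne (γ 1 - γ 0) 0 with h0 | h0
  · have : γ 0 = γ 1 := (sub_eq_zero.1 h0).symm
    rw [this, edist_self]; exact bot_le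
  · have hn : 0 < ‖γ 1 - γ 0‖ := norm_pos_iff.2 h0
    set e : P := (‖γ 1 - γ 0‖)⁻¹ • (γ 1 - γ 0) with he
    have hen : ‖e‖ = 1 := by
      rw [he, norm_smul, norm_inv, norm_norm, inv_mul_cancel₀ hn.ne']
    have hlip : LipschitzWith 1 (fun y : P => inner ℝ e y) := by
      apply LipschitzWith.of_dist_le_mul
      intro x y
      rw [NNReal.coe_one, one_mul, Real.dist_eq, ← inner_sub_right, dist_eq_norm]
      have := abs_real_inner_le_norm e (x - y)
      rwa [hen, one_mul] at this
    have h1 := hlip.hausdorffMeasure_image_le (d := 1) zero_le_one S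
    rw [ENNReal.coe_one, ENNReal.one_rpow, one_mul] at h1
    refine le_trans ?_ h1
    have hcont : ContinuousOn (fun t => inner ℝ e (γ t)) (Icc (0:ℝ) 1) :=
      (continuous_const.inner continuous_id).comp_continuousOn hγ
    have hivt := intermediate_value_Icc zero_le_one hcont
    have hsub : Icc (inner ℝ e (γ 0)) (inner ℝ e (γ 1)) ⊆ (fun y : P => inner ℝ e y) '' S := by
      intro r hr
      obtain ⟨t, ht, htr⟩ := hivt hr
      exact ⟨γ t, hS t ht, htr⟩
    refine le_trans ?_ (measure_mono hsub)
    rw [hausdorffMeasure_real, Real.volume_Icc, ← inner_sub_right]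
    have : inner ℝ e (γ 1 - γ 0) = ‖γ 1 - γ 0‖ := by
      rw [he, real_inner_smul_left, real_inner_self_eq_norm_sq]
      field_simp
    rw [this, edist_comm, edist_dist, dist_eq_norm]

/-- supporting normals -/
theorem exists_normal {K : Set P} (hK : Convex ℝ K) (hint : (interior K).Nonempty) {y : P}
    (hy : y ∉ interior K) : ∃ n : P, n ≠ 0 ∧ ∀ w ∈ K, inner ℝ n (w - y) ≤ 0 := by
  obtain ⟨f, hf⟩ := geometric_hahn_banach_open_point hK.interior isOpen_interior hy
  refine ⟨(InnerProductSpace.toDual ℝ P).symm f, ?_, ?_⟩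
  · intro h
    obtain ⟨a, ha⟩ := hint
    have h1 := hf a ha
    have : f = 0 := by
      have := congrArg (InnerProductSpace.toDual ℝ P) h
      simpa using this
    rw [this] at h1
    simp at h1
  · intro w hw
    rw [InnerProductSpace.toDual_symm_apply]
    have hcl : w ∈ closure (interior K) := by
      rw [hK.closure_interior_eq_closure_of_nonempty_interior hint]
      exact subset_closure hw
    have h2 : closure (interior K) ⊆ {w : P | f w ≤ f y} := by
      apply closure_minimal
      · intro a ha; exact (hf a ha).le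
      · exact isClosed_le f.continuous continuous_const
    have h3 : f w ≤ f y := h2 hcl
    rw [map_sub]; linarith

/-- a ray leaving a bounded set meets its frontier -/
theorem ray_hits {Q : Set P} (hQ : Bornology.IsBounded Q) {y n : P} (hy : y ∈ Q) (hn : n ≠ 0) :
    ∃ t : ℝ, 0 ≤ t ∧ y + t • n ∈ frontier Q := by
  by_contra hcon
  push Not at hcon
  have hpre : IsPreconnected ((fun t : ℝ => y + t • n) '' Ici 0) := by
    apply isPreconnected_Ici.image
    exact (continuous_const.add (continuous_id.smul continuous_const)).continuousOn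
  have hcov : (fun t : ℝ => y + t • n) '' Ici 0 ⊆ interior Q ∪ (closure Q)ᶜ := by
    rintro _ ⟨t, ht, rfl⟩
    have h := hcon t ht
    by_cases h1 : y + t • n ∈ interior Q
    · exact Or.inl h1
    · right
      intro h2
      exact h ⟨h2, h1⟩
  have hdisj : Disjoint (interior Q) ((closure Q)ᶜ) := by
    rw [Set.disjoint_left]
    intro x hx hx'
    exact hx' (subset_closure (interior_subset hx))
  have hy0 : y ∈ (fun t : ℝ => y + t • n) '' Ici 0 := ⟨0, Set.mem_Ici.2 le_rfl, by simp⟩
  have h1 : (((fun t : ℝ => y + t • n) '' Ici 0) ∩ interior Q).Nonempty := by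
    refine ⟨y, hy0, ?_⟩
    rcases hcov hy0 with h | h
    · exact h
    · exact absurd (subset_closure hy) h
  obtain ⟨R, hR⟩ := hQ.subset_closedBall 0
  have hnp : 0 < ‖n‖ := norm_pos_iff.2 hn
  have h2 : (((fun t : ℝ => y + t • n) '' Ici 0) ∩ (closure Q)ᶜ).Nonempty := by
    set t : ℝ := (|R| + ‖y‖ + 1) / ‖n‖ with ht
    have ht0 : 0 ≤ t := by positivity
    refine ⟨y + t • n, ⟨t, ht0, rfl⟩, ?_⟩
    intro hmem
    have h3 : closure Q ⊆ closedBall 0 R := closure_minimal hR isClosed_closedBall
    have h4 := h3 hmem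
    rw [mem_closedBall, dist_zero_right] at h4
    have h5 : ‖t • n‖ = |R| + ‖y‖ + 1 := by
      rw [norm_smul, Real.norm_of_nonneg ht0, ht]; field_simp
    have h6 : ‖t • n‖ ≤ ‖y + t • n‖ + ‖y‖ := by
      have := norm_sub_le (y + t • n) y
      simpa using this
    have := le_abs_self R
    linarith
  have := hpre (interior Q) ((closure Q)ᶜ) isOpen_interior isClosed_closure.isOpen_compl hcov h1 h2
  obtain ⟨x, -, hx1, hx2⟩ := this
  exact Set.disjoint_left.1 hdisj hx1 hx2

end Pool.MP_653fdd_gt.Lib
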