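import Pool.Agent.Lib.MP_653fdd_gt.Edge

set_option autoImplicit false

/-! The minimax point. -/

open MeasureTheory Set Metric
open scoped ENNReal NNReal Topology Pointwise

namespace Pool.MP_653fdd_gt.Lib

/-- minimax over a compact family of affine functions with unit gradients -/
lemma exists_minimax {Γ : Set (P × ℝ)} (hΓ : IsCompact Γ) {R : ℝ} (hR : 0 < R)
    (hu : ∀ p ∈ Γ, ‖p.1‖ = 1 ∧ -R ≤ p.2) (ht : ∀ v : P, ‖v‖ = 1 → (v, R) ∈ Γ) :
    ∃ (o : P) (m : ℝ), (∃ p ∈ Γ, inner ℝ o p.1 - p.2 = m) ∧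
      (∀ p ∈ Γ, inner ℝ o p.1 - p.2 ≤ m) ∧ ∀ x : P, ∃ p ∈ Γ, m ≤ inner ℝ x p.1 - p.2 := by
  set f : P → P × ℝ → ℝ := fun x p => inner ℝ x p.1 - p.2 with hf
  have hfc : Continuous (fun q : P × (P × ℝ) => f q.1 q.2) := by
    rw [hf]; fun_prop
  have hne : Γ.Nonempty := by
    refine ⟨(!₂[1, 0], R), ht _ ?_⟩
    rw [EuclideanSpace.norm_eq, Fin.sum_univ_two]; simp
  have hatt : ∀ x : P, ∃ p ∈ Γ, sSup (f x '' Γ) = f x p ∧ ∀ q ∈ Γ, f x q ≤ f x p := by
    intro x
    obtain ⟨p, hp, h1, h2⟩ := hΓ.exists_sSup_image_eq_and_ge hne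
      (hfc.comp (Continuous.prodMk_right x)).continuousOn
    exact ⟨p, hp, h1, h2⟩
  have hΦ : Continuous (fun x => sSup (f x '' Γ)) := hΓ.continuous_sSup hfc
  obtain ⟨o, ho, hmin⟩ := (isCompact_closedBall (0 : P) (2 * R)).exists_isMinOn
    ⟨0, mem_closedBall_self (by linarith)⟩ hΦ.continuousOn
  obtain ⟨p, hp, hpm, hpmax⟩ := hatt o
  refine ⟨o, f o p, ⟨p, hp, rfl⟩, hpmax, ?_⟩
  intro x
  by_cases hx : x ∈ closedBall (0 : P) (2 * R)
  · obtain ⟨q, hq, hqm, -⟩ := hatt x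
    refine ⟨q, hq, ?_⟩
    have h1 : sSup (f o '' Γ) ≤ sSup (f x '' Γ) := hmin hx
    rw [hqm, hpm] at h1
    exact h1
  · rw [mem_closedBall, dist_zero_right, not_le] at hx
    have hxp : 0 < ‖x‖ := by linarith
    refine ⟨((‖x‖)⁻¹ • x, R), ht _ ?_, ?_⟩
    · rw [norm_smul, norm_inv, norm_norm, inv_mul_cancel₀ hxp.ne']
    · have h1 : sSup (f o '' Γ) ≤ sSup (f 0 '' Γ) :=
        hmin (mem_closedBall_self (by linarith))
      obtain ⟨q, hq, hqm, -⟩ := hatt 0
      rw [hqm, hpm] at h1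
      have h2 : f 0 q ≤ R := by
        simp only [hf, inner_zero_left]
        have := (hu q hq).2
        linarith
      simp only [real_inner_smul_right, real_inner_self_eq_norm_sq]
      have h3 : ‖x‖⁻¹ * ‖x‖ ^ 2 = ‖x‖ := by field_simp
      rw [h3]
      linarith

/-- Caratheodory in the plane, with three points -/
lemma hull_three {s : Set P} {x : P} (hx : x ∈ convexHull ℝ s) :
    ∃ (w : Fin 3 → ℝ) (z : Fin 3 → P), w ∈ stdSimplex ℝ (Fin 3) ∧ (∀ i, z i ∈ s) ∧
      ∑ i, w i • z i = x := by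
  have hne : s.Nonempty := by
    rcases s.eq_empty_or_nonempty with h | h
    · rw [h, convexHull_empty] at hx
      exact absurd hx (notMem_empty x)
    · exact h
  obtain ⟨z0, hz0⟩ := hne
  obtain ⟨ι, hι, z, w, hz, hind, hw, hw1, hsum⟩ := eq_pos_convex_span_of_mem_convexHull hx
  have hcard : Fintype.card ι ≤ 3 := by
    have h1 := hind.card_le_finrank_succ
    have h2 := Submodule.finrank_le (vectorSpan ℝ (Set.range z))
    have h3 : Module.finrank ℝ P = 2 := by simp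
    omega
  have hcard' : Fintype.card ι ≤ Fintype.card (Fin 3) := by simpa using hcard
  obtain ⟨e⟩ := Function.Embedding.nonempty_of_card_le hcard'
  refine ⟨Function.extend e w 0, Function.extend e z (fun _ => z0), ⟨?_, ?_⟩, ?_, ?_⟩
  · intro j
    by_cases hj : ∃ i, e i = j
    · obtain ⟨i, rfl⟩ := hj
      rw [e.injective.extend_apply]; exact (hw i).le
    · rw [Function.extend_apply' _ _ _ hj]; simp
  · rw [← hw1]
    symm
    apply Fintype.sum_of_injective e e.injective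
    · intro j hj
      rw [Function.extend_apply' _ _ _ hj]; simp
    · intro i
      rw [e.injective.extend_apply]
  · intro j
    by_cases hj : ∃ i, e i = j
    · obtain ⟨i, rfl⟩ := hj
      rw [e.injective.extend_apply]; exact hz ⟨i, rfl⟩
    · rw [Function.extend_apply' _ _ _ hj]; exact hz0
  · rw [← hsum]
    symm
    apply Fintype.sum_of_injective e e.injective
    · intro j hj
      rw [Function.extend_apply' _ _ _ hj]; simp
    · intro i
      rw [e.injective.extend_apply, e.injective.extend_apply]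

lemma compact_hull {s : Set P} (hs : IsCompact s) : IsCompact (convexHull ℝ s) := by
  have h1 : convexHull ℝ s = (fun q : (Fin 3 → ℝ) × (Fin 3 → P) => ∑ i, q.1 i • q.2 i) ''
      (stdSimplex ℝ (Fin 3) ×ˢ Set.pi univ (fun _ => s)) := by
    ext x
    constructor
    · intro hx
      obtain ⟨w, z, hw, hz, hsum⟩ := hull_three hx
      exact ⟨(w, z), ⟨hw, fun i _ => hz i⟩, hsum⟩
    · rintro ⟨⟨w, z⟩, ⟨hw, hz⟩, rfl⟩
      exact (convex_convexHull ℝ s).sum_mem (fun i _ => hw.1 i) hw.2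
        (fun i _ => subset_convexHull ℝ s (hz i (mem_univ i)))
  rw [h1]
  apply IsCompact.image
  · exact (isCompact_stdSimplex ℝ (Fin 3)).prod (isCompact_univ_pi (fun _ => hs))
  · fun_prop

/-- first-order condition at the minimax point -/
lemma first_order {Γ : Set (P × ℝ)} (hΓ : IsCompact Γ) {o : P} {m : ℝ}
    (h2 : ∀ p ∈ Γ, inner ℝ o p.1 - p.2 ≤ m) (h3 : ∀ x : P, ∃ p ∈ Γ, m ≤ inner ℝ x p.1 - p.2) :
    (0 : P) ∈ convexHull ℝ {v | ∃ t, (v, t) ∈ Γ ∧ inner ℝ o v - t = m} := by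
  by_contra hcon
  have hAc : IsCompact {v : P | ∃ t, (v, t) ∈ Γ ∧ inner ℝ o v - t = m} := by
    have h1 : {v : P | ∃ t, (v, t) ∈ Γ ∧ inner ℝ o v - t = m} =
        Prod.fst '' (Γ ∩ {p : P × ℝ | inner ℝ o p.1 - p.2 = m}) := by
      ext v
      constructor
      · rintro ⟨t, ht, ht2⟩
        exact ⟨(v, t), ⟨ht, ht2⟩, rfl⟩
      · rintro ⟨⟨v', t⟩, ⟨ht, ht2⟩, rfl⟩
        exact ⟨t, ht, ht2⟩
    rw [h1]
    apply IsCompact.image _ continuous_fst
    apply hΓ.inter_right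
    exact isClosed_eq (by fun_prop) continuous_const
  obtain ⟨f, u, hf1, hf2⟩ := geometric_hahn_banach_point_closed (convex_convexHull ℝ _)
    (compact_hull hAc).isClosed hcon
  rw [map_zero] at hf1
  set w : P := -(InnerProductSpace.toDual ℝ P).symm f with hw
  have hwv : ∀ v, inner ℝ w v = - f v := by
    intro v
    rw [hw, inner_neg_left, InnerProductSpace.toDual_symm_apply]
  have hact : ∀ p ∈ Γ, inner ℝ o p.1 - p.2 = m → inner ℝ w p.1 < 0 := by
    rintro ⟨v, t⟩ hp hpm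
    have := hf2 v (subset_convexHull ℝ _ ⟨t, hp, hpm⟩)
    rw [hwv]; simp only; linarith
  -- a uniform gap
  obtain ⟨m', hm', hgap⟩ : ∃ m' < m, ∀ p ∈ Γ, 0 ≤ inner ℝ w p.1 → inner ℝ o p.1 - p.2 ≤ m' := by
    have hc : IsCompact (Γ ∩ {p : P × ℝ | 0 ≤ inner ℝ w p.1}) :=
      hΓ.inter_right (isClosed_le continuous_const (by fun_prop))
    rcases (Γ ∩ {p : P × ℝ | 0 ≤ inner ℝ w p.1}).eq_empty_or_nonempty with he | hne
    · refine ⟨m - 1, by linarith, ?_⟩
      intro p hp hp2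
      exfalso
      have : p ∈ (∅ : Set (P × ℝ)) := he ▸ ⟨hp, hp2⟩
      exact this
    · obtain ⟨q, ⟨hq, hq2⟩, hqmax⟩ := hc.exists_isMaxOn hne
        (f := fun p : P × ℝ => inner ℝ o p.1 - p.2) (by fun_prop)
      refine ⟨inner ℝ o q.1 - q.2, lt_of_le_of_ne (h2 q hq) ?_, ?_⟩
      · intro h
        have := hact q hq h
        have h5 : 0 ≤ inner ℝ w q.1 := hq2
        linarith
      · intro p hp hp2
        exact hqmax ⟨hp, hp2⟩
  obtain ⟨B, hB⟩ : ∃ B, ∀ p ∈ Γ, |inner ℝ w p.1| ≤ B := by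
    obtain ⟨B, hB⟩ := (hΓ.image (f := fun p : P × ℝ => inner ℝ w p.1) (by fun_prop)).isBounded.subset_closedBall 0
    refine ⟨B, fun p hp => ?_⟩
    have := hB ⟨p, hp, rfl⟩
    rwa [mem_closedBall, dist_zero_right, Real.norm_eq_abs] at this
  set ε : ℝ := (m - m') / (2 * (|B| + 1)) with hε
  have hmm : 0 < m - m' := by linarith
  have hεp : 0 < ε := by positivity
  obtain ⟨p, hp, hpm⟩ := h3 (o + ε • w)
  rw [inner_add_left, real_inner_smul_left] at hpm
  rcases lt_or_ge (inner ℝ w p.1) 0 with h | h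
  · have h4 := h2 p hp
    have h5 : ε * inner ℝ w p.1 < 0 := mul_neg_of_pos_of_neg hεp h
    linarith
  · have h4 := hgap p hp h
    have h5 : ε * inner ℝ w p.1 ≤ ε * (|B| + 1) := by
      apply mul_le_mul_of_nonneg_left _ hεp.le
      have := hB p hp
      have h6 := le_abs_self (inner ℝ w p.1)
      have h7 := le_abs_self B
      linarith
    have h6 : ε * (|B| + 1) = (m - m') / 2 := by
      rw [hε]; field_simp
    linarith

end Pool.MP_653fdd_gt.Lib
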