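import Pool.Agent.Lib.MP_653fdd_gt.Meas

set_option autoImplicit false

/-! Planar geometry: cross products, finiteness of the length of a convex curve. -/

open MeasureTheory Set Metric
open scoped ENNReal NNReal Topology Pointwise

namespace Pool.MP_653fdd_gt.Lib

/-- the cross product -/
def cr (x y : P) : ℝ := x 0 * y 1 - x 1 * y 0

lemma cr_add_left (x y z : P) : cr (x + y) z = cr x z + cr y z := by
  simp [cr]; ring
lemma cr_add_right (x y z : P) : cr x (y + z) = cr x y + cr x z := by
  simp [cr]; ring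
lemma cr_smul_left (a : ℝ) (x z : P) : cr (a • x) z = a * cr x z := by
  simp [cr]; ring
lemma cr_smul_right (a : ℝ) (x z : P) : cr x (a • z) = a * cr x z := by
  simp [cr]; ring
lemma cr_neg_left (x z : P) : cr (-x) z = - cr x z := by
  simp [cr]; ring
lemma cr_neg_right (x z : P) : cr x (-z) = - cr x z := by
  simp [cr]; ring
lemma cr_self (x : P) : cr x x = 0 := by
  simp [cr]; ring
lemma cr_comm (x y : P) : cr x y = - cr y x := by
  simp [cr]; ring

lemma cr_decomp {U W : P} (h : cr U W ≠ 0) (y : P) :
    y = (cr y W / cr U W) • U + (cr U y / cr U W) • W := by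
  have key : ∀ i : Fin 2, y i = (cr y W / cr U W) * U i + (cr U y / cr U W) * W i := by
    intro i
    rw [div_mul_eq_mul_div, div_mul_eq_mul_div, ← add_div, eq_div_iff h]
    fin_cases i
    · simp [cr]; ring
    · simp [cr]; ring
  ext i
  simpa using key i

lemma continuous_cr_left (x : P) : Continuous (fun y : P => cr x y) := by
  unfold cr; fun_prop
lemma continuous_cr_right (x : P) : Continuous (fun y : P => cr y x) := by
  unfold cr; fun_prop

lemma li_of_cr {U W : P} (h : cr U W ≠ 0) (x y : ℝ) (hxy : x • U + y • W = 0) :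
    x = 0 ∧ y = 0 := by
  constructor
  · have : cr (x • U + y • W) W = 0 := by rw [hxy]; simp [cr]
    rw [cr_add_left, cr_smul_left, cr_smul_left, cr_self, mul_zero, add_zero] at this
    exact (mul_eq_zero.1 this).resolve_right h
  · have : cr U (x • U + y • W) = 0 := by rw [hxy]; simp [cr]
    rw [cr_add_right, cr_smul_right, cr_smul_right, cr_self, mul_zero, zero_add] at this
    exact (mul_eq_zero.1 this).resolve_right h

lemma seg_vert {z : P} {r R : ℝ} (hR : 0 < R) (h0 : z 0 = r) (h1 : |z 1| ≤ R) :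
    z ∈ segment ℝ (!₂[r, -R] : P) !₂[r, R] := by
  rw [abs_le] at h1
  refine ⟨1 - (z 1 + R) / (2 * R), (z 1 + R) / (2 * R), ?_, ?_, by ring, ?_⟩
  · rw [sub_nonneg, div_le_one (by linarith)]; linarith
  · apply div_nonneg <;> linarith
  · ext i
    fin_cases i
    · simp [h0]; ring
    · simp; field_simp; ring

lemma seg_hor {z : P} {r R : ℝ} (hR : 0 < R) (h0 : z 1 = r) (h1 : |z 0| ≤ R) :
    z ∈ segment ℝ (!₂[-R, r] : P) !₂[R, r] := by
  rw [abs_le] at h1
  refine ⟨1 - (z 0 + R) / (2 * R), (z 0 + R) / (2 * R), ?_, ?_, by ring, ?_⟩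
  · rw [sub_nonneg, div_le_one (by linarith)]; linarith
  · apply div_nonneg <;> linarith
  · ext i
    fin_cases i
    · simp; field_simp; ring
    · simp [h0]; ring

lemma abs_coord_le (y : P) (i : Fin 2) : |y i| ≤ ‖y‖ := by
  have := EuclideanSpace.norm_eq y
  rw [this]
  apply Real.abs_le_sqrt
  rw [Fin.sum_univ_two]
  fin_cases i
  · simp; positivity
  · simp; positivity

lemma norm_le_coord (y : P) : ‖y‖ ≤ |y 0| + |y 1| := by
  rw [EuclideanSpace.norm_eq y, Fin.sum_univ_two]
  apply Real.sqrt_le_iff.2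
  constructor
  · positivity
  · simp only [Real.norm_eq_abs]
    nlinarith [mul_nonneg (abs_nonneg (y 0)) (abs_nonneg (y 1))]

/-- the length of a convex curve is finite -/
theorem frontier_finite {K : Set P} (hK : Convex ℝ K) (hKc : IsCompact K)
    (hint : (interior K).Nonempty) : μH[1] (frontier K) < ⊤ := by
  obtain ⟨R0, hR0⟩ := hKc.isBounded.subset_closedBall 0
  set R : ℝ := |R0| + 1 with hRdef
  have hR : 0 < R := by positivity
  set Q : Set P := {y | |y 0| ≤ R ∧ |y 1| ≤ R} with hQ
  have hQb : Bornology.IsBounded Q := by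
    rw [isBounded_iff_subset_closedBall 0]
    refine ⟨2 * R, fun y hy => ?_⟩
    rw [mem_closedBall, dist_zero_right]
    have := norm_le_coord y
    have := hy.1
    have := hy.2
    linarith
  have hQc : IsClosed Q := by
    apply IsClosed.inter
    · exact isClosed_le (f := fun y : P => |y 0|) (by fun_prop) continuous_const
    · exact isClosed_le (f := fun y : P => |y 1|) (by fun_prop) continuous_const
  have hKQ : K ⊆ Q := by
    intro y hy
    have h1 := hR0 hy
    rw [mem_closedBall, dist_zero_right] at h1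
    have h2 := le_abs_self R0
    exact ⟨(abs_coord_le y 0).trans (by linarith), (abs_coord_le y 1).trans (by linarith)⟩
  set Γ : Set P := (segment ℝ (!₂[R, -R] : P) !₂[R, R] ∪ segment ℝ (!₂[-R, -R] : P) !₂[-R, R]) ∪
    (segment ℝ (!₂[-R, R] : P) !₂[R, R] ∪ segment ℝ (!₂[-R, -R] : P) !₂[R, -R]) with hΓ
  have hΓf : μH[1] Γ < ⊤ := by
    apply measure_union_lt_top <;> apply measure_union_lt_top <;>
      (rw [hausdorffMeasure_segment]; exact edist_lt_top _ _)
  refine lt_of_le_of_lt ?_ hΓf
  have hfK : frontier K ⊆ K := hKc.isClosed.frontier_subset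
  apply (haus_le_of_normals (K := K) hfK _)
  intro y hy
  obtain ⟨n, hn, hn2⟩ := exists_normal hK hint (fun h => hy.2 h)
  obtain ⟨t, ht, hz⟩ := ray_hits hQb (hKQ (hfK hy)) hn
  refine ⟨y + t • n, ?_, ?_⟩
  · have hzQ : y + t • n ∈ Q := hQc.frontier_subset hz
    generalize y + t • n = z at hz hzQ
    have hnot : ¬ (|z 0| < R ∧ |z 1| < R) := by
      intro h
      apply hz.2
      rw [mem_interior]
      refine ⟨{y | |y 0| < R ∧ |y 1| < R}, fun y hy => ⟨hy.1.le, hy.2.le⟩, ?_, h⟩
      apply IsOpen.inter
      · exact isOpen_lt (f := fun y : P => |y 0|) (by fun_prop) continuous_const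
      · exact isOpen_lt (f := fun y : P => |y 1|) (by fun_prop) continuous_const
    by_cases h0 : |z 0| < R
    · have h1 : |z 1| = R := le_antisymm hzQ.2 (not_lt.1 (fun h => hnot ⟨h0, h⟩))
      right
      rcases abs_choice (z 1) with h | h
      · left; exact seg_hor hR (by rw [← h, h1]) hzQ.1
      · right; exact seg_hor hR (by linarith) hzQ.1
    · have h1 : |z 0| = R := le_antisymm hzQ.1 (not_lt.1 h0)
      left
      rcases abs_choice (z 0) with h | h
      · left; exact seg_vert hR (by rw [← h, h1]) hzQ.2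
      · right; exact seg_vert hR (by linarith) hzQ.2
  · intro w hw
    rw [add_sub_cancel_left, real_inner_smul_left]
    exact mul_nonpos_of_nonneg_of_nonpos ht (hn2 w hw)

end Pool.MP_653fdd_gt.Lib
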