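import Pool.Agent.Lib.MP_653fdd_gt.Small

set_option autoImplicit false

/-! The strip of small third coordinate. -/

namespace Pool.MP_653fdd_gt.Lib

theorem t2_0 (C : Cfg) (hba : C.b ≤ C.a) (h1 : 0.4775 ≤ C.a) (h2 : C.a ≤ 0.54) (h6 : C.c ≤ 0.045) : False := by
  have hs := C.hsum
  have h5 := C.hc.le
  have h3 : 0.415 ≤ C.b := by linarith
  have h4 : C.b ≤ 0.5225 := by linarith
  rcases le_total C.x10 0.74 with hx | hx
  ·
    have H0 : (2.0001 : ℝ) ≤ G 0.431 0.782828 1.404172 C.b C.c := G_rect (m := 2.0001) (x0 := 0.415) (x1 := 0.5225) (y0 := 0) (y1 := 0.045)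
      (by norm_num) (by norm_num) (by norm_num) (by norm_num) (by norm_num) (by norm_num) (by norm_num)
      h3 h4 h5 h6
      (G_num (r := 0) (by norm_num) (by norm_num) (by norm_num))
      (G_num (r := 0.1366) (by norm_num) (by norm_num) (by norm_num))
      (G_num (r := 0) (by norm_num) (by norm_num) (by norm_num))
      (G_num (r := 0.1533) (by norm_num) (by norm_num) (by norm_num))
    have H1 : (2.0001 : ℝ) ≤ G 0.782828 0.431 1.404172 C.a C.c := G_rect (m := 2.0001) (x0 := 0.4775) (x1 := 0.54) (y0 := 0) (y1 := 0.045)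
      (by norm_num) (by norm_num) (by norm_num) (by norm_num) (by norm_num) (by norm_num) (by norm_num)
      h1 h2 h5 h6
      (G_num (r := 0) (by norm_num) (by norm_num) (by norm_num))
      (G_num (r := 0.1465) (by norm_num) (by norm_num) (by norm_num))
      (G_num (r := 0) (by norm_num) (by norm_num) (by norm_num))
      (G_num (r := 0.1558) (by norm_num) (by norm_num) (by norm_num))
    exact C.finish (γ := 0.618) (z0 := 0) (z1 := 0.346) (z2 := 0) (c01 := 0) (c02 := 0.569) (c12 := 0.085)
      (A0 := 0.431) (A1 := 0.782828) (A2 := 1.404172) (B0 := 2) (B1 := 2) (B2 := 2.808344)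
      (by norm_num) (by linarith [gd_gt]) (by norm_num) (by norm_num) (by norm_num) (by norm_num) (by norm_num) (by norm_num)
      (by norm_num) (by norm_num) (by norm_num) (by norm_num) (by norm_num) (by norm_num)
      (le_trans (le_trans (by norm_num) H0) (C.cmp0 (by norm_num) (by norm_num) (by norm_num)))
      (lt_of_lt_of_le (lt_of_lt_of_le (by norm_num) H1) (C.cmp1 (by norm_num) (by norm_num) (by norm_num)))
      (C.f2A (al := 0.4775) (ah := 0.54) (c2 := 0.045) (t := 0.74) (by norm_num) (by norm_num) (by norm_num) hba h1 h2 h6 hx (by norm_num) (by norm_num)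
        (by norm_num) (by norm_num) (by norm_num))
  ·
    have H0 : (1.2601 : ℝ) ≤ G 0.419622 0 1.198378 C.b C.c := G_rect (m := 1.2601) (x0 := 0.415) (x1 := 0.5225) (y0 := 0) (y1 := 0.045)
      (by norm_num) (by norm_num) (by norm_num) (by norm_num) (by norm_num) (by norm_num) (by norm_num)
      h3 h4 h5 h6
      (G_num (r := 0) (by norm_num) (by norm_num) (by norm_num))
      (G_num (r := 0.1366) (by norm_num) (by norm_num) (by norm_num))
      (G_num (r := 0) (by norm_num) (by norm_num) (by norm_num))
      (G_num (r := 0.1533) (by norm_num) (by norm_num) (by norm_num))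
    have H1 : (1.2601 : ℝ) ≤ G 0 0.419622 1.198378 C.a C.c := G_rect (m := 1.2601) (x0 := 0.4775) (x1 := 0.54) (y0 := 0) (y1 := 0.045)
      (by norm_num) (by norm_num) (by norm_num) (by norm_num) (by norm_num) (by norm_num) (by norm_num)
      h1 h2 h5 h6
      (G_num (r := 0) (by norm_num) (by norm_num) (by norm_num))
      (G_num (r := 0.1465) (by norm_num) (by norm_num) (by norm_num))
      (G_num (r := 0) (by norm_num) (by norm_num) (by norm_num))
      (G_num (r := 0.1558) (by norm_num) (by norm_num) (by norm_num))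
    exact C.finish (γ := 0.618) (z0 := 0.679) (z1 := 0) (z2 := 0) (c01 := 0) (c02 := 0.321) (c12 := 0)
      (A0 := 0.419622) (A1 := 1) (A2 := 1.198378) (B0 := 2) (B1 := 2) (B2 := 2.396756)
      (by norm_num) (by linarith [gd_gt]) (by norm_num) (by norm_num) (by norm_num) (by norm_num) (by norm_num) (by norm_num)
      (by norm_num) (by norm_num) (by norm_num) (by norm_num) (by norm_num) (by norm_num)
      (le_trans (by linarith) (C.cmp0B (t := 0.74) (by norm_num) (by norm_num) (by norm_num) hx))
      (lt_of_lt_of_le (by linarith) (C.cmp1B (t := 0.74) (by norm_num) (by norm_num) (by norm_num) hx))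
      (C.f2B (ah := 0.54) (c2 := 0.045) (by norm_num) (by norm_num) hba h2 h6 (by norm_num)
        (by norm_num) (by norm_num))

theorem t2_1 (C : Cfg) (hba : C.b ≤ C.a) (h1 : 0.54 ≤ C.a) (h2 : C.a ≤ 0.595) (h6 : C.c ≤ 0.045) : False := by
  have hs := C.hsum
  have h5 := C.hc.le
  have h3 : 0.36 ≤ C.b := by linarith
  have h4 : C.b ≤ 0.46 := by linarith
  rcases le_total C.x10 0.805 with hx | hx
  ·
    have H0 : (2.0001 : ℝ) ≤ G 0.395238 0.870502 1.35226 C.b C.c := G_rect (m := 2.0001) (x0 := 0.36) (x1 := 0.46) (y0 := 0) (y1 := 0.045)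
      (by norm_num) (by norm_num) (by norm_num) (by norm_num) (by norm_num) (by norm_num) (by norm_num)
      h3 h4 h5 h6
      (G_num (r := 0) (by norm_num) (by norm_num) (by norm_num))
      (G_num (r := 0.1272) (by norm_num) (by norm_num) (by norm_num))
      (G_num (r := 0) (by norm_num) (by norm_num) (by norm_num))
      (G_num (r := 0.1438) (by norm_num) (by norm_num) (by norm_num))
    have H1 : (2.0001 : ℝ) ≤ G 0.870502 0.395238 1.35226 C.a C.c := G_rect (m := 2.0001) (x0 := 0.54) (x1 := 0.595) (y0 := 0) (y1 := 0.045)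
      (by norm_num) (by norm_num) (by norm_num) (by norm_num) (by norm_num) (by norm_num) (by norm_num)
      h1 h2 h5 h6
      (G_num (r := 0) (by norm_num) (by norm_num) (by norm_num))
      (G_num (r := 0.1558) (by norm_num) (by norm_num) (by norm_num))
      (G_num (r := 0) (by norm_num) (by norm_num) (by norm_num))
      (G_num (r := 0.1636) (by norm_num) (by norm_num) (by norm_num))
    exact C.finish (γ := 0.618) (z0 := 0.091) (z1 := 0.339) (z2 := 0) (c01 := 0) (c02 := 0.57) (c12 := 0)
      (A0 := 0.395238) (A1 := 0.870502) (A2 := 1.35226) (B0 := 2) (B1 := 2) (B2 := 2.70452)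
      (by norm_num) (by linarith [gd_gt]) (by norm_num) (by norm_num) (by norm_num) (by norm_num) (by norm_num) (by norm_num)
      (by norm_num) (by norm_num) (by norm_num) (by norm_num) (by norm_num) (by norm_num)
      (le_trans (le_trans (by norm_num) H0) (C.cmp0 (by norm_num) (by norm_num) (by norm_num)))
      (lt_of_lt_of_le (lt_of_lt_of_le (by norm_num) H1) (C.cmp1 (by norm_num) (by norm_num) (by norm_num)))
      (C.f2A (al := 0.54) (ah := 0.595) (c2 := 0.045) (t := 0.805) (by norm_num) (by norm_num) (by norm_num) hba h1 h2 h6 hx (by norm_num) (by norm_num)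
        (by norm_num) (by norm_num) (by norm_num))
  ·
    have H0 : (1.1951 : ℝ) ≤ G 0.467826 0 1.150174 C.b C.c := G_rect (m := 1.1951) (x0 := 0.36) (x1 := 0.46) (y0 := 0) (y1 := 0.045)
      (by norm_num) (by norm_num) (by norm_num) (by norm_num) (by norm_num) (by norm_num) (by norm_num)
      h3 h4 h5 h6
      (G_num (r := 0) (by norm_num) (by norm_num) (by norm_num))
      (G_num (r := 0.1272) (by norm_num) (by norm_num) (by norm_num))
      (G_num (r := 0) (by norm_num) (by norm_num) (by norm_num))
      (G_num (r := 0.1438) (by norm_num) (by norm_num) (by norm_num))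
    have H1 : (1.1951 : ℝ) ≤ G 0 0.467826 1.150174 C.a C.c := G_rect (m := 1.1951) (x0 := 0.54) (x1 := 0.595) (y0 := 0) (y1 := 0.045)
      (by norm_num) (by norm_num) (by norm_num) (by norm_num) (by norm_num) (by norm_num) (by norm_num)
      h1 h2 h5 h6
      (G_num (r := 0) (by norm_num) (by norm_num) (by norm_num))
      (G_num (r := 0.1558) (by norm_num) (by norm_num) (by norm_num))
      (G_num (r := 0) (by norm_num) (by norm_num) (by norm_num))
      (G_num (r := 0.1636) (by norm_num) (by norm_num) (by norm_num))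
    exact C.finish (γ := 0.618) (z0 := 0.757) (z1 := 0) (z2 := 0) (c01 := 0) (c02 := 0.243) (c12 := 0)
      (A0 := 0.467826) (A1 := 1) (A2 := 1.150174) (B0 := 2) (B1 := 2) (B2 := 2.300348)
      (by norm_num) (by linarith [gd_gt]) (by norm_num) (by norm_num) (by norm_num) (by norm_num) (by norm_num) (by norm_num)
      (by norm_num) (by norm_num) (by norm_num) (by norm_num) (by norm_num) (by norm_num)
      (le_trans (by linarith) (C.cmp0B (t := 0.805) (by norm_num) (by norm_num) (by norm_num) hx))
      (lt_of_lt_of_le (by linarith) (C.cmp1B (t := 0.805) (by norm_num) (by norm_num) (by norm_num) hx))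
      (C.f2B (ah := 0.595) (c2 := 0.045) (by norm_num) (by norm_num) hba h2 h6 (by norm_num)
        (by norm_num) (by norm_num))

theorem t2_2 (C : Cfg) (hba : C.b ≤ C.a) (h1 : 0.595 ≤ C.a) (h2 : C.a ≤ 0.6181) (h6 : C.c ≤ 0.045) : False := by
  have hs := C.hsum
  have h5 := C.hc.le
  have h3 : 0.3369 ≤ C.b := by linarith
  have h4 : C.b ≤ 0.405 := by linarith
  rcases le_total C.x10 0.85 with hx | hx
  ·
    have H0 : (2.0001 : ℝ) ≤ G 0.37167 0.932386 1.313944 C.b C.c := G_rect (m := 2.0001) (x0 := 0.3369) (x1 := 0.405) (y0 := 0) (y1 := 0.045)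
      (by norm_num) (by norm_num) (by norm_num) (by norm_num) (by norm_num) (by norm_num) (by norm_num)
      h3 h4 h5 h6
      (G_num (r := 0) (by norm_num) (by norm_num) (by norm_num))
      (G_num (r := 0.1231) (by norm_num) (by norm_num) (by norm_num))
      (G_num (r := 0) (by norm_num) (by norm_num) (by norm_num))
      (G_num (r := 0.135) (by norm_num) (by norm_num) (by norm_num))
    have H1 : (2.0001 : ℝ) ≤ G 0.932386 0.37167 1.313944 C.a C.c := G_rect (m := 2.0001) (x0 := 0.595) (x1 := 0.6181) (y0 := 0) (y1 := 0.045)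
      (by norm_num) (by norm_num) (by norm_num) (by norm_num) (by norm_num) (by norm_num) (by norm_num)
      h1 h2 h5 h6
      (G_num (r := 0) (by norm_num) (by norm_num) (by norm_num))
      (G_num (r := 0.1636) (by norm_num) (by norm_num) (by norm_num))
      (G_num (r := 0) (by norm_num) (by norm_num) (by norm_num))
      (G_num (r := 0.1667) (by norm_num) (by norm_num) (by norm_num))
    exact C.finish (γ := 0.618) (z0 := 0.315) (z1 := 0.177) (z2 := 0) (c01 := 0) (c02 := 0.508) (c12 := 0)
      (A0 := 0.37167) (A1 := 0.932386) (A2 := 1.313944) (B0 := 2) (B1 := 2) (B2 := 2.627888)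
      (by norm_num) (by linarith [gd_gt]) (by norm_num) (by norm_num) (by norm_num) (by norm_num) (by norm_num) (by norm_num)
      (by norm_num) (by norm_num) (by norm_num) (by norm_num) (by norm_num) (by norm_num)
      (le_trans (le_trans (by norm_num) H0) (C.cmp0 (by norm_num) (by norm_num) (by norm_num)))
      (lt_of_lt_of_le (lt_of_lt_of_le (by norm_num) H1) (C.cmp1 (by norm_num) (by norm_num) (by norm_num)))
      (C.f2A (al := 0.595) (ah := 0.6181) (c2 := 0.045) (t := 0.85) (by norm_num) (by norm_num) (by norm_num) hba h1 h2 h6 hx (by norm_num) (by norm_num)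
        (by norm_num) (by norm_num) (by norm_num))
  ·
    have H0 : (1.1501 : ℝ) ≤ G 0.491928 0 1.126072 C.b C.c := G_rect (m := 1.1501) (x0 := 0.3369) (x1 := 0.405) (y0 := 0) (y1 := 0.045)
      (by norm_num) (by norm_num) (by norm_num) (by norm_num) (by norm_num) (by norm_num) (by norm_num)
      h3 h4 h5 h6
      (G_num (r := 0) (by norm_num) (by norm_num) (by norm_num))
      (G_num (r := 0.1231) (by norm_num) (by norm_num) (by norm_num))
      (G_num (r := 0) (by norm_num) (by norm_num) (by norm_num))
      (G_num (r := 0.135) (by norm_num) (by norm_num) (by norm_num))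
    have H1 : (1.1501 : ℝ) ≤ G 0 0.491928 1.126072 C.a C.c := G_rect (m := 1.1501) (x0 := 0.595) (x1 := 0.6181) (y0 := 0) (y1 := 0.045)
      (by norm_num) (by norm_num) (by norm_num) (by norm_num) (by norm_num) (by norm_num) (by norm_num)
      h1 h2 h5 h6
      (G_num (r := 0) (by norm_num) (by norm_num) (by norm_num))
      (G_num (r := 0.1636) (by norm_num) (by norm_num) (by norm_num))
      (G_num (r := 0) (by norm_num) (by norm_num) (by norm_num))
      (G_num (r := 0.1667) (by norm_num) (by norm_num) (by norm_num))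
    exact C.finish (γ := 0.618) (z0 := 0.796) (z1 := 0) (z2 := 0) (c01 := 0) (c02 := 0.204) (c12 := 0)
      (A0 := 0.491928) (A1 := 1) (A2 := 1.126072) (B0 := 2) (B1 := 2) (B2 := 2.252144)
      (by norm_num) (by linarith [gd_gt]) (by norm_num) (by norm_num) (by norm_num) (by norm_num) (by norm_num) (by norm_num)
      (by norm_num) (by norm_num) (by norm_num) (by norm_num) (by norm_num) (by norm_num)
      (le_trans (by linarith) (C.cmp0B (t := 0.85) (by norm_num) (by norm_num) (by norm_num) hx))
      (lt_of_lt_of_le (by linarith) (C.cmp1B (t := 0.85) (by norm_num) (by norm_num) (by norm_num) hx))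
      (C.f2B (ah := 0.6181) (c2 := 0.045) (by norm_num) (by norm_num) hba h2 h6 (by norm_num)
        (by norm_num) (by norm_num))

theorem t2 (C : Cfg) (hba : C.b ≤ C.a) (hg : C.a < gd) (h6 : C.c ≤ 0.045) : False := by
  have g2 := gd_lt
  have hs := C.hsum
  rcases le_total C.a 0.54 with k0 | k0
  · exact t2_0 C hba (by linarith) (by linarith) h6
  rcases le_total C.a 0.595 with k1 | k1
  · exact t2_1 C hba (by linarith) (by linarith) h6
  exact t2_2 C hba (by linarith) (by linarith) h6

end Pool.MP_653fdd_gt.Lib
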