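import Pool.Agent.Lib.MP_653fdd_gt.Cfg

set_option autoImplicit false

/-! The neighbourhood of the extremal point. -/

namespace Pool.MP_653fdd_gt.Lib

lemma t1_diag {A0 A1 A2 v vs : ℝ} (hv : vs ≤ v) (hv' : v < 1)
    (hvs : G A0 A1 A2 vs vs = 2) (hvs0 : 0 ≤ vs)
    (hA : (A1 + A2) ≤ 4 * A0 * ((1 - v) * (1 - vs))) : 2 ≤ G A0 A1 A2 v v := by
  have h1 : 0 < 1 - v := by linarith
  have h2 : 0 < 1 - vs := by linarith
  unfold G at *
  rw [Real.sqrt_mul_self hvs0] at hvs
  rw [Real.sqrt_mul_self (hvs0.trans hv)]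
  have e : v / (1 - v) - vs / (1 - vs) = (v - vs) / ((1 - v) * (1 - vs)) := by
    field_simp; ring
  have h3 : (A1 + A2) * ((v - vs) / ((1 - v) * (1 - vs))) ≤ 4 * A0 * (v - vs) := by
    rw [mul_div_assoc', div_le_iff₀ (mul_pos h1 h2)]
    nlinarith [mul_le_mul_of_nonneg_right hA (by linarith : 0 ≤ v - vs)]
  have e2 : (A1 + A2) * ((v - vs) / ((1 - v) * (1 - vs))) =
      A1 * (v / (1 - v)) + A2 * (v / (1 - v)) - (A1 * (vs / (1 - vs)) + A2 * (vs / (1 - vs))) := by
    rw [← e]; ring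
  rw [e2] at h3
  linarith

lemma t1_anti {A0 A1 A2 v d : ℝ} (hd0 : 0 ≤ d) (hd : d ≤ 0.02) (hv : 0.19 ≤ v) (hv2 : v < 0.2)
    (hvs : G A0 A1 A2 v v = 2) (hA0 : 0 ≤ A0)
    (hA : 5.28 * A0 * d * (1 - v) ^ 3 ≤
      (1 - 2 * v) * ((A2 - A1) * (1 - v) + (A1 + A2) * d)) :
    2 ≤ G A0 A1 A2 (v + d) (v - d) := by
  have h1 : 0 < 1 - v := by linarith
  have h2 : 0 < 1 - (v + d) := by linarith
  have h3 : 0 < 1 - (v - d) := by linarith
  have hs : v - 2.64 * d ^ 2 ≤ √((v + d) * (v - d)) := by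
    apply Real.le_sqrt_of_sq_le
    have hd2 : d ^ 2 ≤ 0.0004 := by nlinarith
    nlinarith [mul_nonneg (sq_nonneg d) (by nlinarith : (0:ℝ) ≤ 5.28 * v - 1 - 2.64 ^ 2 * d ^ 2)]
  unfold G at *
  rw [Real.sqrt_mul_self (by linarith)] at hvs
  have e1 : 1 - (v + d) / (1 - (v - d)) = (1 - 2 * v) / (1 - (v - d)) := by
    field_simp; ring
  have e2 : 1 - (v - d) / (1 - (v + d)) = (1 - 2 * v) / (1 - (v + d)) := by
    field_simp; ring
  have e3 : 1 - v / (1 - v) = (1 - 2 * v) / (1 - v) := by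
    field_simp; ring
  rw [e1, e2]
  rw [e3] at hvs
  -- key: A1/(1-c) + A2/(1-b) - (A1+A2)/(1-v) ≥ ...
  have key : 5.28 * A0 * d ^ 2 ≤ A1 * ((1 - 2 * v) / (1 - (v - d))) + A2 * ((1 - 2 * v) / (1 - (v + d)))
      - (A1 * ((1 - 2 * v) / (1 - v)) + A2 * ((1 - 2 * v) / (1 - v))) := by
    have e4 : A1 * ((1 - 2 * v) / (1 - (v - d))) + A2 * ((1 - 2 * v) / (1 - (v + d)))
      - (A1 * ((1 - 2 * v) / (1 - v)) + A2 * ((1 - 2 * v) / (1 - v))) =
      d * ((1 - 2 * v) * ((A2 - A1) * (1 - v) + (A1 + A2) * d)) /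
        ((1 - v) * ((1 - (v - d)) * (1 - (v + d)))) := by
      field_simp; ring
    rw [e4, le_div_iff₀ (by positivity)]
    have h5 : (1 - (v - d)) * (1 - (v + d)) ≤ (1 - v) ^ 2 := by nlinarith [sq_nonneg d]
    have h6 : 5.28 * A0 * d ^ 2 * ((1 - v) * ((1 - (v - d)) * (1 - (v + d)))) ≤
        5.28 * A0 * d ^ 2 * ((1 - v) * (1 - v) ^ 2) := by
      apply mul_le_mul_of_nonneg_left _ (by positivity)
      exact mul_le_mul_of_nonneg_left h5 h1.le
    have h7 := mul_le_mul_of_nonneg_left hA hd0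
    nlinarith
  have h8 := mul_le_mul_of_nonneg_left hs hA0
  nlinarith

lemma t1_center {A0 A1 A2 : ℝ} (h : A0 + A1 + A2 = 2 + gd) :
    G A0 A1 A2 ((1 - gd) / 2) ((1 - gd) / 2) = 2 := by
  have h0 : 0 ≤ (1 - gd) / 2 := by linarith [gd_lt]
  unfold G
  rw [Real.sqrt_mul_self h0]
  have h1 : 1 - (1 - gd) / 2 / (1 - (1 - gd) / 2) = 2 * (1 - gd) := by
    have : (1 - (1 - gd) / 2) ≠ 0 := by have := gd_pos; intro h; linarith
    have h2 : (1 + gd) ≠ 0 := by have := gd_pos; intro h; linarith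
    have e : 1 - (1 - gd) / 2 = (1 + gd) / 2 := by ring
    rw [e]
    field_simp
    nlinarith [gd_sq]
  rw [h1]
  have e : A0 * ((1 - gd) / 2 + (1 - gd) / 2 + 2 * ((1 - gd) / 2)) + A1 * (2 * (1 - gd)) +
      A2 * (2 * (1 - gd)) = 2 * (1 - gd) * (A0 + A1 + A2) := by ring
  rw [e, h]
  nlinarith [gd_sq]

theorem t1 (C : Cfg) (hbc : C.c ≤ C.b) (hg : C.a < gd)
    (hb : C.b ≤ 0.211) (hc : 0.171 ≤ C.c) : False := by
  have g1 := gd_gt
  have g2 := gd_lt
  have hs := C.hsum
  obtain ⟨A0, hA0⟩ : ∃ x, x = gd * 0.68 + 0.24 + 0.08 + 0 := ⟨_, rfl⟩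
  obtain ⟨A1, hA1⟩ : ∃ x, x = 0.68 + gd * 0.24 + 0.08 + (1 + gd) * 0 + 0 := ⟨_, rfl⟩
  obtain ⟨A2, hA2⟩ : ∃ x, x = 0.68 + 0.24 + gd * 0.08 + 0 + (1 + gd) * 0 + (1 + gd) * 0 := ⟨_, rfl⟩
  have bA0 : 0.74024 ≤ A0 := by rw [hA0]; linarith
  have bA0' : A0 ≤ 0.7403 := by rw [hA0]; linarith
  have bA1 : 0.90832 ≤ A1 := by rw [hA1]; linarith
  have bA1' : A1 ≤ 0.90833 := by rw [hA1]; linarith
  have bA2 : 0.96944 ≤ A2 := by rw [hA2]; linarith
  have bA2' : A2 ≤ 0.96945 := by rw [hA2]; linarith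
  have hcen : G A0 A1 A2 ((1 - gd) / 2) ((1 - gd) / 2) = 2 :=
    t1_center (by rw [hA0, hA1, hA2]; ring)
  -- monotonicity in the coefficients
  have mono : ∀ {x y : ℝ}, 0 ≤ x → 0 ≤ y → x + y < 1 →
      G 0.74024 0.90832 0.96944 x y ≤ G A0 A1 A2 x y := by
    intro x y hx hy hxy
    unfold G
    have h1 : 0 ≤ 1 - x / (1 - y) := by
      have : x / (1 - y) ≤ 1 := by rw [div_le_one (by linarith)]; linarith
      linarith
    have h2 : 0 ≤ 1 - y / (1 - x) := by
      have : y / (1 - x) ≤ 1 := by rw [div_le_one (by linarith)]; linarith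
      linarith
    have h3 : 0 ≤ x + y + 2 * √(x * y) := by positivity
    have := mul_le_mul_of_nonneg_right bA0 h3
    have := mul_le_mul_of_nonneg_right bA1 h1
    have := mul_le_mul_of_nonneg_right bA2 h2
    linarith
  have hright : ∀ y : ℝ, 0.171 ≤ y → y ≤ 0.211 → 2 ≤ G A0 A1 A2 0.211 y := by
    intro y hy hy'
    rw [G_swap]
    apply G_seg_left (x0 := 0.171) (x1 := 0.211) (by linarith) (by linarith) (by norm_num)
      (by norm_num) (by norm_num) hy hy'
    · rw [G_swap]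
      refine le_trans ?_ (mono (by norm_num) (by norm_num) (by norm_num))
      exact G_num (r := 0.18994) (by norm_num) (by norm_num) (by norm_num)
    · rw [G_swap]
      refine le_trans ?_ (mono (by norm_num) (by norm_num) (by norm_num))
      exact G_num (r := 0.211) (by norm_num) (by norm_num) (by norm_num)
  have H0 : 2 ≤ G A0 A1 A2 C.b C.c := by
    rcases le_total ((1 - gd) / 2) C.c with h | h
    · apply G_seg_left (x0 := C.c) (x1 := 0.211) (by linarith) (by linarith) C.hc.le C.hc.le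
        (by norm_num) hbc hb
      · apply t1_diag h (by linarith) hcen (by linarith)
        have h1 : 0.789 * 0.809 ≤ (1 - C.c) * (1 - (1 - gd) / 2) :=
          mul_le_mul (by linarith) (by linarith) (by norm_num) (by linarith)
        have h2 : (4 * 0.74024) * (0.789 * 0.809) ≤ 4 * A0 * ((1 - C.c) * (1 - (1 - gd) / 2)) :=
          mul_le_mul (by linarith) h1 (by norm_num) (by linarith)
        linarith
      · exact hright _ hc (by linarith)
    · apply G_seg_left (x0 := (1 - gd) - C.c) (x1 := 0.211) (by linarith) (by linarith)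
        (by linarith) C.hc.le (by norm_num) (by linarith) hb
      · have e1 : (1 - gd) - C.c = (1 - gd) / 2 + ((1 - gd) / 2 - C.c) := by ring
        have e2 : C.c = (1 - gd) / 2 - ((1 - gd) / 2 - C.c) := by ring
        rw [e1]
        nth_rewrite 2 [e2]
        have hd1 : 0 ≤ (1 - gd) / 2 - C.c := by linarith
        have hd2 : (1 - gd) / 2 - C.c ≤ 0.02 := by linarith
        apply t1_anti hd1 hd2 (by linarith) (by linarith) hcen (by linarith)
        have e3 : 1 - 2 * ((1 - gd) / 2) = gd := by ring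
        have e4 : 1 - (1 - gd) / 2 = (1 + gd) / 2 := by ring
        rw [e3, e4]
        have h3 : ((1 + gd) / 2) ^ 3 ≤ 0.53 := by
          have : (1 + gd) / 2 ≤ 0.80902 := by linarith
          have h0 : 0 ≤ (1 + gd) / 2 := by linarith
          calc ((1 + gd) / 2) ^ 3 ≤ 0.80902 ^ 3 := by gcongr
            _ ≤ 0.53 := by norm_num
        set d := (1 - gd) / 2 - C.c with hd
        have h4 : 5.28 * A0 * d * ((1 + gd) / 2) ^ 3 ≤ 5.28 * 0.7403 * d * 0.53 := by
          gcongr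
        have h5 : 0.0488 + 1.877 * d ≤ (A2 - A1) * ((1 + gd) / 2) + (A1 + A2) * d := by
          have h6 : 0.0611 * 0.809 ≤ (A2 - A1) * ((1 + gd) / 2) :=
            mul_le_mul (by linarith) (by linarith) (by norm_num) (by linarith)
          have h7 : 1.877 * d ≤ (A1 + A2) * d := mul_le_mul_of_nonneg_right (by linarith) hd1
          linarith
        have h6 : 0.618 * (0.0488 + 1.877 * d) ≤ gd * ((A2 - A1) * ((1 + gd) / 2) + (A1 + A2) * d) := by
          apply mul_le_mul (by linarith) h5 (by linarith) (by linarith)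
        linarith
      · exact hright _ hc (by linarith)
  have H1 : 2.0001 ≤ G 0.90832 0.74024 0.96944 C.a C.c := by
    apply G_rect (x0 := 0.578) (x1 := 0.6181) (y0 := 0.171) (y1 := 0.211)
      (by norm_num) (by norm_num) (by norm_num) (by norm_num) (by norm_num) (by norm_num)
      (by norm_num) (by linarith) (by linarith) hc (by linarith)
    · exact G_num (r := 0.3143) (by norm_num) (by norm_num) (by norm_num)
    · exact G_num (r := 0.3492) (by norm_num) (by norm_num) (by norm_num)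
    · exact G_num (r := 0.3251) (by norm_num) (by norm_num) (by norm_num)
    · exact G_num (r := 0.3611) (by norm_num) (by norm_num) (by norm_num)
  have H2 : 2.0001 ≤ G 0.96944 0.74024 0.90832 C.a C.b := by
    apply G_rect (x0 := 0.578) (x1 := 0.6181) (y0 := 0.19) (y1 := 0.211)
      (by norm_num) (by norm_num) (by norm_num) (by norm_num) (by norm_num) (by norm_num)
      (by norm_num) (by linarith) (by linarith) (by linarith) hb
    · exact G_num (r := 0.3313) (by norm_num) (by norm_num) (by norm_num)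
    · exact G_num (r := 0.3492) (by norm_num) (by norm_num) (by norm_num)
    · exact G_num (r := 0.3426) (by norm_num) (by norm_num) (by norm_num)
    · exact G_num (r := 0.3611) (by norm_num) (by norm_num) (by norm_num)
  have x1 := C.x01_pos
  have x2 := C.x02_pos
  have x3 := C.x10_pos
  have x4 := C.x12_pos
  have x5 := C.x20_pos
  have x6 := C.x21_pos
  refine C.finish (γ := gd) (z0 := 0.68) (z1 := 0.24) (z2 := 0.08) (c01 := 0) (c02 := 0) (c12 := 0)
    (A0 := A0) (A1 := A1) (A2 := A2) (B0 := 2) (B1 := 2) (B2 := 2)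
    gd_pos.le le_rfl (by norm_num) (by norm_num) (by norm_num) le_rfl le_rfl le_rfl
    hA0 hA1 hA2 (by norm_num) (by norm_num) (by norm_num) ?_ ?_ ?_
  · exact H0.trans (C.cmp0 (by linarith) (by linarith) (by linarith))
  · have h := C.cmp1 (A0 := 0.74024) (A1 := 0.90832) (A2 := 0.96944) (by norm_num) (by norm_num)
      (by norm_num)
    have := mul_le_mul_of_nonneg_right bA1 (by linarith : 0 ≤ C.x10 + C.x12)
    have := mul_le_mul_of_nonneg_right bA0 x1.le
    have := mul_le_mul_of_nonneg_right bA2 x6.le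
    linarith
  · have h := C.cmp2 (A0 := 0.74024) (A1 := 0.90832) (A2 := 0.96944) (by norm_num) (by norm_num)
      (by norm_num)
    have := mul_le_mul_of_nonneg_right bA2 (by linarith : 0 ≤ C.x20 + C.x21)
    have := mul_le_mul_of_nonneg_right bA0 x2.le
    have := mul_le_mul_of_nonneg_right bA1 x4.le
    linarith

end Pool.MP_653fdd_gt.Lib
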