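import Pool.Agent.Lib.MP_653fdd_gt.Cells1
import Pool.Agent.Lib.MP_653fdd_gt.Cells2
import Pool.Agent.Lib.MP_653fdd_gt.Cells3
import Pool.Agent.Lib.MP_653fdd_gt.TightOne
import Pool.Agent.Lib.MP_653fdd_gt.Strip

set_option autoImplicit false

/-! The decision tree for sorted configurations. -/

namespace Pool.MP_653fdd_gt.Lib

theorem main_region (C : Cfg) (hs1 : C.b ≤ C.a) (hs2 : C.c ≤ C.b) (hg : C.a < gd)
    (hc : 0.045 ≤ C.c) : False := by
  have hs := C.hsum
  have g1 := gd_gt
  have g2 := gd_lt
  have ha := C.ha
  have hb' := C.hb
  rcases le_total C.b 0.345 with h1 | h1
  · skip
    rcases le_total C.c 0.189 with h2 | h2
    · skip
      rcases le_total C.b 0.267 with h3 | h3
      · skip
        rcases le_total C.c 0.117 with h4 | h4
        · skip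
          exact leaf0 C (by linarith) (by linarith) (by linarith) (by linarith) (by linarith) (by linarith)
        · skip
          rcases le_total C.b 0.228 with h5 | h5
          · skip
            rcases le_total C.b 0.211 with h6 | h6
            · skip
              rcases le_total C.c 0.153 with h7 | h7
              · skip
                exfalso; linarith
              · skip
                rcases le_total C.c 0.171 with h8 | h8
                · skip
                  exact leaf1 C (by linarith) (by linarith) (by linarith) (by linarith) (by linarith) (by linarith)
                · skip
                  exact t1 C hs2 hg (by linarith) (by linarith)
            · skip
              rcases le_total C.c 0.153 with h7 | h7
              · skip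
                exfalso; linarith
              · skip
                rcases le_total C.c 0.171 with h8 | h8
                · skip
                  exact leaf2 C (by linarith) (by linarith) (by linarith) (by linarith) (by linarith) (by linarith)
                · skip
                  exact leaf3 C (by linarith) (by linarith) (by linarith) (by linarith) (by linarith) (by linarith)
          · skip
            rcases le_total C.c 0.153 with h6 | h6
            · skip
              exact leaf4 C (by linarith) (by linarith) (by linarith) (by linarith) (by linarith) (by linarith)
            · skip
              rcases le_total C.b 0.247 with h7 | h7
              · skip
                rcases le_total C.c 0.171 with h8 | h8
                · skip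
                  exact leaf5 C (by linarith) (by linarith) (by linarith) (by linarith) (by linarith) (by linarith)
                · skip
                  exact leaf6 C (by linarith) (by linarith) (by linarith) (by linarith) (by linarith) (by linarith)
              · skip
                exact leaf7 C (by linarith) (by linarith) (by linarith) (by linarith) (by linarith) (by linarith)
      · skip
        rcases le_total C.c 0.117 with h4 | h4
        · skip
          rcases le_total C.b 0.306 with h5 | h5
          · skip
            exact leaf8 C (by linarith) (by linarith) (by linarith) (by linarith) (by linarith) (by linarith)
          · skip
            rcases le_total C.c 0.081 with h6 | h6
            · skip
              rcases le_total C.b 0.325 with h7 | h7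
              · skip
                exact leaf9 C (by linarith) (by linarith) (by linarith) (by linarith) (by linarith) (by linarith)
              · skip
                rcases le_total C.c 0.063 with h8 | h8
                · skip
                  rcases le_total C.b 0.335 with h9 | h9
                  · skip
                    exact leaf10 C (by linarith) (by linarith) (by linarith) (by linarith) (by linarith) (by linarith)
                  · skip
                    rcases le_total C.c 0.054 with h10 | h10
                    · skip
                      rcases le_total C.b 0.34 with h11 | h11
                      · skip
                        exact leaf11 C (by linarith) (by linarith) (by linarith) (by linarith) (by linarith) (by linarith)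
                      · skip
                        rcases le_total C.c 0.049 with h12 | h12
                        · skip
                          exact leaf12 C (by linarith) (by linarith) (by linarith) (by linarith) (by linarith) (by linarith)
                        · skip
                          exact leaf13 C (by linarith) (by linarith) (by linarith) (by linarith) (by linarith) (by linarith)
                    · skip
                      rcases le_total C.b 0.34 with h11 | h11
                      · skip
                        exact leaf14 C (by linarith) (by linarith) (by linarith) (by linarith) (by linarith) (by linarith)
                      · skip
                        exact leaf15 C (by linarith) (by linarith) (by linarith) (by linarith) (by linarith) (by linarith)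
                · skip
                  exact leaf16 C (by linarith) (by linarith) (by linarith) (by linarith) (by linarith) (by linarith)
            · skip
              exact leaf17 C (by linarith) (by linarith) (by linarith) (by linarith) (by linarith) (by linarith)
        · skip
          rcases le_total C.b 0.306 with h5 | h5
          · skip
            rcases le_total C.c 0.153 with h6 | h6
            · skip
              exact leaf18 C (by linarith) (by linarith) (by linarith) (by linarith) (by linarith) (by linarith)
            · skip
              exact leaf19 C (by linarith) (by linarith) (by linarith) (by linarith) (by linarith) (by linarith)
          · skip
            rcases le_total C.c 0.153 with h6 | h6
            · skip
              exact leaf20 C (by linarith) (by linarith) (by linarith) (by linarith) (by linarith) (by linarith)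
            · skip
              exact leaf21 C (by linarith) (by linarith) (by linarith) (by linarith) (by linarith) (by linarith)
    · skip
      rcases le_total C.b 0.267 with h3 | h3
      · skip
        rcases le_total C.c 0.261 with h4 | h4
        · skip
          rcases le_total C.b 0.228 with h5 | h5
          · skip
            rcases le_total C.b 0.211 with h6 | h6
            · skip
              exact t1 C hs2 hg (by linarith) (by linarith)
            · skip
              exact leaf22 C (by linarith) (by linarith) (by linarith) (by linarith) (by linarith) (by linarith)
          · skip
            rcases le_total C.c 0.225 with h6 | h6
            · skip
              exact leaf23 C (by linarith) (by linarith) (by linarith) (by linarith) (by linarith) (by linarith)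
            · skip
              exact leaf24 C (by linarith) (by linarith) (by linarith) (by linarith) (by linarith) (by linarith)
        · skip
          exact leaf25 C (by linarith) (by linarith) (by linarith) (by linarith) (by linarith) (by linarith)
      · skip
        rcases le_total C.c 0.261 with h4 | h4
        · skip
          rcases le_total C.b 0.306 with h5 | h5
          · skip
            exact leaf26 C (by linarith) (by linarith) (by linarith) (by linarith) (by linarith) (by linarith)
          · skip
            exact leaf27 C (by linarith) (by linarith) (by linarith) (by linarith) (by linarith) (by linarith)
        · skip
          rcases le_total C.b 0.306 with h5 | h5
          · skip
            exact leaf28 C (by linarith) (by linarith) (by linarith) (by linarith) (by linarith) (by linarith)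
          · skip
            exact leaf29 C (by linarith) (by linarith) (by linarith) (by linarith) (by linarith) (by linarith)
  · skip
    rcases le_total C.c 0.189 with h2 | h2
    · skip
      rcases le_total C.b 0.422 with h3 | h3
      · skip
        rcases le_total C.c 0.117 with h4 | h4
        · skip
          rcases le_total C.b 0.383 with h5 | h5
          · skip
            rcases le_total C.c 0.081 with h6 | h6
            · skip
              rcases le_total C.b 0.364 with h7 | h7
              · skip
                rcases le_total C.c 0.063 with h8 | h8
                · skip
                  rcases le_total C.b 0.354 with h9 | h9
                  · skip
                    rcases le_total C.c 0.054 with h10 | h10
                    · skip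
                      rcases le_total C.c 0.049 with h11 | h11
                      · skip
                        rcases le_total C.b 0.349 with h12 | h12
                        · skip
                          rcases le_total C.c 0.047 with h13 | h13
                          · skip
                            exact leaf30 C (by linarith) (by linarith) (by linarith) (by linarith) (by linarith) (by linarith)
                          · skip
                            exact leaf31 C (by linarith) (by linarith) (by linarith) (by linarith) (by linarith) (by linarith)
                        · skip
                          exact leaf32 C (by linarith) (by linarith) (by linarith) (by linarith) (by linarith) (by linarith)
                      · skip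
                        rcases le_total C.b 0.349 with h12 | h12
                        · skip
                          exact leaf33 C (by linarith) (by linarith) (by linarith) (by linarith) (by linarith) (by linarith)
                        · skip
                          exact leaf34 C (by linarith) (by linarith) (by linarith) (by linarith) (by linarith) (by linarith)
                    · skip
                      exact leaf35 C (by linarith) (by linarith) (by linarith) (by linarith) (by linarith) (by linarith)
                  · skip
                    rcases le_total C.c 0.054 with h10 | h10
                    · skip
                      rcases le_total C.b 0.359 with h11 | h11
                      · skip
                        rcases le_total C.c 0.049 with h12 | h12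
                        · skip
                          rcases le_total C.b 0.356 with h13 | h13
                          · skip
                            exact leaf36 C (by linarith) (by linarith) (by linarith) (by linarith) (by linarith) (by linarith)
                          · skip
                            rcases le_total C.c 0.047 with h14 | h14
                            · skip
                              exact leaf37 C (by linarith) (by linarith) (by linarith) (by linarith) (by linarith) (by linarith)
                            · skip
                              exact leaf38 C (by linarith) (by linarith) (by linarith) (by linarith) (by linarith) (by linarith)
                        · skip
                          exact leaf39 C (by linarith) (by linarith) (by linarith) (by linarith) (by linarith) (by linarith)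
                      · skip
                        exact leaf40 C (by linarith) (by linarith) (by linarith) (by linarith) (by linarith) (by linarith)
                    · skip
                      exact leaf41 C (by linarith) (by linarith) (by linarith) (by linarith) (by linarith) (by linarith)
                · skip
                  exact leaf42 C (by linarith) (by linarith) (by linarith) (by linarith) (by linarith) (by linarith)
              · skip
                rcases le_total C.c 0.063 with h8 | h8
                · skip
                  rcases le_total C.b 0.373 with h9 | h9
                  · skip
                    rcases le_total C.c 0.054 with h10 | h10
                    · skip
                      rcases le_total C.c 0.049 with h11 | h11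
                      · skip
                        rcases le_total C.b 0.368 with h12 | h12
                        · skip
                          exact leaf43 C (by linarith) (by linarith) (by linarith) (by linarith) (by linarith) (by linarith)
                        · skip
                          exact leaf44 C (by linarith) (by linarith) (by linarith) (by linarith) (by linarith) (by linarith)
                      · skip
                        exact leaf45 C (by linarith) (by linarith) (by linarith) (by linarith) (by linarith) (by linarith)
                    · skip
                      exact leaf46 C (by linarith) (by linarith) (by linarith) (by linarith) (by linarith) (by linarith)
                  · skip
                    exact leaf47 C (by linarith) (by linarith) (by linarith) (by linarith) (by linarith) (by linarith)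
                · skip
                  exact leaf48 C (by linarith) (by linarith) (by linarith) (by linarith) (by linarith) (by linarith)
            · skip
              exact leaf49 C (by linarith) (by linarith) (by linarith) (by linarith) (by linarith) (by linarith)
          · skip
            rcases le_total C.c 0.081 with h6 | h6
            · skip
              rcases le_total C.b 0.402 with h7 | h7
              · skip
                exact leaf50 C (by linarith) (by linarith) (by linarith) (by linarith) (by linarith) (by linarith)
              · skip
                exact leaf51 C (by linarith) (by linarith) (by linarith) (by linarith) (by linarith) (by linarith)
            · skip
              exact leaf52 C (by linarith) (by linarith) (by linarith) (by linarith) (by linarith) (by linarith)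
        · skip
          rcases le_total C.b 0.383 with h5 | h5
          · skip
            exact leaf53 C (by linarith) (by linarith) (by linarith) (by linarith) (by linarith) (by linarith)
          · skip
            exact leaf54 C (by linarith) (by linarith) (by linarith) (by linarith) (by linarith) (by linarith)
      · skip
        rcases le_total C.c 0.117 with h4 | h4
        · skip
          rcases le_total C.b 0.461 with h5 | h5
          · skip
            exact leaf55 C (by linarith) (by linarith) (by linarith) (by linarith) (by linarith) (by linarith)
          · skip
            exact leaf56 C (by linarith) (by linarith) (by linarith) (by linarith) (by linarith) (by linarith)
        · skip
          exact leaf57 C (by linarith) (by linarith) (by linarith) (by linarith) (by linarith) (by linarith)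
    · skip
      rcases le_total C.b 0.422 with h3 | h3
      · skip
        rcases le_total C.c 0.261 with h4 | h4
        · skip
          rcases le_total C.b 0.383 with h5 | h5
          · skip
            exact leaf58 C (by linarith) (by linarith) (by linarith) (by linarith) (by linarith) (by linarith)
          · skip
            exact leaf59 C (by linarith) (by linarith) (by linarith) (by linarith) (by linarith) (by linarith)
        · skip
          exact leaf60 C (by linarith) (by linarith) (by linarith) (by linarith) (by linarith) (by linarith)
      · skip
        exfalso; linarith

theorem sorted_false (C : Cfg) (hs1 : C.b ≤ C.a) (hs2 : C.c ≤ C.b) (hg : C.a < gd) : False := by
  rcases le_total C.c 0.045 with h | h
  · exact t2 C hs1 hg h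
  · exact main_region C hs1 hs2 hg h

theorem cfg_false (C : Cfg) (ha : C.a < gd) (hb : C.b < gd) (hc : C.c < gd) : False := by
  rcases le_total C.b C.a with h1 | h1
  · rcases le_total C.c C.b with h2 | h2
    · exact sorted_false C h1 h2 ha
    · rcases le_total C.c C.a with h3 | h3
      · exact sorted_false C.swap12 h3 h2 ha
      · exact sorted_false C.swap12.swap01 h3 h1 hc
  · rcases le_total C.c C.a with h2 | h2
    · exact sorted_false C.swap01 h1 h2 hb
    · rcases le_total C.c C.b with h3 | h3
      · exact sorted_false C.swap01.swap12 h3 h2 hb
      · exact sorted_false C.swap01.swap12.swap01 h3 h1 hc

end Pool.MP_653fdd_gt.Lib
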