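import Pool.Agent.Lib.MP_653fdd_gt.Improper
import Pool.Agent.Lib.MP_653fdd_gt.Tree

set_option autoImplicit false

/-! The case where the outer lines form a triangle. -/

namespace Pool.MP_653fdd_gt.Lib
namespace Hex

variable {E : Type*} [NormedAddCommGroup E] [NormedSpace ℝ E] (H : Hex E)

/-- the determinant-like quantity attached to index 0 -/
def l0 : ℝ := H.A0 * H.A2 + H.B0 * H.B1 - H.A0 * H.B0
/-- the determinant-like quantity attached to index 1 -/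
def l1 : ℝ := H.A1 * H.A0 + H.B1 * H.B2 - H.A1 * H.B1
/-- the determinant-like quantity attached to index 2 -/
def l2 : ℝ := H.A2 * H.A1 + H.B2 * H.B0 - H.A2 * H.B2

theorem bigE (h0 : 0 < H.l0) (h1 : 0 < H.l1) (h2 : 0 < H.l2)
    (hu : gd * (H.l0 + H.l1 + H.l2) ≤ H.l0) : False := by
  have hA0 := H.hA0
  have hA1 := H.hA1
  have hA2 := H.hA2
  have hB0 := H.hB0
  have hB1 := H.hB1
  have hB2 := H.hB2
  have hk0 := H.hk
  have hE := H.e0
  have hc1 := H.rot.chord0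
  have hc2 := H.rot.rot.chord0
  have cB0 := H.cB0
  have cB1 := H.cB1
  have cB2 := H.cB2
  have cA0 := H.cA0
  have cA1 := H.cA1
  have cA2 := H.cA2
  have hu0 := H.hu0 h0
  have hk1 := H.k0
  have hb0 := H.hb0
  have hli := H.hli
  have e0 : H.l0 = H.A0 * H.A2 + H.B0 * H.B1 - H.A0 * H.B0 := rfl
  have e1 : H.l1 = H.A1 * H.A0 + H.B1 * H.B2 - H.A1 * H.B1 := rfl
  have e2 : H.l2 = H.A2 * H.A1 + H.B2 * H.B0 - H.A2 * H.B2 := rfl
  rw [← e0] at hu0
  simp only [rot] at hc1 hc2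
  generalize H.l0 = l0 at *
  generalize H.l1 = l1 at *
  generalize H.l2 = l2 at *
  generalize H.A0 = A0 at *
  generalize H.A1 = A1 at *
  generalize H.A2 = A2 at *
  generalize H.B0 = B0 at *
  generalize H.B1 = B1 at *
  generalize H.B2 = B2 at *
  generalize H.k = k at *
  generalize H.a0 = a0 at *
  generalize H.b0 = b0 at *
  generalize H.E0 = E0 at *
  generalize H.E1 = E1 at *
  generalize H.E2 = E2 at *
  obtain ⟨Λ, hΛ⟩ : ∃ x, x = l0 + l1 + l2 := ⟨_, rfl⟩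
  have pΛ : 0 < Λ := by rw [hΛ]; linarith
  rw [← hΛ] at hu
  have hδ0p : 0 < ‖(1 / A1) • E1 + (1 / B2) • E2‖ := by
    rw [norm_pos_iff]
    intro h
    obtain ⟨h3, h4⟩ := hli _ _ h
    have : 0 < 1 / A1 := by positivity
    linarith
  obtain ⟨δ0, hδ0⟩ : ∃ x, x = ‖(1 / A1) • E1 + (1 / B2) • E2‖ := ⟨_, rfl⟩
  obtain ⟨δ1, hδ1⟩ : ∃ x, x = ‖(1 / A2) • E2 + (1 / B0) • E0‖ := ⟨_, rfl⟩
  obtain ⟨δ2, hδ2⟩ : ∃ x, x = ‖(1 / A0) • E0 + (1 / B1) • E1‖ := ⟨_, rfl⟩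
  rw [← hδ0] at hδ0p hb0
  rw [← hδ1, ← hδ2] at hu0
  have I1 : (A0 * B1 / l1) * δ2 ≤ (1 / A1) * ‖E1‖ + (B1 * B2 / l1) * δ0 := by
    have f1 : (A0 * B1 / l1) * δ2 = ‖(A0 * B1 / l1) • ((1 / A0) • E0 + (1 / B1) • E1)‖ := by
      rw [norm_smul, Real.norm_of_nonneg (by positivity), ← hδ2]
    have f2 : (A0 * B1 / l1) • ((1 / A0) • E0 + (1 / B1) • E1) =
        (1 / A1) • E1 - (B1 * B2 / l1) • ((1 / A1) • E1 + (1 / B2) • E2) := by
      rw [hE]
      match_scalars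
      · field_simp
        rw [e1]
        ring
      · field_simp
    rw [f1, f2]
    refine (norm_sub_le _ _).trans ?_
    rw [norm_smul, norm_smul, Real.norm_of_nonneg (by positivity),
      Real.norm_of_nonneg (by positivity), ← hδ0]
  have I2 : (A2 * B0 / l2) * δ1 ≤ (1 / B2) * ‖E2‖ + (A1 * A2 / l2) * δ0 := by
    have f1 : (A2 * B0 / l2) * δ1 = ‖(A2 * B0 / l2) • ((1 / A2) • E2 + (1 / B0) • E0)‖ := by
      rw [norm_smul, Real.norm_of_nonneg (by positivity), ← hδ1]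
    have f2 : (A2 * B0 / l2) • ((1 / A2) • E2 + (1 / B0) • E0) =
        (1 / B2) • E2 - (A1 * A2 / l2) • ((1 / A1) • E1 + (1 / B2) • E2) := by
      rw [hE]
      match_scalars
      · field_simp
        rw [e2]
        ring
      · field_simp
    rw [f1, f2]
    refine (norm_sub_le _ _).trans ?_
    rw [norm_smul, norm_smul, Real.norm_of_nonneg (by positivity),
      Real.norm_of_nonneg (by positivity), ← hδ0]
  -- the fractions
  have x10 : 0 ≤ (B0 + B1 - A2) * l1 / (Λ * B1) :=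
    div_nonneg (mul_nonneg (by linarith) h1.le) (by positivity)
  have x20 : 0 ≤ (A0 + A2 - B1) * l2 / (Λ * A2) :=
    div_nonneg (mul_nonneg (by linarith) h2.le) (by positivity)
  have J1 := mul_le_mul_of_nonneg_left I1 x10
  have J2 := mul_le_mul_of_nonneg_left I2 x20
  have t1 : (B0 + B1 - A2) * l1 / (Λ * B1) * ((A0 * B1 / l1) * δ2) =
      l0 / Λ * ((B0 + B1 - A2) * A0 / l0 * δ2) := by field_simp
  have t2 : (A0 + A2 - B1) * l2 / (Λ * A2) * ((A2 * B0 / l2) * δ1) =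
      l0 / Λ * ((A0 + A2 - B1) * B0 / l0 * δ1) := by field_simp
  rw [t1] at J1
  rw [t2] at J2
  have r1 : (B0 + B1 - A2) * l1 / (Λ * B1) * ((1 / A1) * ‖E1‖ + (B1 * B2 / l1) * δ0) =
      (B1 / (A1 + B1) - l0 / Λ) * ((1 / A1 + 1 / B1) * ‖E1‖) + (B0 + B1 - A2) * B2 / Λ * δ0 := by
    have : (B0 + B1 - A2) * l1 = Λ * B1 - l0 * (A1 + B1) := by
      rw [hΛ, e0, e1, e2]; ring
    have q1 : (B0 + B1 - A2) * l1 / (Λ * B1) * ((1 / A1) * ‖E1‖) =
        (B1 / (A1 + B1) - l0 / Λ) * ((1 / A1 + 1 / B1) * ‖E1‖) := by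
      rw [this]; field_simp; ring
    rw [mul_add, q1]
    congr 1
    field_simp
  have r2 : (A0 + A2 - B1) * l2 / (Λ * A2) * ((1 / B2) * ‖E2‖ + (A1 * A2 / l2) * δ0) =
      (A2 / (A2 + B2) - l0 / Λ) * ((1 / A2 + 1 / B2) * ‖E2‖) + (A0 + A2 - B1) * A1 / Λ * δ0 := by
    have : (A0 + A2 - B1) * l2 = Λ * A2 - l0 * (A2 + B2) := by
      rw [hΛ, e0, e1, e2]; ring
    have q1 : (A0 + A2 - B1) * l2 / (Λ * A2) * ((1 / B2) * ‖E2‖) =
        (A2 / (A2 + B2) - l0 / Λ) * ((1 / A2 + 1 / B2) * ‖E2‖) := by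
      rw [this]; field_simp; ring
    rw [mul_add, q1]
    congr 1
    field_simp
  rw [r1] at J1
  rw [r2] at J2
  have r3 : (B0 + B1 - A2) * B2 / Λ * δ0 + (A0 + A2 - B1) * A1 / Λ * δ0 = (1 - l0 / Λ) * δ0 := by
    have : (B0 + B1 - A2) * B2 + (A0 + A2 - B1) * A1 = Λ - l0 := by
      rw [hΛ, e0, e1, e2]; ring
    have q : (B0 + B1 - A2) * B2 / Λ * δ0 + (A0 + A2 - B1) * A1 / Λ * δ0 =
        ((B0 + B1 - A2) * B2 + (A0 + A2 - B1) * A1) / Λ * δ0 := by ring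
    rw [q, this]; field_simp
  have y1 : 0 ≤ B1 / (A1 + B1) - l0 / Λ := by
    have : (B0 + B1 - A2) * l1 = Λ * B1 - l0 * (A1 + B1) := by
      rw [hΛ, e0, e1, e2]; ring
    have q : B1 / (A1 + B1) - l0 / Λ = ((B0 + B1 - A2) * l1) / ((A1 + B1) * Λ) := by
      rw [this]; field_simp
    rw [q]; exact div_nonneg (mul_nonneg (by linarith) h1.le) (by positivity)
  have y2 : 0 ≤ A2 / (A2 + B2) - l0 / Λ := by
    have : (A0 + A2 - B1) * l2 = Λ * A2 - l0 * (A2 + B2) := by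
      rw [hΛ, e0, e1, e2]; ring
    have q : A2 / (A2 + B2) - l0 / Λ = ((A0 + A2 - B1) * l2) / ((A2 + B2) * Λ) := by
      rw [this]; field_simp
    rw [q]; exact div_nonneg (mul_nonneg (by linarith) h2.le) (by positivity)
  have z1 : B1 / (A1 + B1) ≤ 1 - l2 / Λ := by
    have : 0 ≤ (A1 + A2 - B0) * l1 := mul_nonneg (by linarith) h1.le
    have q : 1 - l2 / Λ - B1 / (A1 + B1) = ((A1 + A2 - B0) * l1) / ((A1 + B1) * Λ) := by
      have : (A1 + A2 - B0) * l1 = Λ * A1 - l2 * (A1 + B1) := by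
        rw [hΛ, e0, e1, e2]; ring
      rw [this]; field_simp; ring
    have : 0 ≤ 1 - l2 / Λ - B1 / (A1 + B1) := by rw [q]; positivity
    linarith
  have z2 : A2 / (A2 + B2) ≤ 1 - l1 / Λ := by
    have : 0 ≤ (B1 + B2 - A0) * l2 := mul_nonneg (by linarith) h2.le
    have q : 1 - l1 / Λ - A2 / (A2 + B2) = ((B1 + B2 - A0) * l2) / ((A2 + B2) * Λ) := by
      have : (B1 + B2 - A0) * l2 = Λ * B2 - l1 * (A2 + B2) := by
        rw [hΛ, e0, e1, e2]; ring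
      rw [this]; field_simp; ring
    have : 0 ≤ 1 - l1 / Λ - A2 / (A2 + B2) := by rw [q]; positivity
    linarith
  have usum : l1 / Λ + l2 / Λ = 1 - l0 / Λ := by
    rw [hΛ] at pΛ ⊢; field_simp; ring
  have hg := gd_gt
  have hgu : gd ≤ l0 / Λ := by rw [le_div_iff₀ pΛ]; exact hu
  have hgp := gd_pos
  -- the chord bounds
  have w1 : gd * ((B1 / (A1 + B1) - l0 / Λ) * ((1 / A1 + 1 / B1) * ‖E1‖)) ≤
      (B1 / (A1 + B1) - l0 / Λ) * k := by
    have := mul_le_mul_of_nonneg_left hc1 y1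
    linarith
  have w2 : gd * ((A2 / (A2 + B2) - l0 / Λ) * ((1 / A2 + 1 / B2) * ‖E2‖)) ≤
      (A2 / (A2 + B2) - l0 / Λ) * k := by
    have := mul_le_mul_of_nonneg_left hc2 y2
    linarith
  obtain ⟨u, hu'⟩ : ∃ x, x = l0 / Λ := ⟨_, rfl⟩
  rw [← hu'] at J1 J2 r3 y1 y2 usum hgu w1 w2
  have f1 : u * k ≤ u * ((B0 + B1 - A2) * A0 / l0 * δ2 + (A0 + A2 - B1) * B0 / l0 * δ1 - δ0) := by
    apply mul_le_mul_of_nonneg_left _ (by linarith)
    linarith
  have f2 : gd * (u * k) ≤ gd * ((1 - 2 * u) * δ0) +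
      (B1 / (A1 + B1) - u + (A2 / (A2 + B2) - u)) * k := by
    have := mul_le_mul_of_nonneg_left f1 hgp.le
    have := mul_le_mul_of_nonneg_left J1 hgp.le
    have := mul_le_mul_of_nonneg_left J2 hgp.le
    nlinarith
  have f3 : (B1 / (A1 + B1) - u + (A2 / (A2 + B2) - u)) * k ≤ (1 - u) * k := by
    apply mul_le_mul_of_nonneg_right _ hk0.le
    linarith
  have f4 : gd * ((1 - 2 * u) * δ0) < 0 := by
    have : (1 - 2 * u) * δ0 < 0 := mul_neg_of_neg_of_pos (by linarith) hδ0p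
    exact mul_neg_of_pos_of_neg hgp this
  have f5 : (1 - u) * k ≤ gd * (u * k) := by
    have : 1 - u ≤ gd * u := by nlinarith [gd_sq]
    nlinarith [mul_le_mul_of_nonneg_right this hk0.le]
  linarith

end Hex
end Pool.MP_653fdd_gt.Lib
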