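import Pool.Agent.Lib.MP_653fdd_gt.Cfg

set_option autoImplicit false

/-! Comparison lemmas for small third coordinate. -/

namespace Pool.MP_653fdd_gt.Lib
namespace Cfg

variable (C : Cfg)

lemma sum2 (hba : C.b ≤ C.a) : 2 - C.c / C.b ≤ C.x20 + C.x21 := by
  have hb := C.hb
  have ha := C.ha
  have h20 := C.x20_pos
  have h21 := C.x21_pos
  have i1 : C.a * (2 - C.x20) ≤ C.a / C.x20 := by
    rw [le_div_iff₀ h20]
    nlinarith [mul_nonneg ha.le (sq_nonneg (1 - C.x20))]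
  have i2 : C.b * (2 - C.x21) ≤ C.b / C.x21 := by
    rw [le_div_iff₀ h21]
    nlinarith [mul_nonneg hb.le (sq_nonneg (1 - C.x21))]
  have e := C.e2
  have hs := C.hsum
  have i3 : C.a * (1 - C.x20) + C.b * (1 - C.x21) ≤ C.c := by nlinarith
  have i4 : C.b * (1 - C.x20) ≤ C.a * (1 - C.x20) :=
    mul_le_mul_of_nonneg_right hba (by linarith [C.x20_le])
  have i5 : 2 - (C.x20 + C.x21) ≤ C.c / C.b := by
    rw [le_div_iff₀ hb]; nlinarith
  linarith

lemma l12A {t : ℝ} (hx : C.x10 ≤ t) (hat : C.a < t) : C.c * (t / (t - C.a)) ≤ C.x12 := by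
  have hp := C.x10_pos
  have ht : 0 < t := C.ha.trans hat
  have i1 : C.a / t ≤ C.a / C.x10 := div_le_div_of_nonneg_left C.ha.le hp hx
  have e := C.e1
  have i2 : C.c / C.x12 ≤ 1 - C.a / t := by linarith
  have e2 : 1 - C.a / t = (t - C.a) / t := by field_simp
  rw [e2, div_le_div_iff₀ C.x12_pos ht] at i2
  rw [mul_div_assoc', div_le_iff₀ (by linarith)]
  linarith

lemma f2A {A0 A1 A2 B2 al ah c2 t : ℝ} (hA0 : 0 ≤ A0) (hA1 : 0 ≤ A1) (hA2 : 0 ≤ A2)
    (hba : C.b ≤ C.a) (h1 : al ≤ C.a) (h2 : C.a ≤ ah) (h6 : C.c ≤ c2) (hx : C.x10 ≤ t)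
    (hal : 0 < 1 - ah - c2) (hat : ah < t) (hB : B2 = 2 * A2)
    (hm : A2 * (t - al) ^ 2 ≤ A1 * t * ((1 - ah - c2) * (1 - al - c2)))
    (hv : 0 < A0 / (1 - (1 - ah - c2)) + A1 * (t / (t - al)) - A2 / (1 - al - c2)) :
    B2 < A2 * (C.x20 + C.x21) + A0 * C.x02 + A1 * C.x12 := by
  have ha := C.ha
  have hb := C.hb
  have hc := C.hc
  have hs := C.hsum
  have s1 := mul_le_mul_of_nonneg_left (C.sum2 hba) hA2
  have s2 := mul_le_mul_of_nonneg_left C.l02 hA0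
  have s3 := mul_le_mul_of_nonneg_left (C.l12A hx (by linarith)) hA1
  have i1 : A0 / (1 - (1 - ah - c2)) ≤ A0 / (1 - C.b) := by
    apply div_le_div_of_nonneg_left hA0 (by linarith) (by linarith)
  have i2 : A2 / C.b ≤ A2 / (1 - C.a - c2) := by
    apply div_le_div_of_nonneg_left hA2 (by linarith) (by linarith)
  have p1 : 0 < t - C.a := by linarith
  have p2 : 0 < t - al := by linarith
  have p3 : 0 < 1 - C.a - c2 := by linarith
  have p4 : 0 < 1 - al - c2 := by linarith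
  have i3 : A2 / (1 - C.a - c2) - A2 / (1 - al - c2) ≤ A1 * (t / (t - C.a)) - A1 * (t / (t - al)) := by
    have e1 : A2 / (1 - C.a - c2) - A2 / (1 - al - c2) =
        (C.a - al) * (A2 / ((1 - C.a - c2) * (1 - al - c2))) := by
      field_simp; ring
    have e2 : A1 * (t / (t - C.a)) - A1 * (t / (t - al)) =
        (C.a - al) * (A1 * t / ((t - C.a) * (t - al))) := by
      field_simp; ring
    rw [e1, e2]
    apply mul_le_mul_of_nonneg_left _ (by linarith)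
    rw [div_le_div_iff₀ (mul_pos p3 p4) (mul_pos p1 p2)]
    have j1 : A2 * ((t - C.a) * (t - al)) ≤ A2 * (t - al) ^ 2 := by
      apply mul_le_mul_of_nonneg_left _ hA2
      nlinarith
    have j2 : A1 * t * ((1 - ah - c2) * (1 - al - c2)) ≤
        A1 * t * ((1 - C.a - c2) * (1 - al - c2)) := by
      apply mul_le_mul_of_nonneg_left _ (mul_nonneg hA1 (by linarith))
      apply mul_le_mul_of_nonneg_right _ p4.le
      linarith
    linarith
  have i4 : 0 < A0 / (1 - C.b) + A1 * (t / (t - C.a)) - A2 / C.b := by linarith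
  have i5 := mul_pos hc i4
  have e3 : C.c * (A0 / (1 - C.b) + A1 * (t / (t - C.a)) - A2 / C.b) =
      A0 * (C.c / (1 - C.b)) + A1 * (C.c * (t / (t - C.a))) - A2 * (C.c / C.b) := by ring
  rw [e3] at i5
  rw [hB]
  nlinarith

lemma f2B {A0 A1 A2 B2 ah c2 : ℝ} (hA0 : 0 ≤ A0) (hA1 : 0 ≤ A1)
    (hba : C.b ≤ C.a) (h2 : C.a ≤ ah) (h6 : C.c ≤ c2)
    (hal : 0 < 1 - ah - c2 ∧ A1 ≤ A2) (hB : B2 = 2 * A2)
    (hv : 0 < A0 / (1 - (1 - ah - c2)) + A1 / (1 - ah) - A2 / (1 - ah - c2)) :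
    B2 < A2 * (C.x20 + C.x21) + A0 * C.x02 + A1 * C.x12 := by
  obtain ⟨hal, hA12⟩ := hal
  have hA2 : 0 ≤ A2 := hA1.trans hA12
  have ha := C.ha
  have hb := C.hb
  have hc := C.hc
  have hs := C.hsum
  have s1 := mul_le_mul_of_nonneg_left (C.sum2 hba) hA2
  have s2 := mul_le_mul_of_nonneg_left C.l02 hA0
  have s3 := mul_le_mul_of_nonneg_left C.l12 hA1
  have i1 : A0 / (1 - (1 - ah - c2)) ≤ A0 / (1 - C.b) := by
    apply div_le_div_of_nonneg_left hA0 (by linarith) (by linarith)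
  have i2 : A2 / C.b ≤ A2 / (1 - C.a - c2) := by
    apply div_le_div_of_nonneg_left hA2 (by linarith) (by linarith)
  have hc2 : 0 ≤ c2 := by linarith
  have p1 : 0 < 1 - C.a := by linarith
  have p2 : 0 < 1 - ah := by linarith
  have p3 : 0 < 1 - C.a - c2 := by linarith
  have i3 : A1 / (1 - ah) - A1 / (1 - C.a) ≤ A2 / (1 - ah - c2) - A2 / (1 - C.a - c2) := by
    have e1 : A1 / (1 - ah) - A1 / (1 - C.a) = (ah - C.a) * (A1 / ((1 - ah) * (1 - C.a))) := by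
      field_simp; ring
    have e2 : A2 / (1 - ah - c2) - A2 / (1 - C.a - c2) =
        (ah - C.a) * (A2 / ((1 - ah - c2) * (1 - C.a - c2))) := by
      field_simp; ring
    rw [e1, e2]
    apply mul_le_mul_of_nonneg_left _ (by linarith)
    apply div_le_div₀ hA2 hA12 (mul_pos hal p3)
    apply mul_le_mul (by linarith) (by linarith) p3.le p2.le
  have i4 : 0 < A0 / (1 - C.b) + A1 / (1 - C.a) - A2 / C.b := by linarith
  have i5 := mul_pos hc i4
  have e3 : C.c * (A0 / (1 - C.b) + A1 / (1 - C.a) - A2 / C.b) =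
      A0 * (C.c / (1 - C.b)) + A1 * (C.c / (1 - C.a)) - A2 * (C.c / C.b) := by ring
  rw [e3] at i5
  rw [hB]
  nlinarith

lemma cmp0B {A0 A1 A2 t : ℝ} (h0 : 0 ≤ A0) (h1 : 0 ≤ A1) (h2 : 0 ≤ A2) (hx : t ≤ C.x10) :
    G A0 0 A2 C.b C.c + A1 * t ≤ A0 * (C.x01 + C.x02) + A1 * C.x10 + A2 * C.x20 := by
  have h := C.cmp0 (A0 := A0) (A1 := 0) (A2 := A2) h0 le_rfl h2
  have := mul_le_mul_of_nonneg_left hx h1
  linarith

lemma cmp1B {A0 A1 A2 t : ℝ} (h0 : 0 ≤ A0) (h1 : 0 ≤ A1) (h2 : 0 ≤ A2) (hx : t ≤ C.x10) :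
    G 0 A0 A2 C.a C.c + A1 * t ≤ A1 * (C.x10 + C.x12) + A0 * C.x01 + A2 * C.x21 := by
  have h := C.cmp1 (A0 := A0) (A1 := 0) (A2 := A2) h0 le_rfl h2
  have := mul_le_mul_of_nonneg_left hx h1
  have := mul_nonneg h1 C.x12_pos.le
  linarith

end Cfg
end Pool.MP_653fdd_gt.Lib
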